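import Pool.Agent.Y226.ZG.Glob3

/-!
# The theorem in elementary terms
-/

set_option autoImplicit false
set_option linter.unusedSectionVars false

open UpperHalfPlane H294ZP Polynomial

namespace Pool.Agent.Y226.ZG

open Pool.Agent.Y226

/-- a polynomial in two variables from its coefficients -/
noncomputable def mkG {K : Type*} [Field K] (a b : ℕ) (g : ℕ → ℕ → K) : K[X][X] :=
  ∑ v ∈ Finset.range (b + 1), C (∑ u ∈ Finset.range (a + 1), C (g u v) * X ^ u) * X ^ v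

theorem mkG_coeff {K : Type*} [Field K] (a b : ℕ) (g : ℕ → ℕ → K) (v : ℕ) :
    (mkG a b g).coeff v = if v ∈ Finset.range (b + 1) then
      ∑ u ∈ Finset.range (a + 1), C (g u v) * X ^ u else 0 := by
  unfold mkG
  rw [finset_sum_coeff]
  simp only [coeff_C_mul, coeff_X_pow, mul_ite, mul_one, mul_zero]
  rw [Finset.sum_ite_eq]

theorem cf_mkG {K : Type*} [Field K] (a b : ℕ) (g : ℕ → ℕ → K) {u v : ℕ} (hu : u ≤ a)
    (hv : v ≤ b) : cf (mkG a b g) (u, v) = g u v := by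
  unfold cf
  rw [mkG_coeff, if_pos (Finset.mem_range.2 (by simp only; omega)), finset_sum_coeff]
  simp only [coeff_C_mul, coeff_X_pow, mul_ite, mul_one, mul_zero]
  rw [Finset.sum_ite_eq, if_pos (Finset.mem_range.2 (by omega))]

theorem mkG_cor {K : Type*} [Field K] {a b : ℕ} {g : ℕ → ℕ → K} (h1 : g 0 0 ≠ 0) (h2 : g a 0 ≠ 0)
    (h3 : g 0 b ≠ 0) (h4 : g a b ≠ 0) : Cor4 a b (mkG a b g) := by
  have hb : (mkG a b g).coeff b ≠ 0 := by
    intro h0
    apply h3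
    rw [← cf_mkG a b g (Nat.zero_le a) le_rfl]
    unfold cf
    rw [h0, coeff_zero]
  refine ⟨fun v => ?_, ?_, ?_, ?_, ?_, ?_⟩
  · rw [mkG_coeff]
    split_ifs
    · refine natDegree_sum_le_of_forall_le _ _ fun u hu => ?_
      refine (natDegree_C_mul_X_pow_le _ _).trans ?_
      exact Nat.lt_succ_iff.1 (Finset.mem_range.1 hu)
    · simp
  · refine le_antisymm ?_ (le_natDegree_of_ne_zero hb)
    unfold mkG
    refine natDegree_sum_le_of_forall_le _ _ fun v hv => ?_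
    refine (natDegree_C_mul_X_pow_le _ _).trans ?_
    exact Nat.lt_succ_iff.1 (Finset.mem_range.1 hv)
  · rw [cf_mkG a b g (Nat.zero_le a) (Nat.zero_le b)]; exact h1
  · rw [cf_mkG a b g le_rfl (Nat.zero_le b)]; exact h2
  · rw [cf_mkG a b g (Nat.zero_le a) le_rfl]; exact h3
  · rw [cf_mkG a b g le_rfl le_rfl]; exact h4

theorem E2_mkG {K : Type*} [Field K] {σ : Type*} (a b : ℕ) (g : ℕ → ℕ → K) (i j : σ) :
    E2 MvPolynomial.C (MvPolynomial.X i) (MvPolynomial.X j) (mkG a b g) =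
      ∑ u ∈ Finset.range (a + 1), ∑ v ∈ Finset.range (b + 1),
        MvPolynomial.C (g u v) * MvPolynomial.X i ^ u * MvPolynomial.X j ^ v := by
  unfold mkG
  rw [map_sum, Finset.sum_comm]
  refine Finset.sum_congr rfl fun v _ => ?_
  rw [map_mul, map_pow, E2_X, E2_C, eval₂_finsetSum, Finset.sum_mul]
  refine Finset.sum_congr rfl fun u _ => ?_
  rw [eval₂_mul, eval₂_C, eval₂_pow, eval₂_X]

/-- the main theorem -/
theorem main_affine {n : ℕ} (I : Ideal (MvPolynomial (Fin n) (algebraicClosure ℚ ℂ)))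
    (hI : I.IsPrime)
    (hconst : ∀ (i : Fin n) (c : algebraicClosure ℚ ℂ), MvPolynomial.X i - MvPolynomial.C c ∉ I)
    (hgen : ∀ i j : Fin n, i ≠ j → ∃ (a b : ℕ) (g : ℕ → ℕ → algebraicClosure ℚ ℂ),
      g 0 0 ≠ 0 ∧ g a 0 ≠ 0 ∧ g 0 b ≠ 0 ∧ g a b ≠ 0 ∧
      ∑ u ∈ Finset.range (a + 1), ∑ v ∈ Finset.range (b + 1),
        MvPolynomial.C (g u v) * MvPolynomial.X i ^ u * MvPolynomial.X j ^ v ∈ I) (W : ℕ) :
    ∃ D : ℕ, ∀ lam mu : Fin n → ℚ, (∃ (p e : ℕ) (w : Fin n → ℕ), p.Prime ∧ D < p ∧ 0 < e ∧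
      ∀ i, 0 < w i ∧ w i ≤ W ∧ padicValRat p (lam i) = -((w i : ℤ) * e) ∧
        padicValRat p (lam i) < padicValRat p (mu i)) →
      {x : Fin n → ℂ | (∃ y : Fin n → ℂ, (∀ f ∈ I, MvPolynomial.aeval y f = 0) ∧
          ∀ i, x i = lam i * y i + mu i) ∧
        ∃ (r : ℕ) (Z : SpecialDatum n r), r + 2 ≤ n ∧ x ∈ Z.locus}.Finite ∧
      ∀ (r : ℕ) (Z : SpecialDatum n r), r < n →
        ¬ {x : Fin n → ℂ | ∃ y : Fin n → ℂ, (∀ f ∈ I, MvPolynomial.aeval y f = 0) ∧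
          ∀ i, x i = lam i * y i + mu i} ⊆ Z.locus :=
  main_QA2 I hI hconst (fun i j hij => by
    obtain ⟨a, b, g, h1, h2, h3, h4, h5⟩ := hgen i j hij
    exact ⟨a, b, mkG a b g, mkG_cor h1 h2 h3 h4, by rw [E2_mkG]; exact h5⟩) W

end Pool.Agent.Y226.ZG
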