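import Mathlib

/-!
# Bivariate polynomials: evaluation, Gauss lemma
-/

set_option autoImplicit false
set_option linter.unusedSectionVars false

open Polynomial

namespace Pool.Agent.Y226.ZG

section E2

variable {A B D : Type*} [CommRing A] [CommRing B] [CommRing D]

/-- evaluation of a bivariate polynomial: the inner variable at `x`, the outer variable at `y` -/
noncomputable def E2 (φ : A →+* B) (x y : B) : A[X][X] →+* B :=
  eval₂RingHom (eval₂RingHom φ x) y

theorem E2_apply (φ : A →+* B) (x y : B) (h : A[X][X]) :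
    E2 φ x y h = h.eval₂ (eval₂RingHom φ x) y := rfl

@[simp] theorem E2_C (φ : A →+* B) (x y : B) (r : A[X]) : E2 φ x y (C r) = r.eval₂ φ x := by
  simp [E2]

@[simp] theorem E2_X (φ : A →+* B) (x y : B) : E2 φ x y X = y := by simp [E2]

@[simp] theorem E2_CX (φ : A →+* B) (x y : B) : E2 φ x y (C X) = x := by simp [E2]

@[simp] theorem E2_CC (φ : A →+* B) (x y : B) (a : A) : E2 φ x y (C (C a)) = φ a := by simp [E2]

theorem E2_map (φ : A →+* B) (χ : D →+* A) (x y : B) (h : D[X][X]) :
    E2 φ x y (h.map (mapRingHom χ)) = E2 (φ.comp χ) x y h := by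
  rw [E2_apply, E2_apply, eval₂_map]
  congr 1
  ext
  · simp
  · simp

theorem map_E2 (ψ : B →+* D) (φ : A →+* B) (x y : B) (h : A[X][X]) :
    ψ (E2 φ x y h) = E2 (ψ.comp φ) (ψ x) (ψ y) h := by
  rw [E2_apply, E2_apply, hom_eval₂]
  congr 1
  ext
  · simp
  · simp

/-- the box of exponents -/
def box (d : ℕ) : Finset (ℕ × ℕ) := Finset.range (d + 1) ×ˢ Finset.range (d + 1)

/-- the coefficients -/
noncomputable def cf (h : A[X][X]) (m : ℕ × ℕ) : A := (h.coeff m.2).coeff m.1

/-- the bidegree is at most `d` -/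
def BD (d : ℕ) (h : A[X][X]) : Prop := h.natDegree ≤ d ∧ ∀ v, (h.coeff v).natDegree ≤ d

theorem exists_BD (h : A[X][X]) : ∃ d, BD d h := by
  refine ⟨h.natDegree + ∑ v ∈ Finset.range (h.natDegree + 1), (h.coeff v).natDegree,
    by omega, fun v => ?_⟩
  by_cases hv : v ≤ h.natDegree
  · have := Finset.single_le_sum (f := fun v => (h.coeff v).natDegree) (fun _ _ => Nat.zero_le _)
      (Finset.mem_range.2 (Nat.lt_succ_of_le hv))
    exact this.trans (Nat.le_add_left _ _)
  · rw [coeff_eq_zero_of_natDegree_lt (by omega)]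
    simp

theorem BD.mono {d d' : ℕ} {h : A[X][X]} (hh : BD d h) (hd : d ≤ d') : BD d' h :=
  ⟨hh.1.trans hd, fun v => (hh.2 v).trans hd⟩

theorem E2_eq_sum {d : ℕ} {h : A[X][X]} (hh : BD d h) (φ : A →+* B) (x y : B) :
    E2 φ x y h = ∑ m ∈ box d, φ (cf h m) * x ^ m.1 * y ^ m.2 := by
  rw [E2_apply, eval₂_eq_sum_range' _ (n := d + 1) (by have := hh.1; omega), box,
    Finset.sum_product_right]
  refine Finset.sum_congr rfl fun v _ => ?_
  rw [coe_eval₂RingHom, eval₂_eq_sum_range' _ (n := d + 1) (by have := hh.2 v; omega),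
    Finset.sum_mul]
  rfl

theorem cf_map (χ : A →+* B) (h : A[X][X]) (m : ℕ × ℕ) :
    cf (h.map (mapRingHom χ)) m = χ (cf h m) := by
  simp [cf]

theorem BD.map {d : ℕ} {h : A[X][X]} (hh : BD d h) (χ : A →+* B) :
    BD d (h.map (mapRingHom χ)) := by
  refine ⟨(natDegree_map_le).trans hh.1, fun v => ?_⟩
  rw [coeff_map, coe_mapRingHom]
  exact natDegree_map_le.trans (hh.2 v)

end E2

section Gauss

variable {K : Type*} [Field K]

/-- Gauss lemma: an irreducible polynomial and a polynomial which is not divisible by it -/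
theorem gauss {h f : K[X][X]} (hirr : Irreducible h) (hd : 0 < h.natDegree) (hf : ¬ h ∣ f) :
    ∃ (u v : K[X][X]) (r : K[X]), r ≠ 0 ∧ u * h + v * f = C r := by
  classical
  set F := FractionRing K[X] with hF
  have hinj : Function.Injective (algebraMap K[X] F) := IsFractionRing.injective _ _
  have hprim : h.IsPrimitive := hirr.isPrimitive hd.ne'
  have hirr' : Irreducible (h.map (algebraMap K[X] F)) :=
    (hprim.irreducible_iff_irreducible_map_fraction_map (K := F)).1 hirr
  have hnd : ¬ h.map (algebraMap K[X] F) ∣ f.map (algebraMap K[X] F) := by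
    rintro ⟨g, hg⟩
    obtain ⟨⟨b, hb⟩, hb'⟩ := IsLocalization.integerNormalization_map_to_map (nonZeroDivisors K[X]) g
    set g' := IsLocalization.integerNormalization (nonZeroDivisors K[X]) g
    have hb0 : b ≠ 0 := nonZeroDivisors.ne_zero hb
    have e1 : C b * f = h * g' := by
      apply Polynomial.map_injective _ hinj
      rw [Polynomial.map_mul, Polynomial.map_mul, hb', hg, map_C]
      rw [Algebra.smul_def, Polynomial.algebraMap_apply]
      ring
    have hprime : Prime h := hirr.prime
    rcases hprime.dvd_or_dvd (Dvd.intro _ e1.symm) with h1 | h1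
    · have h2 := natDegree_le_of_dvd h1 (by simpa using hb0)
      rw [natDegree_C] at h2
      omega
    · exact hf h1
  have hcop : IsCoprime (h.map (algebraMap K[X] F)) (f.map (algebraMap K[X] F)) :=
    (hirr'.coprime_iff_not_dvd).2 hnd
  obtain ⟨a, b, hab⟩ := hcop
  obtain ⟨⟨s, hs⟩, hs'⟩ := IsLocalization.integerNormalization_map_to_map (nonZeroDivisors K[X]) a
  obtain ⟨⟨t, ht⟩, ht'⟩ := IsLocalization.integerNormalization_map_to_map (nonZeroDivisors K[X]) b
  set a' := IsLocalization.integerNormalization (nonZeroDivisors K[X]) a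
  set b' := IsLocalization.integerNormalization (nonZeroDivisors K[X]) b
  have hs0 : s ≠ 0 := nonZeroDivisors.ne_zero hs
  have ht0 : t ≠ 0 := nonZeroDivisors.ne_zero ht
  refine ⟨C t * a', C s * b', s * t, mul_ne_zero hs0 ht0, ?_⟩
  apply Polynomial.map_injective _ hinj
  simp only [Polynomial.map_add, Polynomial.map_mul, map_C, hs', ht']
  rw [Algebra.smul_def, Algebra.smul_def, Polynomial.algebraMap_apply, Polynomial.algebraMap_apply,
    map_mul, C_mul]
  linear_combination (C (algebraMap K[X] F s) * C (algebraMap K[X] F t)) * hab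

end Gauss

end Pool.Agent.Y226.ZG
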