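import Pool.Agent.Y226.ZG.Puis

/-!
# Polynomials with nonzero corners
-/

set_option autoImplicit false
set_option linter.unusedSectionVars false

open Polynomial

namespace Pool.Agent.Y226.ZG

section Corner

variable {K : Type*} [Field K]

/-- the polynomial lies in a box, and the coefficients at the corners do not vanish -/
def Cor4 (a b : ℕ) (g : K[X][X]) : Prop :=
  (∀ v, (g.coeff v).natDegree ≤ a) ∧ g.natDegree = b ∧ cf g (0, 0) ≠ 0 ∧ cf g (a, 0) ≠ 0 ∧
    cf g (0, b) ≠ 0 ∧ cf g (a, b) ≠ 0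

theorem Cor4.ne_zero {a b : ℕ} {g : K[X][X]} (h : Cor4 a b g) : g ≠ 0 := by
  rintro rfl
  exact h.2.2.1 (by simp [cf])

theorem Cor4.BD {a b : ℕ} {g : K[X][X]} (h : Cor4 a b g) : BD (a + b) g :=
  ⟨by rw [h.2.1]; omega, fun v => (h.1 v).trans (by omega)⟩

theorem Cor4.cor2 {K : Type} [Field K] {a b : ℕ} {g : K[X][X]} (h : Cor4 a b g) : Cor2 g := by
  obtain ⟨-, h1, h2, -, h3, -⟩ := h
  refine ⟨?_, h2⟩
  rw [leadingCoeff, h1]
  exact h3

theorem coeff_swap (g : K[X][X]) (i j : ℕ) :
    ((Bivariate.swap g).coeff i).coeff j = (g.coeff j).coeff i := by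
  induction g using Polynomial.induction_on' with
  | add p q hp hq => rw [map_add, coeff_add, coeff_add, coeff_add, coeff_add, hp, hq]
  | monomial n f =>
    induction f using Polynomial.induction_on' with
    | add p q hp hq =>
      rw [map_add, map_add, coeff_add, coeff_add, coeff_add, coeff_add, hp, hq]
    | monomial m r =>
      rw [Bivariate.swap_monomial_monomial, coeff_monomial, coeff_monomial]
      by_cases h1 : m = i
      · by_cases h2 : n = j
        · rw [if_pos h1, if_pos h2, coeff_monomial, coeff_monomial, if_pos h1, if_pos h2]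
        · rw [if_pos h1, if_neg h2, coeff_monomial, if_neg h2, coeff_zero]
      · by_cases h2 : n = j
        · rw [if_neg h1, if_pos h2, coeff_monomial, if_neg h1, coeff_zero]
        · rw [if_neg h1, if_neg h2, coeff_zero, coeff_zero]

theorem natDegree_coeff_le_swap (g : K[X][X]) (v : ℕ) :
    (g.coeff v).natDegree ≤ (Bivariate.swap g).natDegree := by
  rw [natDegree_le_iff_coeff_eq_zero]
  intro i hi
  rw [← coeff_swap, coeff_eq_zero_of_natDegree_lt hi, coeff_zero]

theorem natDegree_swap_le {g : K[X][X]} {a : ℕ} (h : ∀ v, (g.coeff v).natDegree ≤ a) :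
    (Bivariate.swap g).natDegree ≤ a := by
  rw [natDegree_le_iff_coeff_eq_zero]
  intro i hi
  ext j
  rw [coeff_swap, coeff_zero]
  exact coeff_eq_zero_of_natDegree_lt (lt_of_le_of_lt (h j) hi)

theorem Cor4.natDegree_swap {a b : ℕ} {g : K[X][X]} (h : Cor4 a b g) :
    (Bivariate.swap g).natDegree = a := by
  refine le_antisymm (natDegree_swap_le h.1) ?_
  apply le_natDegree_of_ne_zero
  intro h0
  have h1 := congrArg (fun f => coeff f b) h0
  simp only [coeff_swap, coeff_zero] at h1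
  exact h.2.2.2.2.2 h1

/-- factors of polynomials with nonzero corners -/
theorem Cor4.of_mul {a b : ℕ} {g₁ g₂ : K[X][X]} (h : Cor4 a b (g₁ * g₂)) :
    Cor4 (Bivariate.swap g₁).natDegree g₁.natDegree g₁ := by
  have hne := h.ne_zero
  have h1 : g₁ ≠ 0 := left_ne_zero_of_mul hne
  have h2 : g₂ ≠ 0 := right_ne_zero_of_mul hne
  set a₁ := (Bivariate.swap g₁).natDegree with ha₁
  set a₂ := (Bivariate.swap g₂).natDegree with ha₂
  set b₁ := g₁.natDegree with hb₁
  set b₂ := g₂.natDegree with hb₂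
  have hb : b = b₁ + b₂ := by rw [← h.2.1, natDegree_mul h1 h2]
  have ha : a = a₁ + a₂ := by
    rw [← h.natDegree_swap, map_mul, natDegree_mul]
    · exact (map_ne_zero_iff _ (Bivariate.swap (R := K)).injective).2 h1
    · exact (map_ne_zero_iff _ (Bivariate.swap (R := K)).injective).2 h2
  have hd1 := natDegree_coeff_le_swap g₁
  have hd2 := natDegree_coeff_le_swap g₂
  rw [← ha₁] at hd1
  rw [← ha₂] at hd2
  obtain ⟨-, -, c1, c2, c3, c4⟩ := h
  unfold cf at c1 c2 c3 c4
  simp only at c1 c2 c3 c4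
  have etop : (g₁ * g₂).coeff b = g₁.coeff b₁ * g₂.coeff b₂ := by
    rw [hb]; exact coeff_mul_degree_add_degree g₁ g₂
  have ebot : (g₁ * g₂).coeff 0 = g₁.coeff 0 * g₂.coeff 0 := mul_coeff_zero _ _
  rw [ebot] at c1 c2
  rw [etop] at c3 c4
  rw [mul_coeff_zero] at c1 c3
  rw [ha, coeff_mul_add_eq_of_natDegree_le (hd1 _) (hd2 _)] at c2 c4
  refine ⟨hd1, rfl, ?_, ?_, ?_, ?_⟩
  · exact left_ne_zero_of_mul c1
  · exact left_ne_zero_of_mul c2
  · exact left_ne_zero_of_mul c3
  · exact left_ne_zero_of_mul c4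

/-- an irreducible factor which vanishes -/
theorem Cor4.exists_irreducible {B : Type*} [CommRing B] [IsDomain B] {a b : ℕ} {g : K[X][X]}
    (h : Cor4 a b g) (φ : K[X][X] →+* B) (hφ : φ g = 0) :
    ∃ (a₁ b₁ : ℕ) (g₁ : K[X][X]), Irreducible g₁ ∧ Cor4 a₁ b₁ g₁ ∧ φ g₁ = 0 := by
  classical
  have key : ∀ s : Multiset K[X][X], (∀ f ∈ s, Irreducible f) → φ s.prod = 0 →
      ∃ f ∈ s, φ f = 0 := by
    intro s
    induction s using Multiset.induction_on with
    | empty => intro _ h0; simp at h0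
    | cons f s ih =>
      intro hs h0
      rw [Multiset.prod_cons, map_mul] at h0
      rcases mul_eq_zero.1 h0 with h1 | h1
      · exact ⟨f, Multiset.mem_cons_self f s, h1⟩
      · obtain ⟨f', hf', hf''⟩ := ih (fun f' hf' => hs f' (Multiset.mem_cons_of_mem hf')) h1
        exact ⟨f', Multiset.mem_cons_of_mem hf', hf''⟩
  have hass := UniqueFactorizationMonoid.factors_prod (a := g) h.ne_zero
  have h0 : φ (UniqueFactorizationMonoid.factors g).prod = 0 := by
    obtain ⟨u, hu⟩ := hass.symm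
    rw [← hu, map_mul, hφ, zero_mul]
  obtain ⟨f, hf, hf'⟩ := key _ (fun f hf => UniqueFactorizationMonoid.irreducible_of_factor f hf) h0
  obtain ⟨q, hq⟩ := UniqueFactorizationMonoid.dvd_of_mem_factors hf
  rw [hq] at h
  exact ⟨_, _, f, UniqueFactorizationMonoid.irreducible_of_factor f hf, h.of_mul, hf'⟩

/-- the reversal of the inner variable -/
noncomputable def rv (a : ℕ) (g : K[X][X]) : K[X][X] :=
  ∑ v ∈ Finset.range (g.natDegree + 1), C (reflect a (g.coeff v)) * X ^ v

theorem rv_coeff (a : ℕ) (g : K[X][X]) (v : ℕ) : (rv a g).coeff v = reflect a (g.coeff v) := by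
  unfold rv
  rw [finsetSum_coeff]
  simp only [coeff_C_mul, coeff_X_pow, mul_ite, mul_one, mul_zero]
  rw [Finset.sum_ite_eq]
  split_ifs with h
  · rfl
  · rw [Finset.mem_range, not_lt] at h
    rw [coeff_eq_zero_of_natDegree_lt (by omega)]
    simp

theorem Cor4.rv {a b : ℕ} {g : K[X][X]} (h : Cor4 a b g) : Cor4 a b (rv a g) := by
  obtain ⟨h1, h2, c1, c2, c3, c4⟩ := h
  have hc0 : ∀ v, cf (Pool.Agent.Y226.ZG.rv a g) (0, v) = cf g (a, v) := by
    intro v
    unfold cf
    rw [rv_coeff, coeff_reflect]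
    simp [revAt]
  have hca : ∀ v, cf (Pool.Agent.Y226.ZG.rv a g) (a, v) = cf g (0, v) := by
    intro v
    unfold cf
    rw [rv_coeff, coeff_reflect]
    simp [revAt]
  refine ⟨fun v => ?_, ?_, ?_, ?_, ?_, ?_⟩
  · rw [rv_coeff]
    refine (natDegree_reflect_le).trans ?_
    exact max_le le_rfl (h1 v)
  · refine le_antisymm ?_ ?_
    · rw [natDegree_le_iff_coeff_eq_zero]
      intro v hv
      rw [rv_coeff, coeff_eq_zero_of_natDegree_lt (by omega)]
      simp
    · apply le_natDegree_of_ne_zero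
      intro h0
      have := hca b
      unfold cf at this
      simp only [h0, coeff_zero] at this
      exact c3 (by rw [cf]; exact this.symm)
  · rw [hc0]; exact c2
  · rw [hca]; exact c1
  · rw [hc0]; exact c4
  · rw [hca]; exact c3

theorem E2_rv {B : Type*} [Field B] {a b : ℕ} {g : K[X][X]} (h : Cor4 a b g) (φ : K →+* B)
    {x y : B} (hx : x ≠ 0) (h0 : E2 φ x y g = 0) : E2 φ x⁻¹ y (Pool.Agent.Y226.ZG.rv a g) = 0 := by
  have h1 : E2 φ x⁻¹ y (Pool.Agent.Y226.ZG.rv a g) * x ^ a = E2 φ x y g := by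
    rw [E2_apply, E2_apply, eval₂_eq_sum_range' _ (n := b + 1) (by rw [h.rv.2.1]; omega),
      eval₂_eq_sum_range' _ (n := b + 1) (by rw [h.2.1]; omega), Finset.sum_mul]
    refine Finset.sum_congr rfl fun v _ => ?_
    rw [rv_coeff, coe_eval₂RingHom, coe_eval₂RingHom]
    letI := invertibleOfNonzero hx
    have h2 := eval₂_reflect_mul_pow φ x a (g.coeff v) (h.1 v)
    rw [invOf_eq_inv] at h2
    rw [← h2]
    ring
  rw [h0] at h1
  exact (mul_eq_zero.1 h1).resolve_right (pow_ne_zero _ hx)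

end Corner

end Pool.Agent.Y226.ZG
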