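import Pool.Agent.Y226.ZG.Biv

/-!
# Curves in the plane torus which contain no coset of a one dimensional torus
-/

set_option autoImplicit false
set_option linter.unusedSectionVars false

open Polynomial

namespace Pool.Agent.Y226.ZG

/-- no coset of a one dimensional torus lies on the curve -/
def NoCoset (K : Type*) [Field K] (d : ℕ) (c : ℕ × ℕ → K) : Prop :=
  ∀ a b : ℤ, (a, b) ≠ (0, 0) → ∀ ξ η : K, ξ ≠ 0 → η ≠ 0 →
    ∃ t : ℤ, ∑ m ∈ (box d).filter (fun m => a * (m.1 : ℤ) + b * (m.2 : ℤ) = t),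
      c m * ξ ^ m.1 * η ^ m.2 ≠ 0

theorem dir_inj {d : ℕ} {a b : ℤ} (hab : IsCoprime a b) (hbig : (d : ℤ) < |a| ∨ (d : ℤ) < |b|)
    {m m' : ℕ × ℕ} (hm : m ∈ box d) (hm' : m' ∈ box d)
    (h : a * (m.1 : ℤ) + b * (m.2 : ℤ) = a * (m'.1 : ℤ) + b * (m'.2 : ℤ)) : m = m' := by
  simp only [box, Finset.mem_product, Finset.mem_range] at hm hm'
  obtain ⟨m1, m2⟩ := m
  obtain ⟨n1, n2⟩ := m'
  simp only at hm hm' h
  have h1 : a * ((m1 : ℤ) - n1) = b * ((n2 : ℤ) - m2) := by linear_combination h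
  have ha : a ∣ (n2 : ℤ) - m2 := by
    refine hab.dvd_of_dvd_mul_left ?_
    exact ⟨_, h1.symm⟩
  have hb : b ∣ (m1 : ℤ) - n1 := by
    refine hab.symm.dvd_of_dvd_mul_left ?_
    exact ⟨_, h1⟩
  rcases hbig with h2 | h2
  · have h3 : (n2 : ℤ) - m2 = 0 := by
      by_contra h4
      have h5 := Int.le_of_dvd (abs_pos.2 h4) ((dvd_abs _ _).2 ((abs_dvd _ _).2 ha))
      have h6 : |(n2 : ℤ) - m2| ≤ d := by
        rw [abs_le]; omega
      omega
    have ha0 : a ≠ 0 := by rintro rfl; simp at h2; omega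
    have h4 : (m1 : ℤ) - n1 = 0 := by
      rw [h3, mul_zero] at h1
      rcases mul_eq_zero.1 h1 with h5 | h5
      · exact absurd h5 ha0
      · exact h5
    ext <;> simp <;> omega
  · have h3 : (m1 : ℤ) - n1 = 0 := by
      by_contra h4
      have h5 := Int.le_of_dvd (abs_pos.2 h4) ((dvd_abs _ _).2 ((abs_dvd _ _).2 hb))
      have h6 : |(m1 : ℤ) - n1| ≤ d := by
        rw [abs_le]; omega
      omega
    have hb0 : b ≠ 0 := by rintro rfl; simp at h2; omega
    have h4 : (n2 : ℤ) - m2 = 0 := by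
      rw [h3, mul_zero] at h1
      rcases mul_eq_zero.1 h1.symm with h5 | h5
      · exact absurd h5 hb0
      · exact h5
    ext <;> simp <;> omega

/-- the partial sums, as polynomials in two variables -/
noncomputable def qP {K : Type*} [Field K] (d : ℕ) (c : ℕ × ℕ → K) (a b t : ℤ) :
    MvPolynomial (Fin 2) K :=
  ∑ m ∈ (box d).filter (fun m => a * (m.1 : ℤ) + b * (m.2 : ℤ) = t),
    MvPolynomial.C (c m) * MvPolynomial.X 0 ^ m.1 * MvPolynomial.X 1 ^ m.2

theorem NoCoset.identity {K : Type*} [Field K] [IsAlgClosed K] {d : ℕ} {c : ℕ × ℕ → K}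
    (h : NoCoset K d c) {a b : ℤ} (hab : (a, b) ≠ (0, 0)) :
    ∃ (M : ℕ) (B : {m // m ∈ box d} → MvPolynomial (Fin 2) K),
      ∑ m, B m * qP d c a b (a * (m.1.1 : ℤ) + b * (m.1.2 : ℤ)) =
        (MvPolynomial.X 0 * MvPolynomial.X 1) ^ M := by
  classical
  set I : Ideal (MvPolynomial (Fin 2) K) :=
    Ideal.span (Set.range fun m : {m // m ∈ box d} =>
      qP d c a b (a * (m.1.1 : ℤ) + b * (m.1.2 : ℤ))) with hI
  have hmem : (MvPolynomial.X 0 * MvPolynomial.X 1 : MvPolynomial (Fin 2) K) ∈ I.radical := by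
    rw [← MvPolynomial.vanishingIdeal_zeroLocus_eq_radical (K := K) I,
      MvPolynomial.mem_vanishingIdeal_iff]
    intro x hx
    rw [MvPolynomial.mem_zeroLocus_iff] at hx
    by_contra hne
    rw [map_mul, MvPolynomial.aeval_X, MvPolynomial.aeval_X] at hne
    obtain ⟨t, ht⟩ := h a b hab (x 0) (x 1) (left_ne_zero_of_mul hne) (right_ne_zero_of_mul hne)
    obtain ⟨m, hm, hm'⟩ := Finset.exists_ne_zero_of_sum_ne_zero ht
    rw [Finset.mem_filter] at hm
    apply ht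
    have h1 := hx (qP d c a b (a * (m.1 : ℤ) + b * (m.2 : ℤ)))
      (Ideal.subset_span ⟨⟨m, hm.1⟩, rfl⟩)
    rw [hm.2] at h1
    rw [← h1, qP, map_sum]
    refine Finset.sum_congr rfl fun m _ => ?_
    simp
  obtain ⟨M, hM⟩ := hmem
  rw [hI, Ideal.mem_span_range_iff_exists_fun] at hM
  obtain ⟨B, hB⟩ := hM
  exact ⟨M, B, hB⟩

theorem exists_dir {a b : ℤ} (hab : (a, b) ≠ (0, 0)) :
    ∃ g a' b' : ℤ, g ≠ 0 ∧ IsCoprime a' b' ∧ a = g * a' ∧ b = g * b' := by
  have hg : (Int.gcd a b : ℤ) ≠ 0 := by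
    intro h
    apply hab
    have h1 : Int.gcd a b = 0 := by exact_mod_cast h
    rw [Int.gcd_eq_zero_iff] at h1
    rw [h1.1, h1.2]
  refine ⟨Int.gcd a b, a / Int.gcd a b, b / Int.gcd a b, hg, ?_, ?_, ?_⟩
  · rw [Int.isCoprime_iff_gcd_eq_one]
    exact Int.gcd_div_gcd_div_gcd (Nat.pos_of_ne_zero (by exact_mod_cast hg))
  · exact (Int.mul_ediv_cancel' (Int.gcd_dvd_left ..)).symm
  · exact (Int.mul_ediv_cancel' (Int.gcd_dvd_right ..)).symm

/-- the property is inherited by almost all specializations -/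
theorem NoCoset.specialize {K : Type*} [Field K] [IsAlgClosed K] {d : ℕ} {c : ℕ × ℕ → K}
    (h : NoCoset K d c) : ∃ S₀ : Finset K, ∀ (R : Subring K), (∀ s ∈ S₀, s ∈ R) →
    ∀ (c₀ : ℕ × ℕ → R), (∀ m ∈ box d, (c₀ m : K) = c m) →
    ∀ (k : Type) [Field k] (χ : R →+* k), NoCoset k d (fun m => χ (c₀ m)) := by
  classical
  -- a nonzero coefficient
  obtain ⟨m₀, hm₀, hcm₀⟩ : ∃ m ∈ box d, c m ≠ 0 := by
    obtain ⟨t, ht⟩ := h 1 0 (by simp) 1 1 one_ne_zero one_ne_zero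
    obtain ⟨m, hm, hm'⟩ := Finset.exists_ne_zero_of_sum_ne_zero ht
    rw [Finset.mem_filter] at hm
    exact ⟨m, hm.1, fun h0 => hm' (by rw [h0]; simp)⟩
  have key : ∀ q : ℤ × ℤ, ∃ (M : ℕ) (B : {m // m ∈ box d} → MvPolynomial (Fin 2) K),
      q ≠ (0, 0) → ∑ m, B m * qP d c q.1 q.2 (q.1 * (m.1.1 : ℤ) + q.2 * (m.1.2 : ℤ)) =
        (MvPolynomial.X 0 * MvPolynomial.X 1) ^ M := by
    rintro ⟨a, b⟩
    by_cases hq : (a, b) ≠ (0, 0)
    · obtain ⟨M, B, hB⟩ := h.identity hq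
      exact ⟨M, B, fun _ => hB⟩
    · exact ⟨0, fun _ => 0, fun h => absurd h hq⟩
  choose M B hB using key
  set T : Finset (ℤ × ℤ) := (Finset.Icc (-(d : ℤ)) d) ×ˢ (Finset.Icc (-(d : ℤ)) d) with hT
  refine ⟨{(c m₀)⁻¹} ∪ T.biUnion fun q => Finset.univ.biUnion fun m =>
    (B q m).support.image fun e => (B q m).coeff e, ?_⟩
  intro R hR c₀ hc₀ k _ χ a b hab ξ η hξ hη
  obtain ⟨g, a', b', hg, hcop, rfl, rfl⟩ := exists_dir hab
  have hab' : (a', b') ≠ (0, 0) := by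
    intro h0
    rw [Prod.mk.injEq] at h0
    apply hab
    rw [h0.1, h0.2, mul_zero]
  have hfil : ∀ t : ℤ, (box d).filter (fun m => g * a' * (m.1 : ℤ) + g * b' * (m.2 : ℤ) = g * t) =
      (box d).filter (fun m => a' * (m.1 : ℤ) + b' * (m.2 : ℤ) = t) := by
    intro t
    refine Finset.filter_congr fun m _ => ?_
    constructor
    · intro h1
      apply mul_left_cancel₀ hg
      linear_combination h1
    · intro h1
      linear_combination g * h1
  by_cases hbig : (d : ℤ) < |a'| ∨ (d : ℤ) < |b'|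
  · refine ⟨g * (a' * (m₀.1 : ℤ) + b' * (m₀.2 : ℤ)), ?_⟩
    rw [hfil]
    have h1 : (box d).filter (fun m => a' * (m.1 : ℤ) + b' * (m.2 : ℤ) =
        a' * (m₀.1 : ℤ) + b' * (m₀.2 : ℤ)) = {m₀} := by
      ext m
      rw [Finset.mem_filter, Finset.mem_singleton]
      constructor
      · rintro ⟨h2, h3⟩
        exact dir_inj hcop hbig h2 hm₀ h3
      · rintro rfl
        exact ⟨hm₀, rfl⟩
    rw [h1, Finset.sum_singleton]
    have hu : χ (c₀ m₀) ≠ 0 := by
      have hinv : (c m₀)⁻¹ ∈ R := hR _ (by simp)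
      have h2 : c₀ m₀ * ⟨(c m₀)⁻¹, hinv⟩ = 1 := by
        apply Subtype.ext
        show (c₀ m₀ : K) * (c m₀)⁻¹ = 1
        rw [hc₀ m₀ hm₀, mul_inv_cancel₀ hcm₀]
      intro h0
      have h3 := congrArg χ h2
      rw [map_mul, h0, zero_mul, map_one] at h3
      exact zero_ne_one h3
    exact mul_ne_zero (mul_ne_zero hu (pow_ne_zero _ hξ)) (pow_ne_zero _ hη)
  · push Not at hbig
    by_contra hcon
    push Not at hcon
    have hmemT : (a', b') ∈ T := by
      rw [hT, Finset.mem_product, Finset.mem_Icc, Finset.mem_Icc]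
      have h1 := abs_le.1 hbig.1
      have h2 := abs_le.1 hbig.2
      exact ⟨h1, h2⟩
    -- lift the coefficients
    have hlift : ∀ m : {m // m ∈ box d}, ∃ B₀ : MvPolynomial (Fin 2) R,
        MvPolynomial.map R.subtype B₀ = B (a', b') m := by
      intro m
      refine (MvPolynomial.mem_range_map_iff_coeffs_subset).2 ?_
      intro x hx
      rw [Finset.mem_coe, MvPolynomial.mem_coeffs_iff] at hx
      obtain ⟨e, he, rfl⟩ := hx
      refine ⟨⟨_, hR _ ?_⟩, rfl⟩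
      rw [Finset.mem_union]
      right
      rw [Finset.mem_biUnion]
      refine ⟨(a', b'), hmemT, ?_⟩
      rw [Finset.mem_biUnion]
      exact ⟨m, Finset.mem_univ _, Finset.mem_image.2 ⟨e, he, rfl⟩⟩
    choose B₀ hB₀ using hlift
    let q₀ : ℤ → MvPolynomial (Fin 2) R := fun t =>
      ∑ m ∈ (box d).filter (fun m => a' * (m.1 : ℤ) + b' * (m.2 : ℤ) = t),
        MvPolynomial.C (c₀ m) * MvPolynomial.X 0 ^ m.1 * MvPolynomial.X 1 ^ m.2
    have hq₀ : ∀ t, MvPolynomial.map R.subtype (q₀ t) = qP d c a' b' t := by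
      intro t
      show MvPolynomial.map R.subtype (∑ m ∈ _, _) = qP d c a' b' t
      rw [map_sum, qP]
      refine Finset.sum_congr rfl fun m hm => ?_
      simp only [map_mul, map_pow, MvPolynomial.map_C, MvPolynomial.map_X]
      rw [Subring.coe_subtype, hc₀ m (Finset.mem_filter.1 hm).1]
    have hid : ∑ m : {m // m ∈ box d}, B₀ m * q₀ (a' * (m.1.1 : ℤ) + b' * (m.1.2 : ℤ)) =
        (MvPolynomial.X 0 * MvPolynomial.X 1) ^ M (a', b') := by
      apply MvPolynomial.map_injective R.subtype Subtype.val_injective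
      rw [map_sum]
      simp only [map_mul, map_pow, MvPolynomial.map_X, hB₀, hq₀]
      exact hB (a', b') hab'
    have hev := congrArg (MvPolynomial.eval₂ χ ![ξ, η]) hid
    rw [MvPolynomial.eval₂_sum, MvPolynomial.eval₂_pow, MvPolynomial.eval₂_mul,
      MvPolynomial.eval₂_X, MvPolynomial.eval₂_X] at hev
    rw [Finset.sum_eq_zero] at hev
    · have : (ξ * η) ^ M (a', b') ≠ 0 := pow_ne_zero _ (mul_ne_zero hξ hη)
      exact this (by simpa using hev.symm)
    · intro m _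
      rw [MvPolynomial.eval₂_mul]
      have h1 := hcon (g * (a' * (m.1.1 : ℤ) + b' * (m.1.2 : ℤ)))
      rw [hfil] at h1
      have h2 : MvPolynomial.eval₂ χ ![ξ, η] (q₀ (a' * (m.1.1 : ℤ) + b' * (m.1.2 : ℤ))) = 0 := by
        show MvPolynomial.eval₂ χ ![ξ, η] (∑ m ∈ _, _) = 0
        rw [MvPolynomial.eval₂_sum]
        rw [← h1]
        refine Finset.sum_congr rfl fun m _ => ?_
        simp [MvPolynomial.eval₂_mul, MvPolynomial.eval₂_pow]
      rw [h2, mul_zero]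

end Pool.Agent.Y226.ZG
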