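import Pool.Agent.Y226.ZG.Corner
import Pool.Agent.Y226.ZG.NoCoset

/-!
# Relations between monomials
-/

set_option autoImplicit false
set_option linter.unusedSectionVars false

open Polynomial

namespace Pool.Agent.Y226.ZG

/-- elements which are algebraic over an algebraically closed field are constants -/
theorem root_const {K : Type*} [Field K] [IsAlgClosed K] {D : Type*} [CommRing D] [IsDomain D]
    (φ : K →+* D) {r : K[X]} (hr : r ≠ 0) {w : D} (h : r.eval₂ φ w = 0) : ∃ c : K, w = φ c := by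
  rw [(IsAlgClosed.splits r).eq_prod_roots, eval₂_mul, eval₂_C] at h
  rcases mul_eq_zero.1 h with h1 | h1
  · exact absurd ((map_eq_zero φ).1 h1) (leadingCoeff_ne_zero.2 hr)
  · rw [← coe_eval₂RingHom, map_multiset_prod, Multiset.prod_eq_zero_iff, Multiset.map_map,
      Multiset.mem_map] at h1
    obtain ⟨c, -, hc⟩ := h1
    refine ⟨c, ?_⟩
    simp only [Function.comp_apply, coe_eval₂RingHom, eval₂_sub, eval₂_X, eval₂_C] at hc
    exact sub_eq_zero.1 hc

/-- an irreducible factor which vanishes -/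
theorem exists_irr {K : Type*} [Field K] {B : Type*} [CommRing B] [IsDomain B] {P : K[X][X]}
    (hP : P ≠ 0) (φ : K[X][X] →+* B) (hφ : φ P = 0) : ∃ h, Irreducible h ∧ φ h = 0 := by
  classical
  have key : ∀ s : Multiset K[X][X], (∀ f ∈ s, Irreducible f) → φ s.prod = 0 →
      ∃ f ∈ s, φ f = 0 := by
    intro s
    induction s using Multiset.induction_on with
    | empty => intro _ h0; simp at h0
    | cons f s ih =>
      intro hs h0
      rw [Multiset.prod_cons, map_mul] at h0
      rcases mul_eq_zero.1 h0 with h1 | h1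
      · exact ⟨f, Multiset.mem_cons_self f s, h1⟩
      · obtain ⟨f', hf', hf''⟩ := ih (fun f' hf' => hs f' (Multiset.mem_cons_of_mem hf')) h1
        exact ⟨f', Multiset.mem_cons_of_mem hf', hf''⟩
  have hass := UniqueFactorizationMonoid.factors_prod (a := P) hP
  have h0 : φ (UniqueFactorizationMonoid.factors P).prod = 0 := by
    obtain ⟨u, hu⟩ := hass.symm
    rw [← hu, map_mul, hφ, zero_mul]
  obtain ⟨f, hf, hf'⟩ := key _ (fun f hf => UniqueFactorizationMonoid.irreducible_of_factor f hf) h0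
  exact ⟨f, UniqueFactorizationMonoid.irreducible_of_factor f hf, hf'⟩

section trdeg

variable {K 𝔽 : Type} [Field K] [Field 𝔽] [Algebra K 𝔽]

theorem adj_surj (u : 𝔽) (z : Algebra.adjoin K ({u} : Set 𝔽)) :
    ∃ q : K[X], aeval u q = (z : 𝔽) := by
  have h : ∀ y ∈ Algebra.adjoin K ({u} : Set 𝔽), ∃ q : K[X], aeval u q = y := by
    intro y hy
    rw [Algebra.adjoin_singleton_eq_range_aeval] at hy
    exact hy
  exact h z z.2

/-- a relation between two elements in transcendence degree one -/
theorem exists_E2 {v : 𝔽} (hv : ∀ f : 𝔽, IsAlgebraic (Algebra.adjoin K ({v} : Set 𝔽)) f) {u : 𝔽}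
    (hu : Transcendental K u) (w : 𝔽) :
    ∃ P : K[X][X], P ≠ 0 ∧ E2 (algebraMap K 𝔽) u w P = 0 := by
  haveI : Algebra.IsAlgebraic (Algebra.adjoin K ({v} : Set 𝔽)) 𝔽 := ⟨hv⟩
  have h1 : Algebra.trdeg K 𝔽 ≤ 1 := by
    refine (Algebra.IsAlgebraic.trdeg_le_cardinalMk K ({v} : Set 𝔽)).trans ?_
    simp
  have h2 : AlgebraicIndependent K (fun _ : Unit => u) :=
    algebraicIndependent_unique_type_iff.2 hu
  have h3 : IsTranscendenceBasis K (fun _ : Unit => u) :=
    h2.isTranscendenceBasis_of_trdeg_le_of_finite (by simpa using h1)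
  have h4 := h3.isAlgebraic
  rw [Set.range_const] at h4
  obtain ⟨p, hp, hpw⟩ := h4.isAlgebraic w
  let α' : K[X] →+* Algebra.adjoin K ({u} : Set 𝔽) :=
    (aeval (⟨u, Algebra.subset_adjoin rfl⟩ : Algebra.adjoin K ({u} : Set 𝔽))).toRingHom
  have hα' : ∀ q : K[X], ((α' q : Algebra.adjoin K ({u} : Set 𝔽)) : 𝔽) = aeval u q := by
    intro q
    have := aeval_algHom_apply (Subalgebra.val (Algebra.adjoin K ({u} : Set 𝔽)))
      (⟨u, Algebra.subset_adjoin rfl⟩ : Algebra.adjoin K ({u} : Set 𝔽)) q
    exact this.symm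
  have hsurj : Function.Surjective α' := by
    intro z
    obtain ⟨q, hq⟩ := adj_surj u z
    exact ⟨q, Subtype.ext ((hα' q).trans hq)⟩
  obtain ⟨P, hP⟩ := Polynomial.map_surjective α' hsurj p
  refine ⟨P, ?_, ?_⟩
  · rintro rfl
    rw [Polynomial.map_zero] at hP
    exact hp hP.symm
  · rw [E2_apply]
    rw [← hP, aeval_def, eval₂_map] at hpw
    rw [← hpw]
    congr 1
    ext
    · simp [α']
    · simp [α']

/-- monomials have a relation which contains no coset -/
theorem noCoset_of [IsAlgClosed K] {u w : 𝔽} (hu0 : u ≠ 0) (hw0 : w ≠ 0)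
    (hmon : ∀ a b : ℤ, (a, b) ≠ (0, 0) → ∀ c : K, u ^ a * w ^ b ≠ algebraMap K 𝔽 c)
    {h : K[X][X]} (hirr : Irreducible h) (hd : 0 < h.natDegree)
    (hrel : E2 (algebraMap K 𝔽) u w h = 0) {d : ℕ} (hBD : BD d h) : NoCoset K d (cf h) := by
  classical
  intro a b hab ξ η hξ hη
  by_contra hcon
  push Not at hcon
  -- the polynomial vanishes on the coset
  have hpow : ∀ (m : ℤ) (x : K) (k : ℕ), (HahnSeries.single m x : LS K) ^ k =
      HahnSeries.single ((k : ℤ) * m) (x ^ k) := by
    intro m x k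
    rw [HahnSeries.single_pow]
    simp
  have hz : E2 (HahnSeries.C : K →+* LS K) (HahnSeries.single a ξ) (HahnSeries.single b η) h = 0 := by
    rw [E2_eq_sum hBD]
    ext t
    rw [HahnSeries.coeff_zero]
    rw [← hcon t]
    rw [Finset.sum_filter]
    have : ∀ (s : Finset (ℕ × ℕ)) (f : ℕ × ℕ → LS K), (∑ m ∈ s, f m).coeff t =
        ∑ m ∈ s, (f m).coeff t := by
      intro s f
      exact map_sum (HahnSeries.coeff.addMonoidHom t) f s
    rw [this]
    refine Finset.sum_congr rfl fun m _ => ?_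
    rw [hpow, hpow, HahnSeries.C_apply, HahnSeries.single_mul_single, HahnSeries.single_mul_single,
      HahnSeries.coeff_single]
    have e : (0 : ℤ) + (m.1 : ℤ) * a + (m.2 : ℤ) * b = a * (m.1 : ℤ) + b * (m.2 : ℤ) := by ring
    rw [e]
    by_cases ht : t = a * (m.1 : ℤ) + b * (m.2 : ℤ)
    · rw [if_pos ht, if_pos ht.symm]
    · rw [if_neg ht, if_neg (Ne.symm ht)]
  have htr : ∀ (m : ℤ) (x : K), m ≠ 0 → x ≠ 0 → ∀ r : K[X],
      r.eval₂ (HahnSeries.C : K →+* LS K) (HahnSeries.single m x) = 0 → r = 0 := by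
    intro m x hm hx r hr
    by_contra hr0
    obtain ⟨c, hc⟩ := root_const _ hr0 hr
    have h1 := congrArg (fun f => HahnSeries.coeff f m) hc
    simp only [HahnSeries.coeff_single_same, HahnSeries.C_apply] at h1
    rw [HahnSeries.coeff_single, if_neg hm] at h1
    exact hx h1
  by_cases ha : a = 0
  · subst ha
    have hb : b ≠ 0 := by rintro rfl; exact hab rfl
    have h1 : (h.map (evalRingHom ξ)).eval₂ (HahnSeries.C : K →+* LS K) (HahnSeries.single b η) = 0 := by
      rw [eval₂_map, ← hz, E2_apply]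
      congr 1
      ext x
      · simp
      · simp [HahnSeries.C_apply]
    have h2 := htr b η hb hη _ h1
    have h3 : C (X - C ξ) ∣ h := by
      rw [C_dvd_iff_dvd_coeff]
      intro i
      rw [dvd_iff_isRoot, IsRoot]
      have := congrArg (fun f => coeff f i) h2
      simpa using this
    obtain ⟨q, hq⟩ := h3
    rcases hirr.isUnit_or_isUnit hq with h4 | h4
    · rw [isUnit_C] at h4
      exact absurd (natDegree_eq_zero_of_isUnit h4) (by rw [natDegree_X_sub_C]; norm_num)
    · have h5 := natDegree_eq_zero_of_isUnit h4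
      rw [hq] at hd
      have h6 := natDegree_mul_le (p := C (X - C ξ)) (q := q)
      rw [h5, natDegree_C] at h6
      omega
  · set bp := b.toNat with hbp
    set bm := (-b).toNat with hbm
    set ap := a.toNat with hap
    set am := (-a).toNat with ham
    have hb' : b = bp - bm := by omega
    have ha' : a = ap - am := by omega
    set c : K := ξ ^ bp * η ^ am / (ξ ^ bm * η ^ ap) with hc
    set Bin : K[X][X] := C (X ^ bp) * X ^ am - C (C c) * (C (X ^ bm) * X ^ ap) with hBin
    have hBz : E2 (HahnSeries.C : K →+* LS K) (HahnSeries.single a ξ) (HahnSeries.single b η)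
        Bin = 0 := by
      rw [hBin]
      simp only [map_sub, map_mul, E2_CC, E2_C, map_pow, E2_X, E2_CX, eval₂_X, eval₂_C]
      rw [hpow, hpow, hpow, hpow, HahnSeries.C_apply, HahnSeries.single_mul_single,
        HahnSeries.single_mul_single, HahnSeries.single_mul_single, sub_eq_zero]
      have e1 : (bp : ℤ) * a + am * b = 0 + (bm * a + ap * b) := by
        rw [ha', hb']; ring
      have e2 : ξ ^ bp * η ^ am = c * (ξ ^ bm * η ^ ap) := by
        rw [hc]
        have h1 : ξ ^ bm * η ^ ap ≠ 0 := mul_ne_zero (pow_ne_zero _ hξ) (pow_ne_zero _ hη)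
        field_simp
      rw [e1, e2]
    have hnd : ¬ h ∣ Bin := by
      rintro ⟨q, hq⟩
      have h1 : E2 (algebraMap K 𝔽) u w Bin = 0 := by rw [hq, map_mul, hrel, zero_mul]
      rw [hBin] at h1
      simp only [map_sub, map_mul, E2_CC, E2_C, map_pow, E2_X, E2_CX, sub_eq_zero, eval₂_X,
        eval₂_C] at h1
      apply hmon b (-a) ?_ c
      · have h2 : u ^ bm ≠ 0 := pow_ne_zero _ hu0
        have h3 : w ^ ap ≠ 0 := pow_ne_zero _ hw0
        have e1 : u ^ b = u ^ bp / u ^ bm := by
          conv_lhs => rw [hb']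
          rw [zpow_sub₀ hu0, zpow_natCast, zpow_natCast]
        have e2 : w ^ (-a) = w ^ am / w ^ ap := by
          have : -a = (am : ℤ) - ap := by omega
          rw [this, zpow_sub₀ hw0, zpow_natCast, zpow_natCast]
        rw [e1, e2, div_mul_div_comm, h1]
        field_simp
      · rw [Ne, Prod.mk.injEq]
        rintro ⟨-, h2⟩
        exact ha (by omega)
    obtain ⟨U, V, r, hr, hUV⟩ := gauss hirr hd hnd
    have h1 := congrArg (E2 (HahnSeries.C : K →+* LS K) (HahnSeries.single a ξ)
      (HahnSeries.single b η)) hUV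
    rw [map_add, map_mul, map_mul, hz, hBz, mul_zero, mul_zero, add_zero, E2_C] at h1
    exact hr (htr a ξ ha hξ r h1.symm)

end trdeg

end Pool.Agent.Y226.ZG
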