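import Mathlib

/-!
# The Euler derivation on Laurent series
-/

set_option autoImplicit false
set_option linter.unusedSectionVars false

namespace Pool.Agent.Y226.ZG

open HahnSeries

variable {K : Type*} [Field K]

/-- Laurent series -/
abbrev LS (K : Type*) [Field K] : Type _ := HahnSeries ℤ K

/-- the Euler derivation `z d/dz` -/
noncomputable def eul (f : LS K) : LS K where
  coeff n := (n : K) * f.coeff n
  isPWO_support' := f.isPWO_support.mono fun n hn => by
    rw [Function.mem_support] at hn
    rw [mem_support]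
    exact right_ne_zero_of_mul hn

@[simp] theorem eul_coeff (f : LS K) (n : ℤ) : (eul f).coeff n = (n : K) * f.coeff n := rfl

theorem eul_support (f : LS K) : (eul f).support ⊆ f.support := by
  intro n hn
  rw [mem_support] at hn ⊢
  exact right_ne_zero_of_mul hn

theorem eul_add (f g : LS K) : eul (f + g) = eul f + eul g := by
  ext n
  simp [mul_add]

theorem eul_mul (f g : LS K) : eul (f * g) = eul f * g + f * eul g := by
  ext n
  rw [eul_coeff, coeff_add, coeff_mul_left' f.isPWO_support (eul_support f),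
    coeff_mul_right' g.isPWO_support (eul_support g), coeff_mul, Finset.mul_sum,
    ← Finset.sum_add_distrib]
  refine Finset.sum_congr rfl fun ij hij => ?_
  rw [Finset.mem_addAntidiagonal] at hij
  rw [← hij.2.2, eul_coeff, eul_coeff]
  push_cast
  ring

theorem eul_zero : eul (0 : LS K) = 0 := by
  ext n; simp

theorem eul_C (c : K) : eul (C c : LS K) = 0 := by
  ext n
  rw [eul_coeff, C_apply, coeff_single, coeff_zero]
  split_ifs with h
  · simp [h]
  · simp

theorem eul_one : eul (1 : LS K) = 0 := eul_C 1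

theorem eul_single (n : ℤ) (c : K) : eul (single n c : LS K) = single n ((n : K) * c) := by
  ext m
  rw [eul_coeff, coeff_single, coeff_single]
  split_ifs with h
  · rw [h]
  · rw [mul_zero]

theorem eul_pow (f : LS K) (n : ℕ) : eul (f ^ (n + 1)) = ((n + 1 : ℕ) : LS K) * f ^ n * eul f := by
  induction n with
  | zero => simp
  | succ n ih =>
    rw [pow_succ, eul_mul, ih]
    push_cast
    ring

theorem eul_pow_p {p : ℕ} [CharP K p] (hp : 0 < p) (f : LS K) : eul (f ^ p) = 0 := by
  obtain ⟨m, rfl⟩ : ∃ m, p = m + 1 := ⟨p - 1, by omega⟩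
  rw [eul_pow]
  have : ((m + 1 : ℕ) : LS K) = 0 := by
    have h1 : ((m + 1 : ℕ) : LS K) = (C : K →+* LS K) ((m + 1 : ℕ) : K) := (map_natCast _ _).symm
    rw [h1, CharP.cast_eq_zero, map_zero]
  rw [this, zero_mul, zero_mul]

theorem eul_sum {ι : Type*} (s : Finset ι) (f : ι → LS K) : eul (∑ i ∈ s, f i) = ∑ i ∈ s, eul (f i) := by
  classical
  induction s using Finset.induction_on with
  | empty => simp [eul_zero]
  | insert a s ha ih => rw [Finset.sum_insert ha, Finset.sum_insert ha, eul_add, ih]

/-- the chain rule -/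
theorem eul_aeval {σ : Type*} [Fintype σ] (t : σ → LS K) (Q : MvPolynomial σ ℤ) :
    eul (MvPolynomial.aeval t Q) =
      ∑ m, MvPolynomial.aeval t (MvPolynomial.pderiv m Q) * eul (t m) := by
  classical
  induction Q using MvPolynomial.induction_on with
  | C a =>
    rw [MvPolynomial.aeval_C]
    have : (algebraMap ℤ (LS K)) a = (C : K →+* LS K) (a : K) := by simp
    rw [this, eul_C]
    simp
  | add p q hp hq =>
    rw [map_add, eul_add, hp, hq, ← Finset.sum_add_distrib]
    refine Finset.sum_congr rfl fun m _ => ?_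
    rw [map_add, map_add, add_mul]
  | mul_X p n hp =>
    rw [map_mul, eul_mul, hp, MvPolynomial.aeval_X, Finset.sum_mul]
    have h1 : ∀ m, MvPolynomial.aeval t (MvPolynomial.pderiv m (p * MvPolynomial.X n)) * eul (t m) =
        MvPolynomial.aeval t (MvPolynomial.pderiv m p) * eul (t m) * t n +
        (if m = n then MvPolynomial.aeval t p * eul (t n) else 0) := by
      intro m
      rw [Derivation.leibniz, MvPolynomial.pderiv_X, map_add, smul_eq_mul, smul_eq_mul, map_mul,
        map_mul, MvPolynomial.aeval_X]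
      by_cases h : m = n
      · subst h
        rw [Pi.single_eq_same, map_one, if_pos rfl]
        ring
      · rw [Pi.single_eq_of_ne (Ne.symm h), map_zero, if_neg h]
        ring
    simp only [h1]
    rw [Finset.sum_add_distrib, Finset.sum_ite_eq' Finset.univ n, if_pos (Finset.mem_univ n)]

/-! ### logarithmic derivatives -/

/-- the logarithmic derivative -/
noncomputable def dl (f : LS K) : LS K := eul f / f

theorem dl_mul {f g : LS K} (hf : f ≠ 0) (hg : g ≠ 0) : dl (f * g) = dl f + dl g := by
  unfold dl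
  rw [eul_mul]
  field_simp

theorem dl_one : dl (1 : LS K) = 0 := by unfold dl; rw [eul_one, zero_div]

theorem dl_inv {f : LS K} (hf : f ≠ 0) : dl f⁻¹ = -dl f := by
  have h := dl_mul hf (inv_ne_zero hf)
  rw [mul_inv_cancel₀ hf, dl_one] at h
  exact (neg_eq_of_add_eq_zero_right h.symm).symm

/-- the logarithmic derivative as a homomorphism -/
noncomputable def dlHom : (LS K)ˣ →* Multiplicative (LS K) where
  toFun f := Multiplicative.ofAdd (dl (f : LS K))
  map_one' := by rw [Units.val_one, dl_one]; rfl
  map_mul' f g := by rw [Units.val_mul, dl_mul f.ne_zero g.ne_zero]; rfl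

theorem dl_zpow (f : (LS K)ˣ) (n : ℤ) : dl ((f ^ n : (LS K)ˣ) : LS K) = n * dl (f : LS K) := by
  have h : dlHom (f ^ n) = (dlHom f) ^ n := map_zpow _ _ _
  have h2 : dl ((f ^ n : (LS K)ˣ) : LS K) = n • dl (f : LS K) := congrArg Multiplicative.toAdd h
  rw [h2, zsmul_eq_mul]

theorem dl_prod {ι : Type*} (s : Finset ι) (f : ι → (LS K)ˣ) :
    dl ((∏ i ∈ s, f i : (LS K)ˣ) : LS K) = ∑ i ∈ s, dl (f i : LS K) := by
  classical
  induction s using Finset.induction_on with
  | empty => simp [dl_one]
  | insert a s ha ih =>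
    rw [Finset.prod_insert ha, Finset.sum_insert ha, Units.val_mul, dl_mul (Units.ne_zero _)
      (Units.ne_zero _), ih]

theorem eul_eq_mul_dl {f : LS K} (hf : f ≠ 0) : eul f = f * dl f := by
  unfold dl; field_simp

/-- the logarithmic derivative of the power of the variable -/
theorem dl_single (n : ℤ) : dl (single n (1 : K) : LS K) = C (n : K) := by
  unfold dl
  rw [eul_single, mul_one]
  have h : (single n (1 : K) : LS K) ≠ 0 := single_ne_zero one_ne_zero
  rw [div_eq_iff h, C_apply, single_mul_single, zero_add, mul_one]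

/-- the logarithmic derivative of an invertible power series has no constant coefficient -/
theorem dl_unit_coeff (u : (PowerSeries K)ˣ) :
    (dl (ofPowerSeries ℤ K (u : PowerSeries K))).coeff 0 = 0 := by
  have hne : ofPowerSeries ℤ K (u : PowerSeries K) ≠ 0 := by
    intro h
    rw [map_eq_zero_iff _ ofPowerSeries_injective] at h
    exact u.ne_zero h
  have h1 : ∃ g : PowerSeries K, eul (ofPowerSeries ℤ K (u : PowerSeries K)) =
      ofPowerSeries ℤ K (PowerSeries.X * g) := by
    refine ⟨PowerSeries.mk fun n => ((n + 1 : ℕ) : K) * PowerSeries.coeff (n + 1) (u : PowerSeries K), ?_⟩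
    ext m
    rw [eul_coeff]
    rcases lt_trichotomy m 0 with hm | hm | hm
    · have h2 : ∀ f : PowerSeries K, (ofPowerSeries ℤ K f).coeff m = 0 := by
        intro f
        rw [ofPowerSeries_apply]
        apply embDomain_notin_image_support
        rintro ⟨k, _, hk⟩
        have : (k : ℤ) = m := hk
        omega
      rw [h2, h2, mul_zero]
    · subst hm
      have h3 := ofPowerSeries_apply_coeff (Γ := ℤ) (PowerSeries.X * PowerSeries.mk fun n =>
        ((n + 1 : ℕ) : K) * PowerSeries.coeff (n + 1) (u : PowerSeries K)) 0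
      have h4 : ((0 : ℕ) : ℤ) = 0 := rfl
      rw [h4] at h3
      rw [h3]
      simp
    · obtain ⟨n, rfl⟩ : ∃ n : ℕ, m = ((n + 1 : ℕ) : ℤ) := ⟨(m - 1).toNat, by omega⟩
      rw [ofPowerSeries_apply_coeff, ofPowerSeries_apply_coeff, PowerSeries.coeff_succ_X_mul,
        PowerSeries.coeff_mk]
      push_cast
      ring
  obtain ⟨g, hg⟩ := h1
  have h2 : dl (ofPowerSeries ℤ K (u : PowerSeries K)) =
      ofPowerSeries ℤ K (PowerSeries.X * g * ((u⁻¹ : (PowerSeries K)ˣ) : PowerSeries K)) := by
    unfold dl
    rw [hg, div_eq_iff hne, ← map_mul, mul_assoc, mul_assoc]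
    simp
  rw [h2]
  have h3 := ofPowerSeries_apply_coeff (Γ := ℤ) (PowerSeries.X * g * ((u⁻¹ : (PowerSeries K)ˣ) : PowerSeries K)) 0
  have h4 : ((0 : ℕ) : ℤ) = 0 := rfl
  rw [h4] at h3
  rw [h3, mul_assoc, PowerSeries.coeff_zero_X_mul]

end Pool.Agent.Y226.ZG
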