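import Pool.Agent.Y226.ZG.Curve

/-!
# Generic points
-/

set_option autoImplicit false
set_option linter.unusedSectionVars false

open Polynomial

namespace Pool.Agent.Y226.ZG

section

variable {k : Type} [Field k] {σ : Type}

/-- the function field of a prime ideal -/
theorem ff_of_prime (𝔮 : Ideal (MvPolynomial σ k)) [h𝔮 : 𝔮.IsPrime] :
    ∃ (𝔽 : Type) (_ : Field 𝔽) (_ : Algebra k 𝔽) (x : σ → 𝔽),
      (∀ F' : Subfield 𝔽, (∀ c : k, algebraMap k 𝔽 c ∈ F') → (∀ i, x i ∈ F') → F' = ⊤) ∧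
      ∀ f : MvPolynomial σ k, MvPolynomial.aeval x f = 0 ↔ f ∈ 𝔮 := by
  let A := MvPolynomial σ k ⧸ 𝔮
  let 𝔽 := FractionRing A
  let x : σ → 𝔽 := fun i => algebraMap A 𝔽 (Ideal.Quotient.mk 𝔮 (MvPolynomial.X i))
  have hx : ∀ f : MvPolynomial σ k, MvPolynomial.aeval x f =
      algebraMap A 𝔽 (Ideal.Quotient.mk 𝔮 f) := by
    intro f
    have h1 : (MvPolynomial.aeval x : MvPolynomial σ k →ₐ[k] 𝔽).toRingHom =
        (algebraMap A 𝔽).comp (Ideal.Quotient.mk 𝔮) := by
      apply MvPolynomial.ringHom_ext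
      · intro c
        show MvPolynomial.aeval x (MvPolynomial.C c) = _
        rw [MvPolynomial.aeval_C]
        rfl
      · intro i
        show MvPolynomial.aeval x (MvPolynomial.X i) = _
        rw [MvPolynomial.aeval_X]
        rfl
    exact congrArg (fun φ : MvPolynomial σ k →+* 𝔽 => φ f) h1
  refine ⟨𝔽, inferInstance, inferInstance, x, ?_, ?_⟩
  · intro F' hc hx'
    rw [eq_top_iff]
    intro z _
    have hA : ∀ a : A, algebraMap A 𝔽 a ∈ F' := by
      intro a
      obtain ⟨f, rfl⟩ := Ideal.Quotient.mk_surjective a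
      rw [← hx, MvPolynomial.aeval_def, MvPolynomial.eval₂_eq]
      exact sum_mem fun d _ => mul_mem (hc _) (prod_mem fun i _ => pow_mem (hx' i) _)
    obtain ⟨a, b, -, rfl⟩ := IsFractionRing.div_surjective (A := A) z
    exact div_mem (hA a) (hA b)
  · intro f
    rw [hx, map_eq_zero_iff _ (IsFractionRing.injective A 𝔽), Ideal.Quotient.eq_zero_iff_mem]

/-- an infinite set of points has a generic point of positive dimension in its closure -/
theorem exists_ff [IsAlgClosed k] [Finite σ] {S : Set (σ → k)} (hS : S.Infinite) :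
    ∃ (𝔽 : Type) (_ : Field 𝔽) (_ : Algebra k 𝔽) (x : σ → 𝔽),
      (∀ F' : Subfield 𝔽, (∀ c : k, algebraMap k 𝔽 c ∈ F') → (∀ i, x i ∈ F') → F' = ⊤) ∧
      (∃ i, Transcendental k (x i)) ∧
      ∀ f : MvPolynomial σ k, (∀ s ∈ S, MvPolynomial.eval s f = 0) →
        MvPolynomial.aeval x f = 0 := by
  classical
  set I : Ideal (MvPolynomial σ k) := ⨅ s : S, RingHom.ker (MvPolynomial.eval (s : σ → k)) with hI
  have hImem : ∀ f, f ∈ I ↔ ∀ s ∈ S, MvPolynomial.eval s f = 0 := by
    intro f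
    rw [hI, Ideal.mem_iInf]
    constructor
    · intro h s hs
      exact h ⟨s, hs⟩
    · intro h s
      exact h s s.2
  have hfin : I.minimalPrimes.Finite := Ideal.finite_minimalPrimes_of_isNoetherianRing _ I
  have hcov : S ⊆ ⋃ 𝔮 ∈ I.minimalPrimes, {s ∈ S | 𝔮 ≤ RingHom.ker (MvPolynomial.eval s)} := by
    intro s hs
    have hp : (RingHom.ker (MvPolynomial.eval s) : Ideal (MvPolynomial σ k)).IsPrime :=
      RingHom.ker_isPrime _
    have hle : I ≤ RingHom.ker (MvPolynomial.eval s) := by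
      intro f hf
      exact (hImem f).1 hf s hs
    obtain ⟨𝔮, h𝔮, hle'⟩ := Ideal.exists_minimalPrimes_le hle
    rw [Set.mem_iUnion₂]
    exact ⟨𝔮, h𝔮, hs, hle'⟩
  have hex : ∃ 𝔮 ∈ I.minimalPrimes, {s ∈ S | 𝔮 ≤ RingHom.ker (MvPolynomial.eval s)}.Infinite := by
    by_contra hcon
    push Not at hcon
    apply hS
    refine Set.Finite.subset (Set.Finite.biUnion hfin fun 𝔮 h𝔮 => ?_) hcov
    exact hcon 𝔮 h𝔮
  obtain ⟨𝔮, h𝔮, hinf⟩ := hex
  haveI : 𝔮.IsPrime := h𝔮.1.1
  obtain ⟨𝔽, h1, h2, x, hgen, hx⟩ := ff_of_prime 𝔮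
  refine ⟨𝔽, h1, h2, x, hgen, ?_, ?_⟩
  · by_contra hcon
    push Not at hcon
    apply hinf
    have hc : ∀ i, ∃ c : k, x i = algebraMap k 𝔽 c := by
      intro i
      have h3 : IsAlgebraic k (x i) := by
        have := hcon i
        unfold Transcendental at this
        exact not_not.1 this
      obtain ⟨r, hr, hr0⟩ := h3
      exact root_const (algebraMap k 𝔽) hr hr0
    choose c hc using hc
    refine Set.Finite.subset (Set.finite_singleton c) ?_
    rintro s ⟨hs, hle⟩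
    rw [Set.mem_singleton_iff]
    funext i
    have h3 : MvPolynomial.X i - MvPolynomial.C (c i) ∈ 𝔮 := by
      rw [← hx, map_sub, MvPolynomial.aeval_X, MvPolynomial.aeval_C, hc i, sub_self]
    have h4 : MvPolynomial.eval s (MvPolynomial.X i - MvPolynomial.C (c i)) = 0 := hle h3
    rw [map_sub, MvPolynomial.eval_X, MvPolynomial.eval_C, sub_eq_zero] at h4
    exact h4
  · intro f hf
    rw [hx]
    exact h𝔮.1.2 ((hImem f).2 hf)

end

end Pool.Agent.Y226.ZG
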