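import Pool.Agent.Y226.ZG.Curve

/-!
# Curves in general position
-/

set_option autoImplicit false
set_option linter.unusedSectionVars false

open Polynomial

namespace Pool.Agent.Y226.ZG

/-! ### roots of factorizations -/

theorem PFac.eval_root {A : Type*} [CommRing A] {N : ℕ} {g : A[X][X]} {L : (PowerSeries A)ˣ}
    {ys : Multiset (PowerSeries A)ˣ} (h : PFac N g L ys) {y : (PowerSeries A)ˣ} (hy : y ∈ ys) :
    (g.map (inn N)).eval (y : PowerSeries A) = 0 := by
  unfold PFac at h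
  rw [h, eval_mul, eval_C]
  have : ((ys.map fun y : (PowerSeries A)ˣ => X - C (y : PowerSeries A)).prod).eval
      (y : PowerSeries A) = 0 := by
    obtain ⟨t, rfl⟩ := Multiset.exists_cons_of_mem hy
    rw [Multiset.map_cons, Multiset.prod_cons, eval_mul]
    simp
  rw [this, mul_zero]

/-- the order of a monomial at a place -/
theorem place_dl {K : Type*} [Field K] {N : ℕ} {n : ℕ} (a : Fin n) (X : Fin n → (LS K)ˣ)
    (hXa : (X a : LS K) = HahnSeries.single (N : ℤ) 1)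
    (hX : ∀ j, j ≠ a → ∃ y : (PowerSeries K)ˣ,
      (X j : LS K) = HahnSeries.ofPowerSeries ℤ K (y : PowerSeries K)) (v : Fin n → ℤ) :
    (dl ((∏ i, X i ^ v i : (LS K)ˣ) : LS K)).coeff 0 = (v a : K) * N := by
  rw [dl_prod]
  have h1 : ∀ i, dl ((X i ^ v i : (LS K)ˣ) : LS K) = v i • dl (X i : LS K) := by
    intro i
    rw [dl_zpow, zsmul_eq_mul]
  simp only [h1]
  have h2 : (∑ i, v i • dl (X i : LS K)).coeff 0 = ∑ i, (v i • dl (X i : LS K)).coeff 0 :=
    map_sum (HahnSeries.coeff.addMonoidHom (0 : ℤ)) _ _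
  rw [h2, Finset.sum_eq_single a]
  · rw [HahnSeries.coeff_smul, hXa, dl_single, HahnSeries.C_apply, HahnSeries.coeff_single_same,
      zsmul_eq_mul, Int.cast_natCast]
  · intro j _ hj
    obtain ⟨y, hy⟩ := hX j hj
    rw [HahnSeries.coeff_smul, hy, dl_unit_coeff, smul_zero]
  · intro h
    exact absurd (Finset.mem_univ a) h

theorem dl_const {K : Type*} [Field K] (c : K) : dl (HahnSeries.C c : LS K) = 0 := by
  unfold dl
  rw [eul_C, zero_div]

/-- a coordinate or its inverse -/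
def xs {𝔽 : Type*} [Field 𝔽] {n : ℕ} (x : Fin n → 𝔽) (i : Fin n) (s : Bool) : 𝔽 :=
  if s then (x i)⁻¹ else x i

/-- The function field of a curve in general position, with Puiseux factorizations. -/
structure GP (K 𝔽 : Type) [Field K] [Field 𝔽] [Algebra K 𝔽] (n : ℕ) where
  x : Fin n → 𝔽
  gen : ∀ F' : Subfield 𝔽, (∀ c : K, algebraMap K 𝔽 c ∈ F') → (∀ i, x i ∈ F') → F' = ⊤
  tr : ∀ i, Transcendental K (x i)
  N : ℕ
  hN : 0 < N
  g : Fin n → Bool → Fin n → K[X][X]
  a : Fin n → Bool → Fin n → ℕ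
  b : Fin n → Bool → Fin n → ℕ
  irr : ∀ i s j, i ≠ j → Irreducible (g i s j)
  cor : ∀ i s j, i ≠ j → Cor4 (a i s j) (b i s j) (g i s j)
  rel : ∀ i s j, i ≠ j → E2 (algebraMap K 𝔽) (xs x i s) (x j) (g i s j) = 0
  L : Fin n → Bool → Fin n → (PowerSeries K)ˣ
  ys : Fin n → Bool → Fin n → Multiset (PowerSeries K)ˣ
  fac : ∀ i s j, i ≠ j → PFac N (g i s j) (L i s j) (ys i s j)

/-- existence of the data -/
theorem exists_GP {K 𝔽 : Type} [Field K] [Field 𝔽] [Algebra K 𝔽] [IsAlgClosed K] [CharZero K]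
    {n : ℕ} (x : Fin n → 𝔽)
    (gen : ∀ F' : Subfield 𝔽, (∀ c : K, algebraMap K 𝔽 c ∈ F') → (∀ i, x i ∈ F') → F' = ⊤)
    (tr : ∀ i, Transcendental K (x i))
    (hpos : ∀ i j, i ≠ j → ∃ (a b : ℕ) (g : K[X][X]), Cor4 a b g ∧
      E2 (algebraMap K 𝔽) (x i) (x j) g = 0) :
    ∃ 𝒞 : GP K 𝔽 n, 𝒞.x = x := by
  classical
  have hx0 : ∀ i, x i ≠ 0 := by
    intro i h0
    have := tr i
    rw [h0] at this
    exact this isAlgebraic_zero
  have h1 : ∀ (i : Fin n) (s : Bool) (j : Fin n), ∃ (a b : ℕ) (g : K[X][X]), i ≠ j →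
      Irreducible g ∧ Cor4 a b g ∧ E2 (algebraMap K 𝔽) (xs x i s) (x j) g = 0 := by
    intro i s j
    by_cases hij : i = j
    · exact ⟨0, 0, 0, fun h => absurd hij h⟩
    obtain ⟨a, b, g, hg, hrel⟩ := hpos i j hij
    have h2 : ∃ (a b : ℕ) (g : K[X][X]), Cor4 a b g ∧
        E2 (algebraMap K 𝔽) (xs x i s) (x j) g = 0 := by
      cases s with
      | false => exact ⟨a, b, g, hg, hrel⟩
      | true => exact ⟨a, b, rv a g, hg.rv, E2_rv hg _ (hx0 i) hrel⟩
    obtain ⟨a', b', g', hg', hrel'⟩ := h2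
    obtain ⟨a₁, b₁, g₁, h3, h4, h5⟩ := hg'.exists_irreducible _ hrel'
    exact ⟨a₁, b₁, g₁, fun _ => ⟨h3, h4, h5⟩⟩
  choose a b g hg using h1
  let ι := {q : Fin n × Bool × Fin n // q.1 ≠ q.2.2}
  obtain ⟨N, hN, hfac⟩ := exists_PFac (ι := ι) (fun q => g q.1.1 q.1.2.1 q.1.2.2)
    (fun q => (hg q.1.1 q.1.2.1 q.1.2.2 q.2).2.1.cor2)
  have h6 : ∀ (i : Fin n) (s : Bool) (j : Fin n), ∃ (L : (PowerSeries K)ˣ)
      (ys : Multiset (PowerSeries K)ˣ), i ≠ j → PFac N (g i s j) L ys := by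
    intro i s j
    by_cases hij : i = j
    · exact ⟨1, 0, fun h => absurd hij h⟩
    · obtain ⟨L, ys, h⟩ := hfac ⟨(i, s, j), hij⟩
      exact ⟨L, ys, fun _ => h⟩
  choose L ys h7 using h6
  exact ⟨{ x := x, gen := gen, tr := tr, N := N, hN := hN, g := g, a := a, b := b,
           irr := fun i s j h => (hg i s j h).1
           cor := fun i s j h => (hg i s j h).2.1
           rel := fun i s j h => (hg i s j h).2.2
           L := L, ys := ys, fac := h7 }, rfl⟩

namespace GP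

variable {K 𝔽 : Type} [Field K] [Field 𝔽] [Algebra K 𝔽] {n : ℕ} (𝒞 : GP K 𝔽 n)

theorem x_ne (i : Fin n) : 𝒞.x i ≠ 0 := by
  intro h0
  have := 𝒞.tr i
  rw [h0] at this
  exact this isAlgebraic_zero

theorem xs_ne (i : Fin n) (s : Bool) : xs 𝒞.x i s ≠ 0 := by
  unfold xs
  split_ifs
  · exact inv_ne_zero (𝒞.x_ne i)
  · exact 𝒞.x_ne i

/-- a place at a zero (`s = false`) or pole (`s = true`) of the coordinate `i` -/
theorem exists_place (i : Fin n) (s : Bool) : ∃ (Ω : Type) (_ : Field Ω) (σ : 𝔽 →+* Ω)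
    (τ : LS K →+* Ω), (∀ c : K, σ (algebraMap K 𝔽 c) = τ (HahnSeries.C c)) ∧
      σ (xs 𝒞.x i s) = τ (HahnSeries.single (𝒞.N : ℤ) 1) ∧
      ∀ j, j ≠ i → ∃ y ∈ 𝒞.ys i s j,
        σ (𝒞.x j) = τ (HahnSeries.ofPowerSeries ℤ K (y : PowerSeries K)) := by
  classical
  have htr : Transcendental K (xs 𝒞.x i s) := by
    unfold xs
    split_ifs
    · intro h
      have := h.inv
      rw [inv_inv] at this
      exact 𝒞.tr i this
    · exact 𝒞.tr i
  obtain ⟨Ω, hΩ, σ, τ, h1, h2, h3⟩ := Pool.Agent.Y226.ZG.exists_place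
    (Function.update 𝒞.x i (xs 𝒞.x i s)) i (by simpa using htr) (by
      intro F' hF hx
      apply 𝒞.gen F' hF
      intro j
      by_cases hj : j = i
      · have h1 := hx i
        rw [Function.update_self] at h1
        rw [hj]
        unfold xs at h1
        split_ifs at h1 with hs
        · have := F'.inv_mem h1
          rwa [inv_inv] at this
        · exact h1
      · have h1 := hx j
        rwa [Function.update_of_ne hj] at h1) 𝒞.hN (fun j => 𝒞.g i s j) (fun j => 𝒞.L i s j)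
    (fun j => 𝒞.ys i s j) (by
      intro j hj
      rw [Function.update_self, Function.update_of_ne hj]
      exact 𝒞.rel i s j hj.symm) (fun j hj => 𝒞.fac i s j hj.symm)
  refine ⟨Ω, hΩ, σ, τ, h1, by simpa using h2, fun j hj => ?_⟩
  have := h3 j hj
  rwa [Function.update_of_ne hj] at this

/-- units -/
theorem mon_ne [CharZero K] {v : Fin n → ℤ} (hv : v ≠ 0) (c : K) :
    ∏ i, 𝒞.x i ^ v i ≠ algebraMap K 𝔽 c := by
  classical
  intro hc
  obtain ⟨a, ha⟩ := Function.ne_iff.1 hv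
  obtain ⟨Ω, _, σ, τ, h1, h2, h3⟩ := 𝒞.exists_place a false
  have h4 : ∀ j, ∃ X : (LS K)ˣ, σ (𝒞.x j) = τ (X : LS K) ∧
      (j = a → (X : LS K) = HahnSeries.single (𝒞.N : ℤ) 1) ∧
      (j ≠ a → ∃ y : (PowerSeries K)ˣ, (X : LS K) = HahnSeries.ofPowerSeries ℤ K (y : PowerSeries K)) := by
    intro j
    by_cases hj : j = a
    · refine ⟨Units.mk0 (HahnSeries.single (𝒞.N : ℤ) 1) (HahnSeries.single_ne_zero one_ne_zero),
        ?_, fun _ => rfl, fun h => absurd hj h⟩
      rw [hj]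
      exact h2
    · obtain ⟨y, -, hy⟩ := h3 j hj
      refine ⟨Units.mk0 (HahnSeries.ofPowerSeries ℤ K (y : PowerSeries K)) ?_, hy,
        fun h => absurd h hj, fun _ => ⟨y, rfl⟩⟩
      intro h0
      rw [map_eq_zero_iff _ HahnSeries.ofPowerSeries_injective] at h0
      exact y.ne_zero h0
  choose X hX1 hX2 hX3 using h4
  have h5 : ((∏ i, X i ^ v i : (LS K)ˣ) : LS K) = HahnSeries.C c := by
    apply τ.injective
    rw [← h1, ← hc, map_prod, Units.coe_prod, map_prod]
    refine Finset.prod_congr rfl fun i _ => ?_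
    rw [Units.val_zpow_eq_zpow_val, map_zpow₀, map_zpow₀, hX1]
  have h6 := place_dl (N := 𝒞.N) a X (hX2 a rfl) (fun j hj => hX3 j hj) v
  rw [h5, dl_const, HahnSeries.coeff_zero] at h6
  rcases mul_eq_zero.1 h6.symm with h7 | h7
  · exact ha (by simpa using h7)
  · have : 𝒞.N = 0 := by exact_mod_cast h7
    exact absurd this 𝒞.hN.ne'

/-- monomials -/
noncomputable def mon (v : Fin n → ℤ) : 𝔽 := ∏ i, 𝒞.x i ^ v i

theorem mon_ne_zero (v : Fin n → ℤ) : 𝒞.mon v ≠ 0 :=
  Finset.prod_ne_zero_iff.2 fun i _ => zpow_ne_zero _ (𝒞.x_ne i)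

theorem mon_comb (v w : Fin n → ℤ) (a b : ℤ) :
    𝒞.mon v ^ a * 𝒞.mon w ^ b = 𝒞.mon (fun i => a * v i + b * w i) := by
  unfold mon
  rw [← Finset.prod_zpow, ← Finset.prod_zpow, ← Finset.prod_mul_distrib]
  refine Finset.prod_congr rfl fun i _ => ?_
  rw [zpow_add₀ (𝒞.x_ne i), mul_comm a, mul_comm b, zpow_mul, zpow_mul]

theorem mon_tr [IsAlgClosed K] [CharZero K] {v : Fin n → ℤ} (hv : v ≠ 0) :
    Transcendental K (𝒞.mon v) := by
  rintro ⟨r, hr, hr0⟩
  obtain ⟨c, hc⟩ := root_const (algebraMap K 𝔽) hr hr0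
  exact 𝒞.mon_ne hv c hc

/-- everything is algebraic over one coordinate -/
theorem alg (i : Fin n) (f : 𝔽) : IsAlgebraic (Algebra.adjoin K ({𝒞.x i} : Set 𝔽)) f := by
  classical
  set A := Algebra.adjoin K ({𝒞.x i} : Set 𝔽) with hA
  let F' : Subfield 𝔽 :=
      { carrier := {f | IsAlgebraic A f}
        mul_mem' := fun {a b} ha hb => IsAlgebraic.mul ha hb
        one_mem' := isAlgebraic_one
        add_mem' := fun {a b} ha hb => IsAlgebraic.add ha hb
        zero_mem' := isAlgebraic_zero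
        neg_mem' := fun {a} ha => IsAlgebraic.neg ha
        inv_mem' := fun a ha => IsAlgebraic.inv ha }
  have h1 : F' = ⊤ := by
    apply 𝒞.gen
    · intro c
      exact isAlgebraic_algebraMap (algebraMap K A c)
    · intro j
      by_cases hj : j = i
      · rw [hj]
        exact isAlgebraic_algebraMap (⟨𝒞.x i, Algebra.subset_adjoin rfl⟩ : A)
      · have hrel := 𝒞.rel i false j (Ne.symm hj)
        let α' : K[X] →+* A :=
          (aeval (⟨𝒞.x i, Algebra.subset_adjoin rfl⟩ : A)).toRingHom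
        have hα' : ∀ q : K[X], ((α' q : A) : 𝔽) = aeval (𝒞.x i) q := by
          intro q
          have := aeval_algHom_apply (Subalgebra.val A)
            (⟨𝒞.x i, Algebra.subset_adjoin rfl⟩ : A) q
          exact this.symm
        have hinj : Function.Injective α' := by
          rw [injective_iff_map_eq_zero]
          intro q hq
          by_contra hq0
          apply 𝒞.tr i
          refine ⟨q, hq0, ?_⟩
          rw [← hα', hq]
          rfl
        refine ⟨(𝒞.g i false j).map α', ?_, ?_⟩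
        · exact (Polynomial.map_ne_zero_iff hinj).2 (𝒞.cor i false j (Ne.symm hj)).ne_zero
        · rw [aeval_def, eval₂_map, ← hrel, E2_apply]
          congr 1
          ext
          · simp [α', xs]
          · simp [α', xs]
  have h2 : f ∈ F' := by rw [h1]; trivial
  exact h2

/-- the relation polynomials -/
theorem exists_rel [IsAlgClosed K] [CharZero K] {v w : Fin n → ℤ}
    (hvw : ∀ a b : ℤ, (a, b) ≠ (0, 0) → (fun i => a * v i + b * w i) ≠ (0 : Fin n → ℤ)) :
    ∃ (h : K[X][X]), Irreducible h ∧ 0 < h.natDegree ∧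
      E2 (algebraMap K 𝔽) (𝒞.mon v) (𝒞.mon w) h = 0 ∧ (∀ d, BD d h → NoCoset K d (cf h)) ∧
      ∃ (U V : K[X][X]) (r : K[X]), r ≠ 0 ∧ U * h + V * (X * derivative h) = C r := by
  have hv : v ≠ 0 := by
    intro h0
    apply hvw 1 0 (by simp)
    funext i
    simp [h0]
  obtain ⟨i, -⟩ := Function.ne_iff.1 hv
  have htr := 𝒞.mon_tr hv
  obtain ⟨P, hP, hP0⟩ := exists_E2 (𝒞.alg i) htr (𝒞.mon w)
  obtain ⟨h, hirr, h0⟩ := exists_irr hP _ hP0
  have hpos : 0 < h.natDegree := by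
    by_contra hcon
    have h1 : h.natDegree = 0 := by omega
    rw [eq_C_of_natDegree_eq_zero h1, E2_C] at h0
    have h2 : h.coeff 0 = 0 := by
      by_contra h3
      exact htr ⟨h.coeff 0, h3, h0⟩
    apply hirr.ne_zero
    rw [eq_C_of_natDegree_eq_zero h1, h2, C_0]
  refine ⟨h, hirr, hpos, h0, ?_, ?_⟩
  · intro d hd
    refine noCoset_of (𝒞.mon_ne_zero v) (𝒞.mon_ne_zero w) ?_ hirr hpos h0 hd
    intro a b hab c
    rw [mon_comb]
    exact 𝒞.mon_ne (hvw a b hab) c
  · apply gauss hirr hpos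
    intro hdvd
    rcases hirr.prime.dvd_or_dvd hdvd with h1 | h1
    · obtain ⟨q, hq⟩ := h1
      have h2 := congrArg (E2 (algebraMap K 𝔽) (𝒞.mon v) (𝒞.mon w)) hq
      rw [E2_X, map_mul, h0, zero_mul] at h2
      exact 𝒞.mon_ne_zero w h2
    · have h2 : derivative h ≠ 0 := by
        intro h3
        have := natDegree_eq_zero_of_derivative_eq_zero h3
        omega
      have h3 := natDegree_le_of_dvd h1 h2
      have h4 := natDegree_derivative_lt hpos.ne'
      omega

/-- the Puiseux series are not constant -/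
theorem y_ne_const {i j : Fin n} {s : Bool} (hij : i ≠ j) {y : (PowerSeries K)ˣ}
    (hy : y ∈ 𝒞.ys i s j) (c : K) : (y : PowerSeries K) ≠ PowerSeries.C c := by
  intro hc
  have h1 := (𝒞.fac i s j hij).eval_root hy
  rw [hc, ← inn_C 𝒞.N c, eval_map, eval₂_at_apply] at h1
  have h2 : (𝒞.g i s j).eval (C c) = 0 :=
    (map_eq_zero_iff _ (inn_injective 𝒞.hN)).1 h1
  obtain ⟨q, hq⟩ := dvd_iff_isRoot.2 h2
  have hirr := 𝒞.irr i s j hij
  have hrel := 𝒞.rel i s j hij
  rcases hirr.isUnit_or_isUnit hq with h3 | h3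
  · exact absurd (natDegree_eq_zero_of_isUnit h3) (by rw [natDegree_X_sub_C]; norm_num)
  · rw [hq, map_mul] at hrel
    rcases mul_eq_zero.1 hrel with h4 | h4
    · rw [map_sub, E2_X, E2_CC, sub_eq_zero] at h4
      apply 𝒞.tr j
      rw [h4]
      exact isAlgebraic_algebraMap _
    · exact (h3.map (E2 (algebraMap K 𝔽) (xs 𝒞.x i s) (𝒞.x j))).ne_zero h4

theorem natDegree_g_pos {i j : Fin n} {s : Bool} (hij : i ≠ j) : 0 < (𝒞.g i s j).natDegree := by
  by_contra hcon
  have h1 : (𝒞.g i s j).natDegree = 0 := by omega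
  have hrel := 𝒞.rel i s j hij
  rw [eq_C_of_natDegree_eq_zero h1, E2_C] at hrel
  have h2 : (𝒞.g i s j).coeff 0 = 0 := by
    by_contra h3
    have h4 : IsAlgebraic K (xs 𝒞.x i s) := ⟨_, h3, hrel⟩
    unfold xs at h4
    split_ifs at h4
    · have := h4.inv
      rw [inv_inv] at this
      exact 𝒞.tr i this
    · exact 𝒞.tr i h4
  apply (𝒞.irr i s j hij).ne_zero
  rw [eq_C_of_natDegree_eq_zero h1, h2, C_0]

/-- the roots are simple -/
theorem sep [CharZero K] {i j : Fin n} {s : Bool} (hij : i ≠ j) {y : (PowerSeries K)ˣ}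
    (hy : y ∈ 𝒞.ys i s j) :
    ((𝒞.g i s j).map (inn 𝒞.N)).derivative.eval (y : PowerSeries K) ≠ 0 := by
  intro h0
  have h1 := (𝒞.fac i s j hij).eval_root hy
  have hpos := 𝒞.natDegree_g_pos (s := s) hij
  have hirr := 𝒞.irr i s j hij
  have hnd : ¬ 𝒞.g i s j ∣ derivative (𝒞.g i s j) := by
    intro hdvd
    have h2 : derivative (𝒞.g i s j) ≠ 0 := by
      intro h3
      have := natDegree_eq_zero_of_derivative_eq_zero h3
      omega
    have h3 := natDegree_le_of_dvd hdvd h2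
    have h4 := natDegree_derivative_lt hpos.ne'
    omega
  obtain ⟨U, V, r, hr, hUV⟩ := gauss hirr hpos hnd
  have h2 := congrArg (fun P => (P.map (inn 𝒞.N)).eval (y : PowerSeries K)) hUV
  simp only [Polynomial.map_add, Polynomial.map_mul, eval_add, eval_mul, h1, mul_zero,
    Polynomial.map_C, eval_C] at h2
  rw [← derivative_map, h0, mul_zero, add_zero] at h2
  exact hr ((map_eq_zero_iff _ (inn_injective 𝒞.hN)).1 h2.symm)

/-- combinations of branches -/
theorem branch [IsAlgClosed K] [CharZero K] {i j k : Fin n} {s : Bool} (hij : i ≠ j) (hjk : j ≠ k)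
    {y y' : (PowerSeries K)ˣ} (hy : y ∈ 𝒞.ys i s j) {A B : ℕ} (hB : 0 < B) :
    (∃ m, PowerSeries.coeff m (E2 (PowerSeries.C (R := K)) (y : PowerSeries K)
      (y' : PowerSeries K) (𝒞.g j false k)) ≠ 0) ∨
    (∃ m, 0 < m ∧ PowerSeries.coeff m ((y' : PowerSeries K) ^ B *
      ((y⁻¹ : (PowerSeries K)ˣ) : PowerSeries K) ^ A) ≠ 0) := by
  classical
  by_contra hcon
  push Not at hcon
  obtain ⟨h1, h2⟩ := hcon
  have h1' : E2 (PowerSeries.C (R := K)) (y : PowerSeries K) (y' : PowerSeries K)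
      (𝒞.g j false k) = 0 := PowerSeries.ext fun m => by rw [h1 m, map_zero]
  set c := PowerSeries.coeff 0 ((y' : PowerSeries K) ^ B *
      ((y⁻¹ : (PowerSeries K)ˣ) : PowerSeries K) ^ A) with hc
  have h2' : (y' : PowerSeries K) ^ B * ((y⁻¹ : (PowerSeries K)ˣ) : PowerSeries K) ^ A =
      PowerSeries.C c := by
    ext m
    rw [PowerSeries.coeff_C]
    split_ifs with hm
    · rw [hm]
    · exact h2 m (Nat.pos_of_ne_zero hm)
  have h3 : (y' : PowerSeries K) ^ B = PowerSeries.C c * (y : PowerSeries K) ^ A := by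
    rw [← h2', mul_assoc, ← mul_pow]
    simp
  set Bin : K[X][X] := X ^ B - C (C c * X ^ A) with hBin
  have hBz : E2 (PowerSeries.C (R := K)) (y : PowerSeries K) (y' : PowerSeries K) Bin = 0 := by
    rw [hBin, map_sub, map_pow, E2_X, E2_C, h3, eval₂_mul, eval₂_C, eval₂_pow, eval₂_X, sub_self]
  have hnd : ¬ 𝒞.g j false k ∣ Bin := by
    rintro ⟨q, hq⟩
    have h4 := congrArg (E2 (algebraMap K 𝔽) (𝒞.x j) (𝒞.x k)) hq
    have h5 : E2 (algebraMap K 𝔽) (𝒞.x j) (𝒞.x k) (𝒞.g j false k) = 0 := 𝒞.rel j false k hjk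
    rw [map_mul, h5, zero_mul, hBin, map_sub, map_pow, E2_X, E2_C, eval₂_mul, eval₂_C,
      eval₂_pow, eval₂_X, sub_eq_zero] at h4
    set v : Fin n → ℤ := fun l => (if l = k then (B : ℤ) else 0) - (if l = j then (A : ℤ) else 0)
      with hv
    have hv0 : v ≠ 0 := by
      intro h0
      have := congrFun h0 k
      rw [hv] at this
      simp only [if_true, if_neg hjk.symm, Pi.zero_apply, sub_zero] at this
      omega
    apply 𝒞.mon_ne hv0 c
    have h6 : ∏ l, 𝒞.x l ^ v l = 𝒞.x k ^ B / 𝒞.x j ^ A := by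
      have h7 : ∀ l, 𝒞.x l ^ v l = (if l = k then 𝒞.x l ^ B else 1) / (if l = j then 𝒞.x l ^ A else 1) := by
        intro l
        rw [hv]
        simp only
        rw [zpow_sub₀ (𝒞.x_ne l)]
        congr 1
        · split_ifs <;> simp
        · split_ifs <;> simp
      simp only [h7]
      rw [Finset.prod_div_distrib, Finset.prod_ite_eq' , Finset.prod_ite_eq',
        if_pos (Finset.mem_univ _), if_pos (Finset.mem_univ _)]
    rw [h6, h4]
    have : 𝒞.x j ^ A ≠ 0 := pow_ne_zero _ (𝒞.x_ne j)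
    field_simp
  obtain ⟨U, V, r, hr, hUV⟩ := gauss (𝒞.irr j false k hjk) (𝒞.natDegree_g_pos hjk) hnd
  have h4 := congrArg (E2 (PowerSeries.C (R := K)) (y : PowerSeries K) (y' : PowerSeries K)) hUV
  rw [map_add, map_mul, map_mul, h1', hBz, mul_zero, mul_zero, add_zero, E2_C] at h4
  obtain ⟨c', hc'⟩ := root_const _ hr h4.symm
  exact 𝒞.y_ne_const hij hy c' hc'

end GP

end Pool.Agent.Y226.ZG
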