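import Pool.Agent.Y226.ZG.Loc5
import Pool.Agent.Y226.ZP.Glob

/-!
# Global preparations
-/

set_option autoImplicit false
set_option linter.unusedSectionVars false

open UpperHalfPlane H294ZP Polynomial

namespace Pool.Agent.Y226.ZG

open Pool.Agent.Y226

/-! ### clearing denominators -/

section clr

variable {K : Type} [Field K] {σ : Type}

/-- clearing denominators -/
noncomputable def clr (h : K[X][X]) (d : ℕ) (u u' w w' : MvPolynomial σ K) : MvPolynomial σ K :=
  ∑ m ∈ box d, MvPolynomial.C (cf h m) * (u ^ m.1 * u' ^ (d - m.1)) * (w ^ m.2 * w' ^ (d - m.2))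

theorem clr_map {L : Type} [Field L] (θ : MvPolynomial σ K →+* L) (ι : K →+* L)
    (hι : ∀ c, θ (MvPolynomial.C c) = ι c) {h : K[X][X]} {d : ℕ} (hd : BD d h)
    {u u' w w' : MvPolynomial σ K} {a b : L} (ha : θ u = a * θ u') (hb : θ w = b * θ w') :
    θ (clr h d u u' w w') = θ u' ^ d * θ w' ^ d * E2 ι a b h := by
  unfold clr
  rw [map_sum, E2_eq_sum hd, Finset.mul_sum]
  refine Finset.sum_congr rfl fun m hm => ?_
  simp only [box, Finset.mem_product, Finset.mem_range] at hm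
  have h1 : m.1 ≤ d := by omega
  have h2 : m.2 ≤ d := by omega
  have e1 : θ u' ^ d = θ u' ^ m.1 * θ u' ^ (d - m.1) := by rw [← pow_add, Nat.add_sub_cancel' h1]
  have e2 : θ w' ^ d = θ w' ^ m.2 * θ w' ^ (d - m.2) := by rw [← pow_add, Nat.add_sub_cancel' h2]
  simp only [map_mul, map_pow]
  rw [hι, ha, hb, e1, e2]
  ring

/-- relations at points -/
theorem pt_rel {𝔽 : Type} [Field 𝔽] [Algebra K 𝔽] {I : Ideal (MvPolynomial σ K)} {x : σ → 𝔽}
    (hx : ∀ f : MvPolynomial σ K, MvPolynomial.aeval x f = 0 ↔ f ∈ I) {P : σ → K}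
    (hP : ∀ f ∈ I, MvPolynomial.eval P f = 0) {h : K[X][X]} {u u' w w' : MvPolynomial σ K}
    {a b : 𝔽} (ha : MvPolynomial.aeval x u = a * MvPolynomial.aeval x u')
    (hb : MvPolynomial.aeval x w = b * MvPolynomial.aeval x w')
    (hrel : E2 (algebraMap K 𝔽) a b h = 0) {a' b' : K}
    (ha' : MvPolynomial.eval P u = a' * MvPolynomial.eval P u')
    (hb' : MvPolynomial.eval P w = b' * MvPolynomial.eval P w')
    (hu' : MvPolynomial.eval P u' ≠ 0) (hw' : MvPolynomial.eval P w' ≠ 0) :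
    E2 (RingHom.id K) a' b' h = 0 := by
  obtain ⟨d, hd⟩ := exists_BD h
  have h1 : clr h d u u' w w' ∈ I := by
    rw [← hx]
    have := clr_map ((MvPolynomial.aeval x : MvPolynomial σ K →ₐ[K] 𝔽).toRingHom)
      (algebraMap K 𝔽) (fun c => by
        show MvPolynomial.aeval x (MvPolynomial.C c) = _
        rw [MvPolynomial.aeval_C]) hd ha hb
    refine this.trans ?_
    rw [hrel, mul_zero]
  have h2 := hP _ h1
  have h3 := clr_map (MvPolynomial.eval P) (RingHom.id K) (fun c => by simp) hd ha' hb'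
  rw [h2] at h3
  rcases mul_eq_zero.1 h3.symm with h4 | h4
  · exact absurd h4 (mul_ne_zero (pow_ne_zero _ hu') (pow_ne_zero _ hw'))
  · exact h4

/-- numerators and denominators of monomials -/
noncomputable def mnum {n : ℕ} (K : Type) [Field K] (v : Fin n → ℤ) : MvPolynomial (Fin n) K :=
  ∏ i, MvPolynomial.X i ^ (v i).toNat

theorem zpow_split {L : Type*} [Field L] {x : L} {v : ℤ} (h : v ≠ 0 → x ≠ 0) :
    x ^ v.toNat = x ^ v * x ^ (-v).toNat := by
  by_cases hv : v = 0
  · subst hv; simp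
  have hx := h hv
  rcases le_total 0 v with h1 | h1
  · obtain ⟨m, rfl⟩ := Int.eq_ofNat_of_zero_le h1
    simp
  · obtain ⟨m, hm⟩ := Int.eq_ofNat_of_zero_le (a := -v) (by omega)
    have : v = -(m : ℤ) := by omega
    subst this
    have : x ^ m ≠ 0 := pow_ne_zero _ hx
    simp [this]

theorem mnum_map {n : ℕ} {L : Type} [Field L] (θ : MvPolynomial (Fin n) K →+* L) {y : Fin n → L}
    (hθ : ∀ i, θ (MvPolynomial.X i) = y i) {v : Fin n → ℤ} (hv : ∀ i, v i ≠ 0 → y i ≠ 0) :
    θ (mnum K v) = (∏ i, y i ^ v i) * θ (mnum K (fun i => -v i)) := by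
  unfold mnum
  rw [map_prod, map_prod, ← Finset.prod_mul_distrib]
  refine Finset.prod_congr rfl fun i _ => ?_
  rw [map_pow, map_pow, hθ]
  exact zpow_split (hv i)

theorem mnum_ne {n : ℕ} {P : Fin n → K} {v : Fin n → ℤ} (hv : ∀ i, v i ≠ 0 → P i ≠ 0) :
    MvPolynomial.eval P (mnum K (fun i => -v i)) ≠ 0 := by
  unfold mnum
  rw [map_prod]
  refine Finset.prod_ne_zero_iff.2 fun i _ => ?_
  rw [map_pow, MvPolynomial.eval_X]
  by_cases h : v i = 0
  · simp [h]
  · exact pow_ne_zero _ (hv i h)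

end clr

/-! ### the curve -/

section curve

variable {K 𝔽 : Type} [Field K] [Field 𝔽] [Algebra K 𝔽] {n : ℕ} (𝒞 : GP K 𝔽 n)

/-- a point of the curve where a coordinate vanishes -/
theorem exists_P (j : Fin n) : ∃ P : Fin n → K,
    (∀ f : MvPolynomial (Fin n) K, MvPolynomial.aeval 𝒞.x f = 0 → MvPolynomial.eval P f = 0) ∧
    P j = 0 ∧ ∀ i, i ≠ j → ∃ y ∈ 𝒞.ys j false i, P i = PowerSeries.coeff 0 (y : PowerSeries K) := by
  classical
  obtain ⟨Ω, _, σ, τ, h1, h2, h3⟩ := 𝒞.exists_place j false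
  have h4 : ∀ i, ∃ Xp : PowerSeries K, σ (𝒞.x i) = τ (HahnSeries.ofPowerSeries ℤ K Xp) ∧
      (i = j → PowerSeries.constantCoeff Xp = 0) ∧
      (i ≠ j → ∃ y ∈ 𝒞.ys j false i, Xp = (y : PowerSeries K)) := by
    intro i
    by_cases hi : i = j
    · refine ⟨PowerSeries.X ^ 𝒞.N, ?_, fun _ => ?_, fun h => absurd hi h⟩
      · rw [HahnSeries.ofPowerSeries_X_pow, hi]
        exact h2
      · rw [map_pow, PowerSeries.constantCoeff_X, zero_pow 𝒞.hN.ne']
    · obtain ⟨y, hy, hxy⟩ := h3 i hi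
      exact ⟨_, hxy, fun h => absurd h hi, fun _ => ⟨y, hy, rfl⟩⟩
  choose Xp hX1 hX2 hX3 using h4
  refine ⟨fun i => PowerSeries.constantCoeff (Xp i), ?_, hX2 j rfl, fun i hi => ?_⟩
  · intro f hf
    have e1 : (σ.comp (MvPolynomial.aeval 𝒞.x : MvPolynomial (Fin n) K →ₐ[K] 𝔽).toRingHom) =
        (τ.comp ((HahnSeries.ofPowerSeries ℤ K).comp
          (MvPolynomial.eval₂Hom (PowerSeries.C (R := K)) Xp))) := by
      apply MvPolynomial.ringHom_ext
      · intro c
        show σ (MvPolynomial.aeval 𝒞.x (MvPolynomial.C c)) = τ (HahnSeries.ofPowerSeries ℤ K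
          (MvPolynomial.eval₂Hom (PowerSeries.C (R := K)) Xp (MvPolynomial.C c)))
        rw [MvPolynomial.aeval_C, h1, MvPolynomial.eval₂Hom_C, HahnSeries.ofPowerSeries_C]
      · intro i
        show σ (MvPolynomial.aeval 𝒞.x (MvPolynomial.X i)) = τ (HahnSeries.ofPowerSeries ℤ K
          (MvPolynomial.eval₂Hom (PowerSeries.C (R := K)) Xp (MvPolynomial.X i)))
        rw [MvPolynomial.aeval_X, MvPolynomial.eval₂Hom_X', hX1]
    have e2 : MvPolynomial.eval₂Hom (PowerSeries.C (R := K)) Xp f = 0 := by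
      have h5 := congrArg (fun φ : MvPolynomial (Fin n) K →+* Ω => φ f) e1
      have h6 : σ (MvPolynomial.aeval 𝒞.x f) = τ (HahnSeries.ofPowerSeries ℤ K
          (MvPolynomial.eval₂Hom (PowerSeries.C (R := K)) Xp f)) := h5
      rw [hf, map_zero] at h6
      have h7 := (map_eq_zero τ).1 h6.symm
      exact (map_eq_zero_iff _ HahnSeries.ofPowerSeries_injective).1 h7
    have e3 : (PowerSeries.constantCoeff (R := K)).comp
        (MvPolynomial.eval₂Hom (PowerSeries.C (R := K)) Xp) =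
        MvPolynomial.eval (fun i => PowerSeries.constantCoeff (Xp i)) := by
      apply MvPolynomial.ringHom_ext
      · intro c
        simp
      · intro i
        simp
    have h5 := congrArg (fun φ : MvPolynomial (Fin n) K →+* K => φ f) e3
    have h6 : PowerSeries.constantCoeff (MvPolynomial.eval₂Hom (PowerSeries.C (R := K)) Xp f) =
        MvPolynomial.eval (fun i => PowerSeries.constantCoeff (Xp i)) f := h5
    rw [← h6, e2, map_zero]
  · obtain ⟨y, hy, hxy⟩ := hX3 i hi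
    refine ⟨y, hy, ?_⟩
    rw [PowerSeries.coeff_zero_eq_constantCoeff_apply, ← hxy]

/-- the coordinates of the zeros on the curve of a function which is not identically zero -/
theorem coord_poly [IsAlgClosed K] [CharZero K] {f : MvPolynomial (Fin n) K}
    (hf : MvPolynomial.aeval 𝒞.x f ≠ 0) (i : Fin n) : ∃ q : K[X], q ≠ 0 ∧
    ∀ (L : Type) [Field L] (ι : K →+* L) (y : Fin n → L),
      (∀ g : MvPolynomial (Fin n) K, MvPolynomial.aeval 𝒞.x g = 0 →
        MvPolynomial.eval₂ ι y g = 0) → MvPolynomial.eval₂ ι y f = 0 → q.eval₂ ι (y i) = 0 := by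
  obtain ⟨P, hP, hP0⟩ := exists_E2 (𝒞.alg i) (𝒞.tr i) (MvPolynomial.aeval 𝒞.x f)
  obtain ⟨h, hirr, h0⟩ := exists_irr hP _ hP0
  refine ⟨h.coeff 0, ?_, ?_⟩
  · intro hc
    have h1 : X ∣ h := X_dvd_iff.2 hc
    obtain ⟨q, hq⟩ := h1
    rcases hirr.isUnit_or_isUnit hq with h2 | h2
    · exact absurd (natDegree_eq_zero_of_isUnit h2) (by rw [natDegree_X]; norm_num)
    · rw [hq, map_mul, E2_X] at h0
      rcases mul_eq_zero.1 h0 with h3 | h3
      · exact hf h3
      · exact (h2.map (E2 (algebraMap K 𝔽) (𝒞.x i) (MvPolynomial.aeval 𝒞.x f))).ne_zero h3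
  · intro L _ ι y hy hfy
    have h1 : MvPolynomial.aeval 𝒞.x (E2 MvPolynomial.C (MvPolynomial.X i) f h) = 0 := by
      rw [aeval_E2, MvPolynomial.aeval_X]
      exact h0
    have h2 := hy _ h1
    have h3 := map_E2 (MvPolynomial.eval₂Hom ι y) (MvPolynomial.C : K →+* MvPolynomial (Fin n) K)
      (MvPolynomial.X i) f h
    have h4 : (MvPolynomial.eval₂Hom ι y).comp (MvPolynomial.C : K →+* MvPolynomial (Fin n) K) = ι := by
      ext c
      simp
    have h5 : E2 ι (y i) 0 h = 0 := by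
      rw [h4, MvPolynomial.eval₂Hom_X'] at h3
      have h6 : MvPolynomial.eval₂Hom ι y f = 0 := hfy
      rw [h6] at h3
      rw [← h3]
      exact h2
    rw [E2_apply, eval₂_at_zero] at h5
    exact h5

end curve

end Pool.Agent.Y226.ZG
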