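import Pool.Agent.Y226.ZG.Glob1

/-!
# The local data for large primes
-/

set_option autoImplicit false
set_option linter.unusedSectionVars false

open UpperHalfPlane H294ZP Polynomial

namespace Pool.Agent.Y226.ZG

open Pool.Agent.Y226

theorem toC {C : Type} [Field C] (φ : QA →+* C) {R : Subring QA} {h₀ : R[X][X]} {h : QA[X][X]}
    (hh : h₀.map (mapRingHom R.subtype) = h) {a b : QA} (h0 : E2 (RingHom.id QA) a b h = 0)
    {a' b' : C} (ha : φ a = a') (hb : φ b = b') : E2 (φ.comp R.subtype) a' b' h₀ = 0 := by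
  have h1 := congrArg φ h0
  rw [map_zero, map_E2, ← hh, E2_map, RingHom.comp_id, ha, hb] at h1
  exact h1

/-- rational `p`-adic units, as units of `C` -/
theorem Lam_unit {C : Type} [NormedField C] [IsUltrametricDist C] [CharZero C] {p : ℕ}
    [hpf : Fact p.Prime] (hp1 : ‖(p : C)‖ < 1) {lam : ℚ} {w e : ℕ} (he : 0 < e) (hw : 0 < w)
    (hval : padicValRat p lam = -((w : ℤ) * e)) {pu : Cˣ} (hpu : (pu : C) = p) :
    ∃ Λ : Cˣ, (Λ : C) = lam ∧ Λ * pu ^ (w * e) ∈ GG C p 0 le_rfl one_pos := by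
  have hlam0 : lam ≠ 0 := by
    intro h
    rw [h, padicValRat.zero] at hval
    have h1 : (0 : ℤ) < (w : ℤ) * e := by positivity
    omega
  have hpQ : (p : ℚ) ≠ 0 := by exact_mod_cast hpf.out.ne_zero
  have h1 := rat_unit (C := C) hp1 (u := lam * (p : ℚ) ^ (w * e)) (by
    rw [padicValRat.mul hlam0 (pow_ne_zero _ hpQ), hval, padicValRat.pow,
      padicValRat.self hpf.out.one_lt]
    push_cast
    ring) (mul_ne_zero hlam0 (pow_ne_zero _ hpQ))
  refine ⟨Units.mk0 (lam : C) (by exact_mod_cast hlam0), rfl, ?_⟩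
  refine GG_of_close h1.1 h1.2 ?_
  rw [Units.val_mul, Units.val_mk0, Units.val_pow_eq_pow_val, hpu]
  push_cast
  simp

/-- the norm of a rational number -/
theorem rat_norm {C : Type} [NormedField C] [IsUltrametricDist C] [CharZero C] {p : ℕ}
    [hpf : Fact p.Prime] (hp0 : 0 < ‖(p : C)‖) (hp1 : ‖(p : C)‖ < 1) {q : ℚ} (hq : q ≠ 0) :
    ‖(q : C)‖ = ‖(p : C)‖ ^ padicValRat p q := by
  have hpQ : (p : ℚ) ≠ 0 := by exact_mod_cast hpf.out.ne_zero
  have h1 := (rat_unit (C := C) hp1 (u := q * (p : ℚ) ^ (-padicValRat p q)) (by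
    rw [padicValRat.mul hq (zpow_ne_zero _ hpQ), padicValRat.zpow,
      padicValRat.self hpf.out.one_lt]
    ring) (mul_ne_zero hq (zpow_ne_zero _ hpQ))).2
  push_cast at h1
  rw [norm_mul, norm_zpow, zpow_neg] at h1
  have h2 : 0 < ‖(p : C)‖ ^ padicValRat p q := zpow_pos hp0 _
  field_simp at h1
  exact h1

theorem mu_norm {C : Type} [NormedField C] [IsUltrametricDist C] [CharZero C] {p : ℕ}
    [hpf : Fact p.Prime] (hp0 : 0 < ‖(p : C)‖) (hp1 : ‖(p : C)‖ < 1) {lam mu : ℚ}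
    (hlam : lam ≠ 0) (h : padicValRat p lam < padicValRat p mu) :
    ‖(mu : C)‖ ≤ ‖(p : C)‖ * ‖(lam : C)‖ := by
  by_cases hmu : mu = 0
  · rw [hmu, Rat.cast_zero, norm_zero]
    positivity
  rw [rat_norm hp0 hp1 hmu, rat_norm hp0 hp1 hlam, ← zpow_one_add₀ hp0.ne']
  exact zpow_le_zpow_right_of_le_one₀ hp0 hp1.le (by omega)

/-- the local data -/
theorem exists_loc {𝔽 : Type} [Field 𝔽] [Algebra QA 𝔽] {n : ℕ} (𝒞 : GP QA 𝔽 n)
    {I : Ideal (MvPolynomial (Fin n) QA)}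
    (hI : ∀ f : MvPolynomial (Fin n) QA, MvPolynomial.aeval 𝒞.x f = 0 ↔ f ∈ I) (W : ℕ) :
    ∃ D₀ : ℕ, ∀ (p : ℕ) [Fact p.Prime], D₀ < p → ∀ (C : Type) [NormedField C]
      [IsUltrametricDist C] [CompleteSpace C] [CharZero C] [IsAlgClosed C] (φ : QA →+* C),
      0 < ‖(p : C)‖ → ‖(p : C)‖ < 1 → ∀ (k : Type) [Field k] (red : OO C →+* k),
      (∀ x : OO C, red x = 0 ↔ ‖(x : C)‖ < 1) → ∀ (lam mu : Fin n → ℚ) (w : Fin n → ℕ) (e : ℕ),
      0 < e → (∀ i, 0 < w i ∧ w i ≤ W) → (∀ i, padicValRat p (lam i) = -((w i : ℤ) * e)) →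
      (∀ i, padicValRat p (lam i) < padicValRat p (mu i)) →
      ∃ (M d D : ℕ) (𝓛 : Loc C p k n 𝒞.N W M d D), 𝓛.φ = φ ∧ (∀ i, (𝓛.Λ i : C) = (lam i : C)) ∧
        (∀ i, 𝓛.tm i = (mu i : C)) ∧
        (∀ P : Fin n → QA, (∀ f ∈ I, MvPolynomial.eval P f = 0) → 𝓛.Pt (fun i => φ (P i))) ∧
        (∀ j i, i ≠ j → ∀ y ∈ 𝒞.ys j false i,
          ‖φ (PowerSeries.coeff 0 (y : PowerSeries QA))‖ = 1) := by
  classical
  set M := W * 𝒞.N + W with hM
  obtain ⟨H, d, D, hH1, hH2, S₀, hS₀⟩ := 𝒞.exists_RD W M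
  choose Dn hDn using nr_large
  refine ⟨∑ s ∈ S₀, Dn s + 16 * D ^ 2 * d ^ 2 + (16 * d ^ 2 + 2) + (𝒞.N + 2) + (D + 2) + W +
    2 * M ^ 2, ?_⟩
  intro p hpf hp C _ _ _ _ _ φ hp0 hp1 k _ red hker lam mu w e he hw hval hmu
  have hpC : (p : C) ≠ 0 := norm_pos_iff.1 hp0
  set R : Subring QA := (Nr C p).comap φ with hR
  have hmem : ∀ s ∈ S₀, s ∈ R := by
    intro s hs
    have h1 : Dn s ≤ ∑ s ∈ S₀, Dn s := Finset.single_le_sum (f := Dn) (fun _ _ => Nat.zero_le _) hs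
    exact hDn s p (by omega) C φ hp1
  obtain ⟨𝓡, hg, hh, hys⟩ := hS₀ R hmem
  set pu : Cˣ := Units.mk0 (p : C) hpC with hpu
  choose Λ hΛ1 hΛ2 using fun i => Lam_unit (C := C) hp1 he (hw i).1 (hval i) (pu := pu) rfl
  have hlam0 : ∀ i, lam i ≠ 0 := by
    intro i h0
    have h1 := hΛ1 i
    rw [h0, Rat.cast_zero] at h1
    exact (Λ i).ne_zero h1
  let 𝓛 : Loc C p k n 𝒞.N W M d D :=
    { φ := φ, red := red, hker := hker, hp0 := hp0, hp1 := hp1, R := R, hR := fun r => r.2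
      𝓡 := 𝓡, Λ := Λ, w := w, hw := hw, e := e, he := he, pu := pu, hpu := rfl, hΛ := hΛ2
      tm := fun i => (mu i : C)
      htm := fun i => by
        rw [hΛ1]
        exact mu_norm hp0 hp1 (hlam0 i) (hmu i)
      b1 := by omega
      b2 := by omega
      b3 := by omega
      b4 := by omega
      b5 := by omega
      b6 := by omega
      hN := 𝒞.hN
      hM := le_rfl }
  refine ⟨M, d, D, 𝓛, rfl, hΛ1, fun _ => rfl, ?_, ?_⟩
  · intro P hP
    have hxi : ∀ i, MvPolynomial.aeval 𝒞.x (MvPolynomial.X i : MvPolynomial (Fin n) QA) = 𝒞.x i :=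
      fun i => MvPolynomial.aeval_X _ _
    refine ⟨fun i j hij => ?_, fun i j hij hx0 => ?_, fun v w hv hw hvw hsupp => ?_⟩
    · refine toC φ (hg i false j hij) (pt_rel hI hP (u := MvPolynomial.X i) (u' := 1)
        (w := MvPolynomial.X j) (w' := 1) (a := 𝒞.x i) (b := 𝒞.x j) ?_ ?_
        (𝒞.rel i false j hij) (a' := P i) (b' := P j) ?_ ?_ ?_ ?_) rfl rfl
      · rw [hxi, map_one, mul_one]
      · rw [hxi, map_one, mul_one]
      · simp
      · simp
      · simp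
      · simp
    · have hP0 : P i ≠ 0 := fun h => hx0 (by rw [h, map_zero])
      refine toC φ (hg i true j hij) (pt_rel hI hP (u := 1) (u' := MvPolynomial.X i)
        (w := MvPolynomial.X j) (w' := 1) (a := (𝒞.x i)⁻¹) (b := 𝒞.x j) ?_ ?_
        (𝒞.rel i true j hij) (a' := (P i)⁻¹) (b' := P j) ?_ ?_ ?_ ?_) (map_inv₀ φ _) rfl
      · rw [hxi, map_one, inv_mul_cancel₀ (𝒞.x_ne i)]
      · rw [hxi, map_one, mul_one]
      · rw [MvPolynomial.eval_X, map_one, inv_mul_cancel₀ hP0]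
      · simp
      · simpa using hP0
      · simp
    · have hsv : ∀ i, v i ≠ 0 → P i ≠ 0 := fun i hi h0 =>
        hsupp i (Or.inl hi) (by rw [h0, map_zero])
      have hsw : ∀ i, w i ≠ 0 → P i ≠ 0 := fun i hi h0 =>
        hsupp i (Or.inr hi) (by rw [h0, map_zero])
      refine toC φ (hh v w hv hw hvw) (pt_rel hI hP (u := mnum QA v)
        (u' := mnum QA (fun i => -v i))
        (w := mnum QA w) (w' := mnum QA (fun i => -w i)) (a := 𝒞.mon v) (b := 𝒞.mon w) ?_ ?_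
        (hH1 v w hvw) (a' := ∏ i, P i ^ v i) (b' := ∏ i, P i ^ w i) ?_ ?_ ?_ ?_) ?_ ?_
      · exact mnum_map ((MvPolynomial.aeval 𝒞.x :
          MvPolynomial (Fin n) QA →ₐ[QA] 𝔽).toRingHom) hxi (fun i _ => 𝒞.x_ne i)
      · exact mnum_map ((MvPolynomial.aeval 𝒞.x :
          MvPolynomial (Fin n) QA →ₐ[QA] 𝔽).toRingHom) hxi (fun i _ => 𝒞.x_ne i)
      · exact mnum_map (MvPolynomial.eval P) (fun i => MvPolynomial.eval_X i) hsv
      · exact mnum_map (MvPolynomial.eval P) (fun i => MvPolynomial.eval_X i) hsw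
      · exact mnum_ne hsv
      · exact mnum_ne hsw
      · rw [map_prod]
        exact Finset.prod_congr rfl fun i _ => map_zpow₀ φ _ _
      · rw [map_prod]
        exact Finset.prod_congr rfl fun i _ => map_zpow₀ φ _ _
  · intro j i hij y hy
    rw [← hys j false i hij.symm] at hy
    obtain ⟨y₀, hy₀, rfl⟩ := Multiset.mem_map.1 hy
    rw [um_val, coeff_pm]
    exact 𝓛.ψ_unit (Loc.unit_coeff y₀)

end Pool.Agent.Y226.ZG
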