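import Pool.Agent.Y226.ZG.GPos

/-!
# Models over subrings
-/

set_option autoImplicit false
set_option linter.unusedSectionVars false

open Polynomial

namespace Pool.Agent.Y226.ZG

/-! ### uniform bounds -/

/-- a property which holds for all large bounds -/
def Bdd (P : ℕ → Prop) : Prop := ∃ D₀, ∀ D, D₀ ≤ D → P D

theorem Bdd.all {ι : Type*} [Finite ι] {P : ι → ℕ → Prop} (h : ∀ i, Bdd (P i)) :
    Bdd (fun D => ∀ i, P i D) := by
  classical
  haveI := Fintype.ofFinite ι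
  choose D hD using h
  refine ⟨∑ i, D i, fun D' hD' i => hD i D' (le_trans ?_ hD')⟩
  exact Finset.single_le_sum (f := D) (fun _ _ => Nat.zero_le _) (Finset.mem_univ i)

theorem Bdd.mono {P Q : ℕ → Prop} (h : Bdd P) (hPQ : ∀ D, P D → Q D) : Bdd Q := by
  obtain ⟨D, hD⟩ := h
  exact ⟨D, fun D' hD' => hPQ D' (hD D' hD')⟩

theorem Bdd.imp {a : Prop} {P : ℕ → Prop} (h : a → Bdd P) : Bdd (fun D => a → P D) := by
  by_cases ha : a
  · exact (h ha).mono fun D hD _ => hD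
  · exact ⟨0, fun D _ h => absurd h ha⟩

theorem Bdd.multiset {ι : Type*} (s : Multiset ι) {P : ι → ℕ → Prop}
    (h : ∀ i ∈ s, Bdd (P i)) : Bdd (fun D => ∀ i ∈ s, P i D) := by
  classical
  have := Bdd.all (ι := {i // i ∈ s.toFinset}) (P := fun i => P i.1)
    (fun i => h i.1 (Multiset.mem_toFinset.1 i.2))
  exact this.mono fun D hD i hi => hD ⟨i, Multiset.mem_toFinset.2 hi⟩

theorem Bdd.nat_le (W : ℕ) {P : ℕ → ℕ → Prop} (h : ∀ A, A ≤ W → Bdd (P A)) :
    Bdd (fun D => ∀ A, A ≤ W → P A D) := by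
  have := Bdd.all (ι := Fin (W + 1)) (P := fun i => P i.1) (fun i => h i.1 (by omega))
  exact this.mono fun D hD A hA => hD ⟨A, by omega⟩

theorem Lrg.imp {K : Type*} [Field K] {a : Prop} {P : Subring K → Prop} (h : a → Lrg K P) :
    Lrg K (fun R => a → P R) := by
  by_cases ha : a
  · exact (h ha).mono fun D hD _ => hD
  · exact Lrg.of_forall fun D h => absurd h ha

theorem Lrg.nat_le {K : Type*} [Field K] (W : ℕ) {P : ℕ → Subring K → Prop}
    (h : ∀ A, A ≤ W → Lrg K (P A)) : Lrg K (fun R => ∀ A, A ≤ W → P A R) := by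
  have := Lrg.all (ι := Fin (W + 1)) (P := fun i => P i.1) (fun i => h i.1 (by omega))
  exact this.mono fun D hD A hA => hD ⟨A, by omega⟩

/-! ### lifting -/

section lift

variable {K : Type*} [Field K] (R : Subring K)

theorem unit_of_inv {R : Subring K} {r : R} (hne : (r : K) ≠ 0) (h : (r : K)⁻¹ ∈ R) : IsUnit r := by
  refine IsUnit.of_mul_eq_one (⟨(r : K)⁻¹, h⟩ : R) (Subtype.ext ?_)
  show (r : K) * (r : K)⁻¹ = 1
  exact mul_inv_cancel₀ hne

/-- the map on power series -/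
noncomputable def pm : PowerSeries R →+* PowerSeries K := PowerSeries.map R.subtype

theorem pm_injective : Function.Injective (pm R) :=
  PowerSeries.map_injective _ Subtype.val_injective

theorem coeff_pm (F : PowerSeries R) (m : ℕ) :
    PowerSeries.coeff m (pm R F) = ((PowerSeries.coeff m F : R) : K) := by
  unfold pm
  rw [PowerSeries.coeff_map]
  rfl

/-- the map on units -/
noncomputable def um : (PowerSeries R)ˣ →* (PowerSeries K)ˣ := Units.map (pm R : _ →* _)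

theorem um_val (y : (PowerSeries R)ˣ) : ((um R y : (PowerSeries K)ˣ) : PowerSeries K) =
    pm R (y : PowerSeries R) := rfl

theorem um_inv_val (y : (PowerSeries R)ˣ) :
    (((um R y)⁻¹ : (PowerSeries K)ˣ) : PowerSeries K) =
    pm R ((y⁻¹ : (PowerSeries R)ˣ) : PowerSeries R) := by
  rw [← map_inv]
  rfl

variable {R}

theorem exists_um {y : (PowerSeries K)ˣ} (hy : (y : PowerSeries K) ∈ PSR R)
    (hinv : (PowerSeries.coeff 0 (y : PowerSeries K))⁻¹ ∈ R) : ∃ y₀, um R y₀ = y := by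
  obtain ⟨F, hF⟩ := hy
  have h0 : PowerSeries.coeff 0 (y : PowerSeries K) ≠ 0 := by
    have h1 : IsUnit (y : PowerSeries K) := y.isUnit
    rw [PowerSeries.isUnit_iff_constantCoeff] at h1
    rw [PowerSeries.coeff_zero_eq_constantCoeff_apply]
    exact h1.ne_zero
  have hF' : pm R F = (y : PowerSeries K) := hF
  have hu : IsUnit F := by
    rw [PowerSeries.isUnit_iff_constantCoeff]
    rw [← hF', coeff_pm] at h0 hinv
    rw [← PowerSeries.coeff_zero_eq_constantCoeff_apply]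
    exact unit_of_inv h0 hinv
  obtain ⟨u, hu⟩ := hu
  refine ⟨u, Units.ext ?_⟩
  rw [um_val, hu, hF']

theorem exists_ms (ys : Multiset (PowerSeries K)ˣ) (h : ∀ y ∈ ys, ∃ y₀, um R y₀ = y) :
    ∃ ys₀ : Multiset (PowerSeries R)ˣ, ys₀.map (um R) = ys := by
  induction ys using Multiset.induction_on with
  | empty => exact ⟨0, rfl⟩
  | cons y ys ih =>
    obtain ⟨t, ht⟩ := ih fun y hy => h y (Multiset.mem_cons_of_mem hy)
    obtain ⟨y₀, hy₀⟩ := h y (Multiset.mem_cons_self y ys)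
    exact ⟨y₀ ::ₘ t, by rw [Multiset.map_cons, hy₀, ht]⟩

theorem exists_g₀ {g : K[X][X]} (h : ∀ i j, (g.coeff i).coeff j ∈ R) :
    ∃ g₀ : R[X][X], g₀.map (mapRingHom R.subtype) = g := by
  have h1 : g ∈ Polynomial.lifts (mapRingHom R.subtype) := by
    rw [lifts_iff_coeff_lifts]
    intro i
    have h2 : g.coeff i ∈ (mapRingHom R.subtype).range := by
      rw [Polynomial.mem_map_range]
      intro j
      exact ⟨⟨_, h i j⟩, rfl⟩
    exact h2
  exact h1

theorem exists_r₀ {g : K[X]} (h : ∀ j, g.coeff j ∈ R) :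
    ∃ g₀ : R[X], g₀.map R.subtype = g := by
  have h2 : g ∈ (mapRingHom R.subtype).range := by
    rw [Polynomial.mem_map_range]
    intro j
    exact ⟨⟨_, h j⟩, rfl⟩
  exact h2

theorem PFac.lift {N : ℕ} {g₀ : R[X][X]} {L₀ : (PowerSeries R)ˣ} {ys₀ : Multiset (PowerSeries R)ˣ}
    (h : PFac N (g₀.map (mapRingHom R.subtype)) (um R L₀) (ys₀.map (um R))) : PFac N g₀ L₀ ys₀ := by
  unfold PFac at h ⊢
  apply Polynomial.map_injective (pm R) (pm_injective R)
  rw [Polynomial.map_map, inn_map, ← Polynomial.map_map] at h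
  have h1 : (g₀.map (inn N)).map (pm R) = C ((um R L₀ : (PowerSeries K)ˣ) : PowerSeries K) *
      (Multiset.map (fun y : (PowerSeries K)ˣ => X - C (y : PowerSeries K)) (ys₀.map (um R))).prod := h
  rw [h1, Polynomial.map_mul, Polynomial.map_C, Polynomial.map_multiset_prod, Multiset.map_map,
    Multiset.map_map, um_val]
  congr 1
  refine congrArg Multiset.prod (Multiset.map_congr rfl fun y _ => ?_)
  simp [um_val]

theorem PFac.leading {N : ℕ} {g : K[X][X]} {L : (PowerSeries K)ˣ}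
    {ys : Multiset (PowerSeries K)ˣ} (h : PFac N g L ys) (hN : 0 < N) :
    (L : PowerSeries K) = inn N g.leadingCoeff := by
  have h2 : ((ys.map fun y : (PowerSeries K)ˣ => X - C (y : PowerSeries K)).prod).Monic := by
    apply monic_multiset_prod_of_monic
    intro y _
    exact monic_X_sub_C _
  unfold PFac at h
  have h3 := congrArg Polynomial.leadingCoeff h
  rw [leadingCoeff_mul_monic h2, leadingCoeff_C,
    leadingCoeff_map_of_injective (inn_injective hN)] at h3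
  exact h3.symm

theorem cf_sub {g₀ : R[X][X]} {g : K[X][X]} (h : g₀.map (mapRingHom R.subtype) = g) (m : ℕ × ℕ) :
    ((cf g₀ m : R) : K) = cf g m := by
  rw [← h, cf_map]
  rfl

theorem BD_sub {g₀ : R[X][X]} {g : K[X][X]} (h : g₀.map (mapRingHom R.subtype) = g) {d : ℕ}
    (hd : BD d g) : BD d g₀ := by
  have hinj : Function.Injective (mapRingHom R.subtype) :=
    Polynomial.map_injective _ Subtype.val_injective
  refine ⟨?_, fun v => ?_⟩
  · rw [← natDegree_map_eq_of_injective hinj, h]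
    exact hd.1
  · have h1 := hd.2 v
    rw [← h, coeff_map, coe_mapRingHom,
      natDegree_map_eq_of_injective (f := R.subtype) Subtype.val_injective] at h1
    exact h1

theorem E2_pm {g₀ : R[X][X]} {g : K[X][X]} (h : g₀.map (mapRingHom R.subtype) = g)
    (F G : PowerSeries R) :
    pm R (E2 (PowerSeries.C (R := R)) F G g₀) =
      E2 (PowerSeries.C (R := K)) (pm R F) (pm R G) g := by
  have h1 : (pm R).comp (PowerSeries.C (R := R)) = (PowerSeries.C (R := K)).comp R.subtype := by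
    refine RingHom.ext fun r => ?_
    simp [pm]
  rw [map_E2, ← h, E2_map, h1]

end lift

/-! ### The model -/

/-- bounded exponent vectors -/
def Bv {n : ℕ} (M : ℕ) (v : Fin n → ℤ) : Prop := ∀ i, |v i| ≤ M

/-- linearly independent exponent vectors -/
def LI {n : ℕ} (v w : Fin n → ℤ) : Prop :=
  ∀ a b : ℤ, (a, b) ≠ (0, 0) → (fun i => a * v i + b * w i) ≠ (0 : Fin n → ℤ)

/-- integral model of the data -/
structure RD (R : Type) [CommRing R] (n N W M d D : ℕ) where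
  g : Fin n → Bool → Fin n → R[X][X]
  a : Fin n → Fin n → ℕ
  b : Fin n → Fin n → ℕ
  L : Fin n → Bool → Fin n → (PowerSeries R)ˣ
  ys : Fin n → Bool → Fin n → Multiset (PowerSeries R)ˣ
  fac : ∀ i s j, i ≠ j → PFac N (g i s j) (L i s j) (ys i s j)
  corner : ∀ i j, i ≠ j → (∀ v, ((g i false j).coeff v).natDegree ≤ a i j) ∧
    (g i false j).natDegree ≤ b i j ∧ IsUnit (cf (g i false j) (0, 0)) ∧
    IsUnit (cf (g i false j) (a i j, 0)) ∧ IsUnit (cf (g i false j) (0, b i j)) ∧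
    IsUnit (cf (g i false j) (a i j, b i j))
  yn : ∀ i s j, i ≠ j → ∀ y ∈ ys i s j, ∃ m, 0 < m ∧ IsUnit (PowerSeries.coeff m (y : PowerSeries R))
  br : ∀ i s j k, i ≠ j → i ≠ k → j ≠ k → ∀ y ∈ ys i s j, ∀ y' ∈ ys i s k, ∀ A, A ≤ W → ∀ B, B ≤ W →
    0 < B →
    (∃ m, IsUnit (PowerSeries.coeff m (E2 (PowerSeries.C (R := R)) (y : PowerSeries R)
      (y' : PowerSeries R) (g j false k))) ∧ ∀ m' < m, PowerSeries.coeff m'
        (E2 (PowerSeries.C (R := R)) (y : PowerSeries R) (y' : PowerSeries R) (g j false k)) = 0) ∨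
    (∃ m, 0 < m ∧ m ≤ D ∧ IsUnit (PowerSeries.coeff m ((y' : PowerSeries R) ^ B *
      ((y⁻¹ : (PowerSeries R)ˣ) : PowerSeries R) ^ A)))
  h : (Fin n → ℤ) → (Fin n → ℤ) → R[X][X]
  hBD : ∀ v w, Bv M v → Bv M w → LI v w → BD d (h v w)
  hNC : ∀ v w, Bv M v → Bv M w → LI v w → ∀ (k : Type) [Field k] (χ : R →+* k),
    NoCoset k d (fun m => χ (cf (h v w) m))
  hUV : ∀ v w, Bv M v → Bv M w → LI v w → ∃ (U V : R[X][X]) (r : R[X]), (∃ i, IsUnit (r.coeff i)) ∧
    U * h v w + V * (X * derivative (h v w)) = C r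

theorem finite_Bv (n M : ℕ) : {q : (Fin n → ℤ) × (Fin n → ℤ) | Bv M q.1 ∧ Bv M q.2 ∧ LI q.1 q.2}.Finite := by
  have h1 : {v : Fin n → ℤ | Bv M v}.Finite := by
    have := Set.Finite.pi (t := fun _ : Fin n => Set.Icc (-(M : ℤ)) M)
      (fun _ => Set.finite_Icc _ _)
    refine this.subset ?_
    intro v hv i _
    exact abs_le.1 (hv i)
  refine (h1.prod h1).subset ?_
  rintro ⟨v, w⟩ ⟨hv, hw, -⟩
  exact ⟨hv, hw⟩

namespace GP

variable {K 𝔽 : Type} [Field K] [Field 𝔽] [Algebra K 𝔽] {n : ℕ} (𝒞 : GP K 𝔽 n)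
  [IsAlgClosed K] [CharZero K]

theorem exists_RD (W M : ℕ) : ∃ (H : (Fin n → ℤ) → (Fin n → ℤ) → K[X][X]) (d D : ℕ),
    (∀ v w, LI v w → E2 (algebraMap K 𝔽) (𝒞.mon v) (𝒞.mon w) (H v w) = 0) ∧
    (∀ v w, Bv M v → Bv M w → LI v w → BD d (H v w)) ∧
    Lrg K (fun R => ∃ 𝓡 : RD R n 𝒞.N W M d D,
      (∀ i s j, i ≠ j → (𝓡.g i s j).map (mapRingHom R.subtype) = 𝒞.g i s j) ∧
      (∀ v w, Bv M v → Bv M w → LI v w →
        (𝓡.h v w).map (mapRingHom R.subtype) = H v w) ∧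
      (∀ i s j, i ≠ j → (𝓡.ys i s j).map (um R) = 𝒞.ys i s j)) := by
  classical
  -- relation polynomials
  have hH : ∀ v w : Fin n → ℤ, ∃ H : K[X][X], LI v w → Irreducible H ∧ 0 < H.natDegree ∧
      E2 (algebraMap K 𝔽) (𝒞.mon v) (𝒞.mon w) H = 0 ∧ (∀ d, BD d H → NoCoset K d (cf H)) ∧
      ∃ (U V : K[X][X]) (r : K[X]), r ≠ 0 ∧ U * H + V * (X * derivative H) = C r := by
    intro v w
    by_cases hvw : LI v w
    · obtain ⟨H, hH⟩ := 𝒞.exists_rel hvw
      exact ⟨H, fun _ => hH⟩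
    · exact ⟨0, fun h => absurd h hvw⟩
  choose H hH using hH
  haveI hfin : Finite {q : (Fin n → ℤ) × (Fin n → ℤ) // Bv M q.1 ∧ Bv M q.2 ∧ LI q.1 q.2} :=
    (finite_Bv n M).to_subtype
  -- the degree
  have hd : Bdd (fun d => ∀ q : {q : (Fin n → ℤ) × (Fin n → ℤ) // Bv M q.1 ∧ Bv M q.2 ∧ LI q.1 q.2},
      BD d (H q.1.1 q.1.2)) := by
    refine Bdd.all fun q => ?_
    obtain ⟨d, hd⟩ := exists_BD (H q.1.1 q.1.2)
    exact ⟨d, fun d' hd' => hd.mono hd'⟩
  obtain ⟨d, hd⟩ := hd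
  have hd' : ∀ v w, Bv M v → Bv M w → LI v w → BD d (H v w) := fun v w hv hw hvw =>
    hd d le_rfl ⟨(v, w), hv, hw, hvw⟩
  -- the contact bound
  have hD : Bdd (fun D => ∀ (i : Fin n) (s : Bool) (j k : Fin n), (i ≠ j ∧ j ≠ k) →
      ∀ y ∈ 𝒞.ys i s j, ∀ y' ∈ 𝒞.ys i s k, ∀ A, A ≤ W → ∀ B, B ≤ W → 0 < B →
      (∃ m, PowerSeries.coeff m (E2 (PowerSeries.C (R := K)) (y : PowerSeries K)
        (y' : PowerSeries K) (𝒞.g j false k)) ≠ 0) ∨
      (∃ m, 0 < m ∧ m ≤ D ∧ PowerSeries.coeff m ((y' : PowerSeries K) ^ B *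
        ((y⁻¹ : (PowerSeries K)ˣ) : PowerSeries K) ^ A) ≠ 0)) := by
    refine Bdd.all fun i => Bdd.all fun s => Bdd.all fun j => Bdd.all fun k => Bdd.imp fun hijk =>
      Bdd.multiset _ fun y hy => Bdd.multiset _ fun y' _ => Bdd.nat_le _ fun A _ =>
      Bdd.nat_le _ fun B _ => Bdd.imp fun hB => ?_
    rcases 𝒞.branch hijk.1 hijk.2 hy (A := A) (y' := y') hB with h1 | ⟨m, hm, hm'⟩
    · exact ⟨0, fun _ _ => Or.inl h1⟩
    · exact ⟨m, fun D hD => Or.inr ⟨m, hm, hD, hm'⟩⟩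
  obtain ⟨D, hD⟩ := hD
  have hD' := hD D le_rfl
  refine ⟨H, d, D, fun v w hvw => (hH v w hvw).2.2.1, hd', ?_⟩
  -- the large subrings
  have l1 : Lrg K (fun R => ∀ (i : Fin n) (s : Bool) (j : Fin n), i ≠ j →
      (∀ a b, ((𝒞.g i s j).coeff a).coeff b ∈ R) ∧
      (PowerSeries.coeff 0 (𝒞.L i s j : PowerSeries K))⁻¹ ∈ R ∧
      (∀ y ∈ 𝒞.ys i s j, (PowerSeries.coeff 0 (y : PowerSeries K))⁻¹ ∈ R ∧
        ((∀ a, ((𝒞.g i s j).map (inn 𝒞.N)).coeff a ∈ PSR R) → (y : PowerSeries K) ∈ PSR R) ∧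
        ∃ m, 0 < m ∧ PowerSeries.coeff m (y : PowerSeries K) ≠ 0 ∧
          (PowerSeries.coeff m (y : PowerSeries K))⁻¹ ∈ R)) := by
    refine Lrg.all fun i => Lrg.all fun s => Lrg.all fun j => Lrg.imp fun hij => ?_
    refine (Lrg.coeffs _).and ((Lrg.mem _).and (Lrg.multiset _ fun y hy => ?_))
    refine (Lrg.mem _).and ((eisenstein ((𝒞.fac i s j hij).eval_root hy) (𝒞.sep hij hy)).and ?_)
    obtain ⟨m, hm, hm'⟩ : ∃ m, 0 < m ∧ PowerSeries.coeff m (y : PowerSeries K) ≠ 0 := by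
      by_contra hcon
      push Not at hcon
      apply 𝒞.y_ne_const hij hy (PowerSeries.coeff 0 (y : PowerSeries K))
      ext m
      rw [PowerSeries.coeff_C]
      split_ifs with h
      · rw [h]
      · exact hcon m (Nat.pos_of_ne_zero h)
    exact (Lrg.mem _).mono fun R hR => ⟨m, hm, hm', hR⟩
  have l2 : Lrg K (fun R => ∀ (i j : Fin n), i ≠ j →
      (cf (𝒞.g i false j) (0, 0))⁻¹ ∈ R ∧ (cf (𝒞.g i false j) (𝒞.a i false j, 0))⁻¹ ∈ R ∧
      (cf (𝒞.g i false j) (0, 𝒞.b i false j))⁻¹ ∈ R ∧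
      (cf (𝒞.g i false j) (𝒞.a i false j, 𝒞.b i false j))⁻¹ ∈ R) := by
    refine Lrg.all fun i => Lrg.all fun j => Lrg.imp fun hij => ?_
    exact (Lrg.mem _).and ((Lrg.mem _).and ((Lrg.mem _).and (Lrg.mem _)))
  have l3 : Lrg K (fun R => ∀ (i : Fin n) (s : Bool) (j k : Fin n), (i ≠ j ∧ j ≠ k) →
      ∀ y ∈ 𝒞.ys i s j, ∀ y' ∈ 𝒞.ys i s k, ∀ A, A ≤ W → ∀ B, B ≤ W → 0 < B →
      (∃ m, PowerSeries.coeff m (E2 (PowerSeries.C (R := K)) (y : PowerSeries K)
        (y' : PowerSeries K) (𝒞.g j false k)) ≠ 0 ∧ (PowerSeries.coeff m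
        (E2 (PowerSeries.C (R := K)) (y : PowerSeries K)
        (y' : PowerSeries K) (𝒞.g j false k)))⁻¹ ∈ R ∧ ∀ m' < m, PowerSeries.coeff m'
        (E2 (PowerSeries.C (R := K)) (y : PowerSeries K)
        (y' : PowerSeries K) (𝒞.g j false k)) = 0) ∨
      (∃ m, 0 < m ∧ m ≤ D ∧ PowerSeries.coeff m ((y' : PowerSeries K) ^ B *
        ((y⁻¹ : (PowerSeries K)ˣ) : PowerSeries K) ^ A) ≠ 0 ∧
        (PowerSeries.coeff m ((y' : PowerSeries K) ^ B *
        ((y⁻¹ : (PowerSeries K)ˣ) : PowerSeries K) ^ A))⁻¹ ∈ R)) := by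
    refine Lrg.all fun i => Lrg.all fun s => Lrg.all fun j => Lrg.all fun k => Lrg.imp fun hijk =>
      Lrg.multiset _ fun y hy => Lrg.multiset _ fun y' hy' => Lrg.nat_le _ fun A hA =>
      Lrg.nat_le _ fun B hB => Lrg.imp fun hB0 => ?_
    rcases hD' i s j k hijk y hy y' hy' A hA B hB hB0 with h1 | ⟨m, h1, h2, h3⟩
    · refine (Lrg.mem (PowerSeries.coeff (Nat.find h1) (E2 (PowerSeries.C (R := K))
        (y : PowerSeries K) (y' : PowerSeries K) (𝒞.g j false k)))⁻¹).mono fun R hR => Or.inl ?_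
      refine ⟨Nat.find h1, Nat.find_spec h1, hR, fun m' hm' => ?_⟩
      exact not_not.1 (Nat.find_min h1 hm')
    · exact (Lrg.mem _).mono fun R hR => Or.inr ⟨m, h1, h2, h3, hR⟩
  have l4 : Lrg K (fun R => ∀ q : {q : (Fin n → ℤ) × (Fin n → ℤ) // Bv M q.1 ∧ Bv M q.2 ∧
      LI q.1 q.2}, (∀ a b, ((H q.1.1 q.1.2).coeff a).coeff b ∈ R) ∧
      (∀ (c₀ : ℕ × ℕ → R), (∀ m ∈ box d, (c₀ m : K) = cf (H q.1.1 q.1.2) m) →
        ∀ (k : Type) [Field k] (χ : R →+* k), NoCoset k d (fun m => χ (c₀ m))) ∧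
      ∃ (U V : K[X][X]) (r : K[X]), (∀ a b, (U.coeff a).coeff b ∈ R) ∧
        (∀ a b, (V.coeff a).coeff b ∈ R) ∧ (∀ a, r.coeff a ∈ R) ∧
        (∃ i, r.coeff i ≠ 0 ∧ (r.coeff i)⁻¹ ∈ R) ∧
        U * H q.1.1 q.1.2 + V * (X * derivative (H q.1.1 q.1.2)) = C r) := by
    refine Lrg.all fun q => ?_
    obtain ⟨-, -, -, h1, U, V, r, hr, hUV⟩ := hH q.1.1 q.1.2 q.2.2.2
    have hsp : Lrg K (fun R => ∀ (c₀ : ℕ × ℕ → R),
        (∀ m ∈ box d, (c₀ m : K) = cf (H q.1.1 q.1.2) m) →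
        ∀ (k : Type) [Field k] (χ : R →+* k), NoCoset k d (fun m => χ (c₀ m))) :=
      (h1 d (hd' _ _ q.2.1 q.2.2.1 q.2.2.2)).specialize
    refine (Lrg.coeffs _).and (hsp.and ?_)
    obtain ⟨i, hi⟩ : ∃ i, r.coeff i ≠ 0 := by
      by_contra hcon
      push Not at hcon
      exact hr (Polynomial.ext fun i => by rw [hcon i, coeff_zero])
    have h2 : Lrg K (fun R => ∀ a, r.coeff a ∈ R) :=
      (Lrg.coeffs (C r)).mono fun R hR a => by
        have := hR 0 a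
        rwa [coeff_C_zero] at this
    refine ((Lrg.coeffs U).and ((Lrg.coeffs V).and (h2.and (Lrg.mem (r.coeff i)⁻¹)))).mono ?_
    rintro R ⟨h3, h4, h5, h6⟩
    exact ⟨U, V, r, h3, h4, h5, ⟨i, hi, h6⟩, hUV⟩
  refine (l1.and (l2.and (l3.and l4))).mono ?_
  rintro R ⟨h1, h2, h3, h4⟩
  -- lifts
  have hg : ∀ i s j, ∃ g₀ : R[X][X], i ≠ j → g₀.map (mapRingHom R.subtype) = 𝒞.g i s j := by
    intro i s j
    by_cases hij : i = j
    · exact ⟨0, fun h => absurd hij h⟩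
    · obtain ⟨g₀, hg₀⟩ := exists_g₀ (h1 i s j hij).1
      exact ⟨g₀, fun _ => hg₀⟩
  choose g hg using hg
  have hcoefG : ∀ i s j, i ≠ j → ∀ a, ((𝒞.g i s j).map (inn 𝒞.N)).coeff a ∈ PSR R := by
    intro i s j hij a
    rw [coeff_map]
    exact inn_mem_PSR ((h1 i s j hij).1 a) _
  have hL : ∀ i s j, ∃ L₀ : (PowerSeries R)ˣ, i ≠ j → um R L₀ = 𝒞.L i s j := by
    intro i s j
    by_cases hij : i = j
    · exact ⟨1, fun h => absurd hij h⟩
    · obtain ⟨L₀, hL₀⟩ := exists_um (R := R) (y := 𝒞.L i s j) (by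
        rw [(𝒞.fac i s j hij).leading 𝒞.hN]
        exact inn_mem_PSR ((h1 i s j hij).1 _) _) (h1 i s j hij).2.1
      exact ⟨L₀, fun _ => hL₀⟩
  choose L hL using hL
  have hys : ∀ i s j, ∃ ys₀ : Multiset (PowerSeries R)ˣ, i ≠ j → ys₀.map (um R) = 𝒞.ys i s j := by
    intro i s j
    by_cases hij : i = j
    · exact ⟨0, fun h => absurd hij h⟩
    · obtain ⟨ys₀, hys₀⟩ := exists_ms (R := R) (𝒞.ys i s j) (fun y hy =>
        exists_um (((h1 i s j hij).2.2 y hy).2.1 (hcoefG i s j hij)) ((h1 i s j hij).2.2 y hy).1)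
      exact ⟨ys₀, fun _ => hys₀⟩
  choose ys hys using hys
  have hh : ∀ v w, ∃ h₀ : R[X][X], Bv M v → Bv M w → LI v w →
      h₀.map (mapRingHom R.subtype) = H v w := by
    intro v w
    by_cases hvw : Bv M v ∧ Bv M w ∧ LI v w
    · obtain ⟨h₀, hh₀⟩ := exists_g₀ (h4 ⟨(v, w), hvw⟩).1
      exact ⟨h₀, fun _ _ _ => hh₀⟩
    · exact ⟨0, fun a b c => absurd ⟨a, b, c⟩ hvw⟩
  choose h hh using hh
  have hmem : ∀ i s j, i ≠ j → ∀ y ∈ ys i s j, um R y ∈ 𝒞.ys i s j := by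
    intro i s j hij y hy
    rw [← hys i s j hij]
    exact Multiset.mem_map_of_mem _ hy
  refine ⟨{ g := g, a := fun i j => 𝒞.a i false j, b := fun i j => 𝒞.b i false j, L := L, ys := ys
            fac := ?_, corner := ?_, yn := ?_, br := ?_, h := h, hBD := ?_, hNC := ?_, hUV := ?_ },
          hg, hh, hys⟩
  · intro i s j hij
    apply PFac.lift
    rw [hg i s j hij, hL i s j hij, hys i s j hij]
    exact 𝒞.fac i s j hij
  · intro i j hij
    obtain ⟨c1, c2, c3, c4, c5, c6⟩ := 𝒞.cor i false j hij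
    obtain ⟨d1, d2, d3, d4⟩ := h2 i j hij
    have hinj : Function.Injective (mapRingHom R.subtype) :=
      Polynomial.map_injective _ Subtype.val_injective
    have hcf := cf_sub (hg i false j hij)
    have hu : ∀ m, cf (𝒞.g i false j) m ≠ 0 → (cf (𝒞.g i false j) m)⁻¹ ∈ R →
        IsUnit (cf (g i false j) m) := by
      intro m hm hm'
      refine unit_of_inv ?_ ?_
      · rw [hcf]; exact hm
      · rw [hcf]; exact hm'
    refine ⟨fun v => ?_, ?_, hu _ c3 d1, hu _ c4 d2, hu _ c5 d3, hu _ c6 d4⟩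
    · have e1 := c1 v
      rw [← hg i false j hij, coeff_map, coe_mapRingHom,
        natDegree_map_eq_of_injective (f := R.subtype) Subtype.val_injective] at e1
      exact e1
    · rw [← natDegree_map_eq_of_injective hinj, hg i false j hij]
      exact c2.le
  · intro i s j hij y hy
    obtain ⟨m, e1, e2, e3⟩ := ((h1 i s j hij).2.2 _ (hmem i s j hij y hy)).2.2
    rw [um_val, coeff_pm] at e2 e3
    exact ⟨m, e1, unit_of_inv e2 e3⟩
  · intro i s j k hij hik hjk y hy y' hy' A hA B hB hB0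
    have e1 := h3 i s j k ⟨hij, hjk⟩ _ (hmem i s j hij y hy) _ (hmem i s k hik y' hy') A hA B hB hB0
    rw [um_inv_val, um_val, um_val, ← E2_pm (hg j false k hjk), ← map_pow, ← map_pow, ← map_mul] at e1
    rcases e1 with ⟨m, e2, e3, e4⟩ | ⟨m, e1, e2, e3, e4⟩
    · left
      rw [coeff_pm] at e2 e3
      refine ⟨m, unit_of_inv e2 e3, fun m' hm' => ?_⟩
      have e5 := e4 m' hm'
      rw [coeff_pm] at e5
      exact Subtype.ext e5
    · right
      rw [coeff_pm] at e3 e4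
      exact ⟨m, e1, e2, unit_of_inv e3 e4⟩
  · intro v w hv hw hvw
    exact BD_sub (hh v w hv hw hvw) (hd' v w hv hw hvw)
  · intro v w hv hw hvw k _ χ
    exact (h4 ⟨(v, w), hv, hw, hvw⟩).2.1 (cf (h v w))
      (fun m _ => cf_sub (hh v w hv hw hvw) m) k χ
  · intro v w hv hw hvw
    obtain ⟨-, -, U, V, r, e1, e2, e3, ⟨i, e4, e5⟩, e6⟩ := h4 ⟨(v, w), hv, hw, hvw⟩
    obtain ⟨U₀, hU₀⟩ := exists_g₀ e1
    obtain ⟨V₀, hV₀⟩ := exists_g₀ e2
    obtain ⟨r₀, hr₀⟩ := exists_r₀ e3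
    refine ⟨U₀, V₀, r₀, ⟨i, ?_⟩, ?_⟩
    · have e7 : ((r₀.coeff i : R) : K) = r.coeff i := by
        rw [← hr₀, coeff_map]; rfl
      exact unit_of_inv (by rw [e7]; exact e4) (by rw [e7]; exact e5)
    · apply Polynomial.map_injective (mapRingHom R.subtype)
        (Polynomial.map_injective _ Subtype.val_injective)
      rw [Polynomial.map_add, Polynomial.map_mul, Polynomial.map_mul, Polynomial.map_mul,
        ← derivative_map, hh v w hv hw hvw, hU₀, hV₀, Polynomial.map_X, Polynomial.map_C]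
      rw [coe_mapRingHom, hr₀]
      exact e6

end GP

end Pool.Agent.Y226.ZG
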