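import Pool.Agent.Y226.ZP.Teich
import Pool.Agent.Y226.ZG.Lift

/-!
# The residue field; linear independence modulo a large prime
-/

set_option autoImplicit false
set_option linter.unusedSectionVars false

open Polynomial

namespace Pool.Agent.Y226.ZG

open Pool.Agent.Y226

variable {C : Type} [NormedField C] [IsUltrametricDist C]

/-- the valuation ring is integrally closed -/
theorem OO_root {f : (OO C)[X]} (hf : f.Monic) {x : C} (hx : f.eval₂ (OO C).subtype x = 0) :
    ‖x‖ ≤ 1 := by
  by_contra hcon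
  push Not at hcon
  rw [eval₂_eq_sum_range, Finset.sum_range_succ, hf.coeff_natDegree] at hx
  have hx0 : x ≠ 0 := norm_pos_iff.1 (one_pos.trans hcon)
  have hn : f.natDegree ≠ 0 := by
    intro h0
    rw [h0] at hx
    simp at hx
  obtain ⟨m, hm⟩ : ∃ m, f.natDegree = m + 1 := ⟨f.natDegree - 1, by omega⟩
  rw [hm] at hx
  have h1 : x ^ (m + 1) = -∑ i ∈ Finset.range (m + 1), (OO C).subtype (f.coeff i) * x ^ i := by
    simp only [map_one, one_mul] at hx
    linear_combination hx
  have h2 : ‖x ^ (m + 1)‖ ≤ ‖x‖ ^ m := by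
    rw [h1, norm_neg]
    refine nsum_le _ _ (by positivity) fun i hi => ?_
    rw [norm_mul, norm_pow]
    have h3 : ‖(OO C).subtype (f.coeff i)‖ ≤ 1 := (f.coeff i).2
    calc ‖(OO C).subtype (f.coeff i)‖ * ‖x‖ ^ i ≤ 1 * ‖x‖ ^ m := by
          gcongr
          · exact hcon.le
          · exact Nat.lt_succ_iff.1 (Finset.mem_range.1 hi)
      _ = ‖x‖ ^ m := one_mul _
  rw [norm_pow] at h2
  have h3 : ‖x‖ ^ m < ‖x‖ ^ (m + 1) := pow_lt_pow_right₀ hcon (Nat.lt_succ_self m)
  exact absurd h2 (not_le.2 h3)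

variable {p : ℕ} [hpf : Fact p.Prime]

/-- the residue field is algebraically closed -/
theorem exists_residue2 [IsAlgClosed C] (hp1 : ‖(p : C)‖ < 1) : ∃ (k : Type) (_ : Field k)
    (_ : CharP k p) (_ : IsAlgClosed k) (red : OO C →+* k),
    ∀ x : OO C, red x = 0 ↔ ‖(x : C)‖ < 1 := by
  let I : Ideal (OO C) :=
    { carrier := {x | ‖(x : C)‖ < 1}
      add_mem' := fun {a b} ha hb => by
        show ‖((a + b : OO C) : C)‖ < 1
        rw [Subring.coe_add]
        exact nadd_lt ha hb
      zero_mem' := by show ‖((0 : OO C) : C)‖ < 1; simp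
      smul_mem' := fun c {x} hx => by
        show ‖((c * x : OO C) : C)‖ < 1
        rw [Subring.coe_mul, norm_mul]
        have h1 : ‖(c : C)‖ ≤ 1 := c.2
        have h2 : ‖(x : C)‖ < 1 := hx
        have := norm_nonneg (x : C)
        nlinarith }
  have hmem : ∀ x : OO C, x ∈ I ↔ ‖(x : C)‖ < 1 := fun x => Iff.rfl
  have hmax : I.IsMaximal := by
    rw [Ideal.isMaximal_iff]
    refine ⟨by rw [hmem]; simp, ?_⟩
    intro J x hIJ hx hxJ
    rw [hmem] at hx
    have hx1 : ‖(x : C)‖ = 1 := le_antisymm x.2 (not_lt.1 hx)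
    have hx0 : (x : C) ≠ 0 := norm_pos_iff.1 (by rw [hx1]; exact one_pos)
    have h2 : (⟨(x : C)⁻¹, by rw [mem_OO, norm_inv, hx1, inv_one]⟩ : OO C) * x = 1 :=
      Subtype.ext (inv_mul_cancel₀ hx0)
    rw [← h2]
    exact J.mul_mem_left _ hxJ
  letI hfield : Field (OO C ⧸ I) := Ideal.Quotient.field I
  refine ⟨OO C ⧸ I, hfield, ?_, ?_, Ideal.Quotient.mk I, ?_⟩
  · have h0 : ((p : ℕ) : OO C ⧸ I) = 0 := by
      have : ((p : ℕ) : OO C ⧸ I) = Ideal.Quotient.mk I (p : OO C) := by simp
      rw [this, Ideal.Quotient.eq_zero_iff_mem, hmem]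
      simpa using hp1
    have hnt : Nontrivial (OO C ⧸ I) := Ideal.Quotient.nontrivial_iff.2 hmax.ne_top
    have : @CharP (OO C ⧸ I) (Ideal.Quotient.commRing I).toAddCommGroupWithOne.toAddMonoidWithOne p := by
      exact (CharP.charP_iff_prime_eq_zero hpf.out).2 h0
    exact this
  · apply IsAlgClosed.of_exists_root
    intro f hf hirr
    have hlift : f ∈ lifts (Ideal.Quotient.mk I) := by
      rw [lifts_iff_coeff_lifts]
      intro i
      exact Ideal.Quotient.mk_surjective _
    obtain ⟨F, hF, hdeg, hFm⟩ := lifts_and_natDegree_eq_and_monic hlift hf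
    have hpos : 0 < f.natDegree := hirr.natDegree_pos
    obtain ⟨x, hx⟩ := IsAlgClosed.exists_root (F.map (OO C).subtype) (by
      rw [degree_eq_natDegree (hFm.map _).ne_zero, hFm.natDegree_map, hdeg]
      exact_mod_cast hpos.ne')
    have hx' : F.eval₂ (OO C).subtype x = 0 := by
      rw [← eval_map]; exact hx
    have hxn := OO_root hFm hx'
    refine ⟨Ideal.Quotient.mk I ⟨x, hxn⟩, ?_⟩
    have h1 : F.eval (⟨x, hxn⟩ : OO C) = 0 := by
      apply Subtype.ext
      have h2 := hom_eval₂ F (RingHom.id (OO C)) (OO C).subtype ⟨x, hxn⟩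
      rw [RingHom.comp_id] at h2
      exact h2.trans hx'
    have h2 := congrArg (Ideal.Quotient.mk I) h1
    rw [map_zero, ← eval_map_apply] at h2
    rw [← hF]
    exact h2
  · intro x
    rw [Ideal.Quotient.eq_zero_iff_mem, hmem]

/-- linear independence modulo large primes -/
theorem LI_mod {k : Type} [Field k] [CharP k p] {n M : ℕ} {v w : Fin n → ℤ} (hv : Bv M v)
    (hw : Bv M w) (h : LI v w) (hp : 2 * M ^ 2 < p) (c₁ c₂ : k) (hc : (c₁, c₂) ≠ (0, 0)) :
    ∃ i, c₁ * v i + c₂ * w i ≠ 0 := by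
  by_contra hcon
  push Not at hcon
  have hmin : ∀ i j, v i * w j - v j * w i = 0 := by
    intro i j
    have h1 : ((v i * w j - v j * w i : ℤ) : k) = 0 := by
      have h2 : c₁ * ((v i * w j - v j * w i : ℤ) : k) = 0 := by
        push_cast
        linear_combination (w j : k) * hcon i - (w i : k) * hcon j
      have h3 : c₂ * ((v i * w j - v j * w i : ℤ) : k) = 0 := by
        push_cast
        linear_combination (v i : k) * hcon j - (v j : k) * hcon i
      by_contra h4
      apply hc
      rw [(mul_eq_zero.1 h2).resolve_right h4, (mul_eq_zero.1 h3).resolve_right h4]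
    have h2 : (p : ℤ) ∣ v i * w j - v j * w i := (CharP.intCast_eq_zero_iff k p _).1 h1
    by_contra h3
    have h4 := Int.le_of_dvd (abs_pos.2 h3) ((dvd_abs _ _).2 h2)
    have h5 : |v i * w j - v j * w i| ≤ M * M + M * M := by
      refine (abs_sub _ _).trans ?_
      rw [abs_mul, abs_mul]
      gcongr
      · exact hv i
      · exact hw j
      · exact hv j
      · exact hw i
    have h6 : (2 * M ^ 2 : ℤ) < p := by exact_mod_cast hp
    nlinarith
  by_cases hv0 : v = 0
  · apply h 1 0 (by simp)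
    funext i
    simp [hv0]
  · obtain ⟨i₀, hi₀⟩ := Function.ne_iff.1 hv0
    apply h (w i₀) (-v i₀)
    · intro h1
      have h2 := congrArg Prod.snd h1
      simp only at h2
      apply hi₀
      show v i₀ = 0
      omega
    · funext i
      show w i₀ * v i + -v i₀ * w i = 0
      linear_combination -hmin i₀ i

end Pool.Agent.Y226.ZG
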