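import Pool.Agent.Y226.ZP.Emb
import Pool.Agent.Y226.ZP.Modular
import Pool.Agent.Y226.ZG.Resid

/-!
# Two coordinates of the same class, with weights
-/

set_option autoImplicit false
set_option linter.unusedSectionVars false

open UpperHalfPlane H294ZP Polynomial

namespace Pool.Agent.Y226.ZG

open Pool.Agent.Y226

section

variable {C : Type} [NormedField C] [IsUltrametricDist C]

/-- powers of an element close to one -/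
theorem pow_expand {P u a : C} (hP : ‖P‖ ≤ 1) (ha : ‖a‖ ≤ 1) (h : ‖u - (1 + P * a)‖ ≤ ‖P‖ ^ 2)
    (hu : ‖u‖ ≤ 1) (n : ℕ) : ‖u ^ n - (1 + P * (n * a))‖ ≤ ‖P‖ ^ 2 := by
  induction n with
  | zero => simp
  | succ n ih =>
    have e : u ^ (n + 1) - (1 + P * ((n + 1 : ℕ) * a)) = (u ^ n - (1 + P * (n * a))) * u +
        (1 + P * (n * a)) * (u - (1 + P * a)) + P ^ 2 * (n * (a * a)) := by
      rw [pow_succ]; push_cast; ring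
    have hna : ‖(n : C) * a‖ ≤ 1 := nmul_le (nnat n) ha
    rw [e]
    refine nadd_le (nadd_le (nmul_le' ih hu) (nmul_le ?_ h)) ?_
    · exact nadd_le norm_one.le (nmul_le hP hna)
    · rw [← norm_pow]
      exact nmul_le' le_rfl (nmul_le (nnat n) (nmul_le ha ha))

end

variable {C : Type} [NormedField C] [IsUltrametricDist C] [CompleteSpace C] [CharZero C]
  [IsAlgClosed C]
variable {p : ℕ} [hpf : Fact p.Prime]

/-- the norm of `Λ` -/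
theorem Lam_norm (hp0 : 0 < ‖(p : C)‖) {Λ pu : Cˣ} (hpu : (pu : C) = p) {w e : ℕ}
    (hΛ : Λ * pu ^ (w * e) ∈ GG C p 0 le_rfl one_pos) : ‖(Λ : C)‖ = ‖(p : C)‖⁻¹ ^ (w * e) := by
  have h1 := GG_norm hΛ
  rw [Units.val_mul, norm_mul, Units.val_pow_eq_pow_val, norm_pow, hpu] at h1
  rw [inv_pow]
  exact eq_inv_of_mul_eq_one_left h1

/-- the expansion of the Tate parameter at an affine coordinate -/
theorem tate_lin {ψ : ZZ →+* C} (hψ : ∀ z, ‖ψ z‖ ≤ 1) (hp1 : ‖(p : C)‖ < 1) {X m κ : C}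
    {Λ Y : Cˣ} (hΛ : ‖(Λ : C)‖⁻¹ ≤ ‖(p : C)‖) (hY : ‖(Y : C)‖ = 1) (hκ : ‖κ‖ ≤ 1)
    (hκe : (p : C) * κ * Λ = ψ (cj 1) - m) (hX : X = Λ * Y + m) :
    ‖X‖ = ‖(Λ : C)‖ ∧
      ‖qT ψ X * (Λ * Y) - (1 + p * (κ * (Y : C)⁻¹))‖ ≤ ‖(p : C)‖ ^ 2 := by
  have hΛ0 : (Λ : C) ≠ 0 := Λ.ne_zero
  have hY0 : (Y : C) ≠ 0 := Y.ne_zero
  have hΛpos : 0 < ‖(Λ : C)‖ := norm_pos_iff.2 hΛ0
  have hpΛ : 1 ≤ ‖(p : C)‖ * ‖(Λ : C)‖ := by
    rwa [inv_le_iff_one_le_mul₀ hΛpos] at hΛ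
  have hm : ‖m‖ ≤ ‖(p : C)‖ * ‖(Λ : C)‖ := by
    have e1 : m = ψ (cj 1) - p * κ * Λ := by rw [hκe]; ring
    rw [e1]
    refine nsub_le ((hψ _).trans hpΛ) ?_
    rw [norm_mul, norm_mul]
    have := norm_nonneg (p : C)
    calc ‖(p : C)‖ * ‖κ‖ * ‖(Λ : C)‖ ≤ ‖(p : C)‖ * 1 * ‖(Λ : C)‖ := by gcongr
      _ = ‖(p : C)‖ * ‖(Λ : C)‖ := by rw [mul_one]
  have hXn : ‖X‖ = ‖(Λ : C)‖ := by
    have h1 : ‖(Λ : C) * Y‖ = ‖(Λ : C)‖ := by rw [norm_mul, hY, mul_one]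
    rw [hX, neq_of_add_lt, h1]
    rw [h1]
    refine hm.trans_lt ?_
    nlinarith
  have hX1 : 1 < ‖X‖ := by
    rw [hXn]
    nlinarith
  have hX0 : X ≠ 0 := norm_pos_iff.1 (one_pos.trans hX1)
  refine ⟨hXn, ?_⟩
  have hXinv : ‖X⁻¹‖ ≤ ‖(p : C)‖ := by rw [norm_inv, hXn]; exact hΛ
  have h1 := qT_expand hψ hX1
  have h2 : ‖qT ψ X * X - (1 + ψ (cj 1) * X⁻¹)‖ ≤ ‖(p : C)‖ ^ 2 := by
    refine h1.trans ?_
    rw [hXn]
    exact pow_le_pow_left₀ (inv_nonneg.2 hΛpos.le) hΛ 2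
  set t := m * X⁻¹ with ht
  have htn : ‖t‖ ≤ ‖(p : C)‖ := by
    rw [ht, norm_mul, norm_inv, hXn, ← div_eq_mul_inv, div_le_iff₀ hΛpos]
    exact hm
  have e0 : (Λ : C) * Y * X⁻¹ = 1 - t := by
    rw [ht, hX]
    have : (Λ : C) * Y + m ≠ 0 := by rw [← hX]; exact hX0
    field_simp
    ring
  have hu : ‖(Λ : C) * Y * X⁻¹‖ ≤ 1 := by
    rw [e0]
    exact nsub_le norm_one.le (htn.trans hp1.le)
  have hκY : ‖κ * (Y : C)⁻¹‖ ≤ 1 := nmul_le hκ (by rw [norm_inv, hY, inv_one])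
  have e1 : qT ψ X * ((Λ : C) * Y) - (1 + p * (κ * (Y : C)⁻¹)) =
      (qT ψ X * X - (1 + ψ (cj 1) * X⁻¹)) * ((Λ : C) * Y * X⁻¹) -
        (p * (κ * (Y : C)⁻¹) * t + ψ (cj 1) * X⁻¹ * t) := by
    have e2 : (ψ (cj 1) - m) * X⁻¹ = p * (κ * (Y : C)⁻¹) * (1 - t) := by
      rw [← hκe, ← e0]
      field_simp
    have e3 : qT ψ X * ((Λ : C) * Y) = qT ψ X * X * (1 - t) := by
      rw [← e0]
      field_simp
    rw [e3, e0]
    have e4 : ψ (cj 1) * X⁻¹ = p * (κ * (Y : C)⁻¹) * (1 - t) + t := by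
      rw [← e2, ht]; ring
    rw [e4]
    ring
  rw [e1]
  refine nsub_le (nmul_le' h2 hu) (nadd_le ?_ ?_)
  · rw [norm_mul, sq]
    have h3 : ‖(p : C) * (κ * (Y : C)⁻¹)‖ ≤ ‖(p : C)‖ := nmul_le' le_rfl hκY
    gcongr
  · rw [norm_mul, sq]
    have h3 : ‖ψ (cj 1) * X⁻¹‖ ≤ ‖(p : C)‖ := nmul_le (hψ _) hXinv
    gcongr

/-- the relation between two good coordinates of the same class -/
theorem pair_info2 (φ : QA →+* C) (hp0 : 0 < ‖(p : C)‖) (hp1 : ‖(p : C)‖ < 1) {Λj Λk pu : Cˣ}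
    (hpu : (pu : C) = p) {wj wk e : ℕ} (he : 0 < e) (hwj : 0 < wj) (hwk : 0 < wk)
    (hΛj : Λj * pu ^ (wj * e) ∈ GG C p 0 le_rfl one_pos)
    (hΛk : Λk * pu ^ (wk * e) ∈ GG C p 0 le_rfl one_pos) {κj κk : OO C} {mj mk : C}
    (hκj : (p : C) * κj * Λj = φ (iA (cj 1)) - mj) (hκk : (p : C) * κk * Λk = φ (iA (cj 1)) - mk)
    {Xj Xk : QA} {Yj Yk : Cˣ} (hYj : ‖(Yj : C)‖ = 1) (hYk : ‖(Yk : C)‖ = 1)
    (hxj : φ Xj = Λj * Yj + mj) (hxk : φ Xk = Λk * Yk + mk) {τ w : ℍ} {a b c d' : ℤ}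
    (hdet : 0 < a * d' - b * c) (hw : (w : ℂ) * (c * τ + d') = a * τ + b)
    (hjτ : rA Xj = jj τ) (hkw : rA Xk = jj w) :
    ∃ (A B g' s : ℕ) (ζ' ε : Cˣ), 0 < A ∧ 0 < B ∧ A.Coprime B ∧ B * wk = A * wj ∧ 0 < g' ∧
      g'.Coprime p ∧ IsPrimitiveRoot (ζ' : C) g' ∧ IsPrimitiveRoot (ε : C) (p ^ s) ∧
      Λk ^ B * (Λj ^ A)⁻¹ ∈ GG C p 0 le_rfl one_pos ∧
      ‖((Λk ^ B * (Λj ^ A)⁻¹ * (Yk ^ B * (Yj ^ A)⁻¹) * (ζ' * ε) : Cˣ) : C) -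
        (1 + p * (B * (κk * ((Yk : Cˣ) : C)⁻¹) - A * (κj * ((Yj : Cˣ) : C)⁻¹)))‖ ≤ ‖(p : C)‖ ^ 2 ∧
      PsiE ιZ (mP (A * B * (g' * p ^ s) ^ 2)) (mD (A * B * (g' * p ^ s) ^ 2)) (rA Xj) (rA Xk) = 0 := by
  set ψ := φ.comp iA with hψdef
  have hψ : ∀ z, ‖ψ z‖ ≤ 1 := psi_norm φ
  have hΛjn := Lam_norm hp0 hpu hΛj
  have hΛkn := Lam_norm hp0 hpu hΛk
  have hbig : ∀ w : ℕ, 0 < w → ‖(p : C)‖ ^ (w * e) ≤ ‖(p : C)‖ := fun w hw =>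
    pow_le_of_le_one (norm_nonneg _) hp1.le (Nat.mul_pos hw he).ne'
  have hΛ1 : ∀ w : ℕ, 0 < w → 1 < ‖(p : C)‖⁻¹ ^ (w * e) := by
    intro w hw
    rw [inv_pow]
    exact (one_lt_inv₀ (pow_pos hp0 _)).2 ((hbig w hw).trans_lt hp1)
  have hinv : ∀ w : ℕ, (‖(p : C)‖⁻¹ ^ (w * e))⁻¹ = ‖(p : C)‖ ^ (w * e) := by
    intro w; rw [inv_pow, inv_inv]
  obtain ⟨hnj0, ej2⟩ := tate_lin hψ hp1 (Λ := Λj) (Y := Yj) (by rw [hΛjn, hinv]; exact hbig _ hwj)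
    hYj κj.2 hκj hxj
  obtain ⟨hnk0, ek2⟩ := tate_lin hψ hp1 (Λ := Λk) (Y := Yk) (by rw [hΛkn, hinv]; exact hbig _ hwk)
    hYk κk.2 hκk hxk
  have hnj : ‖φ Xj‖ = ‖(p : C)‖⁻¹ ^ (wj * e) := by rw [hnj0, hΛjn]
  have hnk : ‖φ Xk‖ = ‖(p : C)‖⁻¹ ^ (wk * e) := by rw [hnk0, hΛkn]
  have hj1 : 1 < ‖φ Xj‖ := by rw [hnj]; exact hΛ1 _ hwj
  have hk1 : 1 < ‖φ Xk‖ := by rw [hnk]; exact hΛ1 _ hwk
  obtain ⟨A, B, g, ζ, hA, hB, hAB, hg, hζ, hq, -, hΨ⟩ :=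
    tate_rel (ψ := ψ) (i₀ := iA) hψ rA_comp rfl hdet hw hjτ hkw hj1
  have hζn : ‖ζ‖ = 1 := by
    have h1 : ‖ζ‖ ^ g = 1 := by rw [← norm_pow, hζ.pow_eq_one, norm_one]
    exact (pow_eq_one_iff_of_nonneg (norm_nonneg _) hg.ne').1 h1
  have hABw : B * wk = A * wj := by
    have h1 := congrArg norm hq
    rw [norm_mul, norm_pow, norm_pow, hζn, one_mul, qT_norm hψ hk1, qT_norm hψ hj1, hnj, hnk,
      hinv, hinv, ← pow_mul, ← pow_mul] at h1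
    have h3 := pow_right_injective₀ hp0 hp1.ne h1
    have h4 : B * wk * e = A * wj * e := by
      have : wk * e * B = wj * e * A := h3
      calc B * wk * e = wk * e * B := by ring
        _ = wj * e * A := this
        _ = A * wj * e := by ring
    exact Nat.eq_of_mul_eq_mul_right he h4
  obtain ⟨g', s, ζ', ε, hgg, hg'p, hζ', hε, hζe⟩ := root_decomp (p := p) hg hζ
  have hg'0 : 0 < g' := Nat.pos_of_ne_zero (by
    rintro rfl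
    rw [zero_mul] at hgg
    omega)
  have hζ'0 : ζ' ≠ 0 := hζ'.ne_zero hg'0.ne'
  have hε0 : ε ≠ 0 := hε.ne_zero (pow_pos hpf.out.pos _).ne'
  refine ⟨A, B, g', s, Units.mk0 ζ' hζ'0, Units.mk0 ε hε0, hA, hB, hAB, hABw, hg'0, hg'p, hζ', hε,
    ?_, ?_, ?_⟩
  · -- the unit part
    have h1 := mul_mem (pow_mem hΛk B) (inv_mem (pow_mem hΛj A))
    have e1 : (Λk * pu ^ (wk * e)) ^ B * ((Λj * pu ^ (wj * e)) ^ A)⁻¹ = Λk ^ B * (Λj ^ A)⁻¹ := by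
      rw [mul_pow, mul_pow, ← pow_mul, ← pow_mul, mul_inv]
      have e2 : wk * e * B = wj * e * A := by
        calc wk * e * B = (B * wk) * e := by ring
          _ = (A * wj) * e := by rw [hABw]
          _ = wj * e * A := by ring
      rw [e2]
      have e3 : Λk ^ B * pu ^ (wj * e * A) * ((Λj ^ A)⁻¹ * (pu ^ (wj * e * A))⁻¹) =
        Λk ^ B * (Λj ^ A)⁻¹ * (pu ^ (wj * e * A) * (pu ^ (wj * e * A))⁻¹) := by ac_rfl
      rw [e3, mul_inv_cancel, mul_one]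
    rwa [e1] at h1
  · -- second order expansion
    set qj := qT ψ (φ Xj) with hqj
    set qk := qT ψ (φ Xk) with hqk
    have hΛj0 : (Λj : C) ≠ 0 := Λj.ne_zero
    have hΛk0 : (Λk : C) ≠ 0 := Λk.ne_zero
    have hYj0 : (Yj : C) ≠ 0 := Yj.ne_zero
    have hYk0 : (Yk : C) ≠ 0 := Yk.ne_zero
    have hqj0 : qj ≠ 0 := qT_ne hψ hj1
    have haj : ‖(κj : C) * (Yj : C)⁻¹‖ ≤ 1 :=
      nmul_le κj.2 (by rw [norm_inv, hYj, inv_one])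
    have hak : ‖(κk : C) * (Yk : C)⁻¹‖ ≤ 1 :=
      nmul_le κk.2 (by rw [norm_inv, hYk, inv_one])
    set aj := (κj : C) * (Yj : C)⁻¹ with haj'
    set ak := (κk : C) * (Yk : C)⁻¹ with hak'
    set uj := qj * (Λj * Yj) with huj
    set uk := qk * (Λk * Yk) with huk
    have hu1 : ∀ {u a : C}, ‖a‖ ≤ 1 → ‖u - (1 + p * a)‖ ≤ ‖(p : C)‖ ^ 2 →
        ‖u - 1‖ ≤ ‖(p : C)‖ := by
      intro u a ha h
      have : u - 1 = (u - (1 + p * a)) + p * a := by ring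
      rw [this]
      exact nadd_le (h.trans (pow_le_of_le_one (norm_nonneg _) hp1.le two_ne_zero))
        (nmul_le' le_rfl ha)
    have huj1 : ‖uj‖ = 1 := neq_one ((hu1 haj ej2).trans_lt hp1) norm_one
    have huk1 : ‖uk‖ = 1 := neq_one ((hu1 hak ek2).trans_lt hp1) norm_one
    have huj0 : uj ≠ 0 := norm_pos_iff.1 (by rw [huj1]; exact one_pos)
    have fj := pow_expand hp1.le haj ej2 huj1.le A
    have fk := pow_expand hp1.le hak ek2 huk1.le B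
    have hAj : ‖(A : C) * aj‖ ≤ 1 := nmul_le (nnat A) haj
    have hBk : ‖(B : C) * ak‖ ≤ 1 := nmul_le (nnat B) hak
    have e3 : ((Λk ^ B * (Λj ^ A)⁻¹ * (Yk ^ B * (Yj ^ A)⁻¹) *
        (Units.mk0 ζ' hζ'0 * Units.mk0 ε hε0) : Cˣ) : C) = uk ^ B * (uj ^ A)⁻¹ := by
      simp only [Units.val_mul, Units.val_inv_eq_inv_val, Units.val_pow_eq_pow_val, Units.val_mk0]
      rw [huk, huj, mul_pow, mul_pow, hq, ← hζe, mul_pow, mul_pow]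
      field_simp
    rw [e3]
    have e4 : uk ^ B * (uj ^ A)⁻¹ - (1 + p * (B * ak - A * aj)) =
        ((uk ^ B - (1 + p * (B * ak))) - (uj ^ A - (1 + p * (A * aj))) -
          (uj ^ A - 1) * (p * (B * ak - A * aj))) * (uj ^ A)⁻¹ := by
      have : uj ^ A ≠ 0 := pow_ne_zero _ huj0
      field_simp
      ring
    rw [e4]
    refine nmul_le' (nsub_le (nsub_le fk fj) ?_) ?_
    · rw [norm_mul, sq]
      have h1 := hu1 hAj fj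
      have h2 : ‖(p : C) * (B * ak - A * aj)‖ ≤ ‖(p : C)‖ := nmul_le' le_rfl (nsub_le hBk hAj)
      have := norm_nonneg (uj ^ A - 1)
      gcongr
    · rw [norm_inv, norm_pow, huj1, one_pow, inv_one]
  · rw [hjτ, hkw, ← hgg]
    exact hΨ

end Pool.Agent.Y226.ZG
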