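import Pool.Agent.Y226.ZG.NoCoset
import Pool.Agent.Y226.ZP.Exc

/-!
# Wild torsion in the relation between two monomials
-/

set_option autoImplicit false
set_option linter.unusedSectionVars false

open Polynomial

namespace Pool.Agent.Y226.ZG

open Pool.Agent.Y226

variable {C : Type} [NormedField C] [IsUltrametricDist C]
variable {p : ℕ} [hpf : Fact p.Prime]

/-- the contact lemma, with a unit coefficient -/
theorem contact2 (hp1 : ‖(p : C)‖ < 1) {E : C[X]} (hE : E ∈ PS (Nr C p)) {D : ℕ}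
    (hD : E.natDegree ≤ D) (hu : ∃ j, ‖E.coeff j‖ = 1) {t t₀ : C} (ht₀ : t₀ ∈ Nr C p)
    (h : ‖t - t₀‖ < 1) :
    ∃ r ≤ D, ∃ w ∈ Nr C p, ‖w‖ = 1 ∧
      ‖E.eval t - w * (t - t₀) ^ r‖ ≤ max ‖(p : C)‖ (‖t - t₀‖ ^ (r + 1)) := by
  classical
  set e : ℕ → C := fun i => (taylor t₀ E).coeff i with he
  have hmem : ∀ i, e i ∈ Nr C p := fun i => taylor_mem hE ht₀ i
  have heval : ∀ y : C, E.eval y = ∑ i ∈ Finset.range (D + 1), e i * (y - t₀) ^ i := by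
    intro y
    have h1 : E.eval y = (taylor t₀ E).eval (y - t₀) := by
      rw [taylor_eval, sub_add_cancel]
    rw [h1, eval_eq_sum_range' (n := D + 1)]
    rw [natDegree_taylor]
    omega
  have hpoly : E = ∑ i ∈ Finset.range (D + 1), Polynomial.C (e i) * (X - Polynomial.C t₀) ^ i := by
    have h1 := sum_taylor_eq E t₀
    rw [← h1]
    rw [Polynomial.sum_over_range' _ (fun n => by simp) (D + 1) (by rw [natDegree_taylor]; omega)]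
  have hex : ∃ i, i ≤ D ∧ ‖e i‖ = 1 := by
    by_contra hcon
    push Not at hcon
    obtain ⟨j, hj⟩ := hu
    have h2 : ‖E.coeff j‖ ≤ ‖(p : C)‖ := by
      rw [hpoly, finsetSum_coeff]
      refine nsum_le _ _ (norm_nonneg _) fun i hi => ?_
      rw [coeff_C_mul]
      refine nmul_le' (Nr_gap (hmem i) (lt_of_le_of_ne (Nr_le (hmem i)) (hcon i ?_))) ?_
      · exact Nat.lt_succ_iff.1 (Finset.mem_range.1 hi)
      · have h3 : (X - Polynomial.C t₀) ^ i ∈ PS (Nr C p) := by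
          refine pow_mem (sub_mem ?_ (C_mem_PS ht₀)) _
          rw [mem_PS]
          intro n
          rw [coeff_X]
          split_ifs
          · exact one_mem _
          · exact zero_mem _
        exact Nr_le (mem_PS.1 h3 j)
    rw [hj] at h2
    exact absurd hp1 (not_lt.2 h2)
  set r := Nat.find hex with hr
  obtain ⟨hrD, hr1⟩ := Nat.find_spec hex
  have hmin : ∀ i < r, ‖e i‖ ≤ ‖(p : C)‖ := by
    intro i hi
    have h3 := Nat.find_min hex hi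
    push Not at h3
    exact Nr_gap (hmem i) (lt_of_le_of_ne (Nr_le (hmem i)) (h3 (by omega)))
  refine ⟨r, hrD, e r, hmem r, hr1, ?_⟩
  rw [heval t, ← Finset.add_sum_erase _ _ (Finset.mem_range.2 (Nat.lt_succ_of_le hrD)),
    add_sub_cancel_left]
  refine nsum_le _ _ (le_max_of_le_left (norm_nonneg _)) fun i hi => ?_
  have hne := Finset.ne_of_mem_erase hi
  rcases lt_or_gt_of_ne hne with h4 | h4
  · exact (nmul_le' (hmin i h4) (npow_le h.le _)).trans (le_max_left _ _)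
  · refine (nmul_le (Nr_le (hmem i)) le_rfl).trans (le_max_of_le_right ?_)
    rw [norm_pow]
    exact pow_le_pow_of_le_one (norm_nonneg _) h.le h4

theorem contact2_le (hp1 : ‖(p : C)‖ < 1) {E : C[X]} (hE : E ∈ PS (Nr C p)) {D : ℕ}
    (hD : E.natDegree ≤ D) (hu : ∃ j, ‖E.coeff j‖ = 1) {t t₀ : C} (ht₀ : t₀ ∈ Nr C p)
    (h : ‖t - t₀‖ < 1) {θ : ℝ} (hθ : ‖(p : C)‖ ≤ θ) (hθ0 : 0 < θ) (ht : ‖E.eval t‖ ≤ θ) :
    ‖t - t₀‖ ^ D ≤ θ := by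
  obtain ⟨r, hrD, w, -, hw, hle⟩ := contact2 hp1 hE hD hu ht₀ h
  refine (pow_le_pow_of_le_one (norm_nonneg _) h.le hrD).trans ?_
  by_contra hcon
  push Not at hcon
  have hn : ‖w * (t - t₀) ^ r‖ = ‖t - t₀‖ ^ r := by rw [norm_mul, hw, one_mul, norm_pow]
  have hlt : ‖E.eval t - w * (t - t₀) ^ r‖ < ‖w * (t - t₀) ^ r‖ := by
    refine hle.trans_lt ?_
    rw [hn]
    refine max_lt (hθ.trans_lt hcon) ?_
    rw [pow_succ]
    have h0 : 0 < ‖t - t₀‖ ^ r := hθ0.trans hcon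
    calc ‖t - t₀‖ ^ r * ‖t - t₀‖ < ‖t - t₀‖ ^ r * 1 := by gcongr
      _ = ‖t - t₀‖ ^ r := mul_one _
  have h5 := neq_of_sub_lt hlt
  rw [h5, hn] at ht
  exact absurd ht (not_le.2 hcon)

theorem split_pow : ∀ (M : ℕ) (n₁ n₂ : ℤ), n₁.natAbs + n₂.natAbs ≤ M → (n₁, n₂) ≠ (0, 0) →
    ∃ (r : ℕ) (m₁ m₂ : ℤ), n₁ = (p : ℤ) ^ r * m₁ ∧ n₂ = (p : ℤ) ^ r * m₂ ∧
      ¬ ((p : ℤ) ∣ m₁ ∧ (p : ℤ) ∣ m₂) := by
  intro M
  induction M with
  | zero =>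
    intro n₁ n₂ h hne
    exfalso
    apply hne
    rw [Prod.mk.injEq]
    omega
  | succ M ih =>
    intro n₁ n₂ h hne
    by_cases hd : (p : ℤ) ∣ n₁ ∧ (p : ℤ) ∣ n₂
    · obtain ⟨⟨a, rfl⟩, ⟨b, rfl⟩⟩ := hd
      have hp := hpf.out.two_le
      have hne' : (a, b) ≠ (0, 0) := by
        intro h0
        rw [Prod.mk.injEq] at h0
        apply hne
        rw [h0.1, h0.2, mul_zero]
      have hlt : a.natAbs + b.natAbs ≤ M := by
        rw [Int.natAbs_mul, Int.natAbs_mul, Int.natAbs_natCast] at h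
        have h1 : 0 < a.natAbs + b.natAbs := by
          by_contra hcon
          apply hne'
          rw [Prod.mk.injEq]
          omega
        nlinarith
      obtain ⟨r, m₁, m₂, h1, h2, h3⟩ := ih a b hlt hne'
      exact ⟨r + 1, m₁, m₂, by rw [h1]; ring, by rw [h2]; ring, h3⟩
    · exact ⟨0, n₁, n₂, by simp, by simp, hd⟩

theorem zpow_sub_one_le {u : Cˣ} (hu : ‖(u : C)‖ = 1) {R : ℝ} (h : ‖(u : C) - 1‖ ≤ R) (q : ℤ) :
    ‖((u ^ q : Cˣ) : C) - 1‖ ≤ R := by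
  have hnat : ∀ n : ℕ, ‖((u ^ n : Cˣ) : C) - 1‖ ≤ R := by
    intro n
    rw [Units.val_pow_eq_pow_val]
    have := npow_sub_pow hu.le (norm_one (α := C)).le h n
    rwa [one_pow] at this
  rcases Int.eq_nat_or_neg q with ⟨n, rfl | rfl⟩
  · rw [zpow_natCast]; exact hnat n
  · rw [zpow_neg, zpow_natCast]
    have h1 : ‖((u ^ n : Cˣ) : C)‖ = 1 := by
      rw [Units.val_pow_eq_pow_val, norm_pow, hu, one_pow]
    have h2 : (((u ^ n)⁻¹ : Cˣ) : C) - 1 = -(((u ^ n : Cˣ) : C) - 1) * (((u ^ n)⁻¹ : Cˣ) : C) := by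
      have : ((u ^ n : Cˣ) : C) * (((u ^ n)⁻¹ : Cˣ) : C) = 1 := by
        rw [← Units.val_mul, mul_inv_cancel, Units.val_one]
      linear_combination this
    rw [h2, norm_mul, norm_neg, Units.val_inv_eq_inv_val, norm_inv, h1, inv_one, mul_one]
    exact hnat n

/-- roots of unity of smaller order -/
theorem small_root (hp2 : p ≠ 2) (hp1 : ‖(p : C)‖ < 1) {ε : Cˣ} {s : ℕ}
    (hε : IsPrimitiveRoot (ε : C) (p ^ (s + 1))) {t : ℕ} (ht : t ≤ s + 1) (q : ℤ) :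
    ‖((ε ^ ((p : ℤ) ^ t * q) : Cˣ) : C) - 1‖ ≤ ‖(ε : C) - 1‖ ^ p ^ t := by
  have hlt : ‖(ε : C) - 1‖ < 1 := ppow_root_lt hp1 hε.pow_eq_one
  have hεn : ‖(ε : C)‖ = 1 := neq_one hlt norm_one
  have hu : ‖((ε ^ p ^ t : Cˣ) : C)‖ = 1 := by
    rw [Units.val_pow_eq_pow_val, norm_pow, hεn, one_pow]
  have e : ε ^ ((p : ℤ) ^ t * q) = (ε ^ p ^ t) ^ q := by
    rw [zpow_mul, ← Nat.cast_pow, zpow_natCast]
  rw [e]
  refine zpow_sub_one_le hu ?_ q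
  rw [Units.val_pow_eq_pow_val]
  rcases Nat.lt_or_ge s t with h | h
  · have : t = s + 1 := by omega
    rw [this, hε.pow_eq_one, sub_self, norm_zero]
    positivity
  · obtain ⟨r, hr, he⟩ := nadd_pow_prime hpf.out hlt.le (norm_one (α := C)).le t
    rw [sub_add_cancel, one_pow, mul_one] at he
    have e2 : (ε : C) ^ p ^ t - 1 = ((ε : C) - 1) ^ p ^ t + p * ((ε : C) - 1) * r := by
      rw [he]; ring
    rw [e2]
    refine nadd_le (by rw [norm_pow]) ?_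
    refine (nmul_le' (nmul_le' le_rfl hlt.le) hr).trans ?_
    rw [← ppow_root_norm hp2 hp1 hε]
    refine pow_le_pow_of_le_one (norm_nonneg _) hlt.le ?_
    have h2 := hpf.out.two_le
    calc p ^ t ≤ p ^ s := Nat.pow_le_pow_right hpf.out.pos h
      _ ≤ p ^ s * (p - 1) := Nat.le_mul_of_pos_right _ (by omega)

/-- The main lemma on wild torsion. -/
theorem lemW {k : Type} [Field k] (red : OO C →+* k)
    (hker : ∀ x : OO C, red x = 0 ↔ ‖(x : C)‖ < 1) (hp2 : p ≠ 2) (hp0 : 0 < ‖(p : C)‖)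
    (hp1 : ‖(p : C)‖ < 1) {d : ℕ} (c : ℕ × ℕ → OO C) (hc : ∀ m, ((c m : OO C) : C) ∈ Nr C p)
    (hNC : NoCoset k d (fun m => red (c m))) (hpd : 16 * d ^ 2 < p) {F₁ F₂ : Cˣ}
    (hrel : ∑ m ∈ box d, ((c m : OO C) : C) * (F₁ : C) ^ m.1 * (F₂ : C) ^ m.2 = 0)
    {ε₁ ε₂ : Cˣ} {s : ℕ} (hε₁ : IsPrimitiveRoot (ε₁ : C) (p ^ (s + 1)))
    (hε₂ : (ε₂ : C) ^ p ^ (s + 1) = 1) {τ : ℝ} {h0 : 0 ≤ τ} {h1 : τ < 1} (hpτ : ‖(p : C)‖ ≤ τ)
    (hG₁ : F₁ * ε₁ ∈ GG C p τ h0 h1) (hG₂ : F₂ * ε₂ ∈ GG C p τ h0 h1) :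
    ∃ D : ℕ, D ^ 2 ≤ 16 * d ^ 2 * p ^ (s + 1) ∧ ‖(ε₁ : C) - 1‖ ^ D ≤ τ := by
  classical
  have hlt : ‖(ε₁ : C) - 1‖ < 1 := ppow_root_lt hp1 hε₁.pow_eq_one
  have hpos : 0 < ‖(ε₁ : C) - 1‖ := PData.root_pos hp2 hp1 hp0 hε₁
  have hεn : ‖(ε₁ : C)‖ = 1 := neq_one hlt norm_one
  obtain ⟨w₁, hw₁, hw₁n, hw₁l⟩ := hG₁
  obtain ⟨w₂, hw₂, hw₂n, hw₂l⟩ := hG₂
  -- Thue
  obtain ⟨γ, -, hγ⟩ := hε₁.eq_pow_of_pow_eq_one hε₂
  have hγ' : ε₁ ^ γ = ε₂ := Units.ext (by rw [Units.val_pow_eq_pow_val]; exact hγ)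
  obtain ⟨n₁, n₂, hnn, hn₁, hn₂, hdvd⟩ := thue (p ^ (s + 1)) (pow_pos hpf.out.pos _) (γ : ℤ)
  obtain ⟨r, m₁, m₂, e₁, e₂, hnd⟩ := split_pow (p := p) _ n₁ n₂ le_rfl hnn
  have hb₁ : m₁.natAbs ^ 2 * p ^ (2 * r) ≤ p ^ (s + 1) := by
    rw [e₁, Int.natAbs_mul, Int.natAbs_pow, Int.natAbs_natCast, mul_pow, ← pow_mul, mul_comm r 2] at hn₁
    linarith
  have hb₂ : m₂.natAbs ^ 2 * p ^ (2 * r) ≤ p ^ (s + 1) := by
    rw [e₂, Int.natAbs_mul, Int.natAbs_pow, Int.natAbs_natCast, mul_pow, ← pow_mul, mul_comm r 2] at hn₂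
    linarith
  have h2r : 2 * r ≤ s + 1 := by
    have hne : m₁.natAbs ≠ 0 ∨ m₂.natAbs ≠ 0 := by
      by_contra hcon
      push Not at hcon
      apply hnd
      rw [Int.natAbs_eq_zero.1 hcon.1, Int.natAbs_eq_zero.1 hcon.2]
      exact ⟨dvd_zero _, dvd_zero _⟩
    by_contra hcon
    push Not at hcon
    have h3 := Nat.pow_lt_pow_right hpf.out.one_lt hcon
    rcases hne with h4 | h4
    · have h5 : 1 ≤ m₁.natAbs ^ 2 := Nat.one_le_pow _ _ (Nat.pos_of_ne_zero h4)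
      nlinarith
    · have h5 : 1 ≤ m₂.natAbs ^ 2 := Nat.one_le_pow _ _ (Nat.pos_of_ne_zero h4)
      nlinarith
  obtain ⟨t, ht⟩ : ∃ t, s + 1 = r + t := ⟨s + 1 - r, by omega⟩
  have ht1 : 1 ≤ t := by omega
  have htle : t ≤ s + 1 := by omega
  have hdvd' : ((p : ℤ) ^ t) ∣ m₁ + γ * m₂ := by
    obtain ⟨q, hq⟩ := hdvd
    refine ⟨q, ?_⟩
    have hpr : (p : ℤ) ^ r ≠ 0 := pow_ne_zero _ (by exact_mod_cast hpf.out.ne_zero)
    apply mul_left_cancel₀ hpr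
    rw [ht, pow_add, e₁, e₂] at hq
    push_cast at hq
    linear_combination hq
  have hpm₂ : ¬ (p : ℤ) ∣ m₂ := by
    intro h3
    apply hnd
    refine ⟨?_, h3⟩
    have h4 : (p : ℤ) ∣ m₁ + γ * m₂ := (dvd_pow_self _ (by omega)).trans hdvd'
    have h5 : (p : ℤ) ∣ γ * m₂ := h3.mul_left _
    exact (dvd_add_left h5).1 h4
  have hcop : IsCoprime m₂ ((p : ℤ) ^ (s + 1)) := by
    refine IsCoprime.pow_right ?_
    rw [isCoprime_comm]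
    exact (Prime.coprime_iff_not_dvd (Nat.prime_iff_prime_int.1 hpf.out)).2 hpm₂
  obtain ⟨m, m', hmm⟩ := hcop
  -- the new root of unity
  set ε' : Cˣ := ε₁ ^ (-m) with hε'
  have hε'p : IsPrimitiveRoot (ε' : C) (p ^ (s + 1)) := by
    rw [hε', Units.val_zpow_eq_zpow_val]
    refine hε₁.zpow_of_gcd_eq_one (-m) ?_
    rw [← Int.isCoprime_iff_gcd_eq_one]
    exact ⟨-m₂, m', by push_cast; linear_combination hmm⟩
  have hε'lt : ‖(ε' : C) - 1‖ < 1 := ppow_root_lt hp1 hε'p.pow_eq_one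
  have hε'n : ‖(ε' : C)‖ = 1 := neq_one hε'lt norm_one
  have hnorm : ‖(ε' : C) - 1‖ = ‖(ε₁ : C) - 1‖ := by
    have h3 := ppow_root_norm hp2 hp1 hε'p
    rw [← ppow_root_norm hp2 hp1 hε₁] at h3
    have h4 := hpf.out.two_le
    exact (pow_left_inj₀ (norm_nonneg _) (norm_nonneg _)
      (Nat.mul_ne_zero (pow_pos hpf.out.pos s).ne' (by omega))).1 h3
  -- exponents
  set K : ℕ := d * (m₁.natAbs + m₂.natAbs) with hK
  have hexp : ∀ q : ℕ × ℕ, ∃ e : ℕ, q ∈ box d → (e : ℤ) = K + (m₂ * q.1 + -m₁ * q.2) ∧ e ≤ 2 * K := by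
    intro q
    by_cases hq : q ∈ box d
    · simp only [box, Finset.mem_product, Finset.mem_range] at hq
      have h3 : |m₂ * (q.1 : ℤ) + -m₁ * q.2| ≤ K := by
        have h4 : |m₂ * (q.1 : ℤ)| ≤ m₂.natAbs * d := by
          rw [abs_mul, Nat.abs_cast, ← Int.natCast_natAbs m₂]
          exact_mod_cast Nat.mul_le_mul_left _ (Nat.lt_succ_iff.1 hq.1)
        have h5 : |-m₁ * (q.2 : ℤ)| ≤ m₁.natAbs * d := by
          rw [abs_mul, abs_neg, Nat.abs_cast, ← Int.natCast_natAbs m₁]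
          exact_mod_cast Nat.mul_le_mul_left _ (Nat.lt_succ_iff.1 hq.2)
        refine (abs_add_le _ _).trans ?_
        rw [hK]
        push_cast at h4 h5 ⊢
        linarith
      rw [abs_le] at h3
      exact ⟨(K + (m₂ * q.1 + -m₁ * q.2) : ℤ).toNat, fun _ => ⟨by omega, by omega⟩⟩
    · exact ⟨0, fun h => absurd h hq⟩
  choose e he using hexp
  -- the polynomial
  set Q : C[X] := ∑ q ∈ box d, Polynomial.C (((c q : OO C) : C) * w₁ ^ q.1 * w₂ ^ q.2) * X ^ e q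
    with hQ
  have hQmem : Q ∈ PS (Nr C p) := by
    refine sum_mem fun q _ => mul_mem (C_mem_PS (mul_mem (mul_mem (hc q) (pow_mem hw₁ _))
      (pow_mem hw₂ _))) (pow_mem ?_ _)
    rw [mem_PS]
    intro n
    rw [coeff_X]
    split_ifs
    · exact one_mem _
    · exact zero_mem _
  have hQdeg : Q.natDegree ≤ 2 * K := by
    refine natDegree_sum_le_of_forall_le _ _ fun q hq => ?_
    exact (natDegree_C_mul_X_pow_le _ _).trans (he q hq).2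
  have hQu : ∃ j, ‖Q.coeff j‖ = 1 := by
    set W₁ : OO C := ⟨w₁, hw₁n.le⟩
    set W₂ : OO C := ⟨w₂, hw₂n.le⟩
    have hab : (m₂, -m₁) ≠ ((0 : ℤ), (0 : ℤ)) := by
      intro h3
      rw [Prod.mk.injEq] at h3
      apply hpm₂
      rw [h3.1]
      exact dvd_zero _
    have hr₁ : red W₁ ≠ 0 := by
      rw [Ne, hker]
      show ¬ ‖w₁‖ < 1
      rw [hw₁n]; exact lt_irrefl _
    have hr₂ : red W₂ ≠ 0 := by
      rw [Ne, hker]
      show ¬ ‖w₂‖ < 1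
      rw [hw₂n]; exact lt_irrefl _
    obtain ⟨j, hj⟩ := hNC m₂ (-m₁) hab (red W₁) (red W₂) hr₁ hr₂
    set Y : OO C := ∑ q ∈ (box d).filter (fun q => m₂ * (q.1 : ℤ) + -m₁ * (q.2 : ℤ) = j),
      c q * W₁ ^ q.1 * W₂ ^ q.2 with hY
    have hred : red Y ≠ 0 := by
      rw [hY, map_sum]
      simpa only [map_mul, map_pow] using hj
    have hYn : ‖(Y : C)‖ = 1 := by
      have h3 : ¬ ‖(Y : C)‖ < 1 := fun h => hred ((hker Y).2 h)
      exact le_antisymm Y.2 (not_lt.1 h3)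
    obtain ⟨q₀, hq₀, -⟩ := Finset.exists_ne_zero_of_sum_ne_zero hj
    rw [Finset.mem_filter] at hq₀
    refine ⟨e q₀, ?_⟩
    rw [← hYn]
    congr 1
    rw [hQ, hY, finsetSum_coeff]
    have hcoe : ((∑ q ∈ (box d).filter (fun q => m₂ * (q.1 : ℤ) + -m₁ * (q.2 : ℤ) = j),
      c q * W₁ ^ q.1 * W₂ ^ q.2 : OO C) : C) =
      ∑ q ∈ (box d).filter (fun q => m₂ * (q.1 : ℤ) + -m₁ * (q.2 : ℤ) = j),
        ((c q : OO C) : C) * w₁ ^ q.1 * w₂ ^ q.2 := by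
      rw [← Subring.subtype_apply, map_sum]
      rfl
    rw [hcoe, Finset.sum_filter]
    refine Finset.sum_congr rfl fun q hq => ?_
    rw [coeff_C_mul, coeff_X_pow]
    have h3 := (he q hq).1
    have h4 := (he q₀ hq₀.1).1
    by_cases h5 : m₂ * (q.1 : ℤ) + -m₁ * (q.2 : ℤ) = j
    · rw [if_pos h5, if_pos (by
        have : (e q₀ : ℤ) = e q := by rw [h3, h4, h5, hq₀.2]
        exact_mod_cast this), mul_one]
    · rw [if_neg h5, if_neg, mul_zero]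
      intro h6
      apply h5
      have : (e q₀ : ℤ) = e q := by exact_mod_cast h6
      rw [h3, h4, hq₀.2] at this
      linarith
  -- the values
  set R : ℝ := ‖(ε₁ : C) - 1‖ ^ p ^ t with hR
  have hε₂n : ‖(ε₂ : C)‖ = 1 := by
    rw [← hγ, norm_pow, hεn, one_pow]
  have hinv : ∀ (F ε : Cˣ) (w : C), ‖(ε : C)‖ = 1 → ‖((F * ε : Cˣ) : C) - w‖ ≤ τ →
      ‖(F : C) - w * ((ε⁻¹ : Cˣ) : C)‖ ≤ τ := by
    intro F ε w hε hle
    have h3 : (F : C) - w * ((ε⁻¹ : Cˣ) : C) = (((F * ε : Cˣ) : C) - w) * ((ε⁻¹ : Cˣ) : C) := by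
      rw [Units.val_mul, sub_mul, mul_assoc, ← Units.val_mul, mul_inv_cancel, Units.val_one, mul_one]
    rw [h3]
    refine nmul_le' hle ?_
    rw [Units.val_inv_eq_inv_val, norm_inv, hε, inv_one]
  have hF₁ := hinv F₁ ε₁ w₁ hεn hw₁l
  have hF₂ := hinv F₂ ε₂ w₂ hε₂n hw₂l
  have hwe₁ : ‖w₁ * ((ε₁⁻¹ : Cˣ) : C)‖ ≤ 1 := by
    rw [norm_mul, hw₁n, Units.val_inv_eq_inv_val, norm_inv, hεn, inv_one, mul_one]
  have hwe₂ : ‖w₂ * ((ε₂⁻¹ : Cˣ) : C)‖ ≤ 1 := by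
    rw [norm_mul, hw₂n, Units.val_inv_eq_inv_val, norm_inv, hε₂n, inv_one, mul_one]
  have hF₁n : ‖(F₁ : C)‖ ≤ 1 := by
    have : (F₁ : C) = ((F₁ : C) - w₁ * ((ε₁⁻¹ : Cˣ) : C)) + w₁ * ((ε₁⁻¹ : Cˣ) : C) := by ring
    rw [this]
    exact nadd_le (hF₁.trans h1.le) hwe₁
  have hF₂n : ‖(F₂ : C)‖ ≤ 1 := by
    have : (F₂ : C) = ((F₂ : C) - w₂ * ((ε₂⁻¹ : Cˣ) : C)) + w₂ * ((ε₂⁻¹ : Cˣ) : C) := by ring
    rw [this]
    exact nadd_le (hF₂.trans h1.le) hwe₂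
  have hS1 : ‖∑ q ∈ box d, ((c q : OO C) : C) * (w₁ * ((ε₁⁻¹ : Cˣ) : C)) ^ q.1 *
      (w₂ * ((ε₂⁻¹ : Cˣ) : C)) ^ q.2‖ ≤ τ := by
    have h3 : ∑ q ∈ box d, ((c q : OO C) : C) * (w₁ * ((ε₁⁻¹ : Cˣ) : C)) ^ q.1 *
      (w₂ * ((ε₂⁻¹ : Cˣ) : C)) ^ q.2 = -∑ q ∈ box d, ((c q : OO C) : C) *
        ((F₁ : C) ^ q.1 * (F₂ : C) ^ q.2 - (w₁ * ((ε₁⁻¹ : Cˣ) : C)) ^ q.1 *
      (w₂ * ((ε₂⁻¹ : Cˣ) : C)) ^ q.2) := by
      rw [← sub_eq_zero, sub_neg_eq_add, ← Finset.sum_add_distrib, ← hrel]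
      refine Finset.sum_congr rfl fun q _ => ?_
      ring
    rw [h3, norm_neg]
    refine nsum_le _ _ h0 fun q _ => nmul_le (c q).2 ?_
    exact nmul_sub_mul (npow_le hF₁n _) (npow_le hwe₂ _) (npow_sub_pow hF₁n hwe₁ hF₁ _)
      (npow_sub_pow hF₂n hwe₂ hF₂ _)
  have hterm : ∀ q ∈ box d, (ε' : C) ^ K * (((ε₁⁻¹ : Cˣ) : C) ^ q.1 * ((ε₂⁻¹ : Cˣ) : C) ^ q.2) =
      (ε' : C) ^ e q * ((ε₁ ^ ((p : ℤ) ^ t * (-(m' * (p : ℤ) ^ r * q.1) -
        (m * ((m₁ + γ * m₂) / (p : ℤ) ^ t) + γ * m' * (p : ℤ) ^ r) * q.2)) : Cˣ) : C) := by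
    intro q hq
    have h3 := (he q hq).1
    obtain ⟨x, hx⟩ := hdvd'
    have hpt : (p : ℤ) ^ t ≠ 0 := pow_ne_zero _ (by exact_mod_cast hpf.out.ne_zero)
    rw [hx, Int.mul_ediv_cancel_left _ hpt]
    have key : ε' ^ K * ((ε₁⁻¹) ^ q.1 * (ε₂⁻¹) ^ q.2) = ε' ^ e q *
        ε₁ ^ ((p : ℤ) ^ t * (-(m' * (p : ℤ) ^ r * q.1) -
        (m * x + γ * m' * (p : ℤ) ^ r) * q.2)) := by
      rw [← hγ', hε', ← zpow_natCast (ε₁ ^ (-m)) K, ← zpow_natCast (ε₁ ^ (-m)) (e q),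
        ← zpow_mul, ← zpow_mul, inv_pow, inv_pow, ← pow_mul, ← zpow_natCast, ← zpow_natCast,
        ← zpow_neg, ← zpow_neg, ← zpow_add, ← zpow_add, ← zpow_add]
      congr 1
      rw [h3]
      have hps : (p : ℤ) ^ (s + 1) = (p : ℤ) ^ r * (p : ℤ) ^ t := by rw [ht, pow_add]
      rw [hps] at hmm
      push_cast
      linear_combination (q.1 : ℤ) * hmm + (γ * q.2 : ℤ) * hmm - (q.2 * m : ℤ) * hx
    have := congrArg (fun u : Cˣ => (u : C)) key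
    simpa only [Units.val_mul, Units.val_pow_eq_pow_val] using this
  have hQval : ‖Q.eval (ε' : C)‖ ≤ max τ R := by
    have h3 : Q.eval (ε' : C) = (ε' : C) ^ K * (∑ q ∈ box d, ((c q : OO C) : C) *
      (w₁ * ((ε₁⁻¹ : Cˣ) : C)) ^ q.1 * (w₂ * ((ε₂⁻¹ : Cˣ) : C)) ^ q.2) -
      ∑ q ∈ box d, ((c q : OO C) : C) * w₁ ^ q.1 * w₂ ^ q.2 * (ε' : C) ^ e q *
        (((ε₁ ^ ((p : ℤ) ^ t * (-(m' * (p : ℤ) ^ r * q.1) -
        (m * ((m₁ + γ * m₂) / (p : ℤ) ^ t) + γ * m' * (p : ℤ) ^ r) * q.2)) : Cˣ) : C) - 1) := by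
      rw [Finset.mul_sum, ← Finset.sum_sub_distrib, hQ, eval_finsetSum]
      refine Finset.sum_congr rfl fun q hq => ?_
      rw [eval_mul, eval_C, eval_pow, eval_X, mul_pow, mul_pow]
      have h4 := hterm q hq
      linear_combination -(((c q : OO C) : C) * w₁ ^ q.1 * w₂ ^ q.2) * h4
    rw [h3]
    refine nsub_le ?_ ?_
    · exact (nmul_le (npow_le hε'n.le _) hS1).trans (le_max_left _ _)
    · refine (nsum_le _ _ (by positivity) fun q _ => ?_).trans (le_max_right τ R)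
      refine nmul_le (nmul_le (nmul_le (nmul_le (c q).2 (npow_le hw₁n.le _)) (npow_le hw₂n.le _))
        (npow_le hε'n.le _)) ?_
      exact small_root hp2 hp1 hε₁ htle _
  -- conclusion
  have hmax : 0 < max τ R := lt_max_of_lt_left (hp0.trans_le hpτ)
  have hfin := contact2_le hp1 hQmem hQdeg hQu (one_mem (Nr C p)) hε'lt
    (hpτ.trans (le_max_left τ R)) hmax hQval
  rw [hnorm] at hfin
  have hKb : (2 * K) ^ 2 * p ^ (2 * r) ≤ 16 * d ^ 2 * p ^ (s + 1) := by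
    have h3 : (m₁.natAbs + m₂.natAbs) ^ 2 ≤ 2 * (m₁.natAbs ^ 2 + m₂.natAbs ^ 2) := by
      have := two_mul_le_add_sq m₁.natAbs m₂.natAbs
      nlinarith
    calc (2 * K) ^ 2 * p ^ (2 * r) = 4 * d ^ 2 * ((m₁.natAbs + m₂.natAbs) ^ 2 * p ^ (2 * r)) := by
          rw [hK]; ring
      _ ≤ 4 * d ^ 2 * (2 * (m₁.natAbs ^ 2 + m₂.natAbs ^ 2) * p ^ (2 * r)) := by gcongr
      _ = 8 * d ^ 2 * (m₁.natAbs ^ 2 * p ^ (2 * r)) + 8 * d ^ 2 * (m₂.natAbs ^ 2 * p ^ (2 * r)) := by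
          ring
      _ ≤ 8 * d ^ 2 * p ^ (s + 1) + 8 * d ^ 2 * p ^ (s + 1) := by gcongr
      _ = 16 * d ^ 2 * p ^ (s + 1) := by ring
  have hKt : 2 * K < p ^ t := by
    by_contra hcon
    push Not at hcon
    have h3 : (p ^ t) ^ 2 * p ^ (2 * r) ≤ 16 * d ^ 2 * p ^ (s + 1) :=
      (Nat.mul_le_mul_right _ (Nat.pow_le_pow_left hcon 2)).trans hKb
    have h4 : (p ^ t) ^ 2 * p ^ (2 * r) = p ^ (s + 1) * p ^ (s + 1) := by
      rw [← pow_mul, ← pow_add, ← pow_add]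
      congr 1
      omega
    rw [h4] at h3
    have h5 : p ^ (s + 1) ≤ 16 * d ^ 2 :=
      Nat.le_of_mul_le_mul_right h3 (pow_pos hpf.out.pos _)
    have h6 : p ≤ p ^ (s + 1) := Nat.le_self_pow (by omega) p
    omega
  refine ⟨2 * K, ?_, ?_⟩
  · refine le_trans ?_ hKb
    exact Nat.le_mul_of_pos_right _ (pow_pos hpf.out.pos _)
  · rcases le_max_iff.1 hfin with h3 | h3
    · exact h3
    · exfalso
      exact absurd h3 (not_le.2 (pow_lt_pow_right_of_lt_one₀ hpos hlt hKt))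

end Pool.Agent.Y226.ZG
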