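import Pool.Agent.Y226.ZG.Corner
import Pool.Agent.Y226.ZP.Contact

/-!
# Evaluation of power series with integral coefficients
-/

set_option autoImplicit false
set_option linter.unusedSectionVars false

open Polynomial

namespace Pool.Agent.Y226.ZG

open Pool.Agent.Y226

section ev

variable {R : Type} [CommRing R] {C : Type} [NormedField C] [IsUltrametricDist C] [CompleteSpace C]

theorem summ {ψ : R →+* C} (hψ : ∀ r, ‖ψ r‖ ≤ 1) {z : C} (hz : ‖z‖ < 1) (F : PowerSeries R) :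
    Summable (fun n => ‖ψ (PowerSeries.coeff n F) * z ^ n‖) := by
  refine Summable.of_nonneg_of_le (fun n => norm_nonneg _) (fun n => ?_)
    (summable_geometric_of_lt_one (norm_nonneg z) hz)
  rw [norm_mul, norm_pow]
  calc ‖ψ (PowerSeries.coeff n F)‖ * ‖z‖ ^ n ≤ 1 * ‖z‖ ^ n := by gcongr; exact hψ _
    _ = ‖z‖ ^ n := one_mul _

/-- evaluation of power series -/
theorem exists_evz (ψ : R →+* C) (hψ : ∀ r, ‖ψ r‖ ≤ 1) {z : C} (hz : ‖z‖ < 1) :
    ∃ e : PowerSeries R →+* C, (∀ r, e (PowerSeries.C r) = ψ r) ∧ e PowerSeries.X = z ∧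
      ∀ F, ‖e F‖ ≤ 1 := by
  let e0 : PowerSeries R → C := fun F => ∑' n, ψ (PowerSeries.coeff n F) * z ^ n
  have hsum : ∀ F, Summable (fun n => ψ (PowerSeries.coeff n F) * z ^ n) := fun F =>
    (summ hψ hz F).of_norm
  have hC : ∀ r, e0 (PowerSeries.C r) = ψ r := by
    intro r
    show ∑' n, ψ (PowerSeries.coeff n (PowerSeries.C r)) * z ^ n = ψ r
    rw [tsum_eq_single 0]
    · simp
    · intro n hn
      rw [PowerSeries.coeff_C, if_neg hn, map_zero, zero_mul]
  have hadd : ∀ F G, e0 (F + G) = e0 F + e0 G := by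
    intro F G
    show ∑' n, _ = ∑' n, _ + ∑' n, _
    rw [← (hsum F).tsum_add (hsum G)]
    refine tsum_congr fun n => ?_
    rw [map_add, map_add, add_mul]
  have hmul : ∀ F G, e0 (F * G) = e0 F * e0 G := by
    intro F G
    show ∑' n, _ = (∑' n, _) * ∑' n, _
    rw [tsum_mul_tsum_eq_tsum_sum_antidiagonal_of_summable_norm (summ hψ hz F) (summ hψ hz G)]
    refine tsum_congr fun n => ?_
    rw [PowerSeries.coeff_mul, map_sum, Finset.sum_mul]
    refine Finset.sum_congr rfl fun kl hkl => ?_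
    rw [← Finset.HasAntidiagonal.mem_antidiagonal.1 hkl, pow_add, map_mul]
    ring
  let e : PowerSeries R →+* C :=
    { toFun := e0
      map_one' := by
        have := hC 1
        rwa [map_one, map_one] at this
      map_mul' := hmul
      map_zero' := by
        have := hC 0
        rwa [map_zero, map_zero] at this
      map_add' := hadd }
  refine ⟨e, hC, ?_, ?_⟩
  · show ∑' n, ψ (PowerSeries.coeff n (PowerSeries.X : PowerSeries R)) * z ^ n = z
    rw [tsum_eq_single 1]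
    · simp
    · intro n hn
      rw [PowerSeries.coeff_X, if_neg hn, map_zero, zero_mul]
  · intro F
    show ‖∑' n, ψ (PowerSeries.coeff n F) * z ^ n‖ ≤ 1
    refine IsUltrametricDist.norm_tsum_le_of_forall_le_of_nonneg zero_le_one fun n => ?_
    exact nmul_le (hψ _) (npow_le hz.le n)

end ev

section use

variable {R : Type} [CommRing R] {C : Type} [NormedField C] [IsUltrametricDist C]
  {e : PowerSeries R →+* C} {ψ : R →+* C} {z : C} (hC : ∀ r, e (PowerSeries.C r) = ψ r)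
  (hX : e PowerSeries.X = z) (hn : ∀ F, ‖e F‖ ≤ 1)

include hC hX hn

/-- expansion to a finite order -/
theorem ev_expand (F : PowerSeries R) (m : ℕ) : ∃ G : PowerSeries R,
    e F = ∑ i ∈ Finset.range m, ψ (PowerSeries.coeff i F) * z ^ i + z ^ m * e G := by
  have h1 : PowerSeries.X ^ m ∣ F - ((PowerSeries.trunc m F : R[X]) : PowerSeries R) := by
    rw [PowerSeries.X_pow_dvd_iff]
    intro i hi
    rw [map_sub, Polynomial.coeff_coe, PowerSeries.coeff_trunc, if_pos hi, sub_self]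
  obtain ⟨G, hG⟩ := h1
  refine ⟨G, ?_⟩
  have h2 : F = ((PowerSeries.trunc m F : R[X]) : PowerSeries R) + PowerSeries.X ^ m * G := by
    rw [← hG]; ring
  conv_lhs => rw [h2]
  rw [map_add, map_mul, map_pow, hX]
  congr 1
  have h3 : ((PowerSeries.trunc m F : R[X]) : PowerSeries R) =
      ∑ i ∈ Finset.range m, PowerSeries.C (PowerSeries.coeff i F) * PowerSeries.X ^ i := by
    ext i
    rw [Polynomial.coeff_coe, PowerSeries.coeff_trunc, map_sum]
    simp only [PowerSeries.coeff_C_mul, PowerSeries.coeff_X_pow, mul_ite, mul_one, mul_zero]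
    rw [Finset.sum_ite_eq]
    simp only [Finset.mem_range]
  rw [h3, map_sum]
  refine Finset.sum_congr rfl fun i _ => ?_
  rw [map_mul, map_pow, hC, hX]

theorem ev_sub_le (hz : ‖z‖ ≤ 1) (F : PowerSeries R) : ‖e F - ψ (PowerSeries.coeff 0 F)‖ ≤ ‖z‖ := by
  obtain ⟨G, hG⟩ := ev_expand hC hX hn F 1
  rw [hG, Finset.sum_range_one, pow_zero, mul_one, add_sub_cancel_left, pow_one]
  exact nmul_le' le_rfl (hn G)

variable {p : ℕ} [hpf : Fact p.Prime]

/-- the contact lemma for power series -/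
theorem ps_contact (hψ : ∀ r, ψ r ∈ Nr C p) (hz : ‖z‖ < 1) {F : PowerSeries R} {D : ℕ}
    (hF : ∃ m, 0 < m ∧ m ≤ D ∧ IsUnit (PowerSeries.coeff m F)) :
    ∃ f, 0 < f ∧ f ≤ D ∧ ∃ w ∈ Nr C p, ‖w‖ = 1 ∧
      ‖e F - ψ (PowerSeries.coeff 0 F) - w * z ^ f‖ ≤ max ‖(p : C)‖ (‖z‖ ^ (f + 1)) := by
  classical
  have hunit : ∀ r : R, IsUnit r → ‖ψ r‖ = 1 := by
    intro r hr
    obtain ⟨s, hs⟩ := hr.exists_right_inv
    have h1 := congrArg (fun x => ‖ψ x‖) hs
    simp only [map_mul, norm_mul, map_one, norm_one] at h1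
    have h2 := Nr_le (hψ r)
    have h3 := Nr_le (hψ s)
    have h4 := norm_nonneg (ψ r)
    nlinarith
  have hex : ∃ m, 0 < m ∧ m ≤ D ∧ ‖ψ (PowerSeries.coeff m F)‖ = 1 := by
    obtain ⟨m, h1, h2, h3⟩ := hF
    exact ⟨m, h1, h2, hunit _ h3⟩
  set f := Nat.find hex with hf
  obtain ⟨hf0, hfD, hf1⟩ := Nat.find_spec hex
  have hmin : ∀ i, 0 < i → i < f → ‖ψ (PowerSeries.coeff i F)‖ ≤ ‖(p : C)‖ := by
    intro i hi hif
    have h3 := Nat.find_min hex hif
    push Not at h3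
    exact Nr_gap (hψ _) (lt_of_le_of_ne (Nr_le (hψ _)) (h3 hi (by omega)))
  refine ⟨f, hf0, hfD, ψ (PowerSeries.coeff f F), hψ _, hf1, ?_⟩
  obtain ⟨G, hG⟩ := ev_expand hC hX hn F (f + 1)
  rw [hG, Finset.sum_range_succ]
  obtain ⟨f', hf'⟩ : ∃ f', f = f' + 1 := ⟨f - 1, by omega⟩
  have e1 : ∑ i ∈ Finset.range f, ψ (PowerSeries.coeff i F) * z ^ i =
      ψ (PowerSeries.coeff 0 F) + ∑ i ∈ Finset.range f', ψ (PowerSeries.coeff (i + 1) F) * z ^ (i + 1) := by
    rw [hf', Finset.sum_range_succ']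
    rw [pow_zero, mul_one, add_comm]
  rw [e1]
  have e2 : ψ (PowerSeries.coeff 0 F) + ∑ i ∈ Finset.range f', ψ (PowerSeries.coeff (i + 1) F) *
      z ^ (i + 1) + ψ (PowerSeries.coeff f F) * z ^ f + z ^ (f + 1) * e G -
      ψ (PowerSeries.coeff 0 F) - ψ (PowerSeries.coeff f F) * z ^ f =
      ∑ i ∈ Finset.range f', ψ (PowerSeries.coeff (i + 1) F) * z ^ (i + 1) + z ^ (f + 1) * e G := by
    ring
  rw [e2]
  refine nadd_le ((nsum_le _ _ (norm_nonneg _) fun i hi => ?_).trans (le_max_left _ _)) ?_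
  · exact nmul_le' (hmin _ (Nat.succ_pos i) (by have := Finset.mem_range.1 hi; omega))
      (npow_le hz.le _)
  · refine (nmul_le' le_rfl (hn G)).trans ?_
    rw [norm_pow]
    exact le_max_right _ _

/-- the evaluation of a series with a first coefficient which is a unit does not vanish -/
theorem ev_ne_zero (hψ : ∀ r, IsUnit r → ‖ψ r‖ = 1) (hz : ‖z‖ < 1) (hz0 : z ≠ 0)
    {F : PowerSeries R} {m : ℕ} (hm : IsUnit (PowerSeries.coeff m F))
    (hlow : ∀ i < m, PowerSeries.coeff i F = 0) : e F ≠ 0 := by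
  obtain ⟨G, hG⟩ := ev_expand hC hX hn F (m + 1)
  rw [hG, Finset.sum_range_succ, Finset.sum_eq_zero fun i hi => by
    rw [hlow i (Finset.mem_range.1 hi), map_zero, zero_mul], zero_add]
  have h1 : ψ (PowerSeries.coeff m F) * z ^ m + z ^ (m + 1) * e G =
      z ^ m * (ψ (PowerSeries.coeff m F) + z * e G) := by ring
  rw [h1]
  refine mul_ne_zero (pow_ne_zero _ hz0) ?_
  intro h2
  have h3 : ‖ψ (PowerSeries.coeff m F)‖ = ‖z * e G‖ := by
    rw [eq_neg_of_add_eq_zero_left h2, norm_neg]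
  rw [hψ _ hm] at h3
  have h4 : ‖z * e G‖ < 1 := (nmul_le' le_rfl (hn G)).trans_lt hz
  rw [← h3] at h4
  exact lt_irrefl _ h4

end use

end Pool.Agent.Y226.ZG
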