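import Pool.Agent.Y226.ZG.TameFin
import Pool.Agent.Y226.ZP.TameEq

/-!
# The tame equation for two monomials
-/

set_option autoImplicit false
set_option linter.unusedSectionVars false

open Polynomial

namespace Pool.Agent.Y226.ZG

open Pool.Agent.Y226

theorem one_add_pow_sq {R : Type*} [CommRing R] (p : R) (x : R) (a : ℕ) :
    ∃ y, (1 + p * x) ^ a = 1 + p * (a * x) + p ^ 2 * y := by
  induction a with
  | zero => exact ⟨0, by simp⟩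
  | succ a ih =>
    obtain ⟨y, hy⟩ := ih
    refine ⟨y + a * x * x + p * x * y, ?_⟩
    rw [pow_succ, hy]
    push_cast
    ring

section

variable {R k : Type*} [CommRing R] [IsDomain R] [Field k] {p : ℕ} [hpf : Fact p.Prime]
  [CharP k p] (red : R →+* k)

theorem common_f2 {ι : Type*} (s : Finset ι) (τ : ι → R)
    (h : ∀ i ∈ s, ∃ f : ℕ, 0 < f ∧ τ i ^ p ^ f = τ i) :
    ∃ f : ℕ, 0 < f ∧ ∀ i ∈ s, τ i ^ p ^ f = τ i := by
  classical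
  have h' : ∀ i, ∃ f : ℕ, i ∈ s → 0 < f ∧ τ i ^ p ^ f = τ i := by
    intro i
    by_cases hi : i ∈ s
    · obtain ⟨f, hf⟩ := h i hi
      exact ⟨f, fun _ => hf⟩
    · exact ⟨0, fun h => absurd h hi⟩
  choose f hf using h'
  refine ⟨∏ i ∈ s, f i, Finset.prod_pos fun i hi => (hf i hi).1, fun i hi => ?_⟩
  obtain ⟨m, hm⟩ := Finset.dvd_prod_of_mem f hi
  rw [hm]
  exact fixed_mul (hf i hi).2 m

/-- the tame equation -/
theorem tame_eq2 (hp0 : (p : R) ≠ 0) {d : ℕ} (c τ v : ℕ × ℕ → R)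
    (hc : ∀ m, c m = τ m + p * v m) (hτ : ∀ m, ∃ f : ℕ, 0 < f ∧ τ m ^ p ^ f = τ m)
    {F₁ F₂ e₁ e₂ R₁ R₂ : R} (he₁ : ∃ f : ℕ, 0 < f ∧ e₁ ^ p ^ f = e₁)
    (he₂ : ∃ f : ℕ, 0 < f ∧ e₂ ^ p ^ f = e₂) (hF₁ : F₁ = e₁ * (1 + p * R₁))
    (hF₂ : F₂ = e₂ * (1 + p * R₂)) (hrel : ∑ m ∈ box d, c m * F₁ ^ m.1 * F₂ ^ m.2 = 0) :
    zev (fun m : Bx d => red (c m.1) * red F₁ ^ m.1.1 * red F₂ ^ m.1.2) (QQ d p) =
      (∑ m ∈ box d, (red (v m) * red F₁ ^ m.1 * red F₂ ^ m.2 +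
        red (c m) * red F₁ ^ m.1 * red F₂ ^ m.2 * (m.1 * red R₁ + m.2 * red R₂))) ^ p := by
  classical
  have hredp : red (p : R) = 0 := by rw [map_natCast]; exact CharP.cast_eq_zero k p
  obtain ⟨f₀, hf₀, hf₀'⟩ := common_f2 (p := p) (box d) τ fun i _ => hτ i
  obtain ⟨f₁, hf₁, hf₁'⟩ := he₁
  obtain ⟨f₂, hf₂, hf₂'⟩ := he₂
  set f := f₀ * f₁ * f₂ with hf
  have hfpos : 0 < f := by positivity
  have eτ : ∀ m ∈ box d, τ m ^ p ^ f = τ m := fun m hm => by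
    rw [hf, mul_assoc]; exact fixed_mul (hf₀' m hm) _
  have ee₁ : e₁ ^ p ^ f = e₁ := by
    rw [hf, show f₀ * f₁ * f₂ = f₁ * (f₀ * f₂) by ring]; exact fixed_mul hf₁' _
  have ee₂ : e₂ ^ p ^ f = e₂ := by
    rw [hf, show f₀ * f₁ * f₂ = f₂ * (f₀ * f₁) by ring]; exact fixed_mul hf₂' _
  let t : Bx d → R := fun m => τ m.1 * e₁ ^ m.1.1 * e₂ ^ m.1.2
  have ht : ∀ m, t m ^ p ^ f = t m := by
    intro m
    show (τ m.1 * e₁ ^ m.1.1 * e₂ ^ m.1.2) ^ p ^ f = τ m.1 * e₁ ^ m.1.1 * e₂ ^ m.1.2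
    rw [mul_pow, mul_pow, eτ m.1 m.2, pow_right_comm e₁, pow_right_comm e₂, ee₁, ee₂]
  -- expansions
  choose y₁ hy₁ using fun a => one_add_pow_sq (p : R) R₁ a
  choose y₂ hy₂ using fun a => one_add_pow_sq (p : R) R₂ a
  have hexp : ∀ m : ℕ × ℕ, ∃ z, c m * F₁ ^ m.1 * F₂ ^ m.2 = τ m * e₁ ^ m.1 * e₂ ^ m.2 +
      p * (v m * F₁ ^ m.1 * F₂ ^ m.2 + τ m * e₁ ^ m.1 * e₂ ^ m.2 * (m.1 * R₁ + m.2 * R₂)) +
      p ^ 2 * z := by
    intro m
    refine ⟨τ m * e₁ ^ m.1 * e₂ ^ m.2 * ((m.1 * R₁) * (m.2 * R₂) + y₁ m.1 + y₂ m.2 +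
      p * (m.1 * R₁) * y₂ m.2 + p * (m.2 * R₂) * y₁ m.1 + p ^ 2 * y₁ m.1 * y₂ m.2), ?_⟩
    have h1 : F₁ ^ m.1 * F₂ ^ m.2 = e₁ ^ m.1 * e₂ ^ m.2 * ((1 + p * (m.1 * R₁) + p ^ 2 * y₁ m.1) *
        (1 + p * (m.2 * R₂) + p ^ 2 * y₂ m.2)) := by
      rw [hF₁, hF₂, mul_pow, mul_pow, hy₁, hy₂]; ring
    have h2 : c m * F₁ ^ m.1 * F₂ ^ m.2 = τ m * (F₁ ^ m.1 * F₂ ^ m.2) +
        p * (v m * F₁ ^ m.1 * F₂ ^ m.2) := by rw [hc m]; ring
    rw [h2, h1]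
    ring
  choose z hz using hexp
  set x₁ : R := -(∑ m ∈ box d, (v m * F₁ ^ m.1 * F₂ ^ m.2 +
    τ m * e₁ ^ m.1 * e₂ ^ m.2 * (m.1 * R₁ + m.2 * R₂))) - p * ∑ m ∈ box d, z m with hx₁
  have hsum : ∑ m : Bx d, t m = p * x₁ := by
    have h1 : ∑ m : Bx d, t m = ∑ m ∈ box d, τ m * e₁ ^ m.1 * e₂ ^ m.2 :=
      Finset.sum_coe_sort (box d) (fun m => τ m * e₁ ^ m.1 * e₂ ^ m.2)
    rw [h1, hx₁]
    have h2 := hrel
    rw [Finset.sum_congr rfl fun m _ => hz m, Finset.sum_add_distrib, Finset.sum_add_distrib,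
      ← Finset.mul_sum, ← Finset.mul_sum] at h2
    linear_combination h2
  obtain ⟨x₂, hx₂, hx₃⟩ := frob_lift red t hfpos ht hp0
    (∑ m : Bx d, (MvPolynomial.X m : MvPolynomial (Bx d) ℤ)) (x₁ := x₁) (by
      rw [map_sum]
      simpa using hsum)
  have hx₂' : ∑ m : Bx d, t m ^ p = p * x₂ := by
    rw [← hx₂, map_sum]
    simp
  have hQ := QQ_zev d p t
  rw [hsum, hx₂'] at hQ
  have hQ' : zev t (QQ d p) = p ^ (p - 1) * x₁ ^ p - x₂ := by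
    have hpp : (p : R) ^ p = p * p ^ (p - 1) := by
      rw [← pow_succ', Nat.sub_add_cancel hpf.out.one_lt.le]
    have h1 : (p : R) * (zev t (QQ d p) - (p ^ (p - 1) * x₁ ^ p - x₂)) = 0 := by
      rw [mul_pow, hpp] at hQ
      linear_combination -hQ
    exact sub_eq_zero.1 ((mul_eq_zero.1 h1).resolve_left hp0)
  have hred1 : red F₁ = red e₁ := by
    rw [hF₁, map_mul, map_add, map_mul, hredp, zero_mul, map_one, add_zero, mul_one]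
  have hred2 : red F₂ = red e₂ := by
    rw [hF₂, map_mul, map_add, map_mul, hredp, zero_mul, map_one, add_zero, mul_one]
  have hredc : ∀ m, red (c m) = red (τ m) := by
    intro m
    rw [hc m, map_add, map_mul, hredp, zero_mul, add_zero]
  have h1 := congrArg red hQ'
  rw [ring_zev, map_sub, map_mul, map_pow, hredp, zero_pow (by have := hpf.out.two_le; omega),
    zero_mul, zero_sub, hx₃] at h1
  have hlhs : (fun m : Bx d => red (c m.1) * red F₁ ^ m.1.1 * red F₂ ^ m.1.2) =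
      fun m => red (t m) := by
    funext m
    show _ = red (τ m.1 * e₁ ^ m.1.1 * e₂ ^ m.1.2)
    rw [map_mul, map_mul, map_pow, map_pow, hredc, hred1, hred2]
  rw [hlhs, h1]
  have hneg : ∀ a : k, -(a ^ p) = (-a) ^ p := fun a => by
    have := map_neg (frobenius k p) a
    simpa [frobenius_def] using this.symm
  rw [hneg]
  congr 1
  rw [hx₁, map_sub, map_neg, map_mul, hredp, zero_mul, sub_zero, neg_neg, map_sum]
  refine Finset.sum_congr rfl fun m _ => ?_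
  simp only [map_add, map_mul, map_pow, map_natCast, hredc, hred1, hred2]

end

end Pool.Agent.Y226.ZG
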