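import Pool.Agent.Y226.ZG.FF
import Pool.Agent.Y226.ZG.GPos
import Pool.Agent.Y226.ZP.TameAlg

/-!
# Finiteness of the solutions of the tame equation
-/

set_option autoImplicit false
set_option linter.unusedSectionVars false

open Polynomial

namespace Pool.Agent.Y226.ZG

open Pool.Agent.Y226

/-- the exponents -/
abbrev Bx (d : ℕ) : Type := {m : ℕ × ℕ // m ∈ box d}

/-- evaluation of integral polynomials -/
noncomputable def zev {A σ : Type*} [CommRing A] (t : σ → A) : MvPolynomial σ ℤ →+* A :=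
  MvPolynomial.eval₂Hom (Int.castRingHom A) t

@[simp] theorem zev_X {A σ : Type*} [CommRing A] (t : σ → A) (m : σ) :
    zev t (MvPolynomial.X m) = t m := by simp [zev]

theorem ring_zev {A B σ : Type*} [CommRing A] [CommRing B] (ψ : A →+* B) (t : σ → A)
    (Q : MvPolynomial σ ℤ) : ψ (zev t Q) = zev (fun m => ψ (t m)) Q := by
  have h : ψ.comp (zev t) = zev (fun m => ψ (t m)) := by
    apply MvPolynomial.ringHom_ext
    · intro c
      simp [zev]
    · intro i
      simp [zev]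
  exact congrArg (fun φ : MvPolynomial σ ℤ →+* B => φ Q) h

theorem eul_zev {K : Type*} [Field K] {σ : Type*} [Fintype σ] (t : σ → LS K)
    (Q : MvPolynomial σ ℤ) :
    eul (zev t Q) = ∑ m, zev t (MvPolynomial.pderiv m Q) * eul (t m) := by
  have h : ∀ Q : MvPolynomial σ ℤ, zev t Q = MvPolynomial.aeval t Q := by
    intro Q
    have : zev t = (MvPolynomial.aeval t : MvPolynomial σ ℤ →ₐ[ℤ] LS K).toRingHom := by
      apply MvPolynomial.ringHom_ext
      · intro c
        simp [zev]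
      · intro i
        simp [zev]
    exact congrArg (fun φ : MvPolynomial σ ℤ →+* LS K => φ Q) this
  rw [h, eul_aeval]
  exact Finset.sum_congr rfl fun m _ => by rw [h]

section QQ

variable (d p : ℕ) [hpf : Fact p.Prime]

theorem exists_QQ : ∃ Q : MvPolynomial (Bx d) ℤ,
    (∑ m : Bx d, (MvPolynomial.X m : MvPolynomial (Bx d) ℤ)) ^ p =
      ∑ m : Bx d, (MvPolynomial.X m : MvPolynomial (Bx d) ℤ) ^ p +
        (p : MvPolynomial (Bx d) ℤ) * Q := by
  obtain ⟨Q, hQ⟩ := exists_lift (p := p) (∑ m : Bx d, (MvPolynomial.X m : MvPolynomial (Bx d) ℤ))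
  refine ⟨Q, ?_⟩
  rw [hQ]
  congr 1
  simp

/-- the polynomial `Q` with `(∑ t) ^ p = ∑ t ^ p + p Q (t)` -/
noncomputable def QQ : MvPolynomial (Bx d) ℤ := (exists_QQ d p).choose

theorem QQ_spec : (∑ m : Bx d, (MvPolynomial.X m : MvPolynomial (Bx d) ℤ)) ^ p =
      ∑ m : Bx d, (MvPolynomial.X m : MvPolynomial (Bx d) ℤ) ^ p +
        (p : MvPolynomial (Bx d) ℤ) * QQ d p := (exists_QQ d p).choose_spec

theorem QQ_zev {A : Type*} [CommRing A] (t : Bx d → A) :
    (∑ m, t m) ^ p = ∑ m, t m ^ p + p * zev t (QQ d p) := by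
  have := congrArg (zev t) (QQ_spec d p)
  simpa using this

theorem QQ_pderiv (m : Bx d) : MvPolynomial.pderiv m (QQ d p) =
    (∑ m : Bx d, (MvPolynomial.X m : MvPolynomial (Bx d) ℤ)) ^ (p - 1) -
      MvPolynomial.X m ^ (p - 1) := by
  classical
  have h := congrArg (MvPolynomial.pderiv m) (QQ_spec d p)
  have h1 : MvPolynomial.pderiv m (∑ m : Bx d, (MvPolynomial.X m : MvPolynomial (Bx d) ℤ)) = 1 := by
    rw [map_sum, Finset.sum_eq_single m]
    · rw [MvPolynomial.pderiv_X_self]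
    · intro b _ hb
      rw [MvPolynomial.pderiv_X_of_ne hb]
    · intro h; exact absurd (Finset.mem_univ m) h
  have h2 : MvPolynomial.pderiv m (∑ m' : Bx d, (MvPolynomial.X m' : MvPolynomial (Bx d) ℤ) ^ p) =
      (p : MvPolynomial (Bx d) ℤ) * MvPolynomial.X m ^ (p - 1) := by
    rw [map_sum, Finset.sum_eq_single m]
    · rw [Derivation.leibniz_pow, MvPolynomial.pderiv_X_self]
      simp
    · intro b _ hb
      rw [Derivation.leibniz_pow, MvPolynomial.pderiv_X_of_ne hb]
      simp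
    · intro h; exact absurd (Finset.mem_univ m) h
  rw [map_add, h2, Derivation.leibniz_pow, h1, Derivation.leibniz] at h
  have h3 : MvPolynomial.pderiv m ((p : ℕ) : MvPolynomial (Bx d) ℤ) = 0 := by
    rw [Derivation.map_natCast]
  rw [h3] at h
  have hp : ((p : ℕ) : MvPolynomial (Bx d) ℤ) ≠ 0 := by
    exact_mod_cast hpf.out.ne_zero
  apply mul_left_cancel₀ hp
  simp only [smul_eq_mul, mul_one, smul_zero, add_zero, nsmul_eq_mul] at h
  linear_combination -h

end QQ

section LS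

variable {K : Type*} [Field K] {p : ℕ} [hpf : Fact p.Prime] [CharP K p]

theorem charP_LS : CharP (LS K) p :=
  charP_of_injective_ringHom (f := (HahnSeries.C : K →+* LS K)) (RingHom.injective _) p

theorem eul_unit_pow (F : (LS K)ˣ) (n : ℕ) :
    eul ((F : LS K) ^ n) = (n : LS K) * (F : LS K) ^ n * dl (F : LS K) := by
  cases n with
  | zero => simp [eul_one]
  | succ n =>
    rw [eul_pow, eul_eq_mul_dl F.ne_zero]
    push_cast
    ring

theorem sum_pow_p {ι : Type*} (s : Finset ι) (a : ι → ℕ) (t : ι → LS K) :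
    (∑ m ∈ s, (a m : LS K) * t m) ^ p = ∑ m ∈ s, (a m : LS K) * t m ^ p := by
  haveI := charP_LS (K := K) (p := p)
  have h := map_sum (frobenius (LS K) p) (fun m => (a m : LS K) * t m) s
  rw [frobenius_def] at h
  rw [h]
  refine Finset.sum_congr rfl fun m _ => ?_
  rw [frobenius_def, mul_pow]
  congr 1
  have := map_natCast (frobenius (LS K) p) (a m)
  rwa [frobenius_def] at this

/-- the differential of the tame equation -/
theorem tame_LS {d : ℕ} (F₁ F₂ : (LS K)ˣ) (c : Bx d → K) (t : Bx d → LS K)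
    (ht : ∀ m, t m = HahnSeries.C (c m) * (F₁ : LS K) ^ m.1.1 * (F₂ : LS K) ^ m.1.2)
    (hS : ∑ m, t m = 0) (B : LS K) (hQ : zev t (QQ d p) = B ^ p) :
    (∑ m, (m.1.1 : LS K) * t m) ^ p * dl (F₁ : LS K) +
      (∑ m, (m.1.2 : LS K) * t m) ^ p * dl (F₂ : LS K) = 0 ∧
    (∑ m, (m.1.1 : LS K) * t m) * dl (F₁ : LS K) +
      (∑ m, (m.1.2 : LS K) * t m) * dl (F₂ : LS K) = 0 := by
  have he : ∀ m, eul (t m) = t m * ((m.1.1 : LS K) * dl (F₁ : LS K) +
      (m.1.2 : LS K) * dl (F₂ : LS K)) := by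
    intro m
    rw [ht m, eul_mul, eul_mul, eul_C, eul_unit_pow, eul_unit_pow]
    ring
  have hp1 : p - 1 ≠ 0 := by have := hpf.out.two_le; omega
  have hpp : p - 1 + 1 = p := Nat.sub_add_cancel hpf.out.one_lt.le
  constructor
  · have h1 := congrArg eul hQ
    rw [eul_pow_p hpf.out.pos, eul_zev] at h1
    simp only [QQ_pderiv, map_sub, map_pow, map_sum, zev_X, hS, zero_pow hp1,
      zero_sub] at h1
    rw [sum_pow_p, sum_pow_p, Finset.sum_mul, Finset.sum_mul, ← Finset.sum_add_distrib, ← neg_eq_zero,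
      ← Finset.sum_neg_distrib, ← h1]
    refine Finset.sum_congr rfl fun m _ => ?_
    rw [he m]
    have : t m ^ p = t m ^ (p - 1) * t m := by rw [← pow_succ, hpp]
    rw [this]
    ring
  · have h1 := congrArg eul hS
    rw [eul_sum, eul_zero] at h1
    rw [Finset.sum_mul, Finset.sum_mul, ← Finset.sum_add_distrib, ← h1]
    refine Finset.sum_congr rfl fun m _ => ?_
    rw [he m]
    ring

end LS

section fin

/-- Laurent monomials as polynomials in the coordinates and their inverses -/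
noncomputable def Mv (k : Type) [Field k] {n : ℕ} (v : Fin n → ℤ) : MvPolynomial (Fin n × Bool) k :=
  ∏ i, (MvPolynomial.X (i, false) ^ (v i).toNat * MvPolynomial.X (i, true) ^ (-v i).toNat)

/-- the coordinates and their inverses -/
def xx {𝔽 : Type*} [Field 𝔽] {n : ℕ} (x : Fin n → 𝔽) (q : Fin n × Bool) : 𝔽 :=
  if q.2 then (x q.1)⁻¹ else x q.1

theorem zpow_toNat {𝔽 : Type*} [Field 𝔽] {x : 𝔽} (hx : x ≠ 0) (v : ℤ) :
    x ^ v.toNat * (x⁻¹) ^ (-v).toNat = x ^ v := by
  rcases le_total 0 v with h | h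
  · obtain ⟨m, rfl⟩ := Int.eq_ofNat_of_zero_le h
    simp
  · obtain ⟨m, hm⟩ := Int.eq_ofNat_of_zero_le (a := -v) (by omega)
    have : v = -(m : ℤ) := by omega
    subst this
    simp

theorem aeval_Mv {k 𝔽 : Type} [Field k] [Field 𝔽] [Algebra k 𝔽] {n : ℕ} {x : Fin n → 𝔽}
    (hx : ∀ i, x i ≠ 0) (v : Fin n → ℤ) :
    MvPolynomial.aeval (xx x) (Mv k v) = ∏ i, x i ^ v i := by
  unfold Mv
  rw [map_prod]
  refine Finset.prod_congr rfl fun i _ => ?_
  rw [map_mul, map_pow, map_pow, MvPolynomial.aeval_X, MvPolynomial.aeval_X, ← zpow_toNat (hx i)]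
  simp [xx]

theorem aeval_E2 {k 𝔽 σ : Type} [Field k] [Field 𝔽] [Algebra k 𝔽] (z : σ → 𝔽)
    (P P' : MvPolynomial σ k) (h : k[X][X]) :
    MvPolynomial.aeval z (E2 MvPolynomial.C P P' h) =
      E2 (algebraMap k 𝔽) (MvPolynomial.aeval z P) (MvPolynomial.aeval z P') h := by
  have := map_E2 ((MvPolynomial.aeval z : MvPolynomial σ k →ₐ[k] 𝔽).toRingHom)
    (MvPolynomial.C : k →+* MvPolynomial σ k) P P' h
  have h2 : ((MvPolynomial.aeval z : MvPolynomial σ k →ₐ[k] 𝔽).toRingHom).comp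
      (MvPolynomial.C : k →+* MvPolynomial σ k) = algebraMap k 𝔽 := by
    ext c
    simp
  rw [h2] at this
  exact this

variable {k : Type} [Field k] [IsAlgClosed k] {p : ℕ} [hpf : Fact p.Prime] [CharP k p] {n : ℕ}

/-- the solutions of the tame equation -/
def TSol (g : Fin n → Fin n → k[X][X]) (v w : Fin n → ℤ) (h : k[X][X]) (d : ℕ)
    (Q : MvPolynomial (Bx d) ℤ) (p : ℕ) (𝓑 : MvPolynomial (Fin n × Bool) k) : Set (Fin n → k) :=
  {x | (∀ i, x i ≠ 0) ∧ (∀ i j, i ≠ j → E2 (algebraMap k k) (x i) (x j) (g i j) = 0) ∧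
    E2 (algebraMap k k) (∏ i, x i ^ v i) (∏ i, x i ^ w i) h = 0 ∧
    zev (fun m : Bx d => cf h m.1 * (∏ i, x i ^ v i) ^ m.1.1 *
      (∏ i, x i ^ w i) ^ m.1.2) Q = (MvPolynomial.aeval (xx x) 𝓑) ^ p}

theorem tame_fin {N : ℕ} (hN0 : 0 < N) (hN : (N : k) ≠ 0) (g : Fin n → Fin n → k[X][X])
    (L : Fin n → Fin n → (PowerSeries k)ˣ) (ys : Fin n → Fin n → Multiset (PowerSeries k)ˣ)
    (fac : ∀ i j, i ≠ j → PFac N (g i j) (L i j) (ys i j))
    (yn : ∀ i j, i ≠ j → ∀ y ∈ ys i j, ∃ m, 0 < m ∧ PowerSeries.coeff m (y : PowerSeries k) ≠ 0)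
    (v w : Fin n → ℤ) (hvw : ∀ c₁ c₂ : k, (c₁, c₂) ≠ (0, 0) → ∃ i, c₁ * v i + c₂ * w i ≠ 0)
    {h : k[X][X]} {d : ℕ} (hBD : BD d h) {U V : k[X][X]} {r : k[X]} (hr : r ≠ 0)
    (hUV : U * h + V * (X * derivative h) = C r) (𝓑 : MvPolynomial (Fin n × Bool) k) :
    (TSol g v w h d (QQ d p) p 𝓑).Finite := by
  classical
  by_contra hinf
  have hinf' : (TSol g v w h d (QQ d p) p 𝓑).Infinite := hinf
  have hinj : Set.InjOn (fun x : Fin n → k => xx x) (TSol g v w h d (QQ d p) p 𝓑) := by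
    intro x _ y _ hxy
    funext i
    have := congrFun hxy (i, false)
    simpa [xx] using this
  obtain ⟨𝔽, _, _, z, hgen, ⟨b, hb⟩, hz⟩ := exists_ff (hinf'.image hinj)
  have hz' : ∀ f : MvPolynomial (Fin n × Bool) k,
      (∀ x ∈ TSol g v w h d (QQ d p) p 𝓑, MvPolynomial.aeval (xx x) f = 0) →
      MvPolynomial.aeval z f = 0 := by
    intro f hf
    apply hz
    rintro s ⟨x, hx, rfl⟩
    exact hf x hx
  -- the inverses
  have hinv : ∀ i, z (i, false) * z (i, true) = 1 := by
    intro i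
    have := hz' (MvPolynomial.X (i, false) * MvPolynomial.X (i, true) - 1) (by
      intro x hx
      rw [map_sub, map_mul, MvPolynomial.aeval_X, MvPolynomial.aeval_X, map_one]
      simp [xx, hx.1 i])
    rw [map_sub, map_mul, MvPolynomial.aeval_X, MvPolynomial.aeval_X, map_one, sub_eq_zero] at this
    exact this
  set x : Fin n → 𝔽 := fun i => z (i, false) with hx
  have hx0 : ∀ i, x i ≠ 0 := fun i => left_ne_zero_of_mul_eq_one (hinv i)
  have hzx : z = xx x := by
    funext q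
    obtain ⟨i, s⟩ := q
    cases s with
    | false => simp [xx, hx]
    | true =>
      simp only [xx, hx, if_true]
      exact eq_inv_of_mul_eq_one_right (hinv i)
  have hgen' : ∀ F' : Subfield 𝔽, (∀ c : k, algebraMap k 𝔽 c ∈ F') → (∀ i, x i ∈ F') → F' = ⊤ := by
    intro F' hc hx'
    apply hgen F' hc
    intro q
    rw [hzx]
    unfold xx
    split_ifs
    · exact inv_mem (hx' _)
    · exact hx' _
  -- the relations
  have hrelg : ∀ i j, i ≠ j → E2 (algebraMap k 𝔽) (x i) (x j) (g i j) = 0 := by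
    intro i j hij
    have := hz' (E2 MvPolynomial.C (MvPolynomial.X (i, false)) (MvPolynomial.X (j, false)) (g i j))
      (by
        intro y hy
        rw [aeval_E2, MvPolynomial.aeval_X, MvPolynomial.aeval_X]
        have := hy.2.1 i j hij
        simpa [xx] using this)
    rwa [aeval_E2, MvPolynomial.aeval_X, MvPolynomial.aeval_X] at this
  set F1 : 𝔽 := ∏ i, x i ^ v i with hF1
  set F2 : 𝔽 := ∏ i, x i ^ w i with hF2
  have hrelh : E2 (algebraMap k 𝔽) F1 F2 h = 0 := by
    have := hz' (E2 MvPolynomial.C (Mv k v) (Mv k w) h)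
      (by
        intro y hy
        rw [aeval_E2, aeval_Mv hy.1, aeval_Mv hy.1]
        exact hy.2.2.1)
    rwa [aeval_E2, hzx, aeval_Mv hx0, aeval_Mv hx0] at this
  have hrelQ : zev (fun m : Bx d => algebraMap k 𝔽 (cf h m.1) * F1 ^ m.1.1 *
      F2 ^ m.1.2) (QQ d p) = (MvPolynomial.aeval (xx x) 𝓑) ^ p := by
    have := hz' (zev (fun m : Bx d => MvPolynomial.C (cf h m.1) *
      (Mv k v) ^ m.1.1 * (Mv k w) ^ m.1.2) (QQ d p) - 𝓑 ^ p)
      (by
        intro y hy
        have h1 := ring_zev ((MvPolynomial.aeval (xx y) :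
          MvPolynomial (Fin n × Bool) k →ₐ[k] k).toRingHom) (fun m : Bx d => MvPolynomial.C (cf h m.1) *
          (Mv k v) ^ m.1.1 * (Mv k w) ^ m.1.2) (QQ d p)
        have h2 := hy.2.2.2
        rw [map_sub, map_pow, sub_eq_zero, ← h2]
        refine h1.trans ?_
        congr 1
        congr 1
        funext m
        show MvPolynomial.aeval (xx y) _ = _
        rw [map_mul, map_mul, map_pow, map_pow, aeval_Mv hy.1, aeval_Mv hy.1, MvPolynomial.aeval_C]
        rfl)
    have h1 := ring_zev ((MvPolynomial.aeval z :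
          MvPolynomial (Fin n × Bool) k →ₐ[k] 𝔽).toRingHom) (fun m : Bx d => MvPolynomial.C (cf h m.1) *
          (Mv k v) ^ m.1.1 * (Mv k w) ^ m.1.2) (QQ d p)
    rw [map_sub, map_pow, sub_eq_zero] at this
    rw [← hzx, ← this]
    refine Eq.trans ?_ h1.symm
    congr 1
    congr 1
    funext m
    show _ = MvPolynomial.aeval z _
    rw [map_mul, map_mul, map_pow, map_pow, hzx, aeval_Mv hx0, aeval_Mv hx0, MvPolynomial.aeval_C]
  -- places and transcendence
  have hplace : ∀ a : Fin n, Transcendental k (x a) → ∃ (Ω : Type) (_ : Field Ω) (σ : 𝔽 →+* Ω)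
      (τ : LS k →+* Ω), (∀ c : k, σ (algebraMap k 𝔽 c) = τ (HahnSeries.C c)) ∧
      σ (x a) = τ (HahnSeries.single (N : ℤ) 1) ∧
      ∀ j, j ≠ a → ∃ y ∈ ys a j, σ (x j) = τ (HahnSeries.ofPowerSeries ℤ k (y : PowerSeries k)) := by
    intro a ha
    exact exists_place x a ha hgen' hN0 (fun j => g a j) (fun j => L a j) (fun j => ys a j)
      (fun j hj => hrelg a j hj.symm) (fun j hj => fac a j hj.symm)
  obtain ⟨b', hb'⟩ : ∃ b', Transcendental k (x b') := by
    obtain ⟨i, s⟩ := b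
    refine ⟨i, ?_⟩
    cases s with
    | false => exact hb
    | true =>
      intro h1
      apply hb
      have h2 := h1.inv
      rw [hzx]
      simpa [xx] using h2
  have htr : ∀ a, Transcendental k (x a) := by
    intro a
    by_cases hab : a = b'
    · rw [hab]; exact hb'
    rintro ⟨q, hq, hq0⟩
    obtain ⟨c, hc⟩ := root_const (algebraMap k 𝔽) hq hq0
    obtain ⟨Ω, _, σ, τ, h1, h2, h3⟩ := hplace b' hb'
    obtain ⟨y, hy, hy'⟩ := h3 a hab
    rw [hc, h1] at hy'
    have h4 := τ.injective hy'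
    rw [← HahnSeries.ofPowerSeries_C] at h4
    have h5 := HahnSeries.ofPowerSeries_injective h4
    obtain ⟨m, hm, hm'⟩ := yn b' a (Ne.symm hab) y hy
    apply hm'
    rw [← h5, PowerSeries.coeff_C, if_neg hm.ne']
  -- the units at the place `a`
  have hpl : ∀ a : Fin n, ∃ (Ω : Type) (_ : Field Ω) (σ : 𝔽 →+* Ω) (τ : LS k →+* Ω)
      (Xa : Fin n → (LS k)ˣ), (∀ c : k, σ (algebraMap k 𝔽 c) = τ (HahnSeries.C c)) ∧
      (∀ j, σ (x j) = τ (Xa j : LS k)) ∧
      (∀ u : Fin n → ℤ, (dl ((∏ i, Xa i ^ u i : (LS k)ˣ) : LS k)).coeff 0 = (u a : k) * N) := by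
    intro a
    obtain ⟨Ω, hΩ, σ, τ, h1, h2, h3⟩ := hplace a (htr a)
    have h4 : ∀ j, ∃ X : (LS k)ˣ, σ (x j) = τ (X : LS k) ∧
        (j = a → (X : LS k) = HahnSeries.single (N : ℤ) 1) ∧
        (j ≠ a → ∃ y : (PowerSeries k)ˣ, (X : LS k) = HahnSeries.ofPowerSeries ℤ k (y : PowerSeries k)) := by
      intro j
      by_cases hj : j = a
      · refine ⟨Units.mk0 (HahnSeries.single (N : ℤ) 1) (HahnSeries.single_ne_zero one_ne_zero),
          ?_, fun _ => rfl, fun h => absurd hj h⟩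
        rw [hj]
        exact h2
      · obtain ⟨y, -, hy⟩ := h3 j hj
        refine ⟨Units.mk0 (HahnSeries.ofPowerSeries ℤ k (y : PowerSeries k)) ?_, hy,
          fun h => absurd h hj, fun _ => ⟨y, rfl⟩⟩
        intro h0
        rw [map_eq_zero_iff _ HahnSeries.ofPowerSeries_injective] at h0
        exact y.ne_zero h0
    choose Xa hX1 hX2 hX3 using h4
    exact ⟨Ω, hΩ, σ, τ, Xa, h1, hX1, fun u => place_dl (N := N) a Xa (hX2 a rfl)
      (fun j hj => hX3 j hj) u⟩
  -- the sums in the function field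
  set t : Bx d → 𝔽 := fun m => algebraMap k 𝔽 (cf h m.1) * F1 ^ m.1.1 * F2 ^ m.1.2 with ht
  set U1 : 𝔽 := ∑ m, (m.1.1 : 𝔽) * t m with hU1
  set U2 : 𝔽 := ∑ m, (m.1.2 : 𝔽) * t m with hU2
  have htsum : ∑ m, t m = 0 := by
    rw [← hrelh, E2_eq_sum hBD]
    exact Finset.sum_coe_sort (box d) (fun m => algebraMap k 𝔽 (cf h m) * F1 ^ m.1 * F2 ^ m.2)
  -- the local statement
  have hloc : ∀ a : Fin n, ∃ (Ω : Type) (_ : Field Ω) (σ : 𝔽 →+* Ω) (τ : LS k →+* Ω)
      (u1 u2 ω1 ω2 : LS k), (∀ c : k, σ (algebraMap k 𝔽 c) = τ (HahnSeries.C c)) ∧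
      σ U1 = τ u1 ∧ σ U2 = τ u2 ∧ u1 ^ p * ω1 + u2 ^ p * ω2 = 0 ∧ u1 * ω1 + u2 * ω2 = 0 ∧
      ω1.coeff 0 = (v a : k) * N ∧ ω2.coeff 0 = (w a : k) * N := by
    intro a
    obtain ⟨Ω, hΩ, σ, τ, Xa, h1, h2, h3⟩ := hpl a
    set G1 : (LS k)ˣ := ∏ i, Xa i ^ v i with hG1
    set G2 : (LS k)ˣ := ∏ i, Xa i ^ w i with hG2
    have hσ : ∀ u : Fin n → ℤ, σ (∏ i, x i ^ u i) = τ ((∏ i, Xa i ^ u i : (LS k)ˣ) : LS k) := by
      intro u
      rw [map_prod, Units.coe_prod, map_prod]
      refine Finset.prod_congr rfl fun i _ => ?_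
      rw [Units.val_zpow_eq_zpow_val, map_zpow₀, map_zpow₀, h2]
    set tL : Bx d → LS k := fun m => HahnSeries.C (cf h m.1) * (G1 : LS k) ^ m.1.1 *
      (G2 : LS k) ^ m.1.2 with htL
    have htσ : ∀ m, σ (t m) = τ (tL m) := by
      intro m
      rw [ht, htL]
      simp only [map_mul, map_pow]
      rw [h1, hF1, hF2, hσ, hσ]
    have hsumL : ∑ m, tL m = 0 := by
      apply τ.injective
      rw [map_zero, map_sum, ← map_zero σ, ← htsum, map_sum]
      exact Finset.sum_congr rfl fun m _ => (htσ m).symm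
    obtain ⟨B, hB⟩ : ∃ B : LS k, σ (MvPolynomial.aeval (xx x) 𝓑) = τ B := by
      refine ⟨MvPolynomial.eval₂ HahnSeries.C (xx fun i => (Xa i : LS k)) 𝓑, ?_⟩
      rw [MvPolynomial.aeval_def, MvPolynomial.eval₂_eq, MvPolynomial.eval₂_eq, map_sum, map_sum]
      refine Finset.sum_congr rfl fun m _ => ?_
      rw [map_mul, map_mul, h1, map_prod, map_prod]
      congr 1
      refine Finset.prod_congr rfl fun q _ => ?_
      rw [map_pow, map_pow]
      congr 1
      unfold xx
      split_ifs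
      · rw [map_inv₀, map_inv₀, h2]
      · rw [h2]
    have hQL : zev tL (QQ d p) = B ^ p := by
      apply τ.injective
      rw [map_pow, ← hB, ← map_pow, ← hrelQ, ring_zev, ring_zev]
      congr 1
      congr 1
      funext m
      exact (htσ m).symm
    obtain ⟨e1, e2⟩ := tame_LS (p := p) G1 G2 (fun m => cf h m.1) tL (fun m => rfl) hsumL B hQL
    refine ⟨Ω, hΩ, σ, τ, ∑ m, (m.1.1 : LS k) * tL m, ∑ m, (m.1.2 : LS k) * tL m,
      dl (G1 : LS k), dl (G2 : LS k), h1, ?_, ?_, e1, e2, h3 v, h3 w⟩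
    · rw [hU1, map_sum, map_sum]
      refine Finset.sum_congr rfl fun m _ => ?_
      rw [map_mul σ, map_natCast σ, htσ, map_mul τ (m.1.1 : LS k) (tL m), map_natCast τ]
    · rw [hU2, map_sum, map_sum]
      refine Finset.sum_congr rfl fun m _ => ?_
      rw [map_mul σ, map_natCast σ, htσ, map_mul τ (m.1.2 : LS k) (tL m), map_natCast τ]
  -- `v` is not zero modulo `p`
  obtain ⟨a₀, ha₀⟩ := hvw 1 0 (by simp)
  rw [one_mul, zero_mul, add_zero] at ha₀
  -- `F1` is transcendental
  have hF1tr : Transcendental k F1 := by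
    rintro ⟨q, hq, hq0⟩
    obtain ⟨c, hc⟩ := root_const (algebraMap k 𝔽) hq hq0
    obtain ⟨Ω, _, σ, τ, Xa, h1, h2, h3⟩ := hpl a₀
    have h5 : ((∏ i, Xa i ^ v i : (LS k)ˣ) : LS k) = HahnSeries.C c := by
      apply τ.injective
      rw [← h1, ← hc, hF1, map_prod, Units.coe_prod, map_prod]
      refine Finset.prod_congr rfl fun i _ => ?_
      rw [Units.val_zpow_eq_zpow_val, map_zpow₀, map_zpow₀, h2]
    have h6 := h3 v
    rw [h5, dl_const, HahnSeries.coeff_zero] at h6
    exact (mul_ne_zero ha₀ hN) h6.symm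
  have hU2ne : U2 ≠ 0 := by
    intro h0
    have h1 : E2 (algebraMap k 𝔽) F1 F2 (X * derivative h) = 0 := by
      rw [← h0, hU2]
      have hBD' : BD d (X * derivative h) := by
        refine ⟨?_, fun m => ?_⟩
        · by_cases hd : derivative h = 0
          · rw [hd, mul_zero]; simp
          · refine natDegree_mul_le.trans ?_
            rw [natDegree_X]
            have h2 : h.natDegree ≠ 0 := by
              intro h3
              apply hd
              rw [eq_C_of_natDegree_eq_zero h3, derivative_C]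
            have h3 := natDegree_derivative_lt h2
            have h4 := hBD.1
            omega
        · cases m with
          | zero => simp
          | succ m =>
            rw [coeff_X_mul, coeff_derivative]
            have e : ((m : k[X]) + 1) = C ((m : k) + 1) := by simp
            rw [e]
            exact (natDegree_mul_C_le _ _).trans (hBD.2 _)
      rw [E2_eq_sum hBD', ← Finset.sum_coe_sort]
      refine Finset.sum_congr rfl fun m _ => ?_
      rw [ht]
      simp only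
      have e : cf (X * derivative h) m.1 = (m.1.2 : k) * cf h m.1 := by
        unfold cf
        rcases hm : m.1.2 with _ | m'
        · simp
        · rw [coeff_X_mul, coeff_derivative]
          have e : ((m' : k[X]) + 1) = C ((m' : k) + 1) := by simp
          rw [e, coeff_mul_C]
          push_cast
          ring
      rw [e, map_mul, map_natCast]
      ring
    have h2 := congrArg (E2 (algebraMap k 𝔽) F1 F2) hUV
    rw [map_add, map_mul, map_mul, hrelh, h1, mul_zero, mul_zero, add_zero, E2_C] at h2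
    exact hF1tr ⟨r, hr, h2.symm⟩
  -- the dichotomy
  by_cases hρ : (U1 / U2) ^ p = U1 / U2
  · have h1 : ((X : k[X]) ^ p - X) ≠ 0 := by
      intro h0
      have h2 := congrArg (fun f => coeff f p) h0
      simp only [coeff_sub, coeff_X_pow, if_true, coeff_zero, coeff_X] at h2
      rw [if_neg (by have := hpf.out.one_lt; omega)] at h2
      simp at h2
    obtain ⟨c, hc⟩ := root_const (algebraMap k 𝔽) h1 (w := U1 / U2) (by
      rw [eval₂_sub, eval₂_pow, eval₂_X, hρ, sub_self])
    obtain ⟨i, hi⟩ := hvw c 1 (by simp)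
    apply hi
    obtain ⟨Ω, _, σ, τ, u1, u2, ω1, ω2, h3, h4, h5, h6, h7, h8, h9⟩ := hloc i
    have hu2 : u2 ≠ 0 := by
      rintro rfl
      rw [map_zero, map_eq_zero] at h5
      exact hU2ne h5
    have hu1 : u1 = HahnSeries.C c * u2 := by
      apply τ.injective
      rw [map_mul, ← h3, ← h4, ← h5, ← map_mul, ← hc]
      congr 1
      field_simp
    have h10 : u2 * (HahnSeries.C c * ω1 + ω2) = 0 := by
      rw [← h7, hu1]; ring
    have h11 := (mul_eq_zero.1 h10).resolve_left hu2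
    have h12 := congrArg (fun f => HahnSeries.coeff f 0) h11
    simp only [HahnSeries.coeff_add, HahnSeries.coeff_zero] at h12
    rw [HahnSeries.C_apply, HahnSeries.coeff_single_zero_mul] at h12
    rw [h8, h9] at h12
    have h13 : (c * (v i : k) + 1 * (w i : k)) * N = 0 := by
      rw [← h12]; ring
    exact (mul_eq_zero.1 h13).resolve_right hN
  · obtain ⟨Ω, _, σ, τ, u1, u2, ω1, ω2, h3, h4, h5, h6, h7, h8, h9⟩ := hloc a₀
    have hu2 : u2 ≠ 0 := by
      rintro rfl
      rw [map_zero, map_eq_zero] at h5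
      exact hU2ne h5
    have hω1 : ω1 ≠ 0 := by
      rintro rfl
      rw [HahnSeries.coeff_zero] at h8
      exact (mul_ne_zero ha₀ hN) h8.symm
    apply hρ
    have h10 : (u1 / u2) ^ p = u1 / u2 := by
      have h11 : ω2 = -(u1 / u2 * ω1) := by
        field_simp
        linear_combination h7
      rw [h11] at h6
      have h12 : ω1 * (u1 ^ p - u2 ^ p * (u1 / u2)) = 0 := by linear_combination h6
      have h13 := sub_eq_zero.1 ((mul_eq_zero.1 h12).resolve_left hω1)
      rw [div_pow, h13]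
      field_simp
    apply σ.injective
    rw [map_pow, map_div₀, h4, h5, ← map_div₀, ← map_pow, h10]

end fin

end Pool.Agent.Y226.ZG
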