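import Pool.Agent.Y226.ZG.Info2
import Pool.Agent.Y226.ZG.PEval
import Pool.Agent.Y226.ZG.LemW
import Pool.Agent.Y226.ZG.Exc2
import Pool.Agent.Y226.ZG.TameEq2
import Pool.Agent.Y226.ZG.TameFin

/-!
# The local data
-/

set_option autoImplicit false
set_option linter.unusedSectionVars false

open UpperHalfPlane H294ZP Polynomial

namespace Pool.Agent.Y226.ZG

open Pool.Agent.Y226

/-! ### exponent vectors -/

section vec

variable {n : ℕ}

/-- the exponent vector of `x_k ^ B / x_j ^ A` -/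
def vec (j k : Fin n) (A B : ℕ) : Fin n → ℤ :=
  fun i => (if i = k then (B : ℤ) else 0) - (if i = j then (A : ℤ) else 0)

/-- the exponent vector of `x_m ^ c` -/
def sing (m : Fin n) (c : ℤ) : Fin n → ℤ := fun i => if i = m then c else 0

theorem Bv_vec {j k : Fin n} {A B M : ℕ} (hA : A ≤ M) (hB : B ≤ M) (hjk : j ≠ k) :
    Bv M (vec j k A B) := by
  intro i
  unfold vec
  split_ifs with h1 h2
  · exact absurd (h2.symm.trans h1) hjk
  · simp; omega
  · simp; omega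
  · simp

theorem Bv_sing {m : Fin n} {c : ℤ} {M : ℕ} (hc : c.natAbs ≤ M) : Bv M (sing m c) := by
  intro i
  unfold sing
  split_ifs with h1
  · rw [Int.abs_eq_natAbs]
    exact_mod_cast hc
  · simp

theorem LI_sing {j k m : Fin n} {A B : ℕ} {c : ℤ} (hjk : j ≠ k) (hA : 0 < A) (hB : 0 < B)
    (hc : c ≠ 0) : LI (vec j k A B) (sing m c) := by
  intro a b hab h0
  have hk := congrFun h0 k
  have hj := congrFun h0 j
  have hm := congrFun h0 m
  simp only [vec, sing, Pi.zero_apply, if_true, if_neg hjk, if_neg hjk.symm] at hk hj hm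
  have ha : a = 0 := by
    by_cases hkm : k = m
    · have hjm : j ≠ m := fun h => hjk (h.trans hkm.symm)
      rw [if_neg hjm, mul_zero, add_zero] at hj
      rcases mul_eq_zero.1 hj with h | h
      · exact h
      · omega
    · rw [if_neg hkm, mul_zero, add_zero] at hk
      rcases mul_eq_zero.1 hk with h | h
      · exact h
      · omega
  rw [ha, zero_mul, zero_add] at hm
  rcases mul_eq_zero.1 hm with h | h
  · apply hab
    rw [ha, h]
  · exact hc h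

theorem LI_vec {j k j' k' : Fin n} {A B A' B' : ℕ} (hjk : j ≠ k) (hjk' : j' ≠ k')
    (hne : ¬ ((j' = j ∧ k' = k) ∨ (j' = k ∧ k' = j))) (hA : 0 < A) (hB : 0 < B)
    (hB' : 0 < B') : LI (vec j k A B) (vec j' k' A' B') := by
  intro a b hab h0
  have hk := congrFun h0 k
  have hj := congrFun h0 j
  have hm := congrFun h0 k'
  simp only [vec, Pi.zero_apply, if_true, if_neg hjk, if_neg hjk.symm,
    if_neg hjk'.symm] at hk hj hm
  have ha : a = 0 := by
    by_cases h1 : k = k' ∨ k = j'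
    · have h2 : j ≠ k' ∧ j ≠ j' := by
        constructor
        · rintro rfl
          rcases h1 with h1 | h1
          · exact hjk h1.symm
          · exact hne (Or.inr ⟨h1.symm, rfl⟩)
        · rintro rfl
          rcases h1 with h1 | h1
          · exact hne (Or.inl ⟨rfl, h1.symm⟩)
          · exact hjk h1.symm
      simp only [if_neg h2.1, if_neg h2.2, sub_zero, mul_zero, add_zero] at hj
      rcases mul_eq_zero.1 hj with h | h
      · exact h
      · omega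
    · push Not at h1
      simp only [if_neg h1.1, if_neg h1.2, sub_zero, mul_zero, add_zero] at hk
      rcases mul_eq_zero.1 hk with h | h
      · exact h
      · omega
  rw [ha, zero_mul, zero_add] at hm
  rcases mul_eq_zero.1 hm with h | h
  · apply hab
    rw [ha, h]
  · omega

theorem prod_vec {F : Type*} [Field F] (x : Fin n → F) {j k : Fin n} (hjk : j ≠ k)
    (hj : x j ≠ 0) (A B : ℕ) : ∏ i, x i ^ vec j k A B i = x k ^ B * (x j ^ A)⁻¹ := by
  classical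
  have h1 : ∀ i, x i ^ vec j k A B i =
      (if i = k then x i ^ B else 1) * (if i = j then (x i ^ A)⁻¹ else 1) := by
    intro i
    unfold vec
    by_cases h1 : i = k
    · have h2 : i ≠ j := fun h => hjk (h.symm.trans h1)
      simp [h1, if_neg (show k ≠ j from hjk.symm)]
    · by_cases h2 : i = j
      · simp [h2, if_neg hjk, zpow_neg]
      · simp [h1, h2]
  simp only [h1]
  rw [Finset.prod_mul_distrib, Finset.prod_ite_eq', Finset.prod_ite_eq',
    if_pos (Finset.mem_univ _), if_pos (Finset.mem_univ _)]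

theorem prod_sing {F : Type*} [Field F] (x : Fin n → F) (m : Fin n) (c : ℤ) :
    ∏ i, x i ^ sing m c i = x m ^ c := by
  classical
  have h1 : ∀ i, x i ^ sing m c i = if i = m then x i ^ c else 1 := by
    intro i
    unfold sing
    split_ifs <;> simp
  simp only [h1]
  rw [Finset.prod_ite_eq', if_pos (Finset.mem_univ _)]

end vec

/-- the local data -/
structure Loc (C : Type) [NormedField C] [IsUltrametricDist C] (p : ℕ) [Fact p.Prime] (k : Type)
    [Field k] (n N W M d D : ℕ) where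
  φ : QA →+* C
  red : OO C →+* k
  hker : ∀ x : OO C, red x = 0 ↔ ‖(x : C)‖ < 1
  hp0 : 0 < ‖(p : C)‖
  hp1 : ‖(p : C)‖ < 1
  R : Subring QA
  hR : ∀ r : R, φ r ∈ Nr C p
  𝓡 : RD R n N W M d D
  Λ : Fin n → Cˣ
  w : Fin n → ℕ
  hw : ∀ i, 0 < w i ∧ w i ≤ W
  e : ℕ
  he : 0 < e
  pu : Cˣ
  hpu : (pu : C) = p
  hΛ : ∀ i, Λ i * pu ^ (w i * e) ∈ GG C p 0 le_rfl one_pos
  tm : Fin n → C
  htm : ∀ i, ‖tm i‖ ≤ ‖(p : C)‖ * ‖((Λ i : Cˣ) : C)‖
  b1 : 16 * D ^ 2 * d ^ 2 < p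
  b2 : 16 * d ^ 2 + 2 < p
  b3 : N + 2 < p
  b4 : D + 2 < p
  b5 : W < p
  b6 : 2 * M ^ 2 < p
  hN : 0 < N
  hM : W * N + W ≤ M

namespace Loc

variable {C : Type} [NormedField C] [IsUltrametricDist C] {p : ℕ} [hpf : Fact p.Prime] {k : Type}
  [Field k] {n N W M d D : ℕ} (𝓛 : Loc C p k n N W M d D)

/-- the map to the field `C` -/
noncomputable def ψ : 𝓛.R →+* C := 𝓛.φ.comp 𝓛.R.subtype

theorem ψ_Nr (r : 𝓛.R) : 𝓛.ψ r ∈ Nr C p := 𝓛.hR r

theorem ψ_le (r : 𝓛.R) : ‖𝓛.ψ r‖ ≤ 1 := Nr_le (𝓛.ψ_Nr r)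

theorem ψ_unit {r : 𝓛.R} (hr : IsUnit r) : ‖𝓛.ψ r‖ = 1 := by
  obtain ⟨s, hs⟩ := hr.exists_right_inv
  have h1 := congrArg (fun x => ‖𝓛.ψ x‖) hs
  simp only [map_mul, norm_mul, map_one, norm_one] at h1
  have h2 := 𝓛.ψ_le r
  have h3 := 𝓛.ψ_le s
  have h4 := norm_nonneg (𝓛.ψ r)
  nlinarith

/-- the map to the valuation ring -/
noncomputable def ψO : 𝓛.R →+* OO C := 𝓛.ψ.codRestrict (OO C) 𝓛.ψ_le

theorem ψO_val (r : 𝓛.R) : ((𝓛.ψO r : OO C) : C) = 𝓛.ψ r := rfl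

/-- the map to the residue field -/
noncomputable def χ : 𝓛.R →+* k := 𝓛.red.comp 𝓛.ψO

/-- the points of the curve -/
structure Pt (x : Fin n → C) : Prop where
  r1 : ∀ i j, i ≠ j → E2 𝓛.ψ (x i) (x j) (𝓛.𝓡.g i false j) = 0
  r1' : ∀ i j, i ≠ j → x i ≠ 0 → E2 𝓛.ψ (x i)⁻¹ (x j) (𝓛.𝓡.g i true j) = 0
  r2 : ∀ v w, Bv M v → Bv M w → LI v w → (∀ i, v i ≠ 0 ∨ w i ≠ 0 → x i ≠ 0) →
    E2 𝓛.ψ (∏ i, x i ^ v i) (∏ i, x i ^ w i) (𝓛.𝓡.h v w) = 0

/-- a corner dominates -/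
theorem one_bad {x : Fin n → C} (hx : 𝓛.Pt x) {i j : Fin n} (hij : i ≠ j) :
    ‖x i‖ = 1 ∨ ‖x j‖ = 1 := by
  classical
  by_contra hcon
  push Not at hcon
  obtain ⟨hi, hj⟩ := hcon
  obtain ⟨c1, c2, c3, c4, c5, c6⟩ := 𝓛.𝓡.corner i j hij
  have hrel := hx.r1 i j hij
  set g := 𝓛.𝓡.g i false j with hg
  set a := 𝓛.𝓡.a i j with ha
  set b := 𝓛.𝓡.b i j with hb
  rw [E2_apply, eval₂_eq_sum_range' _ (n := b + 1) (by omega)] at hrel
  have hin : ∀ v, (eval₂RingHom 𝓛.ψ (x i)) (g.coeff v) =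
      ∑ u ∈ Finset.range (a + 1), 𝓛.ψ (cf g (u, v)) * x i ^ u := by
    intro v
    rw [coe_eval₂RingHom, eval₂_eq_sum_range' _ (n := a + 1) (by have := c1 v; omega)]
    rfl
  simp only [hin, Finset.sum_mul] at hrel
  rw [← Finset.sum_product'] at hrel
  set u₀ := if ‖x i‖ < 1 then 0 else a with hu₀
  set v₀ := if ‖x j‖ < 1 then 0 else b with hv₀
  have hmem : (v₀, u₀) ∈ Finset.range (b + 1) ×ˢ Finset.range (a + 1) := by
    rw [Finset.mem_product, Finset.mem_range, Finset.mem_range, hu₀, hv₀]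
    constructor
    · split_ifs <;> simp
    · split_ifs <;> simp
  have hunit : IsUnit (cf g (u₀, v₀)) := by
    rw [hu₀, hv₀]
    split_ifs
    · exact c3
    · exact c5
    · exact c4
    · exact c6
  have hxi : ∀ u ≤ a, ‖x i‖ ^ u ≤ ‖x i‖ ^ u₀ ∧ (u ≠ u₀ → ‖x i‖ ^ u < ‖x i‖ ^ u₀) := by
    intro u hu
    rw [hu₀]
    split_ifs with h
    · refine ⟨by rw [pow_zero]; exact pow_le_one₀ (norm_nonneg _) h.le, fun hne => ?_⟩
      rw [pow_zero]
      exact pow_lt_one₀ (norm_nonneg _) h hne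
    · have h1 : 1 < ‖x i‖ := lt_of_le_of_ne (not_lt.1 h) (Ne.symm hi)
      exact ⟨pow_le_pow_right₀ h1.le hu, fun hne => pow_lt_pow_right₀ h1 (by omega)⟩
  have hxj : ∀ v ≤ b, ‖x j‖ ^ v ≤ ‖x j‖ ^ v₀ ∧ (v ≠ v₀ → ‖x j‖ ^ v < ‖x j‖ ^ v₀) := by
    intro v hv
    rw [hv₀]
    split_ifs with h
    · refine ⟨by rw [pow_zero]; exact pow_le_one₀ (norm_nonneg _) h.le, fun hne => ?_⟩
      rw [pow_zero]
      exact pow_lt_one₀ (norm_nonneg _) h hne
    · have h1 : 1 < ‖x j‖ := lt_of_le_of_ne (not_lt.1 h) (Ne.symm hj)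
      exact ⟨pow_le_pow_right₀ h1.le hv, fun hne => pow_lt_pow_right₀ h1 (by omega)⟩
  have hpi : 0 < ‖x i‖ ^ u₀ := by
    rw [hu₀]
    split_ifs with h
    · simp
    · exact pow_pos (one_pos.trans (lt_of_le_of_ne (not_lt.1 h) (Ne.symm hi))) _
  have hpj : 0 < ‖x j‖ ^ v₀ := by
    rw [hv₀]
    split_ifs with h
    · simp
    · exact pow_pos (one_pos.trans (lt_of_le_of_ne (not_lt.1 h) (Ne.symm hj))) _
  set P := ‖x i‖ ^ u₀ * ‖x j‖ ^ v₀ with hP
  have hPpos : 0 < P := mul_pos hpi hpj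
  rw [← Finset.add_sum_erase _ _ hmem] at hrel
  have h1 : ‖𝓛.ψ (cf g (u₀, v₀)) * x i ^ u₀ * x j ^ v₀‖ = P := by
    rw [norm_mul, norm_mul, 𝓛.ψ_unit hunit, one_mul, norm_pow, norm_pow]
  have h2 : ‖∑ y ∈ (Finset.range (b + 1) ×ˢ Finset.range (a + 1)).erase (v₀, u₀),
      𝓛.ψ (cf g (y.2, y.1)) * x i ^ y.2 * x j ^ y.1‖ < P := by
    have h3 : ∀ y ∈ (Finset.range (b + 1) ×ˢ Finset.range (a + 1)).erase (v₀, u₀),
        ‖𝓛.ψ (cf g (y.2, y.1)) * x i ^ y.2 * x j ^ y.1‖ < P := by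
      rintro ⟨v, u⟩ hy
      obtain ⟨hne, hy⟩ := Finset.mem_erase.1 hy
      rw [Finset.mem_product, Finset.mem_range, Finset.mem_range] at hy
      have hv : v ≤ b := by have := hy.1; omega
      have hu : u ≤ a := by have := hy.2; omega
      simp only
      rw [mul_assoc, norm_mul]
      have h4 : ‖𝓛.ψ (cf g (u, v))‖ * ‖x i ^ u * x j ^ v‖ ≤ 1 * ‖x i ^ u * x j ^ v‖ := by
        gcongr
        exact 𝓛.ψ_le _
      refine h4.trans_lt ?_
      rw [one_mul, norm_mul, norm_pow, norm_pow, hP]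
      by_cases h5 : u = u₀
      · have h6 : v ≠ v₀ := by rintro rfl; exact hne (by rw [h5])
        rw [h5]
        exact mul_lt_mul_of_pos_left ((hxj v hv).2 h6) hpi
      · calc ‖x i‖ ^ u * ‖x j‖ ^ v ≤ ‖x i‖ ^ u * ‖x j‖ ^ v₀ :=
              mul_le_mul_of_nonneg_left (hxj v hv).1 (by positivity)
          _ < ‖x i‖ ^ u₀ * ‖x j‖ ^ v₀ := mul_lt_mul_of_pos_right ((hxi u hu).2 h5) hpj
    by_cases hemp : ((Finset.range (b + 1) ×ˢ Finset.range (a + 1)).erase (v₀, u₀)).Nonempty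
    · obtain ⟨y, hy, hle⟩ := IsUltrametricDist.exists_norm_finset_sum_le_of_nonempty hemp
        (fun y => 𝓛.ψ (cf g (y.2, y.1)) * x i ^ y.2 * x j ^ y.1)
      exact hle.trans_lt (h3 y hy)
    · rw [Finset.not_nonempty_iff_eq_empty.1 hemp, Finset.sum_empty, norm_zero]
      exact hPpos
  have h3 : 𝓛.ψ (cf g (u₀, v₀)) * x i ^ u₀ * x j ^ v₀ =
      -∑ y ∈ (Finset.range (b + 1) ×ˢ Finset.range (a + 1)).erase (v₀, u₀),
      𝓛.ψ (cf g (y.2, y.1)) * x i ^ y.2 * x j ^ y.1 := eq_neg_of_add_eq_zero_left hrel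
  rw [h3, norm_neg] at h1
  exact absurd h1 h2.ne

/-- near a zero or a pole of a coordinate the other coordinates are given by power series -/
theorem exists_root [CompleteSpace C] {x : Fin n → C} {i j : Fin n} (hij : i ≠ j) {s : Bool}
    {z : C} (hrel : E2 𝓛.ψ (z ^ N) (x j) (𝓛.𝓡.g i s j) = 0) {e : PowerSeries 𝓛.R →+* C}
    (hC : ∀ r, e (PowerSeries.C r) = 𝓛.ψ r) (hX : e PowerSeries.X = z) :
    ∃ y ∈ 𝓛.𝓡.ys i s j, x j = e (y : PowerSeries 𝓛.R) := by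
  have h1 := 𝓛.𝓡.fac i s j hij
  unfold PFac at h1
  have h2 := congrArg (eval₂ e (x j)) h1
  have h3 : eval₂ e (x j) ((𝓛.𝓡.g i s j).map (inn N)) = 0 := by
    rw [eval₂_map, ← hrel, E2_apply]
    congr 1
    ext r
    · simp [inn, hC]
    · simp [inn, hX]
  rw [h3, eval₂_mul, eval₂_C, Polynomial.eval₂_multiset_prod, Multiset.map_map] at h2
  rcases mul_eq_zero.1 h2.symm with h4 | h4
  · exfalso
    exact ((𝓛.𝓡.L i s j).isUnit.map e).ne_zero h4
  · rw [Multiset.prod_eq_zero_iff, Multiset.mem_map] at h4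
    obtain ⟨y, hy, h5⟩ := h4
    refine ⟨y, hy, ?_⟩
    simp only [Function.comp_apply, eval₂_sub, eval₂_X, eval₂_C] at h5
    exact sub_eq_zero.1 h5

end Loc

end Pool.Agent.Y226.ZG
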