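import Pool.Agent.Y226.ZG.Loc

/-!
# Wild torsion
-/

set_option autoImplicit false
set_option linter.unusedSectionVars false

open UpperHalfPlane H294ZP Polynomial

namespace Pool.Agent.Y226.ZG

open Pool.Agent.Y226

section near

variable {C : Type} [NormedField C] [IsUltrametricDist C] {p : ℕ} [hpf : Fact p.Prime]

/-- wild torsion near an almost unramified unit -/
theorem wild_near (hp1 : ‖(p : C)‖ < 1) {F ε : Cˣ} {F₀ : C} (hF₀ : F₀ ∈ Nr C p)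
    (hF₀n : ‖F₀‖ = 1) {δ : ℝ} (hFδ : ‖(F : C) - F₀‖ ≤ δ) (hδ : δ < 1) (hε1 : ‖(ε : C) - 1‖ < 1)
    (hG : F * ε ∈ GG C p ‖(p : C)‖ (norm_nonneg _) hp1) : ‖(ε : C) - 1‖ ≤ max δ ‖(p : C)‖ := by
  obtain ⟨w, hw, hw1, hwF⟩ := hG
  have hεn : ‖(ε : C)‖ = 1 := neq_one hε1 norm_one
  have hF0 : F₀ ≠ 0 := norm_pos_iff.1 (by rw [hF₀n]; exact one_pos)
  set m := max δ ‖(p : C)‖ with hm
  have hm1 : m < 1 := max_lt hδ hp1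
  have h1 : ‖(ε : C) * F₀ - w‖ ≤ m := by
    have e1 : (ε : C) * F₀ - w = (((F * ε : Cˣ) : C) - w) - (ε : C) * ((F : C) - F₀) := by
      rw [Units.val_mul]; ring
    rw [e1]
    exact nsub_le (hwF.trans (le_max_right _ _)) (nmul_le hεn.le (hFδ.trans (le_max_left _ _)))
  set w' := w * F₀⁻¹ with hw'
  have hw'Nr : w' ∈ Nr C p := mul_mem hw (Nr_inv hF₀ hF₀n)
  have h2 : ‖(ε : C) - w'‖ ≤ m := by
    have e1 : (ε : C) - w' = ((ε : C) * F₀ - w) * F₀⁻¹ := by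
      rw [hw']; field_simp
    rw [e1]
    exact nmul_le' h1 (by rw [norm_inv, hF₀n, inv_one])
  have h3 : ‖w' - 1‖ < 1 := by
    have e1 : w' - 1 = ((ε : C) - 1) - ((ε : C) - w') := by ring
    rw [e1]
    exact nsub_lt hε1 (h2.trans_lt hm1)
  have h4 := Nr_gap (sub_mem hw'Nr (one_mem _)) h3
  have e1 : (ε : C) - 1 = ((ε : C) - w') + (w' - 1) := by ring
  rw [e1]
  exact nadd_le h2 (h4.trans (le_max_right _ _))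

end near

/-- information on a pair of coordinates -/
structure PI {C : Type} [NormedField C] [IsUltrametricDist C] {p : ℕ} [hpf : Fact p.Prime]
    {k : Type} [Field k] {n N W M d D : ℕ} (𝓛 : Loc C p k n N W M d D) (κ : Fin n → OO C)
    (Y : Fin n → Cˣ) (X : Fin n → QA) (j l : Fin n) (A B g' s : ℕ) (ζ' ε : Cˣ) : Prop where
  hA : 0 < A
  hB : 0 < B
  hAW : A ≤ W
  hBW : B ≤ W
  hg : 0 < g'
  hcop : g'.Coprime p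
  hζ : IsPrimitiveRoot (ζ' : C) g'
  hε : IsPrimitiveRoot (ε : C) (p ^ s)
  hμ : 𝓛.Λ l ^ B * (𝓛.Λ j ^ A)⁻¹ ∈ GG C p 0 le_rfl one_pos
  hexp : ‖((𝓛.Λ l ^ B * (𝓛.Λ j ^ A)⁻¹ * (Y l ^ B * (Y j ^ A)⁻¹) * (ζ' * ε) : Cˣ) : C) -
        (1 + p * (B * (κ l * ((Y l : Cˣ) : C)⁻¹) - A * (κ j * ((Y j : Cˣ) : C)⁻¹)))‖ ≤
          ‖(p : C)‖ ^ 2
  hrel : PsiE ιZ (mP (A * B * (g' * p ^ s) ^ 2)) (mD (A * B * (g' * p ^ s) ^ 2))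
    (rA (X j)) (rA (X l)) = 0

namespace PI

variable {C : Type} [NormedField C] [IsUltrametricDist C] {p : ℕ} [hpf : Fact p.Prime]
  {k : Type} [Field k] {n N W M d D : ℕ} {𝓛 : Loc C p k n N W M d D} {κ : Fin n → OO C}
  {Y : Fin n → Cˣ} {X : Fin n → QA} {j l : Fin n} {A B g' s : ℕ} {ζ' ε : Cˣ}

theorem close (h : PI 𝓛 κ Y X j l A B g' s ζ' ε) (hYj : ‖((Y j : Cˣ) : C)‖ = 1)
    (hYl : ‖((Y l : Cˣ) : C)‖ = 1) :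
    ‖((𝓛.Λ l ^ B * (𝓛.Λ j ^ A)⁻¹ * (Y l ^ B * (Y j ^ A)⁻¹) * (ζ' * ε) : Cˣ) : C) - 1‖ ≤
      ‖(p : C)‖ := by
  have e1 : ((𝓛.Λ l ^ B * (𝓛.Λ j ^ A)⁻¹ * (Y l ^ B * (Y j ^ A)⁻¹) * (ζ' * ε) : Cˣ) : C) - 1 =
      (((𝓛.Λ l ^ B * (𝓛.Λ j ^ A)⁻¹ * (Y l ^ B * (Y j ^ A)⁻¹) * (ζ' * ε) : Cˣ) : C) -
        (1 + p * (B * (κ l * ((Y l : Cˣ) : C)⁻¹) - A * (κ j * ((Y j : Cˣ) : C)⁻¹)))) +
        p * (B * (κ l * ((Y l : Cˣ) : C)⁻¹) - A * (κ j * ((Y j : Cˣ) : C)⁻¹)) := by ring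
  rw [e1]
  refine nadd_le (h.hexp.trans (pow_le_of_le_one (norm_nonneg _) 𝓛.hp1.le two_ne_zero)) ?_
  refine nmul_le' le_rfl (nsub_le (nmul_le (nnat B) (nmul_le (κ l).2 ?_))
    (nmul_le (nnat A) (nmul_le (κ j).2 ?_)))
  · rw [norm_inv, hYl, inv_one]
  · rw [norm_inv, hYj, inv_one]

/-- membership in `GG` -/
theorem mem_GG (h : PI 𝓛 κ Y X j l A B g' s ζ' ε) (hYj : ‖((Y j : Cˣ) : C)‖ = 1)
    (hYl : ‖((Y l : Cˣ) : C)‖ = 1) :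
    (Y l ^ B * (Y j ^ A)⁻¹) * ε ∈ GG C p ‖(p : C)‖ (norm_nonneg _) 𝓛.hp1 := by
  have h1 : 𝓛.Λ l ^ B * (𝓛.Λ j ^ A)⁻¹ * (Y l ^ B * (Y j ^ A)⁻¹) * (ζ' * ε) ∈
      GG C p ‖(p : C)‖ (norm_nonneg _) 𝓛.hp1 :=
    GG_of_close (one_mem _) norm_one (h.close hYj hYl)
  have h2 : ζ' ∈ GG C p ‖(p : C)‖ (norm_nonneg _) 𝓛.hp1 := by
    obtain ⟨f', hf', hff⟩ := fixed_of_pow_eq_one h.hcop h.hζ.pow_eq_one
    refine GG_of_close (w := (ζ' : C)) (Nr_of_fixed hf' hff) ?_ (by simp)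
    have h1 : ‖(ζ' : C)‖ ^ g' = 1 := by rw [← norm_pow, h.hζ.pow_eq_one, norm_one]
    exact (pow_eq_one_iff_of_nonneg (norm_nonneg _) h.hg.ne').1 h1
  have h3 := GG_mono (h0' := norm_nonneg _) (h1' := 𝓛.hp1) (norm_nonneg (p : C)) h.hμ
  have e2 : (Y l ^ B * (Y j ^ A)⁻¹) * ε =
      (𝓛.Λ l ^ B * (𝓛.Λ j ^ A)⁻¹ * (Y l ^ B * (Y j ^ A)⁻¹) * (ζ' * ε)) *
        (𝓛.Λ l ^ B * (𝓛.Λ j ^ A)⁻¹)⁻¹ * ζ'⁻¹ := by
    generalize 𝓛.Λ l ^ B * (𝓛.Λ j ^ A)⁻¹ = μ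
    generalize Y l ^ B * (Y j ^ A)⁻¹ = F
    calc F * ε = (μ * μ⁻¹) * (ζ' * ζ'⁻¹) * (F * ε) := by
          rw [mul_inv_cancel, mul_inv_cancel, one_mul, one_mul]
      _ = μ * F * (ζ' * ε) * μ⁻¹ * ζ'⁻¹ := by ac_rfl
  rw [e2]
  exact mul_mem (mul_mem h1 (inv_mem h3)) (inv_mem h2)

end PI

namespace Loc

variable {C : Type} [NormedField C] [IsUltrametricDist C] {p : ℕ} [hpf : Fact p.Prime] {k : Type}
  [Field k] {n N W M d D : ℕ} (𝓛 : Loc C p k n N W M d D)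

/-- the relation as a sum -/
theorem relsum {x : Fin n → C} (hx : 𝓛.Pt x) {v w : Fin n → ℤ} (hv : Bv M v) (hw : Bv M w)
    (hvw : LI v w) (hsupp : ∀ i, v i ≠ 0 ∨ w i ≠ 0 → x i ≠ 0) {F₁ F₂ : C}
    (h1 : F₁ = ∏ i, x i ^ v i) (h2 : F₂ = ∏ i, x i ^ w i) :
    ∑ m ∈ box d, ((𝓛.ψO (cf (𝓛.𝓡.h v w) m) : OO C) : C) * F₁ ^ m.1 * F₂ ^ m.2 = 0 := by
  have h3 := hx.r2 v w hv hw hvw hsupp
  rw [E2_eq_sum (𝓛.𝓡.hBD v w hv hw hvw), ← h1, ← h2] at h3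
  exact h3

theorem hNC {v w : Fin n → ℤ} (hv : Bv M v) (hw : Bv M w) (hvw : LI v w) :
    NoCoset k d (fun m => 𝓛.red (𝓛.ψO (cf (𝓛.𝓡.h v w) m))) :=
  𝓛.𝓡.hNC v w hv hw hvw k 𝓛.χ

include 𝓛 in
theorem p_ne_two : p ≠ 2 := by
  have := 𝓛.b2
  have := 𝓛.b3
  omega

/-- no wild torsion for two distinct pairs -/
theorem no_wild {x : Fin n → C} (hx : 𝓛.Pt x) {Y : Fin n → Cˣ} {j l j' l' : Fin n}
    (hYj : (Y j : C) = x j) (hYl : (Y l : C) = x l) (hYj' : (Y j' : C) = x j')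
    (hYl' : (Y l' : C) = x l') {A B A' B' : ℕ} (hjl : j ≠ l) (hjl' : j' ≠ l')
    (hne : ¬ ((j' = j ∧ l' = l) ∨ (j' = l ∧ l' = j))) (hA : 0 < A) (hB : 0 < B) (hB' : 0 < B')
    (hAW : A ≤ W) (hBW : B ≤ W) (hAW' : A' ≤ W) (hBW' : B' ≤ W) {ε₁ ε₂ : Cˣ} {s : ℕ}
    (hε₁ : IsPrimitiveRoot (ε₁ : C) (p ^ (s + 1))) (hε₂ : (ε₂ : C) ^ p ^ (s + 1) = 1)
    (hG₁ : (Y l ^ B * (Y j ^ A)⁻¹) * ε₁ ∈ GG C p ‖(p : C)‖ (norm_nonneg _) 𝓛.hp1)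
    (hG₂ : (Y l' ^ B' * (Y j' ^ A')⁻¹) * ε₂ ∈ GG C p ‖(p : C)‖ (norm_nonneg _) 𝓛.hp1) : False := by
  have hM := 𝓛.hM
  have hxj : x j ≠ 0 := by rw [← hYj]; exact (Y j).ne_zero
  have hxl : x l ≠ 0 := by rw [← hYl]; exact (Y l).ne_zero
  have hxj' : x j' ≠ 0 := by rw [← hYj']; exact (Y j').ne_zero
  have hxl' : x l' ≠ 0 := by rw [← hYl']; exact (Y l').ne_zero
  have hv : Bv M (vec j l A B) := Bv_vec (by omega) (by omega) hjl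
  have hw : Bv M (vec j' l' A' B') := Bv_vec (by omega) (by omega) hjl'
  have hvw : LI (vec j l A B) (vec j' l' A' B') := LI_vec hjl hjl' hne hA hB hB'
  have hsupp : ∀ i, vec j l A B i ≠ 0 ∨ vec j' l' A' B' i ≠ 0 → x i ≠ 0 := by
    intro i hi
    unfold vec at hi
    by_cases h1 : i = j
    · rw [h1]; exact hxj
    · by_cases h2 : i = l
      · rw [h2]; exact hxl
      · by_cases h3 : i = j'
        · rw [h3]; exact hxj'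
        · by_cases h4 : i = l'
          · rw [h4]; exact hxl'
          · simp [h1, h2, h3, h4] at hi
  have hF₁ : ((Y l ^ B * (Y j ^ A)⁻¹ : Cˣ) : C) = ∏ i, x i ^ vec j l A B i := by
    rw [prod_vec x hjl hxj, Units.val_mul, Units.val_pow_eq_pow_val, Units.val_inv_eq_inv_val,
      Units.val_pow_eq_pow_val, hYj, hYl]
  have hF₂ : ((Y l' ^ B' * (Y j' ^ A')⁻¹ : Cˣ) : C) = ∏ i, x i ^ vec j' l' A' B' i := by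
    rw [prod_vec x hjl' hxj', Units.val_mul, Units.val_pow_eq_pow_val, Units.val_inv_eq_inv_val,
      Units.val_pow_eq_pow_val, hYj', hYl']
  have hb2 := 𝓛.b2
  obtain ⟨D', h1, h2⟩ := lemW 𝓛.red 𝓛.hker 𝓛.p_ne_two 𝓛.hp0 𝓛.hp1
    (fun m => 𝓛.ψO (cf (𝓛.𝓡.h (vec j l A B) (vec j' l' A' B')) m)) (fun m => 𝓛.ψ_Nr _)
    (𝓛.hNC hv hw hvw) (by omega) (𝓛.relsum hx hv hw hvw hsupp hF₁ hF₂) hε₁ hε₂ le_rfl hG₁ hG₂
  have hρ0 : 0 < ‖(ε₁ : C) - 1‖ := PData.root_pos 𝓛.p_ne_two 𝓛.hp1 𝓛.hp0 hε₁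
  have hρ1 : ‖(ε₁ : C) - 1‖ < 1 := ppow_root_lt 𝓛.hp1 hε₁.pow_eq_one
  rw [← ppow_root_norm 𝓛.p_ne_two 𝓛.hp1 hε₁] at h2
  have h3 : p ^ s * (p - 1) ≤ D' := (pow_le_pow_iff_right_of_lt_one₀ hρ0 hρ1).1 h2
  have h4 : (p ^ s * (p - 1)) ^ 2 ≤ 16 * d ^ 2 * p ^ (s + 1) := (Nat.pow_le_pow_left h3 2).trans h1
  obtain ⟨q, hq⟩ : ∃ q, p = q + 1 := ⟨p - 1, by have := hpf.out.two_le; omega⟩
  have h5 : p - 1 = q := by omega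
  rw [h5, mul_pow, pow_succ] at h4
  have h6 : 1 ≤ p ^ s := Nat.one_le_pow _ _ hpf.out.pos
  have h7 : p ^ s * (p ^ s * q ^ 2) ≤ p ^ s * (16 * d ^ 2 * p) := by
    calc p ^ s * (p ^ s * q ^ 2) = (p ^ s) ^ 2 * q ^ 2 := by ring
      _ ≤ 16 * d ^ 2 * (p ^ s * p) := h4
      _ = p ^ s * (16 * d ^ 2 * p) := by ring
  have h8 := Nat.le_of_mul_le_mul_left h7 (by omega)
  have h9 : q ^ 2 ≤ 16 * d ^ 2 * p := by
    calc q ^ 2 = 1 * q ^ 2 := (one_mul _).symm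
      _ ≤ p ^ s * q ^ 2 := Nat.mul_le_mul_right _ h6
      _ ≤ _ := h8
  have h10 : 16 * d ^ 2 + 2 ≤ q := by omega
  have h11 : 16 * d ^ 2 * p = 16 * d ^ 2 * (q + 1) := by rw [hq]
  rw [h11] at h9
  nlinarith

/-- data at a bad coordinate -/
theorem bad_data [CompleteSpace C] [IsAlgClosed C] {x : Fin n → C} (hx : 𝓛.Pt x) {a : Fin n}
    (ha : ‖x a‖ ≠ 1) : ∃ (s : Bool) (z : C) (e : PowerSeries 𝓛.R →+* C), ‖z‖ < 1 ∧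
      (∀ r, e (PowerSeries.C r) = 𝓛.ψ r) ∧ e PowerSeries.X = z ∧ (∀ F, ‖e F‖ ≤ 1) ∧
      ((‖x a‖ < 1 ∧ s = false ∧ z ^ N = x a) ∨ (1 < ‖x a‖ ∧ s = true ∧ z ^ N = (x a)⁻¹)) ∧
      ∀ j, j ≠ a → ∃ y ∈ 𝓛.𝓡.ys a s j, x j = e (y : PowerSeries 𝓛.R) := by
  rcases lt_or_gt_of_ne ha with h | h
  · obtain ⟨z, hz⟩ := IsAlgClosed.exists_pow_nat_eq (x a) 𝓛.hN
    have hz1 : ‖z‖ < 1 := by
      by_contra hcon
      push Not at hcon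
      have : 1 ≤ ‖z ^ N‖ := by rw [norm_pow]; exact one_le_pow₀ hcon
      rw [hz] at this
      linarith
    obtain ⟨e, h1, h2, h3⟩ := exists_evz 𝓛.ψ 𝓛.ψ_le hz1
    refine ⟨false, z, e, hz1, h1, h2, h3, Or.inl ⟨h, rfl, hz⟩, fun j hj => ?_⟩
    refine 𝓛.exists_root hj.symm ?_ h1 h2
    rw [hz]
    exact hx.r1 a j hj.symm
  · have hx0 : x a ≠ 0 := norm_pos_iff.1 (one_pos.trans h)
    obtain ⟨z, hz⟩ := IsAlgClosed.exists_pow_nat_eq (x a)⁻¹ 𝓛.hN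
    have hz1 : ‖z‖ < 1 := by
      by_contra hcon
      push Not at hcon
      have : 1 ≤ ‖z ^ N‖ := by rw [norm_pow]; exact one_le_pow₀ hcon
      rw [hz, norm_inv] at this
      have h5 := inv_lt_one_of_one_lt₀ h
      linarith
    obtain ⟨e, h1, h2, h3⟩ := exists_evz 𝓛.ψ 𝓛.ψ_le hz1
    refine ⟨true, z, e, hz1, h1, h2, h3, Or.inr ⟨h, rfl, hz⟩, fun j hj => ?_⟩
    refine 𝓛.exists_root hj.symm ?_ h1 h2
    rw [hz]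
    exact hx.r1' a j hj.symm hx0

/-- units of the ring of power series -/
theorem unit_coeff {R : Type*} [CommRing R] (y : (PowerSeries R)ˣ) :
    IsUnit (PowerSeries.coeff 0 (y : PowerSeries R)) := by
  rw [PowerSeries.coeff_zero_eq_constantCoeff_apply, ← PowerSeries.isUnit_iff_constantCoeff]
  exact y.isUnit

/-- no wild torsion when a coordinate is singular -/
theorem no_wild_cm {Y : Fin n → Cˣ} {j l : Fin n} {z : C} {e : PowerSeries 𝓛.R →+* C}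
    (hz : ‖z‖ < 1) (hC : ∀ r, e (PowerSeries.C r) = 𝓛.ψ r) (hX : e PowerSeries.X = z)
    (hn : ∀ F, ‖e F‖ ≤ 1) (hzN : ‖z‖ ^ N ≤ ‖(p : C)‖) {y y' : (PowerSeries 𝓛.R)ˣ}
    (hYj : (Y j : C) = e (y : PowerSeries 𝓛.R)) (hYl : (Y l : C) = e (y' : PowerSeries 𝓛.R))
    {A B : ℕ} {ε : Cˣ} {s : ℕ} (hε : IsPrimitiveRoot (ε : C) (p ^ (s + 1)))
    (hG : (Y l ^ B * (Y j ^ A)⁻¹) * ε ∈ GG C p ‖(p : C)‖ (norm_nonneg _) 𝓛.hp1) : False := by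
  have hF : ((Y l ^ B * (Y j ^ A)⁻¹ : Cˣ) : C) =
      e ((y' ^ B * (y ^ A)⁻¹ : (PowerSeries 𝓛.R)ˣ) : PowerSeries 𝓛.R) := by
    have h1 : e ((y⁻¹ : (PowerSeries 𝓛.R)ˣ) : PowerSeries 𝓛.R) = ((Y j : Cˣ) : C)⁻¹ := by
      rw [hYj]
      apply eq_inv_of_mul_eq_one_left
      rw [← map_mul, ← Units.val_mul, inv_mul_cancel, Units.val_one, map_one]
    rw [Units.val_mul, Units.val_pow_eq_pow_val, Units.val_inv_eq_inv_val,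
      Units.val_pow_eq_pow_val, Units.val_mul, Units.val_pow_eq_pow_val, map_mul, map_pow, hYl,
      ← inv_pow y, Units.val_pow_eq_pow_val, map_pow, h1, inv_pow]
  have hu := unit_coeff (y' ^ B * (y ^ A)⁻¹)
  have hρ1 : ‖(ε : C) - 1‖ < 1 := ppow_root_lt 𝓛.hp1 hε.pow_eq_one
  have hρ0 : 0 < ‖(ε : C) - 1‖ := PData.root_pos 𝓛.p_ne_two 𝓛.hp1 𝓛.hp0 hε
  have h1 := wild_near 𝓛.hp1 (𝓛.ψ_Nr _) (𝓛.ψ_unit hu)
    (by rw [hF]; exact ev_sub_le hC hX hn hz.le _) hz hρ1 hG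
  have h2 : ‖(ε : C) - 1‖ ^ N ≤ ‖(p : C)‖ := by
    refine (pow_le_pow_left₀ (norm_nonneg _) h1 N).trans ?_
    rcases max_cases ‖z‖ ‖(p : C)‖ with ⟨h, -⟩ | ⟨h, -⟩
    · rw [h]; exact hzN
    · rw [h]; exact pow_le_of_le_one (norm_nonneg _) 𝓛.hp1.le 𝓛.hN.ne'
  rw [← ppow_root_norm 𝓛.p_ne_two 𝓛.hp1 hε] at h2
  have h3 : p ^ s * (p - 1) ≤ N := (pow_le_pow_iff_right_of_lt_one₀ hρ0 hρ1).1 h2
  have h4 : 1 ≤ p ^ s := Nat.one_le_pow _ _ hpf.out.pos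
  have h5 := 𝓛.b3
  have h6 : p - 1 ≤ p ^ s * (p - 1) := Nat.le_mul_of_pos_left _ (by omega)
  omega

end Loc

end Pool.Agent.Y226.ZG
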