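import Pool.Agent.Y226.ZG.Loc2

/-!
# The exceptional case
-/

set_option autoImplicit false
set_option linter.unusedSectionVars false

open UpperHalfPlane H294ZP Polynomial

namespace Pool.Agent.Y226.ZG

open Pool.Agent.Y226

namespace Loc

variable {C : Type} [NormedField C] [IsUltrametricDist C] [CompleteSpace C] [CharZero C]
  [IsAlgClosed C] {p : ℕ} [hpf : Fact p.Prime] {k : Type}
  [Field k] {n N W M d D : ℕ} (𝓛 : Loc C p k n N W M d D)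

theorem Lam_gt (i : Fin n) : 1 < ‖((𝓛.Λ i : Cˣ) : C)‖ := by
  rw [Lam_norm 𝓛.hp0 𝓛.hpu (𝓛.hΛ i), inv_pow]
  refine (one_lt_inv₀ (pow_pos 𝓛.hp0 _)).2 ?_
  exact pow_lt_one₀ (norm_nonneg _) 𝓛.hp1 (Nat.mul_pos (𝓛.hw i).1 𝓛.he).ne'

theorem Lam_inv (i : Fin n) : ‖((𝓛.Λ i : Cˣ) : C)‖⁻¹ ≤ ‖(p : C)‖ := by
  rw [Lam_norm 𝓛.hp0 𝓛.hpu (𝓛.hΛ i), inv_pow, inv_inv]
  exact pow_le_of_le_one (norm_nonneg _) 𝓛.hp1.le (Nat.mul_pos (𝓛.hw i).1 𝓛.he).ne'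

/-- the norm of a coordinate -/
theorem X_norm {i : Fin n} {x X : C} (hX : X = 𝓛.Λ i * x + 𝓛.tm i) (hx : ‖(p : C)‖ < ‖x‖) :
    ‖X‖ = ‖((𝓛.Λ i : Cˣ) : C)‖ * ‖x‖ := by
  rw [hX, neq_of_add_lt, norm_mul]
  rw [norm_mul, mul_comm]
  have h1 : 0 < ‖((𝓛.Λ i : Cˣ) : C)‖ := norm_pos_iff.2 (𝓛.Λ i).ne_zero
  exact (𝓛.htm i).trans_lt (mul_lt_mul_of_pos_right hx h1)

theorem X_gt {i : Fin n} {x X : C} (hX : X = 𝓛.Λ i * x + 𝓛.tm i) (hx : ‖x‖ = 1) : 1 < ‖X‖ := by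
  rw [𝓛.X_norm hX (by rw [hx]; exact 𝓛.hp1), hx, mul_one]
  exact 𝓛.Lam_gt i

/-- the Tate parameter to the first order -/
theorem q_lin {ψ : ZZ →+* C} (hψ : ∀ z, ‖ψ z‖ ≤ 1) {i : Fin n} {x X : C}
    (hX : X = 𝓛.Λ i * x + 𝓛.tm i) (hx : ‖(p : C)‖ < ‖x‖) (hX1 : 1 < ‖X‖) :
    ‖qT ψ X * (𝓛.Λ i * x) - 1‖ ≤ ‖(p : C)‖ * ‖x‖⁻¹ := by
  have hXn := 𝓛.X_norm hX hx
  have hΛ0 : 0 < ‖((𝓛.Λ i : Cˣ) : C)‖ := norm_pos_iff.2 (𝓛.Λ i).ne_zero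
  have hx0 : 0 < ‖x‖ := 𝓛.hp0.trans hx
  have e1 : qT ψ X * (𝓛.Λ i * x) - 1 = (qT ψ X * X - 1) - qT ψ X * 𝓛.tm i := by
    have : (𝓛.Λ i : C) * x = X - 𝓛.tm i := by rw [hX]; ring
    rw [this]; ring
  rw [e1]
  refine nsub_le ((qT_expand' hψ hX1).trans ?_) ?_
  · rw [hXn, mul_inv]
    exact mul_le_mul_of_nonneg_right (𝓛.Lam_inv i) (inv_nonneg.2 hx0.le)
  · rw [norm_mul, qT_norm hψ hX1, hXn, mul_inv]
    calc ‖((𝓛.Λ i : Cˣ) : C)‖⁻¹ * ‖x‖⁻¹ * ‖𝓛.tm i‖ ≤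
          ‖((𝓛.Λ i : Cˣ) : C)‖⁻¹ * ‖x‖⁻¹ * (‖(p : C)‖ * ‖((𝓛.Λ i : Cˣ) : C)‖) := by
          gcongr
          exact 𝓛.htm i
      _ = ‖(p : C)‖ * ‖x‖⁻¹ := by field_simp

/-- values at units of the ring of power series -/
theorem ev_unit_norm {R : Type*} [CommRing R] {e : PowerSeries R →+* C} (hn : ∀ F, ‖e F‖ ≤ 1)
    (y : (PowerSeries R)ˣ) : ‖e (y : PowerSeries R)‖ = 1 := by
  have h1 : e (y : PowerSeries R) * e ((y⁻¹ : (PowerSeries R)ˣ) : PowerSeries R) = 1 := by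
    rw [← map_mul, ← Units.val_mul, mul_inv_cancel, Units.val_one, map_one]
  have h2 := congrArg norm h1
  rw [norm_mul, norm_one] at h2
  have h3 := hn (y : PowerSeries R)
  have h4 := hn ((y⁻¹ : (PowerSeries R)ˣ) : PowerSeries R)
  have h5 := norm_nonneg (e (y : PowerSeries R))
  nlinarith

/-- wild torsion when a bad coordinate is related to a good one -/
theorem exc_case {x : Fin n → C} (hx : 𝓛.Pt x) {Y : Fin n → Cˣ} {X : Fin n → QA}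
    (hX : ∀ i, 𝓛.φ (X i) = 𝓛.Λ i * x i + 𝓛.tm i) {a : Fin n} {s : Bool} {z : C}
    {e : PowerSeries 𝓛.R →+* C}
    (hz : ‖z‖ < 1) (hC : ∀ r, e (PowerSeries.C r) = 𝓛.ψ r) (heX : e PowerSeries.X = z)
    (hn : ∀ F, ‖e F‖ ≤ 1)
    (hs : (‖x a‖ < 1 ∧ s = false ∧ z ^ N = x a) ∨ (1 < ‖x a‖ ∧ s = true ∧ z ^ N = (x a)⁻¹))
    (hzp : ‖(p : C)‖ < ‖z‖ ^ N)
    {j l m : Fin n} (hja : j ≠ a) (hla : l ≠ a) (hma : m ≠ a) (hjl : j ≠ l)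
    {y y' y'' : (PowerSeries 𝓛.R)ˣ} (hy : y ∈ 𝓛.𝓡.ys a s j) (hy' : y' ∈ 𝓛.𝓡.ys a s l)
    (hxj : x j = e (y : PowerSeries 𝓛.R)) (hxl : x l = e (y' : PowerSeries 𝓛.R))
    (hxm : x m = e (y'' : PowerSeries 𝓛.R))
    (hYj : (Y j : C) = x j) (hYl : (Y l : C) = x l) (hYm : (Y m : C) = x m)
    {A B : ℕ} (hA : 0 < A) (hB : 0 < B) (hAW : A ≤ W) (hBW : B ≤ W) {ε : Cˣ} {t : ℕ}
    (hε : IsPrimitiveRoot (ε : C) (p ^ (t + 1)))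
    (hG : (Y l ^ B * (Y j ^ A)⁻¹) * ε ∈ GG C p ‖(p : C)‖ (norm_nonneg _) 𝓛.hp1)
    {τ w : ℍ} {a₁ b₁ c₁ d₁ : ℤ} (hdet : 0 < a₁ * d₁ - b₁ * c₁)
    (hw : (w : ℂ) * (c₁ * τ + d₁) = a₁ * τ + b₁) (hτ : rA (X m) = jj τ) (hw' : rA (X a) = jj w) :
    t ≤ 1 := by
  have hM := 𝓛.hM
  have hψn : ∀ z, ‖(𝓛.φ.comp iA) z‖ ≤ 1 := psi_norm 𝓛.φ
  have hxmn : ‖x m‖ = 1 := by rw [hxm]; exact ev_unit_norm hn y''
  have hm1 : 1 < ‖𝓛.φ (X m)‖ := 𝓛.X_gt (hX m) hxmn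
  have hxap : ‖(p : C)‖ < ‖x a‖ := by
    rcases hs with ⟨-, -, h⟩ | ⟨h, -, -⟩
    · rw [← h, norm_pow]; exact hzp
    · exact 𝓛.hp1.trans h
  obtain ⟨A', B', g, ζ, hA', hB', hAB', hg0, hζ, hq, hi1, -⟩ :=
    tate_rel (ψ := 𝓛.φ.comp iA) (i₀ := iA) hψn rA_comp rfl hdet hw hτ hw' hm1
  have hxa0 : x a ≠ 0 := norm_pos_iff.1 (𝓛.hp0.trans hxap)
  have hz0 : z ≠ 0 := by
    rintro rfl
    rcases hs with ⟨-, -, h⟩ | ⟨-, -, h⟩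
    · rw [zero_pow 𝓛.hN.ne'] at h
      exact hxa0 h.symm
    · rw [zero_pow 𝓛.hN.ne'] at h
      exact inv_ne_zero hxa0 h.symm
  set η : Cˣ := Units.mk0 z hz0 with hη
  obtain ⟨μ, hμ0, hμN, hμ⟩ : ∃ μ : ℤ, μ ≠ 0 ∧ μ.natAbs ≤ N ∧ ((η ^ μ : Cˣ) : C) = x a := by
    have hN := 𝓛.hN
    rcases hs with ⟨-, -, h⟩ | ⟨-, -, h⟩
    · refine ⟨N, by omega, by simp, ?_⟩
      rw [zpow_natCast, Units.val_pow_eq_pow_val, hη, Units.val_mk0, h]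
    · refine ⟨-N, by omega, by simp, ?_⟩
      rw [zpow_neg, zpow_natCast, Units.val_inv_eq_inv_val, Units.val_pow_eq_pow_val, hη,
        Units.val_mk0, h, inv_inv]
  have hqi0 := qT_ne hψn hi1
  have hqm0 := qT_ne hψn hm1
  have hζ0 : ζ ≠ 0 := hζ.ne_zero hg0.ne'
  -- the contact
  have halt := 𝓛.𝓡.br a s j l hja.symm hla.symm hjl y hy y' hy' A hAW B hBW hB
  rcases halt with ⟨m', h1, h2⟩ | halt
  · exfalso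
    refine ev_ne_zero hC heX hn (fun r hr => 𝓛.ψ_unit hr) hz hz0 h1 (fun i hi => h2 i hi) ?_
    rw [map_E2, ← hxj, ← hxl]
    have : e.comp (PowerSeries.C (R := 𝓛.R)) = 𝓛.ψ := RingHom.ext hC
    rw [this]
    exact hx.r1 j l hjl
  obtain ⟨f, hf, hfD, w₁, hw₁, hw₁n, hcon⟩ := ps_contact hC heX hn 𝓛.ψ_Nr hz halt
  have hF : ((Y l ^ B * (Y j ^ A)⁻¹ : Cˣ) : C) =
      e ((y' : PowerSeries 𝓛.R) ^ B * ((y⁻¹ : (PowerSeries 𝓛.R)ˣ) : PowerSeries 𝓛.R) ^ A) := by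
    have h1 : e ((y⁻¹ : (PowerSeries 𝓛.R)ˣ) : PowerSeries 𝓛.R) = ((Y j : Cˣ) : C)⁻¹ := by
      rw [hYj, hxj]
      apply eq_inv_of_mul_eq_one_left
      rw [← map_mul, ← Units.val_mul, inv_mul_cancel, Units.val_one, map_one]
    rw [Units.val_mul, Units.val_pow_eq_pow_val, Units.val_inv_eq_inv_val,
      Units.val_pow_eq_pow_val, map_mul, map_pow, map_pow, h1, hYl, hxl, inv_pow]
  rw [← hF] at hcon
  have hxj0 : x j ≠ 0 := by rw [← hYj]; exact (Y j).ne_zero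
  have hxl0 : x l ≠ 0 := by rw [← hYl]; exact (Y l).ne_zero
  have hxm0 : x m ≠ 0 := by rw [← hYm]; exact (Y m).ne_zero
  have hb2 := 𝓛.b2
  have hb5 := 𝓛.b5
  have hzpow : ∀ i, 𝓛.Λ i * 𝓛.pu ^ ((𝓛.w i : ℤ) * 𝓛.e) ∈ GG C p 0 le_rfl one_pos := by
    intro i
    have := 𝓛.hΛ i
    rwa [← zpow_natCast, Nat.cast_mul] at this
  refine wild_exc2 𝓛.red 𝓛.hker (W := W) 𝓛.b1 (by omega) 𝓛.b3 𝓛.b4 hb5 𝓛.hp0 𝓛.hp1
    (η := η) (F := Y l ^ B * (Y j ^ A)⁻¹) (Yl := Y m) hz hf hfD (𝓛.ψ_Nr _) hw₁ hw₁n hcon hε hG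
    ?_ hμ0 hμN 𝓛.he (𝓛.hw a).1 (𝓛.hw m).1 (𝓛.hw m).2 𝓛.hpu (hzpow a) (hzpow m)
    (qi := Units.mk0 _ hqi0) (ql := Units.mk0 _ hqm0) ?_ ?_ hAB' hB'
    (ζ := Units.mk0 ζ hζ0) hg0 (Units.ext hζ.pow_eq_one)
    (Units.ext (by
      rw [Units.val_mul, Units.val_pow_eq_pow_val, Units.val_pow_eq_pow_val]
      exact hq)) ?_
  · refine GG_of_close (𝓛.ψ_Nr (PowerSeries.coeff 0 (y'' : PowerSeries 𝓛.R)))
      (𝓛.ψ_unit (unit_coeff y'')) ?_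
    rw [hYm, hxm]
    exact ev_sub_le hC heX hn hz.le _
  · have h1 := 𝓛.q_lin hψn (hX a) hxap hi1
    rw [mul_assoc, Units.val_mul, Units.val_mul, hμ]
    exact h1
  · have h1 := 𝓛.q_lin hψn (hX m) (by rw [hxmn]; exact 𝓛.hp1) hm1
    rw [hxmn, inv_one, mul_one] at h1
    rw [mul_assoc, Units.val_mul, Units.val_mul, hYm]
    exact h1
  · intro c hc hcW
    have hv : Bv M (vec j l A B) := Bv_vec (by omega) (by omega) hjl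
    have hw : Bv M (sing m c) := Bv_sing (by omega)
    have hvw : LI (vec j l A B) (sing m c) := LI_sing hjl hA hB hc
    refine ⟨fun q => 𝓛.ψO (cf (𝓛.𝓡.h (vec j l A B) (sing m c)) q), fun q => 𝓛.ψ_Nr _,
      𝓛.hNC hv hw hvw, ?_⟩
    refine 𝓛.relsum hx hv hw hvw ?_ ?_ ?_
    · intro i hi
      by_cases h1 : i = j
      · rw [h1]; exact hxj0
      · by_cases h2 : i = l
        · rw [h2]; exact hxl0
        · by_cases h3 : i = m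
          · rw [h3]; exact hxm0
          · simp [vec, sing, h1, h2, h3] at hi
    · rw [prod_vec x hjl hxj0, Units.val_mul, Units.val_pow_eq_pow_val, Units.val_inv_eq_inv_val,
        Units.val_pow_eq_pow_val, hYj, hYl]
    · rw [prod_sing, Units.val_zpow_eq_zpow_val, hYm]

end Loc

end Pool.Agent.Y226.ZG
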