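import Pool.Agent.Y226.ZG.Loc2

/-!
# Tame torsion
-/

set_option autoImplicit false
set_option linter.unusedSectionVars false

open UpperHalfPlane H294ZP Polynomial

namespace Pool.Agent.Y226.ZG

open Pool.Agent.Y226

namespace Loc

variable {C : Type} [NormedField C] [IsUltrametricDist C] [CharZero C]
  [IsAlgClosed C] {p : ℕ} [hpf : Fact p.Prime] {k : Type}
  [Field k] {n N W M d D : ℕ} (𝓛 : Loc C p k n N W M d D)

include 𝓛 in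
theorem pC_ne : (p : C) ≠ 0 := norm_pos_iff.1 𝓛.hp0

include 𝓛 in
theorem pO_ne : (p : OO C) ≠ 0 := by
  intro h
  apply 𝓛.pC_ne
  have := congrArg (fun x : OO C => (x : C)) h
  simpa using this

include 𝓛 in
/-- division by `p` -/
theorem divp {a : C} (h : ‖a‖ ≤ ‖(p : C)‖) : ∃ v : OO C, a = p * v := by
  have hp := 𝓛.hp0
  refine ⟨⟨a / p, ?_⟩, ?_⟩
  · rw [mem_OO, norm_div]
    exact (div_le_one hp).2 h
  · show a = p * (a / p)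
    have := 𝓛.pC_ne
    field_simp

include 𝓛 in
theorem divp2 {a : C} (h : ‖a‖ ≤ ‖(p : C)‖ ^ 2) : ∃ v : OO C, a = p ^ 2 * v := by
  have hp := 𝓛.hp0
  refine ⟨⟨a / p ^ 2, ?_⟩, ?_⟩
  · rw [mem_OO, norm_div, norm_pow]
    exact (div_le_one (by positivity)).2 h
  · show a = p ^ 2 * (a / p ^ 2)
    have := 𝓛.pC_ne
    field_simp

include 𝓛 in
/-- Teichmüller decomposition -/
theorem teichO {c : OO C} (hc : (c : C) ∈ Nr C p) : ∃ τ v : OO C, c = τ + p * v ∧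
    ∃ f : ℕ, 0 < f ∧ τ ^ p ^ f = τ := by
  obtain ⟨τ, f, hf, hτ, hle⟩ := exists_teich 𝓛.hp1 hc
  obtain ⟨v, hv⟩ := 𝓛.divp hle
  refine ⟨⟨τ, Nr_le (Nr_of_fixed hf hτ)⟩, v, Subtype.ext ?_, f, hf, Subtype.ext hτ⟩
  show (c : C) = τ + ((p : OO C) : C) * v
  have : ((p : OO C) : C) = p := by simp
  rw [this]
  linear_combination hv

include 𝓛 in
/-- Teichmüller decomposition of units -/
theorem teichU {μ : Cˣ} (hμ : μ ∈ GG C p 0 le_rfl one_pos) : ∃ τ ν : OO C,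
    ((μ⁻¹ : Cˣ) : C) = τ * (1 + p * ν) ∧ ∃ f : ℕ, 0 < f ∧ τ ^ p ^ f = τ := by
  obtain ⟨w, hw, hw1, hwμ⟩ := inv_mem hμ
  have hw' : ((μ⁻¹ : Cˣ) : C) = w := by
    have := norm_le_zero_iff.1 hwμ
    exact sub_eq_zero.1 this
  obtain ⟨τ, f, hf, hτ, hle⟩ := exists_teich 𝓛.hp1 hw
  have hτ1 : ‖τ‖ = 1 := by
    have : τ - w = -(w - τ) := by ring
    refine neq_one (y := w) ?_ hw1
    rw [this, norm_neg]
    exact hle.trans_lt 𝓛.hp1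
  have hτ0 : τ ≠ 0 := norm_pos_iff.1 (by rw [hτ1]; exact one_pos)
  have hle' : ‖(w - τ) * τ⁻¹‖ ≤ ‖(p : C)‖ := nmul_le' hle (by rw [norm_inv, hτ1, inv_one])
  obtain ⟨ν, hν⟩ := 𝓛.divp hle'
  refine ⟨⟨τ, hτ1.le⟩, ν, ?_, f, hf, Subtype.ext hτ⟩
  show ((μ⁻¹ : Cˣ) : C) = τ * (1 + p * ν)
  rw [hw', ← hν]
  field_simp
  ring

/-- the unit part of a pair -/
theorem pair_tame (κ : Fin n → OO C) {j l : Fin n} {A B : ℕ}
    (hμ : 𝓛.Λ l ^ B * (𝓛.Λ j ^ A)⁻¹ ∈ GG C p 0 le_rfl one_pos) : ∃ ν : OO C,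
    ∀ (xO : Fin n → OO C) (Y : Fin n → Cˣ), (∀ i, (Y i : C) = xO i) →
      (∀ i, ‖(xO i : C)‖ = 1) → ∀ (ζ : Cˣ) (f : ℕ), 0 < f → (ζ : C) ^ p ^ f = ζ →
      ‖((𝓛.Λ l ^ B * (𝓛.Λ j ^ A)⁻¹ * (Y l ^ B * (Y j ^ A)⁻¹) * ζ : Cˣ) : C) -
        (1 + p * (B * (κ l * ((Y l : Cˣ) : C)⁻¹) - A * (κ j * ((Y j : Cˣ) : C)⁻¹)))‖ ≤
          ‖(p : C)‖ ^ 2 →
      ∃ F e R : OO C, (F : C) = ((Y l ^ B * (Y j ^ A)⁻¹ : Cˣ) : C) ∧ F = e * (1 + p * R) ∧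
        (∃ f : ℕ, 0 < f ∧ e ^ p ^ f = e) ∧
        𝓛.red R = 𝓛.red ν + (B * (𝓛.red (κ l) * (𝓛.red (xO l))⁻¹) -
          A * (𝓛.red (κ j) * (𝓛.red (xO j))⁻¹)) ∧
        𝓛.red F = 𝓛.red (xO l) ^ B * (𝓛.red (xO j) ^ A)⁻¹ := by
  obtain ⟨τ, ν, hμτ, f₁, hf₁, hτ⟩ := 𝓛.teichU hμ
  refine ⟨ν, fun xO Y hY hx1 ζ f hf hζ hexp => ?_⟩
  set μ := 𝓛.Λ l ^ B * (𝓛.Λ j ^ A)⁻¹ with hμdef
  have hp0 : (p : C) ≠ 0 := 𝓛.pC_ne
  have hredp : 𝓛.red (p : OO C) = 0 := by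
    rw [𝓛.hker]
    simpa using 𝓛.hp1
  have hx0 : ∀ i, (xO i : C) ≠ 0 := fun i => norm_pos_iff.1 (by rw [hx1]; exact one_pos)
  have hred0 : ∀ i, 𝓛.red (xO i) ≠ 0 := fun i => by
    rw [Ne, 𝓛.hker, hx1]; exact lt_irrefl 1
  -- inverses
  have hinvex : ∀ i, ∃ y : OO C, (y : C) = ((Y i : Cˣ) : C)⁻¹ ∧ 𝓛.red y = (𝓛.red (xO i))⁻¹ := by
    intro i
    refine ⟨⟨((Y i : Cˣ) : C)⁻¹, by rw [mem_OO, norm_inv, hY, hx1, inv_one]⟩, rfl, ?_⟩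
    apply eq_inv_of_mul_eq_one_left
    rw [← map_mul]
    have : (⟨((Y i : Cˣ) : C)⁻¹, by rw [mem_OO, norm_inv, hY, hx1, inv_one]⟩ : OO C) * xO i = 1 := by
      apply Subtype.ext
      show ((Y i : Cˣ) : C)⁻¹ * (xO i : C) = 1
      rw [hY]
      exact inv_mul_cancel₀ (hx0 i)
    rw [this, map_one]
  choose yi hyi hyi' using hinvex
  -- the error term
  set ρ : OO C := B * (κ l * yi l) - A * (κ j * yi j) with hρ
  have hρC : (ρ : C) = B * (κ l * ((Y l : Cˣ) : C)⁻¹) - A * (κ j * ((Y j : Cˣ) : C)⁻¹) := by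
    rw [hρ]
    push_cast
    rw [hyi, hyi]
  rw [← hρC] at hexp
  obtain ⟨θ, hθ⟩ := 𝓛.divp2 hexp
  -- the root of unity
  have hζNr := Nr_of_fixed hf hζ
  have hζ0 : (ζ : C) ≠ 0 := ζ.ne_zero
  have hζ1 : ‖(ζ : C)‖ = 1 := by
    have h1 : ‖(ζ : C)‖ ^ p ^ f = ‖(ζ : C)‖ := by rw [← norm_pow, hζ]
    have h2 : 0 < ‖(ζ : C)‖ := norm_pos_iff.2 hζ0
    refine le_antisymm (Nr_le hζNr) ?_
    by_contra hcon
    push Not at hcon
    have h3 : 1 < p ^ f := Nat.one_lt_pow hf.ne' hpf.out.one_lt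
    have h4 := pow_lt_pow_right_of_lt_one₀ h2 hcon h3
    rw [h1, pow_one] at h4
    exact lt_irrefl _ h4
  set zi : OO C := ⟨(ζ : C)⁻¹, by rw [mem_OO, norm_inv, hζ1, inv_one]⟩ with hzi
  have hzif : zi ^ p ^ f = zi := by
    apply Subtype.ext
    show ((ζ : C)⁻¹) ^ p ^ f = (ζ : C)⁻¹
    rw [inv_pow, hζ]
  set F : OO C := xO l ^ B * yi j ^ A with hF
  have hFC : (F : C) = ((Y l ^ B * (Y j ^ A)⁻¹ : Cˣ) : C) := by
    rw [hF, Units.val_mul, Units.val_pow_eq_pow_val, Units.val_inv_eq_inv_val,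
      Units.val_pow_eq_pow_val, hY l, ← inv_pow]
    push_cast
    rw [hyi]
  refine ⟨F, τ * zi, ν + ρ + p * (θ + ν * ρ + p * ν * θ), hFC, ?_, ?_, ?_, ?_⟩
  · apply Subtype.ext
    have e0 : ((p : OO C) : C) = p := by simp
    show (F : C) = (τ : C) * (ζ : C)⁻¹ * (1 + ((p : OO C) : C) * ((ν : C) + ρ +
      ((p : OO C) : C) * ((θ : C) + ν * ρ + ((p : OO C) : C) * ν * θ)))
    rw [e0]
    have e1 : ((μ * (Y l ^ B * (Y j ^ A)⁻¹) * ζ : Cˣ) : C) = 1 + p * ρ + p ^ 2 * θ := by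
      linear_combination hθ
    have e2 : (F : C) = ((μ⁻¹ : Cˣ) : C) * (ζ : C)⁻¹ * ((μ * (Y l ^ B * (Y j ^ A)⁻¹) * ζ : Cˣ) : C) := by
      rw [hFC]
      simp only [Units.val_mul, Units.val_inv_eq_inv_val]
      have hμ0 : (μ : C) ≠ 0 := μ.ne_zero
      field_simp
    rw [e2, e1, hμτ]
    ring
  · refine ⟨f₁ * f, Nat.mul_pos hf₁ hf, ?_⟩
    rw [mul_pow, fixed_mul hτ f, mul_comm f₁ f, fixed_mul hzif f₁]
  · rw [map_add, map_mul, hredp, zero_mul, add_zero, map_add, hρ, map_sub, map_mul, map_mul,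
      map_mul, map_mul, hyi', hyi', map_natCast, map_natCast]
  · rw [hF, map_mul, map_pow, map_pow, hyi', inv_pow]

/-- the tame solutions for two pairs -/
theorem tame_T [CharP k p] [IsAlgClosed k] (κ : Fin n → OO C) {j l j' l' : Fin n}
    {A B A' B' : ℕ} (hjl : j ≠ l) (hjl' : j' ≠ l')
    (hne : ¬ ((j' = j ∧ l' = l) ∨ (j' = l ∧ l' = j))) (hA : 0 < A) (hB : 0 < B) (hB' : 0 < B')
    (hAW : A ≤ W) (hBW : B ≤ W) (hAW' : A' ≤ W) (hBW' : B' ≤ W)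
    (hμ : 𝓛.Λ l ^ B * (𝓛.Λ j ^ A)⁻¹ ∈ GG C p 0 le_rfl one_pos)
    (hμ' : 𝓛.Λ l' ^ B' * (𝓛.Λ j' ^ A')⁻¹ ∈ GG C p 0 le_rfl one_pos) :
    ∃ T : Set (Fin n → k), T.Finite ∧ ∀ (x : Fin n → C), 𝓛.Pt x → ∀ (xO : Fin n → OO C)
      (Y : Fin n → Cˣ), (∀ i, (xO i : C) = x i) → (∀ i, (Y i : C) = xO i) →
      (∀ i, ‖(xO i : C)‖ = 1) →
      ∀ (ζ ζ' : Cˣ) (f f' : ℕ), 0 < f → (ζ : C) ^ p ^ f = ζ → 0 < f' → (ζ' : C) ^ p ^ f' = ζ' →
      ‖((𝓛.Λ l ^ B * (𝓛.Λ j ^ A)⁻¹ * (Y l ^ B * (Y j ^ A)⁻¹) * ζ : Cˣ) : C) -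
        (1 + p * (B * (κ l * ((Y l : Cˣ) : C)⁻¹) - A * (κ j * ((Y j : Cˣ) : C)⁻¹)))‖ ≤
          ‖(p : C)‖ ^ 2 →
      ‖((𝓛.Λ l' ^ B' * (𝓛.Λ j' ^ A')⁻¹ * (Y l' ^ B' * (Y j' ^ A')⁻¹) * ζ' : Cˣ) : C) -
        (1 + p * (B' * (κ l' * ((Y l' : Cˣ) : C)⁻¹) - A' * (κ j' * ((Y j' : Cˣ) : C)⁻¹)))‖ ≤
          ‖(p : C)‖ ^ 2 →
      (fun i => 𝓛.red (xO i)) ∈ T := by
  classical
  have hM := 𝓛.hM
  set v := vec j l A B with hvdef
  set w := vec j' l' A' B' with hwdef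
  have hv : Bv M v := Bv_vec (by omega) (by omega) hjl
  have hw : Bv M w := Bv_vec (by omega) (by omega) hjl'
  have hvw : LI v w := LI_vec hjl hjl' hne hA hB hB'
  obtain ⟨ν, hν⟩ := 𝓛.pair_tame κ hμ
  obtain ⟨ν', hν'⟩ := 𝓛.pair_tame κ hμ'
  set h := 𝓛.𝓡.h v w with hh
  choose τ vv hc hτ using fun m => 𝓛.teichO (c := 𝓛.ψO (cf h m)) (𝓛.ψ_Nr _)
  -- the polynomials
  let P₁ : MvPolynomial (Fin n × Bool) k := MvPolynomial.C (𝓛.red ν) +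
    ((B : MvPolynomial (Fin n × Bool) k) * (MvPolynomial.C (𝓛.red (κ l)) * MvPolynomial.X (l, true)) -
    (A : MvPolynomial (Fin n × Bool) k) * (MvPolynomial.C (𝓛.red (κ j)) * MvPolynomial.X (j, true)))
  let P₂ : MvPolynomial (Fin n × Bool) k := MvPolynomial.C (𝓛.red ν') +
    ((B' : MvPolynomial (Fin n × Bool) k) * (MvPolynomial.C (𝓛.red (κ l')) * MvPolynomial.X (l', true)) -
    (A' : MvPolynomial (Fin n × Bool) k) * (MvPolynomial.C (𝓛.red (κ j')) * MvPolynomial.X (j', true)))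
  let 𝓑 : MvPolynomial (Fin n × Bool) k := ∑ m ∈ box d,
    (MvPolynomial.C (𝓛.red (vv m)) * Mv k v ^ m.1 * Mv k w ^ m.2 +
      MvPolynomial.C (𝓛.red (𝓛.ψO (cf h m))) * Mv k v ^ m.1 * Mv k w ^ m.2 *
        ((m.1 : MvPolynomial (Fin n × Bool) k) * P₁ + (m.2 : MvPolynomial (Fin n × Bool) k) * P₂))
  obtain ⟨U, V, r, hr, hUV⟩ := 𝓛.𝓡.hUV v w hv hw hvw
  have hχunit : ∀ r : 𝓛.R, IsUnit r → 𝓛.χ r ≠ 0 := fun r hr => (hr.map 𝓛.χ).ne_zero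
  have hN0 : (N : k) ≠ 0 := by
    intro h0
    have h1 := (CharP.cast_eq_zero_iff k p N).1 h0
    have h2 := Nat.le_of_dvd 𝓛.hN h1
    have := 𝓛.b3
    omega
  have hfin := tame_fin (k := k) (p := p) 𝓛.hN hN0
    (fun i j => (𝓛.𝓡.g i false j).map (mapRingHom 𝓛.χ))
    (fun i j => Units.map (PowerSeries.map 𝓛.χ).toMonoidHom (𝓛.𝓡.L i false j))
    (fun i j => (𝓛.𝓡.ys i false j).map (Units.map (PowerSeries.map 𝓛.χ).toMonoidHom))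
    (fun i j hij => (𝓛.𝓡.fac i false j hij).map 𝓛.χ)
    (by
      intro i j hij y hy
      obtain ⟨y₀, hy₀, rfl⟩ := Multiset.mem_map.1 hy
      obtain ⟨m, hm, hu⟩ := 𝓛.𝓡.yn i false j hij y₀ hy₀
      refine ⟨m, hm, ?_⟩
      have e1 : ((Units.map (PowerSeries.map 𝓛.χ).toMonoidHom y₀ : (PowerSeries k)ˣ) :
        PowerSeries k) = PowerSeries.map 𝓛.χ (y₀ : PowerSeries 𝓛.R) := rfl
      rw [e1, PowerSeries.coeff_map]
      exact hχunit _ hu)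
    v w (fun c₁ c₂ hc => LI_mod hv hw hvw 𝓛.b6 c₁ c₂ hc)
    (h := h.map (mapRingHom 𝓛.χ)) (d := d) ((𝓛.𝓡.hBD v w hv hw hvw).map 𝓛.χ)
    (U := U.map (mapRingHom 𝓛.χ)) (V := V.map (mapRingHom 𝓛.χ)) (r := r.map 𝓛.χ)
    (by
      obtain ⟨i, hi⟩ := hr
      intro h0
      have := congrArg (fun f => coeff f i) h0
      simp only [coeff_map, coeff_zero] at this
      exact hχunit _ hi this)
    (by
      have := congrArg (Polynomial.map (mapRingHom 𝓛.χ)) hUV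
      rw [Polynomial.map_add, Polynomial.map_mul, Polynomial.map_mul, Polynomial.map_mul,
        ← derivative_map, Polynomial.map_X, Polynomial.map_C] at this
      exact this) 𝓑
  refine ⟨_, hfin, ?_⟩
  intro x hx xO Y hxO hY hx1 ζ ζ' f f' hf hζ hf' hζ' hexp hexp'
  obtain ⟨F, e, R, hF, hFe, he, hR, hFr⟩ := hν xO Y hY hx1 ζ f hf hζ hexp
  obtain ⟨F', e', R', hF', hFe', he', hR', hFr'⟩ := hν' xO Y hY hx1 ζ' f' hf' hζ' hexp'
  have hx0 : ∀ i, x i ≠ 0 := fun i => by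
    rw [← hxO]; exact norm_pos_iff.1 (by rw [hx1]; exact one_pos)
  set xb : Fin n → k := fun i => 𝓛.red (xO i) with hxb
  have hxb0 : ∀ i, xb i ≠ 0 := fun i => by
    show 𝓛.red (xO i) ≠ 0
    rw [Ne, 𝓛.hker, hx1]; exact lt_irrefl 1
  have hFv : 𝓛.red F = ∏ i, xb i ^ v i := by
    rw [hvdef, prod_vec xb hjl (hxb0 j), hFr]
  have hFw : 𝓛.red F' = ∏ i, xb i ^ w i := by
    rw [hwdef, prod_vec xb hjl' (hxb0 j'), hFr']
  have hFC : (F : C) = ∏ i, x i ^ v i := by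
    rw [hvdef, prod_vec x hjl (hx0 j), hF, Units.val_mul, Units.val_pow_eq_pow_val,
      Units.val_inv_eq_inv_val, Units.val_pow_eq_pow_val, hY, hY, hxO, hxO]
  have hFC' : (F' : C) = ∏ i, x i ^ w i := by
    rw [hwdef, prod_vec x hjl' (hx0 j'), hF', Units.val_mul, Units.val_pow_eq_pow_val,
      Units.val_inv_eq_inv_val, Units.val_pow_eq_pow_val, hY, hY, hxO, hxO]
  have halg : algebraMap k k = RingHom.id k := rfl
  have hpush : ∀ (P Q : OO C) (q : 𝓛.R[X][X]), E2 𝓛.ψ (P : C) (Q : C) q = 0 →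
      E2 (algebraMap k k) (𝓛.red P) (𝓛.red Q) (q.map (mapRingHom 𝓛.χ)) = 0 := by
    intro P Q q h0
    have h1 : E2 𝓛.ψO P Q q = 0 := by
      apply Subtype.ext
      have h2 := map_E2 (OO C).subtype 𝓛.ψO P Q q
      exact h2.trans h0
    have h2 := congrArg 𝓛.red h1
    rw [map_zero, map_E2] at h2
    rw [E2_map, halg, RingHom.id_comp]
    exact h2
  refine ⟨hxb0, ?_, ?_, ?_⟩
  · intro i j hij
    exact hpush _ _ _ (by rw [hxO, hxO]; exact hx.r1 i j hij)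
  · rw [← hFv, ← hFw]
    refine hpush _ _ _ ?_
    rw [hFC, hFC']
    exact hx.r2 v w hv hw hvw (fun i _ => hx0 i)
  · have hrel : ∑ m ∈ box d, 𝓛.ψO (cf h m) * F ^ m.1 * F' ^ m.2 = 0 := by
      apply Subtype.ext
      have h1 := 𝓛.relsum hx hv hw hvw (fun i _ => hx0 i) hFC hFC'
      have h2 : (((∑ m ∈ box d, 𝓛.ψO (cf h m) * F ^ m.1 * F' ^ m.2 : OO C)) : C) =
          ∑ m ∈ box d, ((𝓛.ψO (cf h m) : OO C) : C) * (F : C) ^ m.1 * (F' : C) ^ m.2 := by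
        push_cast
        rfl
      rw [h2]
      exact h1
    have h1 := tame_eq2 𝓛.red 𝓛.pO_ne (fun m => 𝓛.ψO (cf h m)) τ vv hc hτ he he' hFe hFe' hrel
    simp only [cf_map]
    rw [← hFv, ← hFw]
    refine h1.trans ?_
    congr 1
    show _ = MvPolynomial.aeval (xx xb) (∑ m ∈ box d,
      (MvPolynomial.C (𝓛.red (vv m)) * Mv k v ^ m.1 * Mv k w ^ m.2 +
        MvPolynomial.C (𝓛.red (𝓛.ψO (cf h m))) * Mv k v ^ m.1 * Mv k w ^ m.2 *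
        ((m.1 : MvPolynomial (Fin n × Bool) k) * P₁ + (m.2 : MvPolynomial (Fin n × Bool) k) * P₂)))
    rw [map_sum]
    refine Finset.sum_congr rfl fun m _ => ?_
    have e1 : MvPolynomial.aeval (xx xb) P₁ = 𝓛.red R := by
      rw [hR]
      show MvPolynomial.aeval (xx xb) (MvPolynomial.C (𝓛.red ν) +
        ((B : MvPolynomial (Fin n × Bool) k) * (MvPolynomial.C (𝓛.red (κ l)) * MvPolynomial.X (l, true)) -
        (A : MvPolynomial (Fin n × Bool) k) * (MvPolynomial.C (𝓛.red (κ j)) * MvPolynomial.X (j, true)))) = _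
      simp only [map_add, map_sub, map_mul, map_natCast, MvPolynomial.aeval_X,
        MvPolynomial.aeval_C]
      simp [xx, hxb]
    have e2 : MvPolynomial.aeval (xx xb) P₂ = 𝓛.red R' := by
      rw [hR']
      show MvPolynomial.aeval (xx xb) (MvPolynomial.C (𝓛.red ν') +
        ((B' : MvPolynomial (Fin n × Bool) k) * (MvPolynomial.C (𝓛.red (κ l')) * MvPolynomial.X (l', true)) -
        (A' : MvPolynomial (Fin n × Bool) k) * (MvPolynomial.C (𝓛.red (κ j')) * MvPolynomial.X (j', true)))) = _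
      simp only [map_add, map_sub, map_mul, map_natCast, MvPolynomial.aeval_X,
        MvPolynomial.aeval_C]
      simp [xx, hxb]
    rw [map_add, map_mul, map_mul, map_mul, map_mul, map_mul, map_add, map_mul, map_mul,
      map_natCast, map_natCast, map_pow, map_pow, aeval_Mv hxb0, aeval_Mv hxb0, e1, e2,
      MvPolynomial.aeval_C, MvPolynomial.aeval_C, ← hFv, ← hFw, halg]
    rfl

end Loc

end Pool.Agent.Y226.ZG
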