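import Pool.Agent.Y226.ZG.Loc3
import Pool.Agent.Y226.ZG.Loc4

/-!
# The local theorem
-/

set_option autoImplicit false
set_option linter.unusedSectionVars false

open UpperHalfPlane H294ZP Polynomial

namespace Pool.Agent.Y226.ZG

open Pool.Agent.Y226

namespace Loc

variable {C : Type} [NormedField C] [IsUltrametricDist C] [CompleteSpace C] [CharZero C]
  [IsAlgClosed C] {p : ℕ} [hpf : Fact p.Prime] {k : Type}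
  [Field k] {n N W M d D : ℕ} (𝓛 : Loc C p k n N W M d D)

theorem red_congr {x y : OO C} (h : ‖(x : C) - y‖ < 1) : 𝓛.red x = 𝓛.red y := by
  rw [← sub_eq_zero, ← map_sub, 𝓛.hker]
  exact h

/-- the order of the tame part is bounded when the residues are in a finite set -/
theorem order_bound {S : Set k} (hS : S.Finite) : ∃ G : ℕ, ∀ (κ : Fin n → OO C)
    (Y : Fin n → Cˣ) (X : Fin n → QA) (j l : Fin n) (A B g' s : ℕ) (ζ' ε : Cˣ),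
    PI 𝓛 κ Y X j l A B g' s ζ' ε → ∀ uj ul : OO C, (uj : C) = Y j → (ul : C) = Y l →
    ‖((Y j : Cˣ) : C)‖ = 1 → ‖((Y l : Cˣ) : C)‖ = 1 → 𝓛.red uj ∈ S → 𝓛.red ul ∈ S → g' ≤ G := by
  classical
  let mb : Fin n → Fin n → ℕ → ℕ → k := fun j l A B =>
    if h : ‖((𝓛.Λ l ^ B * (𝓛.Λ j ^ A)⁻¹ : Cˣ) : C)‖ ≤ 1 then 𝓛.red ⟨_, h⟩ else 0
  let f : k × k × Fin (W + 1) × Fin (W + 1) × Fin n × Fin n → ℕ := fun q =>
    orderOf (q.1 ^ (q.2.2.1 : ℕ) * (mb q.2.2.2.2.1 q.2.2.2.2.2 q.2.2.1 q.2.2.2.1 *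
      q.2.1 ^ (q.2.2.2.1 : ℕ))⁻¹)
  have hfin : (f '' (S ×ˢ (S ×ˢ Set.univ))).Finite :=
    (hS.prod (hS.prod (Set.finite_univ))).image f
  obtain ⟨G, hG⟩ := hfin.bddAbove
  refine ⟨G, ?_⟩
  intro κ Y X j l A B g' s ζ' ε hPI uj ul huj hul hYj hYl hSj hSl
  have h1 : ‖(ζ' : C)‖ ^ g' = 1 := by rw [← norm_pow, hPI.hζ.pow_eq_one, norm_one]
  have hζn : ‖(ζ' : C)‖ = 1 := (pow_eq_one_iff_of_nonneg (norm_nonneg _) hPI.hg.ne').1 h1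
  set Z : OO C := ⟨(ζ' : C), hζn.le⟩ with hZ
  have hord : orderOf (𝓛.red Z) = g' := by
    refine IsPrimitiveRoot.eq_orderOf ?_ |>.symm
    refine ⟨?_, fun m hm => ?_⟩
    · rw [← map_pow]
      have : Z ^ g' = 1 := Subtype.ext hPI.hζ.pow_eq_one
      rw [this, map_one]
    · apply hPI.hζ.dvd_of_pow_eq_one
      rw [← map_pow, ← sub_eq_zero, ← map_one 𝓛.red, ← map_sub, 𝓛.hker] at hm
      have hm' : ‖(ζ' : C) ^ m - 1‖ < 1 := hm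
      refine tame_eq_one (m := g') ?_ ?_ hm'
      · have hco : IsCoprime (g' : ℤ) (p : ℤ) := Nat.isCoprime_iff_coprime.2 hPI.hcop
        obtain ⟨u, v, huv⟩ := hco
        have h2 : (u : C) * (g' : C) - 1 = -(v * p) := by
          have := congrArg (Int.cast : ℤ → C) huv
          push_cast at this
          linear_combination this
        have h3 : ‖(u : C) * (g' : C)‖ = 1 := by
          refine neq_one (y := 1) ?_ norm_one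
          rw [h2, norm_neg]
          exact (nmul_le (nint v) le_rfl).trans_lt 𝓛.hp1
        rw [norm_mul] at h3
        have h4 := nint (C := C) u
        have h5 := nnat (C := C) g'
        have h6 := norm_nonneg (u : C)
        have h7 := norm_nonneg (g' : C)
        nlinarith
      · rw [← pow_mul, mul_comm, pow_mul, hPI.hζ.pow_eq_one, one_pow]
  set μ : Cˣ := 𝓛.Λ l ^ B * (𝓛.Λ j ^ A)⁻¹ with hμ
  have hμn : ‖(μ : C)‖ = 1 := GG_norm hPI.hμ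
  have hclose := hPI.close hYj hYl
  have hεlt : ‖(ε : C) - 1‖ < 1 := ppow_root_lt 𝓛.hp1 hPI.hε.pow_eq_one
  have hclose2 : ‖((μ * (Y l ^ B * (Y j ^ A)⁻¹) * ζ' : Cˣ) : C) - 1‖ < 1 := by
    have e1 : ((μ * (Y l ^ B * (Y j ^ A)⁻¹) * ζ' : Cˣ) : C) - 1 =
        (((μ * (Y l ^ B * (Y j ^ A)⁻¹) * (ζ' * ε) : Cˣ) : C) - 1) -
        ((μ * (Y l ^ B * (Y j ^ A)⁻¹) * ζ' : Cˣ) : C) * ((ε : C) - 1) := by
      simp only [Units.val_mul]; ring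
    rw [e1]
    refine nsub_lt (hclose.trans_lt 𝓛.hp1) ?_
    rw [norm_mul]
    have e2 : ‖((μ * (Y l ^ B * (Y j ^ A)⁻¹) * ζ' : Cˣ) : C)‖ = 1 := by
      simp only [Units.val_mul, Units.val_inv_eq_inv_val, Units.val_pow_eq_pow_val, norm_mul,
        norm_inv, norm_pow, hYj, hYl, hμn, hζn, one_pow, inv_one, mul_one]
    rw [e2, one_mul]
    exact hεlt
  set μO : OO C := ⟨(μ : C), hμn.le⟩ with hμO
  have hmb : mb j l A B = 𝓛.red μO := by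
    show (if h : ‖((𝓛.Λ l ^ B * (𝓛.Λ j ^ A)⁻¹ : Cˣ) : C)‖ ≤ 1 then 𝓛.red ⟨_, h⟩ else 0) = _
    rw [dif_pos hμn.le]
  have hrel : 𝓛.red (μO * ul ^ B * Z) = 𝓛.red (uj ^ A) := by
    apply 𝓛.red_congr
    show ‖(μ : C) * (ul : C) ^ B * (ζ' : C) - (uj : C) ^ A‖ < 1
    rw [hul, huj]
    have hY0 : ((Y j : Cˣ) : C) ≠ 0 := (Y j).ne_zero
    have e1 : (μ : C) * (Y l : C) ^ B * (ζ' : C) - (Y j : C) ^ A =
        (Y j : C) ^ A * (((μ * (Y l ^ B * (Y j ^ A)⁻¹) * ζ' : Cˣ) : C) - 1) := by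
      simp only [Units.val_mul, Units.val_inv_eq_inv_val, Units.val_pow_eq_pow_val]
      field_simp
    rw [e1, norm_mul, norm_pow, hYj, one_pow, one_mul]
    exact hclose2
  have hne : ∀ x : OO C, ‖(x : C)‖ = 1 → 𝓛.red x ≠ 0 := by
    intro x hx
    rw [Ne, 𝓛.hker, hx]
    exact lt_irrefl 1
  have hval : 𝓛.red Z = 𝓛.red uj ^ A * (mb j l A B * 𝓛.red ul ^ B)⁻¹ := by
    rw [map_mul, map_mul, map_pow, map_pow] at hrel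
    rw [hmb, ← hrel]
    have h1 := hne μO hμn
    have h2 := hne ul (by rw [hul]; exact hYl)
    field_simp
  rw [← hord, hval]
  apply hG
  have hA := hPI.hAW
  have hB := hPI.hBW
  exact ⟨(𝓛.red uj, 𝓛.red ul, ⟨A, by omega⟩, ⟨B, by omega⟩, j, l), ⟨hSj, hSl, trivial⟩, rfl⟩

/-- no wild torsion for two distinct pairs -/
theorem no_wild2 {x : Fin n → C} (hx : 𝓛.Pt x) {κ : Fin n → OO C} {Y : Fin n → Cˣ}
    {X : Fin n → QA} {j l j' l' : Fin n} (hYj : (Y j : C) = x j) (hYl : (Y l : C) = x l)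
    (hYj' : (Y j' : C) = x j') (hYl' : (Y l' : C) = x l') (hnj : ‖x j‖ = 1) (hnl : ‖x l‖ = 1)
    (hnj' : ‖x j'‖ = 1) (hnl' : ‖x l'‖ = 1) (hjl : j ≠ l) (hjl' : j' ≠ l')
    (hne : ¬ ((j' = j ∧ l' = l) ∨ (j' = l ∧ l' = j))) {A B g₁ s₁ A' B' g₂ s₂ : ℕ}
    {ζ₁ ε₁ ζ₂ ε₂ : Cˣ} (h₁ : PI 𝓛 κ Y X j l A B g₁ s₁ ζ₁ ε₁)
    (h₂ : PI 𝓛 κ Y X j' l' A' B' g₂ s₂ ζ₂ ε₂) : s₁ = 0 ∧ s₂ = 0 := by
  have hG₁ := h₁.mem_GG (by rw [hYj]; exact hnj) (by rw [hYl]; exact hnl)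
  have hG₂ := h₂.mem_GG (by rw [hYj']; exact hnj') (by rw [hYl']; exact hnl')
  by_contra hcon
  rcases le_total s₂ s₁ with h12 | h12
  · have hs : s₁ ≠ 0 := by rintro rfl; exact hcon ⟨rfl, by omega⟩
    obtain ⟨s, rfl⟩ : ∃ s, s₁ = s + 1 := ⟨s₁ - 1, by omega⟩
    refine 𝓛.no_wild hx hYj hYl hYj' hYl' hjl hjl' hne h₁.hA h₁.hB h₂.hB h₁.hAW h₁.hBW h₂.hAW
      h₂.hBW h₁.hε ?_ hG₁ hG₂
    obtain ⟨q, hq⟩ := Nat.pow_dvd_pow p h12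
    rw [hq, pow_mul, h₂.hε.pow_eq_one, one_pow]
  · have hs : s₂ ≠ 0 := by rintro rfl; exact hcon ⟨by omega, rfl⟩
    obtain ⟨s, rfl⟩ : ∃ s, s₂ = s + 1 := ⟨s₂ - 1, by omega⟩
    refine 𝓛.no_wild hx hYj' hYl' hYj hYl hjl' hjl ?_ h₂.hA h₂.hB h₁.hB h₂.hAW h₂.hBW h₁.hAW
      h₁.hBW h₂.hε ?_ hG₂ hG₁
    · rintro (⟨h1, h2⟩ | ⟨h1, h2⟩)
      · exact hne (Or.inl ⟨h1.symm, h2.symm⟩)
      · exact hne (Or.inr ⟨h2.symm, h1.symm⟩)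
    · obtain ⟨q, hq⟩ := Nat.pow_dvd_pow p h12
      rw [hq, pow_mul, h₁.hε.pow_eq_one, one_pow]

/-- the coefficient `κ` -/
theorem exists_κ (i : Fin n) : ∃ κ : OO C,
    (p : C) * κ * 𝓛.Λ i = 𝓛.φ (iA (cj 1)) - 𝓛.tm i := by
  have hΛ0 : (𝓛.Λ i : C) ≠ 0 := (𝓛.Λ i).ne_zero
  have hΛpos : 0 < ‖(𝓛.Λ i : C)‖ := norm_pos_iff.2 hΛ0
  have hp0 : (p : C) ≠ 0 := norm_pos_iff.1 𝓛.hp0
  have hpΛ : 1 ≤ ‖(p : C)‖ * ‖(𝓛.Λ i : C)‖ := by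
    have := 𝓛.Lam_inv i
    rwa [inv_le_iff_one_le_mul₀ hΛpos] at this
  refine ⟨⟨(𝓛.φ (iA (cj 1)) - 𝓛.tm i) / (p * 𝓛.Λ i), ?_⟩, ?_⟩
  · rw [mem_OO, norm_div, norm_mul, div_le_one (by positivity)]
    exact nsub_le ((psi_norm 𝓛.φ (cj 1)).trans hpΛ) (𝓛.htm i)
  · show (p : C) * ((𝓛.φ (iA (cj 1)) - 𝓛.tm i) / (p * 𝓛.Λ i)) * 𝓛.Λ i = _
    field_simp

/-- The local theorem. -/
theorem local_main2 [CharP k p] [IsAlgClosed k] : ∃ G : ℕ, ∀ (X : Fin n → QA) (x : Fin n → C),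
    𝓛.Pt x → (∀ i, 𝓛.φ (X i) = 𝓛.Λ i * x i + 𝓛.tm i) → ∀ (r : ℕ) (Z : SpecialDatum n r), r + 2 ≤ n →
    (fun i => rA (X i)) ∈ Z.locus → ∃ j l : Fin n, j ≠ l ∧ ∃ N' : ℕ, 0 < N' ∧ N' ≤ G ∧
      PsiE ιZ (mP N') (mD N') (rA (X j)) (rA (X l)) = 0 := by
  classical
  choose κ hκ using 𝓛.exists_κ
  -- the tame sets
  let J := (Fin n × Fin n × Fin (W + 1) × Fin (W + 1)) × (Fin n × Fin n × Fin (W + 1) × Fin (W + 1))
  have hT : ∀ q : J, ∃ T : Set (Fin n → k), T.Finite ∧ (q.1.1 ≠ q.1.2.1 → q.2.1 ≠ q.2.2.1 →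
      ¬ ((q.2.1 = q.1.1 ∧ q.2.2.1 = q.1.2.1) ∨ (q.2.1 = q.1.2.1 ∧ q.2.2.1 = q.1.1)) →
      0 < (q.1.2.2.1 : ℕ) → 0 < (q.1.2.2.2 : ℕ) → 0 < (q.2.2.2.2 : ℕ) →
      𝓛.Λ q.1.2.1 ^ (q.1.2.2.2 : ℕ) * (𝓛.Λ q.1.1 ^ (q.1.2.2.1 : ℕ))⁻¹ ∈ GG C p 0 le_rfl one_pos →
      𝓛.Λ q.2.2.1 ^ (q.2.2.2.2 : ℕ) * (𝓛.Λ q.2.1 ^ (q.2.2.2.1 : ℕ))⁻¹ ∈ GG C p 0 le_rfl one_pos →
      ∀ (x : Fin n → C), 𝓛.Pt x → ∀ (xO : Fin n → OO C)
      (Y : Fin n → Cˣ), (∀ i, (xO i : C) = x i) → (∀ i, (Y i : C) = xO i) →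
      (∀ i, ‖(xO i : C)‖ = 1) →
      ∀ (ζ ζ' : Cˣ) (f f' : ℕ), 0 < f → (ζ : C) ^ p ^ f = ζ → 0 < f' → (ζ' : C) ^ p ^ f' = ζ' →
      ‖((𝓛.Λ q.1.2.1 ^ (q.1.2.2.2 : ℕ) * (𝓛.Λ q.1.1 ^ (q.1.2.2.1 : ℕ))⁻¹ *
        (Y q.1.2.1 ^ (q.1.2.2.2 : ℕ) * (Y q.1.1 ^ (q.1.2.2.1 : ℕ))⁻¹) * ζ : Cˣ) : C) -
        (1 + p * ((q.1.2.2.2 : ℕ) * (κ q.1.2.1 * ((Y q.1.2.1 : Cˣ) : C)⁻¹) -
          (q.1.2.2.1 : ℕ) * (κ q.1.1 * ((Y q.1.1 : Cˣ) : C)⁻¹)))‖ ≤ ‖(p : C)‖ ^ 2 →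
      ‖((𝓛.Λ q.2.2.1 ^ (q.2.2.2.2 : ℕ) * (𝓛.Λ q.2.1 ^ (q.2.2.2.1 : ℕ))⁻¹ *
        (Y q.2.2.1 ^ (q.2.2.2.2 : ℕ) * (Y q.2.1 ^ (q.2.2.2.1 : ℕ))⁻¹) * ζ' : Cˣ) : C) -
        (1 + p * ((q.2.2.2.2 : ℕ) * (κ q.2.2.1 * ((Y q.2.2.1 : Cˣ) : C)⁻¹) -
          (q.2.2.2.1 : ℕ) * (κ q.2.1 * ((Y q.2.1 : Cˣ) : C)⁻¹)))‖ ≤ ‖(p : C)‖ ^ 2 →
      (fun i => 𝓛.red (xO i)) ∈ T) := by
    rintro ⟨⟨j, l, A, B⟩, ⟨j', l', A', B'⟩⟩
    by_cases h : j ≠ l ∧ j' ≠ l' ∧ ¬ ((j' = j ∧ l' = l) ∨ (j' = l ∧ l' = j)) ∧ 0 < (A : ℕ) ∧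
        0 < (B : ℕ) ∧ 0 < (B' : ℕ) ∧
        𝓛.Λ l ^ (B : ℕ) * (𝓛.Λ j ^ (A : ℕ))⁻¹ ∈ GG C p 0 le_rfl one_pos ∧
        𝓛.Λ l' ^ (B' : ℕ) * (𝓛.Λ j' ^ (A' : ℕ))⁻¹ ∈ GG C p 0 le_rfl one_pos
    · obtain ⟨h1, h2, h3, h4, h5, h6, h7, h8⟩ := h
      obtain ⟨T, hT, hT'⟩ := 𝓛.tame_T κ h1 h2 h3 h4 h5 h6 (Nat.lt_succ_iff.1 A.2)
        (Nat.lt_succ_iff.1 B.2) (Nat.lt_succ_iff.1 A'.2) (Nat.lt_succ_iff.1 B'.2) h7 h8
      exact ⟨T, hT, fun _ _ _ _ _ _ _ _ => hT'⟩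
    · exact ⟨∅, Set.finite_empty, fun h1 h2 h3 h4 h5 h6 h7 h8 =>
        absurd ⟨h1, h2, h3, h4, h5, h6, h7, h8⟩ h⟩
  choose T hTfin hTmem using hT
  set S : Set k := (⋃ q : Fin n × Bool × Fin n, ((fun y : (PowerSeries 𝓛.R)ˣ =>
      𝓛.χ (PowerSeries.coeff 0 (y : PowerSeries 𝓛.R))) '' {y | y ∈ 𝓛.𝓡.ys q.1 q.2.1 q.2.2})) ∪
      ⋃ q : J × Fin n, (fun t : Fin n → k => t q.2) '' (T q.1) with hS
  have hSfin : S.Finite := by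
    refine Set.Finite.union (Set.finite_iUnion fun q => Set.Finite.image _ ?_)
      (Set.finite_iUnion fun q => (hTfin q.1).image _)
    exact Multiset.finite_toSet _
  obtain ⟨G₁, hG₁⟩ := 𝓛.order_bound hSfin
  refine ⟨W * W * (G₁ * p ^ 2) ^ 2, ?_⟩
  intro X x hx hX r Z hr hZ
  -- the units
  have hYex : ∀ i, ∃ y : Cˣ, ‖x i‖ = 1 → (y : C) = x i := by
    intro i
    by_cases h : ‖x i‖ = 1
    · exact ⟨Units.mk0 (x i) (norm_pos_iff.1 (by rw [h]; exact one_pos)), fun _ => rfl⟩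
    · exact ⟨1, fun h' => absurd h' h⟩
  choose Y hY using hYex
  have hYn : ∀ i, ‖x i‖ = 1 → ‖((Y i : Cˣ) : C)‖ = 1 := fun i hi => by rw [hY i hi]; exact hi
  have hgood1 : ∀ i, ‖x i‖ = 1 → 1 < ‖𝓛.φ (X i)‖ := fun i hi => 𝓛.X_gt (hX i) hi
  have hcm : ∀ i, Z.cls i = none → ‖𝓛.φ (X i)‖ ≤ 1 := by
    intro i hi
    obtain ⟨z, hz⟩ := hZ
    exact cm_norm (ψ := 𝓛.φ.comp iA) (psi_norm 𝓛.φ) rA_comp rfl (Z.isCM i) ((hz i).1 hi)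
  have hnone : ∀ i, ‖x i‖ = 1 → Z.cls i ≠ none := by
    intro i hi h
    exact absurd (hgood1 i hi) (not_lt.2 (hcm i h))
  -- information on pairs
  have hinfo : ∀ j l, ‖x j‖ = 1 → ‖x l‖ = 1 → (∃ c, Z.cls j = some c ∧ Z.cls l = some c) →
      ∃ (A B g' s : ℕ) (ζ' ε : Cˣ), PI 𝓛 κ Y X j l A B g' s ζ' ε := by
    intro j l hj hl ⟨c, hcj, hcl⟩
    obtain ⟨w, w', a, b, c', d', hdet, hrel, hw, hw'⟩ := class_rel Z hZ hcj hcl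
    obtain ⟨A, B, g', s, ζ', ε, h1, h2, h3, h4, h5, h6, h7, h8, h9, h10, h11⟩ :=
      pair_info2 𝓛.φ 𝓛.hp0 𝓛.hp1 𝓛.hpu 𝓛.he (𝓛.hw j).1 (𝓛.hw l).1 (𝓛.hΛ j) (𝓛.hΛ l)
        (hκ j) (hκ l) (hYn j hj) (hYn l hl) (by rw [hX, hY j hj]) (by rw [hX, hY l hl])
        hdet hrel hw hw'
    refine ⟨A, B, g', s, ζ', ε, h1, h2, ?_, ?_, h5, h6, h7, h8, h9, h10, h11⟩
    · have h12 : A ∣ B * 𝓛.w l := ⟨_, h4⟩
      exact (Nat.le_of_dvd (𝓛.hw l).1 (h3.dvd_of_dvd_mul_left h12)).trans (𝓛.hw l).2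
    · have h12 : B ∣ A * 𝓛.w j := ⟨_, h4.symm⟩
      exact (Nat.le_of_dvd (𝓛.hw j).1 (h3.symm.dvd_of_dvd_mul_left h12)).trans (𝓛.hw j).2
  -- from the tame bound to the conclusion
  have hfin : ∀ j l, j ≠ l → ∀ (hj : ‖x j‖ = 1) (hl : ‖x l‖ = 1),
      𝓛.red ⟨x j, hj.le⟩ ∈ S → 𝓛.red ⟨x l, hl.le⟩ ∈ S →
      ∀ (A B g' s : ℕ) (ζ' ε : Cˣ), PI 𝓛 κ Y X j l A B g' s ζ' ε → s ≤ 2 →
      ∃ j l : Fin n, j ≠ l ∧ ∃ N' : ℕ, 0 < N' ∧ N' ≤ W * W * (G₁ * p ^ 2) ^ 2 ∧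
        PsiE ιZ (mP N') (mD N') (rA (X j)) (rA (X l)) = 0 := by
    intro j l hjl hj hl hSj hSl A B g' s ζ' ε h hs
    have h1 := hG₁ κ Y X j l A B g' s ζ' ε h ⟨x j, hj.le⟩ ⟨x l, hl.le⟩ (hY j hj).symm
      (hY l hl).symm (hYn j hj) (hYn l hl) hSj hSl
    refine ⟨j, l, hjl, A * B * (g' * p ^ s) ^ 2, ?_, ?_, h.hrel⟩
    · have h2 := hpf.out.pos
      have h3 := h.hA
      have h4 := h.hB
      have h5 := h.hg
      positivity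
    · exact Nat.mul_le_mul (Nat.mul_le_mul h.hAW h.hBW) (Nat.pow_le_pow_left
        (Nat.mul_le_mul h1 (Nat.pow_le_pow_right hpf.out.pos hs)) 2)
  -- the combinatorics
  by_cases hall : ∀ i, ‖x i‖ = 1
  · obtain ⟨j, -, l, -, hjl, hc⟩ := coll Z.cls Finset.univ (by simp; omega)
      (fun x _ => hnone x (hall x))
    obtain ⟨j', hj', l', hl', hjl', hc'⟩ := coll Z.cls (Finset.univ.erase l)
      (by rw [Finset.card_erase_of_mem (Finset.mem_univ l)]; simp; omega)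
      (fun x _ => hnone x (hall x))
    have h1 := Finset.ne_of_mem_erase hj'
    have h2 := Finset.ne_of_mem_erase hl'
    have hne : ¬ ((j' = j ∧ l' = l) ∨ (j' = l ∧ l' = j)) := by
      rintro (⟨-, h⟩ | ⟨h, -⟩)
      · exact h2 h
      · exact h1 h
    obtain ⟨A, B, g₁, s₁, ζ₁, ε₁, hP₁⟩ := hinfo j l (hall j) (hall l) hc
    obtain ⟨A', B', g₂, s₂, ζ₂, ε₂, hP₂⟩ := hinfo j' l' (hall j') (hall l') hc'
    obtain ⟨rfl, rfl⟩ := 𝓛.no_wild2 hx (hY j (hall j)) (hY l (hall l)) (hY j' (hall j'))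
      (hY l' (hall l')) (hall j) (hall l) (hall j') (hall l') hjl hjl' hne hP₁ hP₂
    have hε₁ : ε₁ = 1 := Units.ext (by
      have := hP₁.hε.pow_eq_one
      simpa using this)
    have hε₂ : ε₂ = 1 := Units.ext (by
      have := hP₂.hε.pow_eq_one
      simpa using this)
    obtain ⟨f₁, hf₁, hff₁⟩ := fixed_of_pow_eq_one (p := p) hP₁.hcop hP₁.hζ.pow_eq_one
    obtain ⟨f₂, hf₂, hff₂⟩ := fixed_of_pow_eq_one (p := p) hP₂.hcop hP₂.hζ.pow_eq_one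
    have e₁ := hP₁.hexp
    have e₂ := hP₂.hexp
    rw [hε₁, mul_one] at e₁
    rw [hε₂, mul_one] at e₂
    have hTm := hTmem ((j, l, ⟨A, Nat.lt_succ_of_le hP₁.hAW⟩, ⟨B, Nat.lt_succ_of_le hP₁.hBW⟩),
      (j', l', ⟨A', Nat.lt_succ_of_le hP₂.hAW⟩, ⟨B', Nat.lt_succ_of_le hP₂.hBW⟩))
      hjl hjl' hne hP₁.hA hP₁.hB hP₂.hB hP₁.hμ hP₂.hμ x hx (fun i => ⟨x i, (hall i).le⟩) Y
      (fun i => rfl) (fun i => hY i (hall i)) hall ζ₁ ζ₂ f₁ f₂ hf₁ hff₁ hf₂ hff₂ e₁ e₂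
    have hmemS : ∀ i, 𝓛.red ⟨x i, (hall i).le⟩ ∈ S := by
      intro i
      right
      rw [Set.mem_iUnion]
      exact ⟨(_, i), _, hTm, rfl⟩
    exact hfin j l hjl (hall j) (hall l) (hmemS j) (hmemS l) A B g₁ 0 ζ₁ ε₁ hP₁ (by norm_num)
  · push Not at hall
    obtain ⟨a, ha⟩ := hall
    have hg : ∀ j, j ≠ a → ‖x j‖ = 1 := fun j hj =>
      (𝓛.one_bad hx hj).resolve_right ha
    obtain ⟨s, z, e, hz, hC, heX, hn, hs, hroot⟩ := 𝓛.bad_data hx ha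
    have hmemS : ∀ i (hi : ‖x i‖ = 1), i ≠ a → 𝓛.red ⟨x i, hi.le⟩ ∈ S := by
      intro i hi hia
      obtain ⟨y, hy, hxy⟩ := hroot i hia
      left
      rw [Set.mem_iUnion]
      refine ⟨(a, s, i), y, hy, ?_⟩
      show 𝓛.red (𝓛.ψO _) = _
      symm
      apply 𝓛.red_congr
      show ‖x i - 𝓛.ψ _‖ < 1
      rw [hxy]
      exact (ev_sub_le hC heX hn hz.le _).trans_lt hz
    obtain ⟨j, hj, l, hl, hjl, hc⟩ := coll Z.cls (Finset.univ.erase a)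
      (by rw [Finset.card_erase_of_mem (Finset.mem_univ a)]; simp; omega)
      (fun x hx => hnone x (hg x (Finset.ne_of_mem_erase hx)))
    have hja := Finset.ne_of_mem_erase hj
    have hla := Finset.ne_of_mem_erase hl
    obtain ⟨A, B, g₁, s₁, ζ₁, ε₁, hP₁⟩ := hinfo j l (hg j hja) (hg l hla) hc
    have hG := hP₁.mem_GG (hYn j (hg j hja)) (hYn l (hg l hla))
    refine hfin j l hjl (hg j hja) (hg l hla) (hmemS j (hg j hja) hja)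
      (hmemS l (hg l hla) hla) A B g₁ s₁ ζ₁ ε₁ hP₁ ?_
    obtain ⟨y, hy, hxy⟩ := hroot j hja
    obtain ⟨y', hy', hxy'⟩ := hroot l hla
    by_cases hsmall : ‖z‖ ^ N ≤ ‖(p : C)‖
    · by_contra hs₁
      obtain ⟨t, rfl⟩ : ∃ t, s₁ = t + 1 := ⟨s₁ - 1, by omega⟩
      exact 𝓛.no_wild_cm (Y := Y) (j := j) (l := l) hz hC heX hn hsmall
        (by rw [hY j (hg j hja)]; exact hxy) (by rw [hY l (hg l hla)]; exact hxy') hP₁.hε hG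
    · push Not at hsmall
      have hcls : Z.cls a ≠ none := by
        intro hcls
        have h1 := hcm a hcls
        have h2 : ‖(p : C)‖ < ‖x a‖ := by
          rcases hs with ⟨-, -, h⟩ | ⟨h, -, -⟩
          · rw [← h, norm_pow]; exact hsmall
          · exact 𝓛.hp1.trans h
        rw [𝓛.X_norm (hX a) h2] at h1
        have h3 := 𝓛.Lam_inv a
        have h4 : 0 < ‖((𝓛.Λ a : Cˣ) : C)‖ := norm_pos_iff.2 (𝓛.Λ a).ne_zero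
        rw [inv_le_iff_one_le_mul₀ h4] at h3
        nlinarith
      have hnone' : ∀ x, Z.cls x ≠ none := by
        intro i
        by_cases hi : i = a
        · rw [hi]; exact hcls
        · exact hnone i (hg i hi)
      obtain ⟨j', hj', l', hl', hjl', hc'⟩ := coll Z.cls (Finset.univ.erase l)
        (by rw [Finset.card_erase_of_mem (Finset.mem_univ l)]; simp; omega)
        (fun x _ => hnone' x)
      have h1 := Finset.ne_of_mem_erase hj'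
      have h2 := Finset.ne_of_mem_erase hl'
      have hexc : ∀ m, m ≠ a → (∃ c, Z.cls m = some c ∧ Z.cls a = some c) → s₁ ≤ 2 := by
        intro m hma ⟨c, hcm', hca⟩
        by_contra hs₁
        obtain ⟨t, rfl⟩ : ∃ t, s₁ = t + 1 := ⟨s₁ - 1, by omega⟩
        obtain ⟨w, w', a', b', c', d', hdet, hrel, hw, hw'⟩ := class_rel Z hZ hcm' hca
        obtain ⟨y'', hy'', hxy''⟩ := hroot m hma
        have := 𝓛.exc_case hx hX hz hC heX hn hs hsmall hja hla hma hjl hy hy' hxy hxy' hxy''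
          (hY j (hg j hja)) (hY l (hg l hla)) (hY m (hg m hma)) hP₁.hA hP₁.hB hP₁.hAW hP₁.hBW
          hP₁.hε hG hdet hrel hw hw'
        omega
      by_cases hj'a : j' = a
      · subst hj'a
        obtain ⟨c, hc1, hc2⟩ := hc'
        exact hexc l' hjl'.symm ⟨c, hc2, hc1⟩
      · by_cases hl'a : l' = a
        · subst hl'a
          obtain ⟨c, hc1, hc2⟩ := hc'
          exact hexc j' hjl' ⟨c, hc1, hc2⟩
        · obtain ⟨A', B', g₂, s₂, ζ₂, ε₂, hP₂⟩ := hinfo j' l' (hg j' hj'a) (hg l' hl'a) hc'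
          have := (𝓛.no_wild2 hx (hY j (hg j hja)) (hY l (hg l hla)) (hY j' (hg j' hj'a))
            (hY l' (hg l' hl'a)) (hg j hja) (hg l hla) (hg j' hj'a) (hg l' hl'a) hjl hjl' (by
              rintro (⟨-, h⟩ | ⟨h, -⟩)
              · exact h2 h
              · exact h1 h) hP₁ hP₂).1
          omega

end Loc

end Pool.Agent.Y226.ZG
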