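import Pool.Agent.Y226.ZG.Biv
import Pool.Agent.Y226.ZG.Euler

/-!
# Places of function fields from Puiseux factorizations
-/

set_option autoImplicit false
set_option linter.unusedSectionVars false

open Polynomial

namespace Pool.Agent.Y226.ZG

section PFac

variable {A B : Type*} [CommRing A] [CommRing B]

/-- substitution of `z ^ N` -/
noncomputable def inn (N : ℕ) : A[X] →+* PowerSeries A :=
  eval₂RingHom PowerSeries.C (PowerSeries.X ^ N)

theorem inn_C (N : ℕ) (a : A) : inn N (C a) = PowerSeries.C a := by simp [inn]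

theorem inn_X (N : ℕ) : inn N (X : A[X]) = PowerSeries.X ^ N := by simp [inn]

/-- a factorization of `g (z ^ N, Y)` into linear factors, with invertible power series -/
def PFac (N : ℕ) (g : A[X][X]) (L : (PowerSeries A)ˣ) (ys : Multiset (PowerSeries A)ˣ) : Prop :=
  g.map (inn N) = C (L : PowerSeries A) *
    (ys.map fun y : (PowerSeries A)ˣ => X - C (y : PowerSeries A)).prod

theorem inn_map (N : ℕ) (χ : A →+* B) :
    (inn N).comp (mapRingHom χ) = (PowerSeries.map χ).comp (inn N) := by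
  ext a
  · simp [inn]
  · simp [inn]

theorem PFac.map {N : ℕ} {g : A[X][X]} {L : (PowerSeries A)ˣ} {ys : Multiset (PowerSeries A)ˣ}
    (h : PFac N g L ys) (χ : A →+* B) :
    PFac N (g.map (mapRingHom χ)) (Units.map (PowerSeries.map χ).toMonoidHom L)
      (ys.map (Units.map (PowerSeries.map χ).toMonoidHom)) := by
  unfold PFac at h ⊢
  rw [Polynomial.map_map, inn_map, ← Polynomial.map_map, h, Polynomial.map_mul, map_C,
    Polynomial.map_multiset_prod, Multiset.map_map, Multiset.map_map]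
  congr 1
  refine congrArg Multiset.prod (Multiset.map_congr rfl fun y _ => ?_)
  simp

end PFac

theorem inn_injective {K : Type*} [Field K] {N : ℕ} (hN : 0 < N) :
    Function.Injective (inn N : K[X] →+* PowerSeries K) := by
  rw [injective_iff_map_eq_zero]
  intro f hf
  by_contra hne
  have h1 : PowerSeries.coeff (N * f.natDegree) (inn N f) = f.leadingCoeff := by
    unfold inn
    rw [coe_eval₂RingHom, eval₂_eq_sum_range, map_sum, Finset.sum_eq_single f.natDegree]
    · rw [← pow_mul, PowerSeries.coeff_C_mul, PowerSeries.coeff_X_pow, if_pos rfl, mul_one]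
      rfl
    · intro i _ hi
      rw [← pow_mul, PowerSeries.coeff_C_mul, PowerSeries.coeff_X_pow, if_neg, mul_zero]
      intro h2
      exact hi (Nat.eq_of_mul_eq_mul_left hN h2).symm
    · intro h
      exact absurd (Finset.mem_range.2 (Nat.lt_succ_self _)) h
  rw [hf, map_zero] at h1
  exact hne (leadingCoeff_eq_zero.1 h1.symm)

theorem PFac.ne_zero {K : Type*} [Field K] {N : ℕ} {g : K[X][X]} {L : (PowerSeries K)ˣ}
    {ys : Multiset (PowerSeries K)ˣ} (h : PFac N g L ys) : g ≠ 0 := by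
  rintro rfl
  unfold PFac at h
  rw [Polynomial.map_zero] at h
  have h2 : ((ys.map fun y : (PowerSeries K)ˣ => X - C (y : PowerSeries K)).prod).Monic := by
    apply monic_multiset_prod_of_monic
    intro y _
    exact monic_X_sub_C _
  rcases mul_eq_zero.1 h.symm with h3 | h3
  · rw [C_eq_zero] at h3
    exact L.ne_zero h3
  · exact h2.ne_zero h3

/-- a homomorphism to a domain kills one of the factors -/
theorem PFac.root {K : Type*} [CommRing K] {N : ℕ} {g : K[X][X]} {L : (PowerSeries K)ˣ}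
    {ys : Multiset (PowerSeries K)ˣ} (h : PFac N g L ys) {D : Type*} [CommRing D] [IsDomain D]
    (θ : PowerSeries K →+* D) {w : D} (hw : g.eval₂ (θ.comp (inn N)) w = 0) :
    ∃ y ∈ ys, w = θ (y : PowerSeries K) := by
  unfold PFac at h
  rw [← eval₂_map, h, eval₂_mul, eval₂_C] at hw
  rcases mul_eq_zero.1 hw with h3 | h3
  · exfalso
    exact (L.isUnit.map θ).ne_zero h3
  · rw [← coe_eval₂RingHom, map_multiset_prod, Multiset.prod_eq_zero_iff, Multiset.map_map,
      Multiset.mem_map] at h3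
    obtain ⟨y, hy, hy'⟩ := h3
    refine ⟨y, hy, ?_⟩
    simp only [Function.comp_apply, coe_eval₂RingHom, eval₂_sub, eval₂_X, eval₂_C] at hy'
    exact sub_eq_zero.1 hy'

theorem place_aux {K 𝔽 Ω : Type} [Field K] [Field 𝔽] [Field Ω] [IsAlgClosed Ω] [Algebra K 𝔽]
    {ι : Type} (x : ι → 𝔽) (a : ι) (htr : Transcendental K (x a))
    (hgen : ∀ F' : Subfield 𝔽, (∀ c : K, algebraMap K 𝔽 c ∈ F') → (∀ i, x i ∈ F') → F' = ⊤)
    {N : ℕ} (hN : 0 < N) (g : ι → K[X][X]) (L : ι → (PowerSeries K)ˣ)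
    (ys : ι → Multiset (PowerSeries K)ˣ) (ϑ : PowerSeries K →+* Ω) (hϑ : Function.Injective ϑ)
    (hg : ∀ j, j ≠ a → E2 (algebraMap K 𝔽) (x a) (x j) (g j) = 0)
    (hP : ∀ j, j ≠ a → PFac N (g j) (L j) (ys j)) :
    ∃ σ : 𝔽 →+* Ω, (∀ c : K, σ (algebraMap K 𝔽 c) = ϑ (PowerSeries.C c)) ∧
      σ (x a) = ϑ (PowerSeries.X ^ N) ∧
      ∀ j, j ≠ a → ∃ y ∈ ys j, σ (x j) = ϑ (y : PowerSeries K) := by
  classical
  let α : K[X] →+* 𝔽 := eval₂RingHom (algebraMap K 𝔽) (x a)
  let β : K[X] →+* Ω := ϑ.comp (inn N)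
  have hα : Function.Injective α := by
    have := transcendental_iff_injective.1 htr
    intro u v huv
    exact this huv
  have hβ : Function.Injective β := hϑ.comp (inn_injective hN)
  letI algF : Algebra K[X] 𝔽 := α.toAlgebra
  letI algΩ : Algebra K[X] Ω := β.toAlgebra
  have hF : (algebraMap K[X] 𝔽) = α := rfl
  have hΩ : (algebraMap K[X] Ω) = β := rfl
  haveI : FaithfulSMul K[X] 𝔽 := (faithfulSMul_iff_algebraMap_injective K[X] 𝔽).2 hα
  haveI : Module.IsTorsionFree K[X] 𝔽 := Module.isTorsionFree_iff_algebraMap_injective.2 hα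
  haveI : Module.IsTorsionFree K[X] Ω := Module.isTorsionFree_iff_algebraMap_injective.2 hβ
  -- algebraicity
  have hroot : ∀ j, j ≠ a → aeval (x j) (g j) = 0 := fun j hj => hg j hj
  have halg : ∀ f : 𝔽, IsAlgebraic K[X] f := by
    let F' : Subfield 𝔽 :=
      { carrier := {f | IsAlgebraic K[X] f}
        mul_mem' := fun {a b} ha hb => IsAlgebraic.mul ha hb
        one_mem' := isAlgebraic_one
        add_mem' := fun {a b} ha hb => IsAlgebraic.add ha hb
        zero_mem' := isAlgebraic_zero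
        neg_mem' := fun {a} ha => IsAlgebraic.neg ha
        inv_mem' := fun a ha => IsAlgebraic.inv ha }
    have h1 : F' = ⊤ := by
      apply hgen
      · intro c
        show IsAlgebraic K[X] (algebraMap K 𝔽 c)
        have : algebraMap K 𝔽 c = algebraMap K[X] 𝔽 (C c) := by
          rw [hF]; simp [α]
        rw [this]
        exact isAlgebraic_algebraMap _
      · intro i
        show IsAlgebraic K[X] (x i)
        by_cases hi : i = a
        · have : x i = algebraMap K[X] 𝔽 X := by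
            rw [hF, hi]; simp [α]
          rw [this]
          exact isAlgebraic_algebraMap _
        · exact ⟨g i, (hP i hi).ne_zero, hroot i hi⟩
    intro f
    have h2 : f ∈ F' := by rw [h1]; trivial
    exact h2
  haveI : Algebra.IsAlgebraic K[X] 𝔽 := ⟨halg⟩
  let σ : 𝔽 →ₐ[K[X]] Ω := IsAlgClosed.lift
  have hσ : ∀ f : K[X], σ (α f) = β f := fun f => σ.commutes f
  refine ⟨σ.toRingHom, ?_, ?_, ?_⟩
  · intro c
    have h1 := hσ (C c)
    have h2 : α (C c) = algebraMap K 𝔽 c := by simp [α]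
    have h3 : β (C c) = ϑ (PowerSeries.C c) := by
      show ϑ (inn N (C c)) = _
      rw [inn_C]
    rw [h2, h3] at h1
    exact h1
  · have h1 := hσ X
    have h2 : α X = x a := by simp [α]
    have h3 : β X = ϑ (PowerSeries.X ^ N) := by
      show ϑ (inn N X) = _
      rw [inn_X]
    rw [h2, h3] at h1
    exact h1
  · intro j hj
    have h1 : aeval (σ (x j)) (g j) = 0 := by
      rw [aeval_algHom_apply, hroot j hj, map_zero]
    exact (hP j hj).root ϑ h1

theorem exists_place {K 𝔽 : Type} [Field K] [Field 𝔽] [Algebra K 𝔽] {ι : Type} (x : ι → 𝔽) (a : ι)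
    (htr : Transcendental K (x a))
    (hgen : ∀ F' : Subfield 𝔽, (∀ c : K, algebraMap K 𝔽 c ∈ F') → (∀ i, x i ∈ F') → F' = ⊤)
    {N : ℕ} (hN : 0 < N) (g : ι → K[X][X]) (L : ι → (PowerSeries K)ˣ)
    (ys : ι → Multiset (PowerSeries K)ˣ)
    (hg : ∀ j, j ≠ a → E2 (algebraMap K 𝔽) (x a) (x j) (g j) = 0)
    (hP : ∀ j, j ≠ a → PFac N (g j) (L j) (ys j)) :
    ∃ (Ω : Type) (_ : Field Ω) (σ : 𝔽 →+* Ω) (τ : LS K →+* Ω),
      (∀ c : K, σ (algebraMap K 𝔽 c) = τ (HahnSeries.C c)) ∧
      σ (x a) = τ (HahnSeries.single (N : ℤ) 1) ∧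
      ∀ j, j ≠ a → ∃ y ∈ ys j, σ (x j) = τ (HahnSeries.ofPowerSeries ℤ K (y : PowerSeries K)) := by
  let τ : LS K →+* AlgebraicClosure (LS K) := algebraMap (LS K) (AlgebraicClosure (LS K))
  obtain ⟨σ, h1, h2, h3⟩ := place_aux x a htr hgen hN g L ys
    (τ.comp (HahnSeries.ofPowerSeries ℤ K))
    (τ.injective.comp HahnSeries.ofPowerSeries_injective) hg hP
  refine ⟨AlgebraicClosure (LS K), inferInstance, σ, τ, fun c => ?_, ?_, ?_⟩
  · rw [h1 c, RingHom.comp_apply, HahnSeries.ofPowerSeries_C]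
  · rw [h2, RingHom.comp_apply, HahnSeries.ofPowerSeries_X_pow]
  · intro j hj
    obtain ⟨y, hy, hy'⟩ := h3 j hj
    exact ⟨y, hy, hy'⟩

end Pool.Agent.Y226.ZG
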