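import Pool.Agent.Y226.ZG.Place
import Pool.Agent.Helper165.P1.NP

/-!
# Puiseux factorizations over algebraically closed fields of characteristic zero
-/

set_option autoImplicit false
set_option linter.unusedSectionVars false

open Polynomial

namespace Pool.Agent.Y226.ZG

open Pool.Agent.Helper165.P1

section

variable {K : Type} [Field K]

theorem constantCoeff_inn {A : Type*} [CommRing A] {N : ℕ} (hN : 0 < N) (f : A[X]) :
    PowerSeries.constantCoeff (R := A) (inn N f) = f.coeff 0 := by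
  have h : (PowerSeries.constantCoeff (R := A)).comp (inn N) = Polynomial.constantCoeff := by
    apply Polynomial.ringHom_ext
    · intro a
      simp [inn]
    · simp [inn, hN.ne']
  have := congrArg (fun φ : A[X] →+* A => φ f) h
  simpa using this

theorem root_aux {G : (PowerSeries K)[X]} (hL : IsUnit G.leadingCoeff) {ρ : LS K}
    (hρ : G.eval₂ (HahnSeries.ofPowerSeries ℤ K) ρ = 0) :
    ∃ y : PowerSeries K, HahnSeries.ofPowerSeries ℤ K y = ρ := by
  obtain ⟨L, hL⟩ := hL
  have hint : IsIntegral (PowerSeries K) (ρ : LaurentSeries K) := by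
    refine ⟨C ((L⁻¹ : (PowerSeries K)ˣ) : PowerSeries K) * G, ?_, ?_⟩
    · apply monic_C_mul_of_mul_leadingCoeff_eq_one
      rw [← hL]
      simp
    · have : (algebraMap (PowerSeries K) (LaurentSeries K)) = HahnSeries.ofPowerSeries ℤ K := rfl
      rw [this, eval₂_mul, hρ, mul_zero]
  obtain ⟨y, hy⟩ := IsIntegrallyClosed.isIntegral_iff.1 hint
  exact ⟨y, hy⟩

theorem root_unit {G : (PowerSeries K)[X]} (hL : IsUnit G.leadingCoeff) (h0 : IsUnit (G.coeff 0))
    {ρ : LS K} (hρ : G.eval₂ (HahnSeries.ofPowerSeries ℤ K) ρ = 0) :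
    ∃ y : (PowerSeries K)ˣ, HahnSeries.ofPowerSeries ℤ K (y : PowerSeries K) = ρ := by
  have hinj : Function.Injective (HahnSeries.ofPowerSeries ℤ K) :=
    HahnSeries.ofPowerSeries_injective
  have hρ0 : ρ ≠ 0 := by
    rintro rfl
    rw [eval₂_at_zero, map_eq_zero_iff _ hinj] at hρ
    exact h0.ne_zero hρ
  obtain ⟨y, hy⟩ := root_aux hL hρ
  letI : Invertible ρ := invertibleOfNonzero hρ0
  have hr : (reverse G).eval₂ (HahnSeries.ofPowerSeries ℤ K) (⅟ρ) = 0 :=
    (eval₂_reverse_eq_zero_iff _ _ _).2 hρ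
  have hlr : IsUnit (reverse G).leadingCoeff := by
    rw [reverse_leadingCoeff, trailingCoeff, natTrailingDegree_eq_zero.2 (Or.inr h0.ne_zero)]
    exact h0
  obtain ⟨y', hy'⟩ := root_aux hlr hr
  have hmul : y * y' = 1 := by
    apply hinj
    rw [map_mul, hy, hy', map_one]
    exact mul_invOf_self ρ
  exact ⟨⟨y, y', hmul, by rw [mul_comm]; exact hmul⟩, hy⟩

/-- the leading and the constant coefficients do not vanish at the origin -/
def Cor2 (g : K[X][X]) : Prop := g.leadingCoeff.coeff 0 ≠ 0 ∧ (g.coeff 0).coeff 0 ≠ 0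

theorem Cor2.ne_zero {g : K[X][X]} (h : Cor2 g) : g ≠ 0 := by
  rintro rfl
  exact h.1 (by simp)

theorem exists_PFac [IsAlgClosed K] [CharZero K] {ι : Type} [Fintype ι] (g : ι → K[X][X])
    (h : ∀ i, Cor2 (g i)) :
    ∃ N, 0 < N ∧ ∀ i, ∃ (L : (PowerSeries K)ˣ) (ys : Multiset (PowerSeries K)ˣ),
      PFac N (g i) L ys := by
  classical
  set oP := HahnSeries.ofPowerSeries ℤ K with hoP
  have hinj : Function.Injective oP := HahnSeries.ofPowerSeries_injective
  let j₁ : K[X] →+* LS K := oP.comp (inn 1)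
  obtain ⟨m, hm, hs⟩ := NP.NP_splits (∏ i, (g i).map j₁)
  have hcomp : (NP.expandHom m hm).comp j₁ = oP.comp (inn m) := by
    apply Polynomial.ringHom_ext
    · intro a
      show NP.expandHom m hm (oP (inn 1 (C a))) = oP (inn m (C a))
      rw [inn_C, inn_C, hoP, HahnSeries.ofPowerSeries_C, NP.expandHom_C]
    · show NP.expandHom m hm (oP (inn 1 X)) = oP (inn m X)
      rw [inn_X, inn_X, hoP, HahnSeries.ofPowerSeries_X_pow, HahnSeries.ofPowerSeries_X_pow,
        NP.expandHom_single]
      simp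
  rw [Polynomial.map_prod] at hs
  simp only [Polynomial.map_map, hcomp] at hs
  have hinn : Function.Injective (oP.comp (inn m) : K[X] →+* LS K) :=
    hinj.comp (inn_injective hm)
  have hne : ∀ i ∈ Finset.univ, (g i).map (oP.comp (inn m)) ≠ 0 := by
    intro i _
    exact (Polynomial.map_ne_zero_iff hinn).2 (h i).ne_zero
  refine ⟨m, hm, fun i => ?_⟩
  have hsi := (splits_prod_iff hne).1 hs i (Finset.mem_univ i)
  rw [← Polynomial.map_map] at hsi
  set G := (g i).map (inn m) with hG
  have hlead : IsUnit G.leadingCoeff := by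
    rw [hG, leadingCoeff_map_of_injective (inn_injective hm), PowerSeries.isUnit_iff_constantCoeff,
      constantCoeff_inn hm]
    exact isUnit_iff_ne_zero.2 (h i).1
  have hcoeff : IsUnit (G.coeff 0) := by
    rw [hG, coeff_map, PowerSeries.isUnit_iff_constantCoeff, constantCoeff_inn hm]
    exact isUnit_iff_ne_zero.2 (h i).2
  obtain ⟨L, hL⟩ := hlead
  have hroots : ∀ ρ ∈ (G.map oP).roots, ∃ y : (PowerSeries K)ˣ, oP (y : PowerSeries K) = ρ := by
    intro ρ hρ
    refine root_unit ⟨L, hL⟩ hcoeff ?_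
    have := isRoot_of_mem_roots hρ
    rwa [IsRoot, eval_map] at this
  let f : LS K → (PowerSeries K)ˣ := fun ρ =>
    if hh : ∃ y : (PowerSeries K)ˣ, oP (y : PowerSeries K) = ρ then hh.choose else 1
  have hf : ∀ ρ ∈ (G.map oP).roots, oP (f ρ : PowerSeries K) = ρ := by
    intro ρ hρ
    have hh := hroots ρ hρ
    show oP ((if hh : ∃ y : (PowerSeries K)ˣ, oP (y : PowerSeries K) = ρ then hh.choose else 1 :
      (PowerSeries K)ˣ) : PowerSeries K) = ρ
    rw [dif_pos hh]
    exact hh.choose_spec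
  refine ⟨L, (G.map oP).roots.map f, ?_⟩
  unfold PFac
  rw [← hG]
  apply Polynomial.map_injective oP hinj
  rw [Polynomial.map_mul, Polynomial.map_C, Polynomial.map_multiset_prod, Multiset.map_map,
    Multiset.map_map, hL]
  conv_lhs => rw [hsi.eq_prod_roots]
  rw [leadingCoeff_map_of_injective hinj]
  congr 1
  refine congrArg Multiset.prod (Multiset.map_congr rfl fun ρ hρ => ?_)
  simp [hf ρ hρ]

end

/-! ### Large subrings -/

/-- a property of all sufficiently large subrings -/
def Lrg (K : Type*) [Field K] (P : Subring K → Prop) : Prop :=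
  ∃ S₀ : Finset K, ∀ R : Subring K, (∀ s ∈ S₀, s ∈ R) → P R

section Lrg

variable {K : Type*} [Field K]

theorem Lrg.mono {P Q : Subring K → Prop} (h : Lrg K P) (hPQ : ∀ R, P R → Q R) : Lrg K Q := by
  obtain ⟨S, hS⟩ := h
  exact ⟨S, fun R hR => hPQ R (hS R hR)⟩

theorem Lrg.and {P Q : Subring K → Prop} (h : Lrg K P) (h' : Lrg K Q) :
    Lrg K (fun R => P R ∧ Q R) := by
  classical
  obtain ⟨S, hS⟩ := h
  obtain ⟨S', hS'⟩ := h'
  exact ⟨S ∪ S', fun R hR => ⟨hS R fun s hs => hR s (Finset.mem_union_left _ hs),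
    hS' R fun s hs => hR s (Finset.mem_union_right _ hs)⟩⟩

theorem Lrg.mem (x : K) : Lrg K (fun R => x ∈ R) :=
  ⟨{x}, fun R hR => hR x (Finset.mem_singleton_self x)⟩

theorem Lrg.of_forall {P : Subring K → Prop} (h : ∀ R, P R) : Lrg K P := ⟨∅, fun R _ => h R⟩

theorem Lrg.all {ι : Type*} [Finite ι] {P : ι → Subring K → Prop} (h : ∀ i, Lrg K (P i)) :
    Lrg K (fun R => ∀ i, P i R) := by
  classical
  haveI := Fintype.ofFinite ι
  choose S hS using h
  refine ⟨Finset.univ.biUnion S, fun R hR i => hS i R fun s hs => hR s ?_⟩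
  exact Finset.mem_biUnion.2 ⟨i, Finset.mem_univ i, hs⟩

theorem Lrg.finset {ι : Type*} (s : Finset ι) {P : ι → Subring K → Prop}
    (h : ∀ i ∈ s, Lrg K (P i)) : Lrg K (fun R => ∀ i ∈ s, P i R) := by
  have := Lrg.all (ι := {i // i ∈ s}) (P := fun i => P i.1) (fun i => h i.1 i.2)
  exact this.mono fun R hR i hi => hR ⟨i, hi⟩

theorem Lrg.multiset {ι : Type*} (s : Multiset ι) {P : ι → Subring K → Prop}
    (h : ∀ i ∈ s, Lrg K (P i)) : Lrg K (fun R => ∀ i ∈ s, P i R) := by
  classical
  have := Lrg.finset s.toFinset (P := P) (fun i hi => h i (Multiset.mem_toFinset.1 hi))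
  exact this.mono fun R hR i hi => hR i (Multiset.mem_toFinset.2 hi)

/-- power series with coefficients in a subring -/
noncomputable def PSR (R : Subring K) : Subring (PowerSeries K) :=
  (PowerSeries.map R.subtype).range

theorem mem_PSR {R : Subring K} {F : PowerSeries K} :
    F ∈ PSR R ↔ ∀ n, PowerSeries.coeff n F ∈ R := by
  constructor
  · rintro ⟨G, rfl⟩ n
    rw [PowerSeries.coeff_map]
    exact (PowerSeries.coeff n G).2
  · intro h
    refine ⟨PowerSeries.mk fun n => ⟨PowerSeries.coeff n F, h n⟩, ?_⟩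
    ext n
    rw [PowerSeries.coeff_map, PowerSeries.coeff_mk]
    rfl

theorem C_mem_PSR {R : Subring K} {a : K} (h : a ∈ R) : PowerSeries.C a ∈ PSR R := by
  rw [mem_PSR]
  intro n
  rw [PowerSeries.coeff_C]
  split_ifs
  · exact h
  · exact zero_mem _

theorem X_mem_PSR {R : Subring K} : (PowerSeries.X : PowerSeries K) ∈ PSR R :=
  ⟨PowerSeries.X, by simp⟩

theorem eval_mem_PSR {R : Subring K} {G : (PowerSeries K)[X]} (hG : ∀ i, G.coeff i ∈ PSR R)
    {y : PowerSeries K} (hy : y ∈ PSR R) : G.eval y ∈ PSR R := by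
  rw [eval_eq_sum_range]
  exact sum_mem fun i _ => mul_mem (hG i) (pow_mem hy i)

theorem inn_mem_PSR {R : Subring K} {f : K[X]} (hf : ∀ i, f.coeff i ∈ R) (N : ℕ) :
    inn N f ∈ PSR R := by
  unfold inn
  rw [coe_eval₂RingHom, eval₂_eq_sum_range]
  exact sum_mem fun i _ => mul_mem (C_mem_PSR (hf i)) (pow_mem (pow_mem X_mem_PSR N) i)

/-- coefficients of a bivariate polynomial -/
theorem Lrg.coeffs (g : K[X][X]) : Lrg K (fun R => ∀ i j, (g.coeff i).coeff j ∈ R) := by
  classical
  refine ⟨g.support.biUnion fun i => (g.coeff i).support.image fun j => (g.coeff i).coeff j, ?_⟩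
  intro R hR i j
  by_cases hi : g.coeff i = 0
  · rw [hi, coeff_zero]; exact zero_mem _
  · by_cases hj : (g.coeff i).coeff j = 0
    · rw [hj]; exact zero_mem _
    · apply hR
      rw [Finset.mem_biUnion]
      exact ⟨i, mem_support_iff.2 hi, Finset.mem_image.2 ⟨j, mem_support_iff.2 hj, rfl⟩⟩

/-- Eisenstein's theorem -/
theorem eisenstein {G : (PowerSeries K)[X]} {y : PowerSeries K} (hy : G.eval y = 0)
    (hG' : G.derivative.eval y ≠ 0) :
    Lrg K (fun R => (∀ i, G.coeff i ∈ PSR R) → y ∈ PSR R) := by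
  classical
  obtain ⟨u, hu⟩ := PowerSeries.X_pow_order_dvd (φ := G.derivative.eval y)
  set d := (G.derivative.eval y).order.toNat with hd
  have hu0 : PowerSeries.coeff 0 u ≠ 0 := by
    intro h0
    have h1 := PowerSeries.coeff_order (φ := G.derivative.eval y) hG'
    rw [← hd, hu, PowerSeries.coeff_X_pow_mul', if_pos le_rfl, Nat.sub_self] at h1
    exact h1 h0
  refine ⟨insert (PowerSeries.coeff 0 u)⁻¹ ((Finset.range (d + 1)).image fun i =>
    PowerSeries.coeff i y), ?_⟩
  intro R hR hG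
  have hinv : (PowerSeries.coeff 0 u)⁻¹ ∈ R := hR _ (Finset.mem_insert_self _ _)
  have hlow : ∀ i, i ≤ d → PowerSeries.coeff i y ∈ R := fun i hi =>
    hR _ (Finset.mem_insert_of_mem (Finset.mem_image.2 ⟨i, Finset.mem_range.2 (by omega), rfl⟩))
  rw [mem_PSR]
  intro n
  induction n using Nat.strong_induction_on with
  | _ n ih =>
  by_cases hn : n ≤ d
  · exact hlow n hn
  push Not at hn
  set P : PowerSeries K := ((PowerSeries.trunc n y : K[X]) : PowerSeries K) with hP
  have hPc : ∀ m, PowerSeries.coeff m P = if m < n then PowerSeries.coeff m y else 0 := by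
    intro m
    rw [hP, Polynomial.coeff_coe, PowerSeries.coeff_trunc]
  have hPR : P ∈ PSR R := by
    rw [mem_PSR]
    intro m
    rw [hPc]
    split_ifs with hm
    · exact ih m hm
    · exact zero_mem _
  obtain ⟨w, hw⟩ : PowerSeries.X ^ n ∣ y - P := by
    rw [PowerSeries.X_pow_dvd_iff]
    intro m hm
    rw [map_sub, hPc, if_pos hm, sub_self]
  have hw0 : PowerSeries.coeff 0 w = PowerSeries.coeff n y := by
    have h1 := congrArg (PowerSeries.coeff n) hw
    rw [map_sub, hPc, if_neg (lt_irrefl n), sub_zero, PowerSeries.coeff_X_pow_mul',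
      if_pos le_rfl, Nat.sub_self] at h1
    exact h1.symm
  obtain ⟨k, hk⟩ := binomExpansion G P (y - P)
  rw [add_sub_cancel, hy] at hk
  obtain ⟨k', hk'⟩ := G.derivative.evalSubFactor y P
  have e1 : G.eval P = -(PowerSeries.X ^ (n + d) * (u * w)) -
      PowerSeries.X ^ (n + n) * ((k - k') * w ^ 2) := by
    have h2 : G.derivative.eval P = PowerSeries.X ^ d * u - k' * (y - P) := by
      rw [← hu, ← hk']; ring
    rw [h2, hw] at hk
    rw [pow_add, pow_add]
    linear_combination -hk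
  have hmul0 : PowerSeries.coeff 0 (u * w) = PowerSeries.coeff 0 u * PowerSeries.coeff 0 w := by
    simp
  have e2 := congrArg (PowerSeries.coeff (n + d)) e1
  rw [map_sub, map_neg, PowerSeries.coeff_X_pow_mul', if_pos le_rfl, Nat.sub_self,
    PowerSeries.coeff_X_pow_mul', if_neg (by omega), sub_zero, hmul0] at e2
  have e3 : PowerSeries.coeff n y = -(PowerSeries.coeff (n + d) (G.eval P) *
      (PowerSeries.coeff 0 u)⁻¹) := by
    rw [e2, hw0]
    field_simp
  rw [e3]
  exact neg_mem (mul_mem (mem_PSR.1 (eval_mem_PSR hG hPR) _) hinv)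

end Lrg

end Pool.Agent.Y226.ZG
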